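import Pool.Agent.Helper487.ECM.Weier

/-! The addition theorem for the Weierstrass function. -/

open Set Filter Topology Asymptotics
open scoped Nat PeriodPair

namespace Pool.Agent.Helper487.ECM

variable (L : PeriodPair)

/-- auxiliary quotient, equal to `℘(c)` along `(c + w, w)` -/
noncomputable def addq (c w : ℂ) : ℂ :=
  (4 * wp L 0 (c + w) * wp L 0 w * (wp L 0 (c + w) + wp L 0 w) -
    L.g₂ * (wp L 0 (c + w) + wp L 0 w) - 2 * L.g₃ + 2 * wp L 1 (c + w) * wp L 1 w) /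
    (4 * (wp L 0 (c + w) - wp L 0 w) ^ 2)

lemma hasDerivAt_wp_shift (k : ℕ) {c w : ℂ} (h : c + w ∈ Dom L) :
    HasDerivAt (fun w => wp L k (c + w)) (wp L (k + 1) (c + w)) w :=
  (hasDerivAt_wp L k h).comp_const_add c w

lemma addq_deriv {c w : ℂ} (h1 : w ∈ Dom L) (h2 : c + w ∈ Dom L) (h3 : wp L 0 (c + w) ≠ wp L 0 w) :
    HasDerivAt (addq L c) 0 w := by
  have hX := hasDerivAt_wp_shift L 0 h2
  have hY := hasDerivAt_wp_shift L 1 h2
  have hx := hasDerivAt_wp L 0 h1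
  have hy := hasDerivAt_wp L 1 h1
  have hN := ((((hX.const_mul 4).mul hx).mul (hX.add hx)).sub ((hX.add hx).const_mul L.g₂)).sub_const
    (2 * L.g₃) |>.add ((hY.const_mul 2).mul hy)
  have hD := ((hX.sub hx).fun_pow 2).const_mul 4
  have hD0 : 4 * (wp L 0 (c + w) - wp L 0 w) ^ 2 ≠ 0 :=
    mul_ne_zero (by norm_num : (4:ℂ) ≠ 0) (pow_ne_zero 2 (sub_ne_zero.mpr h3))
  have hq := hN.div hD hD0
  refine HasDerivAt.congr_deriv (f := addq L c) (hq.congr_of_eventuallyEq ?_) ?_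
  · exact Eventually.of_forall fun z => rfl
  · rw [div_eq_zero_iff]
    left
    have e1 := wp_one_sq L h1
    have e2 := wp_one_sq L h2
    have e3 := wp_two L h1
    have e4 := wp_two L h2
    simp only [Pi.sub_apply, Pi.add_apply, Pi.mul_apply, zero_add, Nat.cast_ofNat, Nat.add_one_sub_one, pow_one]
    norm_num
    rw [e3, e4]
    linear_combination (4 * (wp L 0 (c + w) - wp L 0 w)) * ((-4 * wp L 1 w) * e2 + (4 * wp L 1 (c + w)) * e1)

lemma addq_tendsto {c : ℂ} (hc : c ∈ Dom L) :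
    Tendsto (addq L c) (𝓝[≠] (0:ℂ)) (𝓝 (wp L 0 c)) := by
  have hX : Tendsto (fun w => wp L 0 (c + w)) (𝓝[≠] (0:ℂ)) (𝓝 (wp L 0 c)) := by
    have h1 : ContinuousAt (fun w => wp L 0 (c + w)) 0 := by
      have := (analyticAt_wp L 0 (z := c + 0) (by simpa using hc)).continuousAt
      exact ContinuousAt.comp (f := fun w => c + w) this (by fun_prop)
    have := h1.tendsto
    simp only [add_zero] at this
    exact this.mono_left nhdsWithin_le_nhds
  have hY : Tendsto (fun w => wp L 1 (c + w)) (𝓝[≠] (0:ℂ)) (𝓝 (wp L 1 c)) := by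
    have h1 : ContinuousAt (fun w => wp L 1 (c + w)) 0 := by
      have := (analyticAt_wp L 1 (z := c + 0) (by simpa using hc)).continuousAt
      exact ContinuousAt.comp (f := fun w => c + w) this (by fun_prop)
    have := h1.tendsto
    simp only [add_zero] at this
    exact this.mono_left nhdsWithin_le_nhds
  have hw : Tendsto (fun w : ℂ => w) (𝓝[≠] (0:ℂ)) (𝓝 0) := tendsto_id.mono_left nhdsWithin_le_nhds
  have hx : Tendsto (fun w => w ^ 2 * wp L 0 w) (𝓝[≠] (0:ℂ)) (𝓝 1) := tendsto_norm_wp_zero L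
  have hy : Tendsto (fun w => w ^ 3 * wp L 1 w) (𝓝[≠] (0:ℂ)) (𝓝 (-2)) := by
    have := (top_wp L 1).tendsto
    simpa using this
  have hnum : Tendsto (fun w => 4 * wp L 0 (c + w) * (w ^ 2 * wp L 0 w) *
      (w ^ 2 * wp L 0 (c + w) + w ^ 2 * wp L 0 w) - L.g₂ * (w ^ 4 * wp L 0 (c + w) + w ^ 2 * (w ^ 2 * wp L 0 w))
      - 2 * L.g₃ * w ^ 4 + 2 * wp L 1 (c + w) * (w * (w ^ 3 * wp L 1 w))) (𝓝[≠] (0:ℂ))
      (𝓝 (4 * wp L 0 c * 1 * (0 ^ 2 * wp L 0 c + 1) - L.g₂ * (0 ^ 4 * wp L 0 c + 0 ^ 2 * 1)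
      - 2 * L.g₃ * 0 ^ 4 + 2 * wp L 1 c * (0 * (-2)))) := by
    exact ((((hX.const_mul 4).mul hx).mul (((hw.pow 2).mul hX).add hx)).sub
      ((((hw.pow 4).mul hX).add ((hw.pow 2).mul hx)).const_mul L.g₂)).sub
      ((hw.pow 4).const_mul (2 * L.g₃)) |>.add ((hY.const_mul 2).mul (hw.mul hy))
  have hden : Tendsto (fun w => 4 * (w ^ 2 * wp L 0 (c + w) - w ^ 2 * wp L 0 w) ^ 2) (𝓝[≠] (0:ℂ))
      (𝓝 (4 * (0 ^ 2 * wp L 0 c - 1) ^ 2)) :=
    ((((hw.pow 2).mul hX).sub hx).pow 2).const_mul 4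
  have hq := hnum.div hden (by norm_num)
  have hval : (4 * wp L 0 c * 1 * (0 ^ 2 * wp L 0 c + 1) - L.g₂ * (0 ^ 4 * wp L 0 c + 0 ^ 2 * 1)
      - 2 * L.g₃ * 0 ^ 4 + 2 * wp L 1 c * (0 * (-2))) / (4 * (0 ^ 2 * wp L 0 c - 1) ^ 2) = wp L 0 c := by
    norm_num
  rw [hval] at hq
  refine hq.congr' ?_
  filter_upwards [self_mem_nhdsWithin] with w hw0
  have hw0' : w ≠ 0 := hw0
  simp only [Pi.div_apply]
  unfold addq
  rw [← mul_div_mul_left _ (4 * (wp L 0 (c + w) - wp L 0 w) ^ 2) (pow_ne_zero 4 hw0')]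
  congr 1 <;> ring

/-- near zero, `℘(c + w) ≠ ℘(w)` -/
lemma eventually_wp_ne {c : ℂ} (hc : c ∈ Dom L) : ∀ᶠ w in 𝓝[≠] (0:ℂ), wp L 0 (c + w) ≠ wp L 0 w := by
  have hX : Tendsto (fun w => w ^ 2 * wp L 0 (c + w)) (𝓝[≠] (0:ℂ)) (𝓝 0) := by
    have h1 : ContinuousAt (fun w => w ^ 2 * wp L 0 (c + w)) 0 := by
      have := (analyticAt_wp L 0 (z := c + 0) (by simpa using hc)).continuousAt
      have h2 : ContinuousAt (fun w => wp L 0 (c + w)) 0 :=
        ContinuousAt.comp (f := fun w => c + w) this (by fun_prop)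
      exact (continuousAt_id.pow 2).mul h2
    have := h1.tendsto
    simp only [add_zero, ne_eq, OfNat.ofNat_ne_zero, not_false_eq_true, zero_pow, zero_mul] at this
    exact this.mono_left nhdsWithin_le_nhds
  have hsub := (tendsto_norm_wp_zero L).sub hX
  rw [sub_zero] at hsub
  have := hsub.eventually_ne one_ne_zero
  filter_upwards [this] with w hw heq
  apply hw
  rw [heq]; ring

lemma shift_mem_eventually {c : ℂ} (hc : c ∈ Dom L) : ∀ᶠ w in 𝓝 (0:ℂ), c + w ∈ Dom L := by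
  have h : ContinuousAt (fun w : ℂ => c + w) 0 := by fun_prop
  exact h.preimage_mem_nhds ((isOpen_Dom L).mem_nhds (by simpa using hc))

lemma addq_eventually_eq {c : ℂ} (hc : c ∈ Dom L) :
    ∀ᶠ w in 𝓝[≠] (0:ℂ), addq L c w = wp L 0 c := by
  have h := (eventually_wp_ne L hc).and ((eventually_Dom L).and
    (mem_nhdsWithin_of_mem_nhds (shift_mem_eventually L hc)))
  rw [eventually_nhdsWithin_iff, Metric.eventually_nhds_iff] at h
  obtain ⟨r, hr, hball⟩ := h
  have hmem : ∀ᶠ w in 𝓝[≠] (0:ℂ), w ∈ Metric.ball (0:ℂ) r ∧ w ≠ 0 := by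
    filter_upwards [mem_nhdsWithin_of_mem_nhds (Metric.ball_mem_nhds (0:ℂ) hr), self_mem_nhdsWithin]
      with w hw hw0
    exact ⟨hw, hw0⟩
  filter_upwards [hmem] with w hw
  obtain ⟨hwr, hw0⟩ := hw
  set F : ℂ → ℂ := Function.update (addq L c) 0 (wp L 0 c) with hF
  have hFc : ContinuousAt F 0 := by
    rw [continuousAt_iff_punctured_nhds]
    simp only [hF, Function.update_self]
    refine (addq_tendsto L hc).congr' ?_
    filter_upwards [self_mem_nhdsWithin] with z hz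
    rw [Function.update_of_ne hz]
  have hFd : ∀ z ∈ Metric.ball (0:ℂ) r, z ≠ 0 → HasDerivAt F 0 z := by
    intro z hz hz0
    obtain ⟨ha, hb, hcc⟩ := hball hz hz0
    refine (addq_deriv L hb hcc ha).congr_of_eventuallyEq ?_
    filter_upwards [isOpen_ne.mem_nhds hz0] with u hu
    rw [hF, Function.update_of_ne hu]
  set G : ℝ → ℂ := fun t => F ((((1 - t : ℝ)) : ℂ) * w) with hG
  have hin : ∀ t ∈ Icc (0:ℝ) 1, ((((1 - t : ℝ)) : ℂ) * w) ∈ Metric.ball (0:ℂ) r := by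
    intro t ht
    rw [mem_ball_zero_iff] at hwr ⊢
    rw [norm_mul, Complex.norm_real, Real.norm_eq_abs, abs_of_nonneg (by linarith [ht.2])]
    nlinarith [ht.1, ht.2, norm_nonneg w]
  have hlin : ∀ t : ℝ, HasDerivAt (fun t : ℝ => ((((1 - t : ℝ)) : ℂ) * w)) (-w) t := by
    intro t
    have h1 : HasDerivAt (fun t : ℝ => (((1 - t : ℝ)) : ℂ)) (-1) t := by
      have := ((hasDerivAt_id t).const_sub 1).ofReal_comp
      simpa using this
    simpa using h1.mul_const w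
  have hGc : ContinuousOn G (Icc 0 1) := by
    intro t ht
    apply ContinuousAt.continuousWithinAt
    have hcl : ContinuousAt (fun t : ℝ => ((((1 - t : ℝ)) : ℂ) * w)) t := (hlin t).continuousAt
    by_cases h0 : ((((1 - t : ℝ)) : ℂ) * w) = 0
    · exact ContinuousAt.comp (f := fun t : ℝ => ((((1 - t : ℝ)) : ℂ) * w)) (by rw [h0]; exact hFc) hcl
    · exact ContinuousAt.comp (f := fun t : ℝ => ((((1 - t : ℝ)) : ℂ) * w))
        (hFd _ (hin t ht) h0).continuousAt hcl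
  have hGd : ∀ t ∈ Ico (0:ℝ) 1, HasDerivWithinAt G 0 (Ici t) t := by
    intro t ht
    apply HasDerivAt.hasDerivWithinAt
    have h0 : ((((1 - t : ℝ)) : ℂ) * w) ≠ 0 := by
      apply mul_ne_zero _ hw0
      rw [Complex.ofReal_ne_zero]
      linarith [ht.2]
    have := (hFd _ (hin t ⟨ht.1, ht.2.le⟩) h0).comp t (hlin t)
    simp only [zero_mul] at this
    exact this
  have hconst := constant_of_has_deriv_right_zero hGc hGd 1 ⟨by norm_num, le_refl _⟩
  simp only [hG, hF, sub_self, Complex.ofReal_zero, zero_mul, Function.update_self, sub_zero,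
    Complex.ofReal_one, one_mul] at hconst
  rw [Function.update_of_ne hw0] at hconst
  exact hconst.symm

theorem add_formula {c w : ℂ} (hc : c ∈ Dom L) (hw : w ∈ Dom L) (hcw : c + w ∈ Dom L) :
    4 * wp L 0 (c + w) * wp L 0 w * (wp L 0 (c + w) + wp L 0 w) -
    L.g₂ * (wp L 0 (c + w) + wp L 0 w) - 2 * L.g₃ + 2 * wp L 1 (c + w) * wp L 1 w =
    wp L 0 c * (4 * (wp L 0 (c + w) - wp L 0 w) ^ 2) := by
  set U : Set ℂ := {w | w ∈ Dom L ∧ c + w ∈ Dom L} with hU
  have hUpre : IsPreconnected U := by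
    have hcount : ((L.lattice : Set ℂ) ∪ (fun w => c + w) ⁻¹' (L.lattice : Set ℂ)).Countable :=
      (lattice_countable L).union ((lattice_countable L).preimage (add_right_injective c))
    have := (Set.Countable.isConnected_compl_of_one_lt_rank (E := ℂ) (by simp) hcount).isPreconnected
    convert this using 1
    ext z
    simp [hU, Dom]
  have hf : AnalyticOnNhd ℂ (fun w => 4 * wp L 0 (c + w) * wp L 0 w * (wp L 0 (c + w) + wp L 0 w) -
    L.g₂ * (wp L 0 (c + w) + wp L 0 w) - 2 * L.g₃ + 2 * wp L 1 (c + w) * wp L 1 w) U := by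
    intro z hz
    have h0 := analyticAt_wp L 0 hz.1
    have h1 := analyticAt_wp L 1 hz.1
    have h2 : AnalyticAt ℂ (fun w => wp L 0 (c + w)) z :=
      AnalyticAt.comp (g := wp L 0) (f := fun w => c + w) (analyticAt_wp L 0 hz.2) (by fun_prop)
    have h3 : AnalyticAt ℂ (fun w => wp L 1 (c + w)) z :=
      AnalyticAt.comp (g := wp L 1) (f := fun w => c + w) (analyticAt_wp L 1 hz.2) (by fun_prop)
    fun_prop
  have hg : AnalyticOnNhd ℂ (fun w => wp L 0 c * (4 * (wp L 0 (c + w) - wp L 0 w) ^ 2)) U := by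
    intro z hz
    have h0 := analyticAt_wp L 0 hz.1
    have h2 : AnalyticAt ℂ (fun w => wp L 0 (c + w)) z :=
      AnalyticAt.comp (g := wp L 0) (f := fun w => c + w) (analyticAt_wp L 0 hz.2) (by fun_prop)
    fun_prop
  have hev := (addq_eventually_eq L hc).and ((eventually_wp_ne L hc).and ((eventually_Dom L).and
    (mem_nhdsWithin_of_mem_nhds (shift_mem_eventually L hc))))
  -- a point near zero
  obtain ⟨z0, hz0⟩ := ((eventually_eventually_nhdsWithin (s := {(0:ℂ)}ᶜ)).mpr hev |>.and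
    self_mem_nhdsWithin).exists
  have hz00 : z0 ≠ 0 := hz0.2
  have hz0' := hz0.1
  rw [isOpen_compl_singleton.nhdsWithin_eq hz00] at hz0'
  have hz0U : z0 ∈ U := ⟨hz0'.self_of_nhds.2.2.1, hz0'.self_of_nhds.2.2.2⟩
  have heq := hf.eqOn_of_preconnected_of_eventuallyEq hg hUpre hz0U (by
    filter_upwards [hz0'] with w hw
    have hne := sub_ne_zero.mpr hw.2.1
    have h1 := hw.1
    unfold addq at h1
    rw [div_eq_iff (mul_ne_zero (by norm_num : (4:ℂ) ≠ 0) (pow_ne_zero 2 hne))] at h1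
    exact h1)
  exact heq ⟨hw, hcw⟩

/-- half the slope of the chord through `z` and `-w` -/
noncomputable def Q (z w : ℂ) : ℂ := (wp L 1 z + wp L 1 w) / (2 * (wp L 0 z - wp L 0 w))

lemma Q_antisymm (z w : ℂ) : Q L w z = - Q L z w := by
  unfold Q
  rw [← neg_sub (wp L 0 z) (wp L 0 w), mul_neg, div_neg, add_comm]

theorem wp_sub {z w : ℂ} (hz : z ∈ Dom L) (hw : w ∈ Dom L) (hzw : z - w ∈ Dom L)
    (hne : wp L 0 z ≠ wp L 0 w) : wp L 0 (z - w) = Q L z w ^ 2 - wp L 0 z - wp L 0 w := by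
  have h := add_formula L (c := z - w) (w := w) hzw hw (by simpa using hz)
  simp only [sub_add_cancel] at h
  have e1 := wp_one_sq L hw
  have e2 := wp_one_sq L hz
  have hne' := sub_ne_zero.mpr hne
  unfold Q
  field_simp
  linear_combination -h - e1 - e2

lemma sub_mem_Dom {z w : ℂ} (hne : wp L 0 z ≠ wp L 0 w) : z - w ∈ Dom L := by
  intro h
  apply hne
  have := L.weierstrassP_add_coe w ⟨z - w, h⟩
  simp only [add_sub_cancel] at this
  rw [wp_zero_eq, this]

lemma wp_neg (z : ℂ) : wp L 0 (-z) = wp L 0 z := by rw [wp_zero_eq, L.weierstrassP_neg]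

lemma wp_one_neg (z : ℂ) : wp L 1 (-z) = - wp L 1 z := by rw [wp_one_eq, L.derivWeierstrassP_neg]

lemma hasDerivAt_Q_left {z w : ℂ} (hz : z ∈ Dom L) (hw : w ∈ Dom L) (hne : wp L 0 z ≠ wp L 0 w) :
    HasDerivAt (fun z => Q L z w) (wp L 0 z - wp L 0 (z - w)) z := by
  rw [wp_sub L hz hw (sub_mem_Dom L hne) hne]
  have hne' := sub_ne_zero.mpr hne
  have hX := hasDerivAt_wp L 0 hz
  have hY := hasDerivAt_wp L 1 hz
  have h2 : 2 * (wp L 0 z - wp L 0 w) ≠ 0 := mul_ne_zero two_ne_zero hne'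
  refine ((hY.add_const (wp L 1 w)).div ((hX.sub_const (wp L 0 w)).const_mul 2) h2).congr_deriv ?_
  have e1 := wp_one_sq L hw
  have e2 := wp_one_sq L hz
  have e3 := wp_two L hz
  simp only [zero_add] at *
  norm_num
  rw [e3]
  unfold Q
  field_simp
  linear_combination (-1 : ℂ) * e2 + e1

lemma hasDerivAt_Q_right {z w : ℂ} (hz : z ∈ Dom L) (hw : w ∈ Dom L) (hne : wp L 0 z ≠ wp L 0 w) :
    HasDerivAt (fun w => Q L z w) (wp L 0 (z - w) - wp L 0 w) w := by
  have h := (hasDerivAt_Q_left L hw hz hne.symm).neg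
  refine (h.congr_of_eventuallyEq (Eventually.of_forall fun v => ?_)).congr_deriv ?_
  · exact (Q_antisymm L v z)
  · rw [← wp_neg L (w - z)]; simp

lemma wp_one_sub {t w : ℂ} (ht : t ∈ Dom L) (hw : w ∈ Dom L) (htw : wp L 0 t ≠ wp L 0 w) :
    wp L 1 (t - w) = 2 * Q L t w * (wp L 0 t - wp L 0 (t - w)) - wp L 1 t := by
  have h1 : HasDerivAt (fun t => wp L 0 (t - w)) (wp L 1 (t - w)) t :=
    (hasDerivAt_wp L 0 (sub_mem_Dom L htw)).comp_sub_const t w
  have h2 := (((hasDerivAt_Q_left L ht hw htw).fun_pow 2).sub (hasDerivAt_wp L 0 ht)).sub_const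
    (wp L 0 w)
  have h3 : (fun t => wp L 0 (t - w)) =ᶠ[𝓝 t] (fun t => Q L t w ^ 2 - wp L 0 t - wp L 0 w) := by
    have hc : ContinuousAt (wp L 0) t := (analyticAt_wp L 0 ht).continuousAt
    filter_upwards [(isOpen_Dom L).mem_nhds ht, hc.eventually_ne htw] with s hs hne
    exact wp_sub L hs hw (sub_mem_Dom L hne) hne
  have h4 := h1.unique (h2.congr_of_eventuallyEq h3)
  rw [h4]
  simp

/-- the chord through `w` and `-t` passes through `t - w` -/
lemma Q_chord {t w : ℂ} (ht : t ∈ Dom L) (hw : w ∈ Dom L) (htw : wp L 0 t ≠ wp L 0 w)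
    (h2 : wp L 0 (t - w) ≠ wp L 0 t) : Q L (t - w) t = Q L w t := by
  rw [Q_antisymm L t w]
  have h := wp_one_sub L ht hw htw
  conv_lhs => unfold Q
  rw [h]
  have := sub_ne_zero.mpr h2
  field_simp
  ring

end Pool.Agent.Helper487.ECM
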