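import Mathlib

/-! Partial derivatives of functions on `ℂ^N`. -/

open Filter Topology Finset

namespace Pool.Agent.Helper487.ECM

variable {N : ℕ}

/-- the partial derivative with respect to the `i`-th coordinate -/
noncomputable def pd (i : Fin N) (f : (Fin N → ℂ) → ℂ) (y : Fin N → ℂ) : ℂ :=
  fderiv ℂ f y (Pi.single i 1)

lemma pd_congr {i : Fin N} {f g : (Fin N → ℂ) → ℂ} {y : Fin N → ℂ} (h : f =ᶠ[𝓝 y] g) :
    pd i f y = pd i g y := by
  unfold pd; rw [h.fderiv_eq]

lemma pd_eventuallyEq {i : Fin N} {f g : (Fin N → ℂ) → ℂ} {y : Fin N → ℂ} (h : f =ᶠ[𝓝 y] g) :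
    pd i f =ᶠ[𝓝 y] pd i g := by
  filter_upwards [h.fderiv (𝕜 := ℂ)] with z hz
  unfold pd; rw [hz]

lemma pd_const {i : Fin N} (a : ℂ) (y : Fin N → ℂ) : pd i (fun _ => a) y = 0 := by
  unfold pd; simp

lemma pd_add {i : Fin N} {f g : (Fin N → ℂ) → ℂ} {y : Fin N → ℂ} (hf : DifferentiableAt ℂ f y)
    (hg : DifferentiableAt ℂ g y) : pd i (fun y => f y + g y) y = pd i f y + pd i g y := by
  unfold pd; rw [fderiv_fun_add hf hg]; rfl

lemma pd_sub {i : Fin N} {f g : (Fin N → ℂ) → ℂ} {y : Fin N → ℂ} (hf : DifferentiableAt ℂ f y)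
    (hg : DifferentiableAt ℂ g y) : pd i (fun y => f y - g y) y = pd i f y - pd i g y := by
  unfold pd; rw [fderiv_fun_sub hf hg]; rfl

lemma pd_neg {i : Fin N} {f : (Fin N → ℂ) → ℂ} {y : Fin N → ℂ} :
    pd i (fun y => -f y) y = -pd i f y := by
  unfold pd; rw [fderiv_fun_neg]; rfl

lemma pd_mul {i : Fin N} {f g : (Fin N → ℂ) → ℂ} {y : Fin N → ℂ} (hf : DifferentiableAt ℂ f y)
    (hg : DifferentiableAt ℂ g y) :
    pd i (fun y => f y * g y) y = pd i f y * g y + f y * pd i g y := by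
  unfold pd; rw [fderiv_fun_mul hf hg]
  simp only [add_apply, smul_apply, smul_eq_mul]; ring

lemma pd_const_mul {i : Fin N} {f : (Fin N → ℂ) → ℂ} {y : Fin N → ℂ} (a : ℂ)
    (hf : DifferentiableAt ℂ f y) : pd i (fun y => a * f y) y = a * pd i f y := by
  rw [pd_mul (differentiableAt_const a) hf, pd_const]; ring

lemma pd_sum {i : Fin N} {ι : Type*} (s : Finset ι) {f : ι → (Fin N → ℂ) → ℂ} {y : Fin N → ℂ}
    (hf : ∀ j ∈ s, DifferentiableAt ℂ (f j) y) :
    pd i (fun y => ∑ j ∈ s, f j y) y = ∑ j ∈ s, pd i (f j) y := by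
  unfold pd; rw [fderiv_fun_sum hf]; simp

lemma pd_div {i : Fin N} {f g : (Fin N → ℂ) → ℂ} {y : Fin N → ℂ} (hf : DifferentiableAt ℂ f y)
    (hg : DifferentiableAt ℂ g y) (h0 : g y ≠ 0) :
    pd i (fun y => f y / g y) y = pd i f y / g y - f y * pd i g y / g y ^ 2 := by
  have hq : DifferentiableAt ℂ (fun y => f y / g y) y := by
    have := hf.mul (hg.inv h0)
    refine this.congr_of_eventuallyEq (Eventually.of_forall fun z => ?_)
    simp [div_eq_mul_inv]
  have h1 : pd i (fun y => (f y / g y) * g y) y = pd i (fun y => f y / g y) y * g y +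
      (f y / g y) * pd i g y := pd_mul hq hg
  have h2 : pd i (fun y => (f y / g y) * g y) y = pd i f y := by
    apply pd_congr
    filter_upwards [hg.continuousAt.eventually_ne h0] with z hz
    field_simp
  rw [h2] at h1
  field_simp at h1 ⊢
  linear_combination -h1

lemma pd_coord (i j : Fin N) (y : Fin N → ℂ) :
    pd i (fun y => y j) y = if j = i then 1 else 0 := by
  unfold pd
  have : HasFDerivAt (fun y : Fin N → ℂ => y j) (ContinuousLinearMap.proj (R := ℂ) (φ := fun _ => ℂ) j) y :=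
    (ContinuousLinearMap.proj (R := ℂ) (φ := fun _ => ℂ) j).hasFDerivAt
  rw [this.fderiv]
  simp [Pi.single_apply]

lemma pd_comp {i : Fin N} {g : ℂ → ℂ} {g' : ℂ} {l : (Fin N → ℂ) → ℂ} {y : Fin N → ℂ}
    (hg : HasDerivAt g g' (l y)) (hl : DifferentiableAt ℂ l y) :
    pd i (fun y => g (l y)) y = g' * pd i l y := by
  unfold pd
  have := (hg.comp_hasFDerivAt y hl.hasFDerivAt).fderiv
  have e : (fun y => g (l y)) = g ∘ l := rfl
  rw [e, this]
  simp

lemma analyticAt_pd {i : Fin N} {f : (Fin N → ℂ) → ℂ} {y : Fin N → ℂ} (hf : AnalyticAt ℂ f y) :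
    AnalyticAt ℂ (pd i f) y := by
  have h := hf.fderiv
  have h2 := (ContinuousLinearMap.apply ℂ ℂ (Pi.single i 1 : Fin N → ℂ)).analyticAt (fderiv ℂ f y)
  exact h2.comp h

lemma pd_symm {i j : Fin N} {f : (Fin N → ℂ) → ℂ} {y : Fin N → ℂ} (hf : AnalyticAt ℂ f y) :
    pd i (pd j f) y = pd j (pd i f) y := by
  have h := hf.fderiv
  have e : ∀ k l : Fin N, pd k (pd l f) y = (fderiv ℂ (fderiv ℂ f) y (Pi.single k 1)) (Pi.single l 1) := by
    intro k l
    have h2 : pd l f = fun z => (fderiv ℂ f z) (Pi.single l 1) := rfl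
    unfold pd at h2 ⊢
    rw [fderiv_clm_apply h.differentiableAt (differentiableAt_const _)]
    simp
  rw [e, e]
  have hs := (hf.contDiffAt (n := ⊤)).isSymmSndFDerivAt (by simp)
  exact hs _ _

lemma analyticAt_coord (j : Fin N) (y : Fin N → ℂ) : AnalyticAt ℂ (fun y : Fin N → ℂ => y j) y :=
  (ContinuousLinearMap.proj (R := ℂ) (φ := fun _ => ℂ) j).analyticAt y

lemma analyticAt_det {E : Type*} [NormedAddCommGroup E] [NormedSpace ℂ E] {m : Type*} [Fintype m]
    [DecidableEq m] {A : E → Matrix m m ℂ} {y : E}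
    (h : ∀ i j, AnalyticAt ℂ (fun y => A y i j) y) : AnalyticAt ℂ (fun y => (A y).det) y := by
  simp only [Matrix.det_apply']
  exact Finset.analyticAt_fun_sum _ fun σ _ => analyticAt_const.mul
    (Finset.analyticAt_fun_prod _ fun i _ => h _ _)

end Pool.Agent.Helper487.ECM
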