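import Pool.Agent.Helper487.ECM.Addition
import Pool.Agent.Helper487.ECM.Calc

/-! Genericity statements. -/

open Filter Topology Finset
open scoped Nat PeriodPair

namespace Pool.Agent.Helper487.ECM

variable (L : PeriodPair) {N : ℕ}

lemma dense_Dom : Dense (Dom L) :=
  (lattice_countable L).dense_compl ℂ

lemma analyticOnNhd_wp (k : ℕ) : AnalyticOnNhd ℂ (wp L k) (Dom L) := fun _ hz => analyticAt_wp L k hz

/-- a derivative of `℘` is not constant on a nonempty open subset of the domain -/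
lemma wp_not_const (k : ℕ) (c : ℂ) {z : ℂ} (hz : z ∈ Dom L) : ¬ ∀ᶠ w in 𝓝 z, wp L k w = c := by
  intro h
  have h1 : (fun w => wp L k w - c) =ᶠ[𝓝 z] 0 := by
    filter_upwards [h] with w hw; simp [hw]
  have h2 := ((analyticOnNhd_wp L k).sub (analyticOnNhd_const (v := c))).eqOn_zero_of_preconnected_of_eventuallyEq_zero
    (isPreconnected_Dom L) hz h1
  have h3 := (top_wp L k).tendsto
  have h0 : Tendsto (fun z : ℂ => z) (𝓝[≠] 0) (𝓝 0) := tendsto_id.mono_left nhdsWithin_le_nhds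
  have h4 : Tendsto (fun z : ℂ => z ^ (k + 2) * wp L k z) (𝓝[≠] (0:ℂ)) (𝓝 0) := by
    have h5 : Tendsto (fun z : ℂ => z ^ (k + 2) * c) (𝓝[≠] (0:ℂ)) (𝓝 (0 ^ (k + 2) * c)) :=
      (h0.pow (k + 2)).mul_const c
    simp only [ne_eq, Nat.add_eq_zero_iff, OfNat.ofNat_ne_zero, and_false, not_false_eq_true,
      zero_pow, zero_mul] at h5
    refine h5.congr' ?_
    filter_upwards [eventually_Dom L] with w hw
    have := h2 hw
    simp only [Pi.sub_apply, Pi.zero_apply] at this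
    rw [sub_eq_zero.mp this]
  have h6 := tendsto_nhds_unique h3 h4
  have : ((-1 : ℂ)) ^ k * ((k + 1)! : ℂ) ≠ 0 :=
    mul_ne_zero (pow_ne_zero _ (by norm_num)) (by exact_mod_cast Nat.factorial_ne_zero _)
  exact this h6

lemma isOpen_ne (k : ℕ) (c : ℂ) : IsOpen {z | z ∈ Dom L ∧ wp L k z ≠ c} := by
  rw [isOpen_iff_mem_nhds]
  rintro z ⟨hz, hc⟩
  filter_upwards [(isOpen_Dom L).mem_nhds hz,
    (analyticAt_wp L k hz).continuousAt.eventually_ne hc] with w h1 h2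
  exact ⟨h1, h2⟩

lemma dense_ne (k : ℕ) (c : ℂ) : Dense {z | z ∈ Dom L ∧ wp L k z ≠ c} := by
  rw [dense_iff_inter_open]
  intro U hU hne
  obtain ⟨z, hzU, hz⟩ := (dense_Dom L).inter_open_nonempty U hU hne
  by_contra hcon
  apply wp_not_const L k c hz
  filter_upwards [hU.mem_nhds hzU, (isOpen_Dom L).mem_nhds hz] with w h1 h2
  by_contra h3
  exact hcon ⟨w, h1, h2, h3⟩

lemma isOpen_pair : IsOpen {p : ℂ × ℂ | p.1 ∈ Dom L ∧ p.2 ∈ Dom L ∧ wp L 0 p.1 ≠ wp L 0 p.2} := by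
  rw [isOpen_iff_mem_nhds]
  rintro ⟨a, b⟩ ⟨ha, hb, hab⟩
  have c1 : ContinuousAt (fun p : ℂ × ℂ => wp L 0 p.1) (a, b) :=
    ContinuousAt.comp (f := fun p : ℂ × ℂ => p.1) (analyticAt_wp L 0 ha).continuousAt continuousAt_fst
  have c2 : ContinuousAt (fun p : ℂ × ℂ => wp L 0 p.2) (a, b) :=
    ContinuousAt.comp (f := fun p : ℂ × ℂ => p.2) (analyticAt_wp L 0 hb).continuousAt continuousAt_snd
  have c3 := (c1.sub c2).eventually_ne (sub_ne_zero.mpr hab)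
  have d1 : ∀ᶠ p : ℂ × ℂ in 𝓝 (a, b), p.1 ∈ Dom L :=
    continuousAt_fst.preimage_mem_nhds ((isOpen_Dom L).mem_nhds ha)
  have d2 : ∀ᶠ p : ℂ × ℂ in 𝓝 (a, b), p.2 ∈ Dom L :=
    continuousAt_snd.preimage_mem_nhds ((isOpen_Dom L).mem_nhds hb)
  filter_upwards [c3, d1, d2] with p h1 h2 h3
  exact ⟨h2, h3, sub_ne_zero.mp h1⟩

lemma dense_pair : Dense {p : ℂ × ℂ | p.1 ∈ Dom L ∧ p.2 ∈ Dom L ∧ wp L 0 p.1 ≠ wp L 0 p.2} := by
  rw [dense_iff_inter_open]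
  intro U hU hne
  obtain ⟨⟨a, b⟩, hab⟩ := hne
  obtain ⟨A, B, hA, hB, haA, hbB, hAB⟩ := isOpen_prod_iff.mp hU a b hab
  obtain ⟨b', hb'B, hb'⟩ := (dense_Dom L).inter_open_nonempty B hB ⟨b, hbB⟩
  obtain ⟨a', ha'A, ha', hne⟩ := (dense_ne L 0 (wp L 0 b')).inter_open_nonempty A hA ⟨a, haA⟩
  exact ⟨(a', b'), hAB ⟨ha'A, hb'B⟩, ha', hb', hne⟩

lemma surj_of_ne {l : (Fin N → ℂ) →L[ℂ] ℂ} {v : Fin N → ℂ} (hv : l v ≠ 0) : Function.Surjective l := by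
  intro a
  refine ⟨(a / l v) • v, ?_⟩
  simp [hv]

lemma res_ne (k : ℕ) (c : ℂ) {l : (Fin N → ℂ) →L[ℂ] ℂ} {v : Fin N → ℂ} (hv : l v ≠ 0) :
    ∀ᶠ y in residual (Fin N → ℂ), l y ∈ Dom L ∧ wp L k (l y) ≠ c :=
  residual_of_dense_open ((isOpen_ne L k c).preimage l.continuous)
    ((dense_ne L k c).preimage (l.isOpenMap (surj_of_ne hv)))

lemma res_pair {l m : (Fin N → ℂ) →L[ℂ] ℂ} {v v' : Fin N → ℂ} (hv : l v ≠ 0) (hv0 : m v = 0)
    (hv' : m v' ≠ 0) :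
    ∀ᶠ y in residual (Fin N → ℂ), l y ∈ Dom L ∧ m y ∈ Dom L ∧ wp L 0 (l y) ≠ wp L 0 (m y) := by
  have hs : Function.Surjective (l.prod m) := by
    rintro ⟨a, b⟩
    refine ⟨((a - l ((b / m v') • v')) / l v) • v + (b / m v') • v', ?_⟩
    ext
    · simp [hv]
    · simp [hv0, hv']
  exact residual_of_dense_open ((isOpen_pair L).preimage (l.prod m).continuous)
    ((dense_pair L).preimage ((l.prod m).isOpenMap hs))

end Pool.Agent.Helper487.ECM
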