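import Pool.Agent.Helper487.ECM.Jac
import Pool.Agent.Helper487.ECM.Generic

/-! The last zero of `φ` is minus the sum of the other zeros. -/

open Filter Topology Finset
open scoped Nat PeriodPair

namespace Pool.Agent.Helper487.ECM

variable {L : PeriodPair} {N : ℕ}

/-- multiplication of a function vanishing at `t` by `Q(·, t)` -/
lemma Qmul {m : ℕ} {f : ℂ → ℂ} (hf : InFil L m f) {a b : ℂ} (htop : Top m f a b) {t : ℂ}
    (ht : t ∈ Dom L) (h0 : f t = 0) : ∃ h : ℂ → ℂ, InFil L (m + 1) h ∧ Top (m + 1) h (-a) (-b) ∧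
      ∀ z ∈ Dom L, wp L 0 z ≠ wp L 0 t → h z = f z * Q L z t := by
  obtain ⟨M, C, hC⟩ := inP_Q_sub hf
  set h : ℂ → ℂ := fun z => ∑ i ∈ range M, (∑ j ∈ range M, C i j * mu L j t) * mu L i z with hh
  have hval : ∀ z ∈ Dom L, wp L 0 z ≠ wp L 0 t → h z = f z * Q L z t := by
    intro z hz hne
    have h1 := hC z hz t ht hne
    simp only [h0, sub_zero] at h1
    rw [mul_comm, h1, hh]
    refine sum_congr rfl fun i _ => ?_
    rw [sum_mul]
    exact sum_congr rfl fun j _ => by ring
  have hev : ∀ᶠ z in 𝓝[≠] (0:ℂ), wp L 0 z ≠ wp L 0 t := by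
    have h0 : Tendsto (fun z : ℂ => z ^ 2 * wp L 0 t) (𝓝[≠] (0:ℂ)) (𝓝 0) := by
      have h0 : Tendsto (fun z : ℂ => z) (𝓝[≠] 0) (𝓝 0) := tendsto_id.mono_left nhdsWithin_le_nhds
      have := (h0.pow 2).mul_const (wp L 0 t)
      simpa using this
    have h3 := (tendsto_norm_wp_zero L).sub h0
    have h4 : ∀ᶠ z in 𝓝[≠] (0:ℂ), z ^ 2 * wp L 0 z - z ^ 2 * wp L 0 t ≠ 0 :=
      h3.eventually_ne (by norm_num)
    filter_upwards [h4] with z hz hne
    exact hz (by rw [hne]; ring)
  have htopQ : Top (m + 1) (fun z => f z * Q L z t) (-a) (-b) :=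
    (htop.mul (top_Q L t)).congr_val (by ring) (by ring)
  have htoph : Top (m + 1) h (-a) (-b) := by
    refine htopQ.congr ?_
    filter_upwards [hev, eventually_Dom L] with z h1 h2
    exact (hval z h2 h1).symm
  have hfil : InFil L (M + 1) h := by
    refine InFil.sum _ fun i hi => ?_
    rw [Finset.mem_range] at hi
    exact ((inFil_mu L i).const_mul _).mono (by omega)
  have hlow : Tendsto (fun z => z ^ (m + 1 + 1) * h z) (𝓝[≠] (0:ℂ)) (𝓝 0) := by
    have h0 : Tendsto (fun z : ℂ => z) (𝓝[≠] 0) (𝓝 0) := tendsto_id.mono_left nhdsWithin_le_nhds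
    have h5 := h0.mul htoph.tendsto
    rw [zero_mul] at h5
    refine h5.congr fun z => ?_
    ring
  exact ⟨h, InFil.lower L (by omega) hfil hlow, htoph, hval⟩

/-- minus the partial sums of the coordinates -/
noncomputable def TT (k : ℕ) (y : Fin N → ℂ) : ℂ := -∑ i ∈ univ.filter (fun i : Fin N => (i : ℕ) < k), y i

lemma TT_succ {k : ℕ} (hk : k < N) (y : Fin N → ℂ) : TT (k + 1) y = TT k y - y ⟨k, hk⟩ := by
  unfold TT
  have : (univ.filter fun i : Fin N => (i : ℕ) < k + 1) =
      insert ⟨k, hk⟩ (univ.filter fun i : Fin N => (i : ℕ) < k) := by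
    ext i
    simp only [mem_filter, mem_univ, true_and, mem_insert, Fin.ext_iff]
    omega
  rw [this, sum_insert (by simp)]
  ring

lemma TT_zero (y : Fin N → ℂ) : TT 0 y = 0 := by
  unfold TT; simp

lemma TT_N (y : Fin N → ℂ) : TT N y = -∑ i, y i := by
  unfold TT
  congr 1
  refine sum_congr ?_ fun _ _ => rfl
  ext i
  simp

/-- genericity needed for the chord construction -/
structure Chord (L : PeriodPair) (y : Fin N → ℂ) : Prop where
  c1 : ∀ i, y i ∈ Dom L
  c2 : ∀ k, 1 ≤ k → k ≤ N → TT k y ∈ Dom L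
  c3 : ∀ i j, i ≠ j → wp L 0 (y i) ≠ wp L 0 (y j)
  c4 : ∀ k, 2 ≤ k → k < N → ∀ i : Fin N, (i : ℕ) ≤ k → wp L 0 (y i) ≠ wp L 0 (TT k y)
  c5 : ∀ k, 1 ≤ k → k < N → wp L 0 (TT (k + 1) y) ≠ wp L 0 (TT k y)

lemma Chord.exists_f {y : Fin N → ℂ} (h : Chord L y) (hN : 2 ≤ N) (k : ℕ) (hk : 2 ≤ k) (hkN : k ≤ N) :
    ∃ f : ℂ → ℂ, ∃ a b : ℂ, InFil L (k + 1) f ∧ Top (k + 1) f a b ∧ a ≠ 0 ∧
      (∀ i : Fin N, (i : ℕ) < k → f (y i) = 0) ∧ f (TT k y) = 0 := by
  induction k, hk using Nat.le_induction with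
  | base =>
    set i0 : Fin N := ⟨0, by omega⟩ with hi0
    set i1 : Fin N := ⟨1, by omega⟩ with hi1
    have hT1 : TT 1 y = -y i0 := by
      rw [show (1 : ℕ) = 0 + 1 from rfl, TT_succ (by omega : 0 < N), TT_zero]; simp [hi0]
    have hT2 : TT 2 y = TT 1 y - y i1 := by
      rw [show (2 : ℕ) = 1 + 1 from rfl, TT_succ (by omega : 1 < N)]
    have hne : wp L 0 (y i1) ≠ wp L 0 (y i0) := h.c3 _ _ (by simp [hi0, hi1])
    have hne' := sub_ne_zero.mpr hne
    set lam : ℂ := (wp L 1 (y i1) - wp L 1 (y i0)) / (2 * (wp L 0 (y i1) - wp L 0 (y i0))) with hlam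
    refine ⟨fun z => (1 / 2 : ℂ) * wp L 1 z + (-lam) * wp L 0 z + (-(1 / 2 : ℂ) * wp L 1 (y i0) + lam * wp L 0 (y i0)) * 1,
      -1, -lam, ?_, ?_, by norm_num, ?_, ?_⟩
    · have h1 := ((inFil_wp L 1).const_mul (1 / 2 : ℂ))
      have h2 := ((inFil_wp L 0).const_mul (-lam)).mono (show 0 + 2 ≤ 1 + 2 by omega)
      have h3 := (((inFil_mu L 0).congr fun z _ => (mu_zero L z).symm).const_mul
        (-(1 / 2 : ℂ) * wp L 1 (y i0) + lam * wp L 0 (y i0))).mono (show 0 ≤ 1 + 2 by omega)
      exact ((h1.add h2).add h3)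
    · have t1 := (top_wp L 1).const_mul (1 / 2 : ℂ)
      have t2 := ((top_wp L 0).const_mul (-lam)).shift
      have t3 := ((top_one.const_mul (-(1 / 2 : ℂ) * wp L 1 (y i0) + lam * wp L 0 (y i0)))).shift2
        (show 0 + 2 ≤ 1 + 2 by omega)
      exact ((t1.add t2).add t3).congr_val (by norm_num [Nat.factorial]) (by simp)
    · intro i hi
      have : i = i0 ∨ i = i1 := by
        simp only [hi0, hi1, Fin.ext_iff]; omega
      rcases this with rfl | rfl
      · ring
      · rw [hlam]; field_simp; ring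
    · have ht : TT 1 y ∈ Dom L := h.c2 1 le_rfl (by omega)
      have hT1w : wp L 0 (TT 1 y) = wp L 0 (y i0) := by rw [hT1, wp_neg]
      have hT1w1 : wp L 1 (TT 1 y) = -wp L 1 (y i0) := by rw [hT1, wp_one_neg]
      have hc5 := h.c5 1 le_rfl (by omega)
      have hch := Q_chord L ht (h.c1 i1) (by rw [hT1w]; exact hne.symm) (by
        rw [← hT2]; exact hc5)
      rw [← hT2] at hch
      unfold Q at hch
      rw [hT1w, hT1w1] at hch
      have hc5' : wp L 0 (TT 2 y) - wp L 0 (y i0) ≠ 0 := by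
        rw [← hT1w]; exact sub_ne_zero.mpr hc5
      rw [hlam]
      field_simp at hch ⊢
      linear_combination hch
  | succ k hk ih =>
    obtain ⟨f, a, b, hf, htop, ha, hz, ht⟩ := ih (by omega)
    have hkN' : k < N := by omega
    have hTd : TT k y ∈ Dom L := h.c2 k (by omega) (by omega)
    obtain ⟨g, hg, hgt, hgv⟩ := Qmul hf htop hTd ht
    set ik : Fin N := ⟨k, hkN'⟩ with hik
    refine ⟨fun z => g z + (-Q L (y ik) (TT k y)) * f z, -a, -b + (-Q L (y ik) (TT k y)) * a,
      ?_, ?_, neg_ne_zero.mpr ha, ?_, ?_⟩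
    · exact hg.add ((hf.const_mul _).mono (by omega))
    · have t2 := (htop.const_mul (-Q L (y ik) (TT k y))).shift
      exact (hgt.add t2).congr_val (by ring) rfl
    · intro i hi
      have hne := h.c4 k (by omega) hkN' i (by omega)
      show g (y i) + (-Q L (y ik) (TT k y)) * f (y i) = 0
      rw [hgv (y i) (h.c1 i) hne]
      by_cases hik' : (i : ℕ) < k
      · rw [hz i hik']; ring
      · have : i = ik := by simp only [hik, Fin.ext_iff]; omega
        rw [this]; ring
    · have hT : TT (k + 1) y = TT k y - y ik := TT_succ hkN' y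
      have hne := h.c5 k (by omega) hkN'
      have hch := Q_chord L hTd (h.c1 ik) (h.c4 k (by omega) hkN' ik le_rfl).symm (by
        rw [← hT]; exact hne)
      rw [← hT] at hch
      show g (TT (k + 1) y) + (-Q L (y ik) (TT k y)) * f (TT (k + 1) y) = 0
      rw [hgv _ (h.c2 (k + 1) (by omega) (by omega)) hne, hch]; ring

theorem Chord.abel {y : Fin N → ℂ} (h : Chord L y) (hr : Reg L y) (hN : 2 ≤ N) :
    ph L (N + 1) (cc L y) (-∑ i, y i) = 0 := by
  obtain ⟨f, a, b, hf, htop, ha, hz, ht⟩ := h.exists_f hN N hN le_rfl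
  obtain ⟨d, hd⟩ := InFil.inB L (by omega) hf
  have hd' : ∀ z ∈ Dom L, f z = ph L (N + 1) d z := hd
  have h1 : ∀ i, ph L (N + 1) d (y i) = 0 := fun i => by
    rw [← hd' _ (h.c1 i)]; exact hz i i.2
  have h2 := hr.interp d h1
  have h3 : ∀ z ∈ Dom L, f z = d 0 * ph L (N + 1) (cc L y) z := by
    intro z hz
    rw [hd' z hz, ← ph_smul]
    exact ph_congr L h2 z
  have hT : TT N y ∈ Dom L := h.c2 N (by omega) le_rfl
  have h4 := h3 _ hT
  rw [ht] at h4
  have h5 : d 0 ≠ 0 := by
    intro h0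
    have t1 := htop.tendsto
    have t2 : Tendsto (fun z : ℂ => z ^ (N + 1) * f z) (𝓝[≠] (0:ℂ)) (𝓝 0) := by
      refine tendsto_const_nhds.congr' ?_
      filter_upwards [eventually_Dom L] with z hz
      rw [h3 z hz, h0]; ring
    exact ha (tendsto_nhds_unique t1 t2)
  rw [← TT_N]
  exact (mul_eq_zero.mp h4.symm).resolve_left h5

/-- the linear forms -/
noncomputable def prj (i : Fin N) : (Fin N → ℂ) →L[ℂ] ℂ := ContinuousLinearMap.proj i

lemma prj_apply (i : Fin N) (y : Fin N → ℂ) : prj i y = y i := rfl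

noncomputable def TTl (k : ℕ) : (Fin N → ℂ) →L[ℂ] ℂ :=
  -∑ i ∈ univ.filter (fun i : Fin N => (i : ℕ) < k), prj i

lemma TTl_apply (k : ℕ) (y : Fin N → ℂ) : TTl k y = TT k y := by
  unfold TTl TT
  simp [prj_apply]

lemma TT_single {k : ℕ} (j : Fin N) : TT k (Pi.single j 1 : Fin N → ℂ) = if (j : ℕ) < k then -1 else 0 := by
  unfold TT
  split_ifs with h
  · rw [sum_eq_single j]
    · simp
    · intro i _ hij; simp [hij]
    · intro hj; simp [h] at hj
  · rw [sum_eq_zero]
    · simp
    · intro i hi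
      simp only [mem_filter, mem_univ, true_and] at hi
      have : i ≠ j := fun hij => h (hij ▸ hi)
      simp [this]

variable (L) in
lemma res_coord_pair {i j : Fin N} (hij : i ≠ j) :
    ∀ᶠ y in residual (Fin N → ℂ), y i ∈ Dom L ∧ y j ∈ Dom L ∧ wp L 0 (y i) ≠ wp L 0 (y j) := by
  refine res_pair L (l := prj i) (m := prj j) (v := Pi.single i 1) (v' := Pi.single j 1) ?_ ?_ ?_
  · simp [prj_apply]
  · simp [prj_apply, Ne.symm hij]
  · simp [prj_apply]

variable (L) in
lemma res_chord (hN : 2 ≤ N) : ∀ᶠ y in residual (Fin N → ℂ), Chord L y := by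
  have a1 : ∀ᶠ y in residual (Fin N → ℂ), ∀ i, y i ∈ Dom L := by
    rw [eventually_all]; intro i
    filter_upwards [res_ne L 0 0 (l := prj i) (v := Pi.single i 1) (by simp [prj_apply])] with y hy
    exact hy.1
  have a2 : ∀ᶠ y in residual (Fin N → ℂ), ∀ k, 1 ≤ k → k ≤ N → TT k y ∈ Dom L := by
    rw [eventually_countable_forall]; intro k
    by_cases hk : 1 ≤ k ∧ k ≤ N
    · filter_upwards [res_ne L 0 0 (l := TTl k) (v := Pi.single (⟨0, by omega⟩ : Fin N) 1) (by
        rw [TTl_apply, TT_single, if_pos]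
        · norm_num
        · show 0 < k; omega)] with y hy _ _
      rw [← TTl_apply]; exact hy.1
    · exact Eventually.of_forall fun y h1 h2 => absurd ⟨h1, h2⟩ hk
  have a3 : ∀ᶠ y in residual (Fin N → ℂ), ∀ i j, i ≠ j → wp L 0 (y i) ≠ wp L 0 (y j) := by
    rw [eventually_all]; intro i
    rw [eventually_all]; intro j
    by_cases hij : i = j
    · exact Eventually.of_forall fun y h => absurd hij h
    · filter_upwards [res_coord_pair L hij] with y hy _
      exact hy.2.2
  have a4 : ∀ᶠ y in residual (Fin N → ℂ), ∀ k, 2 ≤ k → k < N → ∀ i : Fin N, (i : ℕ) ≤ k →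
      wp L 0 (y i) ≠ wp L 0 (TT k y) := by
    rw [eventually_countable_forall]; intro k
    by_cases hk : 2 ≤ k ∧ k < N
    · have : ∀ᶠ y in residual (Fin N → ℂ), ∀ i : Fin N, (i : ℕ) ≤ k → wp L 0 (y i) ≠ wp L 0 (TT k y) := by
        rw [eventually_all]; intro i
        by_cases hik : (i : ℕ) ≤ k
        · rcases Nat.lt_or_ge (i : ℕ) k with hlt | hge
          · -- vary another coordinate below k
            obtain ⟨j, hjk, hji⟩ : ∃ j : Fin N, (j : ℕ) < k ∧ j ≠ i := by
              by_cases hi0 : (i : ℕ) = 0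
              · refine ⟨⟨1, by omega⟩, by simp; omega, ?_⟩
                intro h; have := congrArg Fin.val h; simp at this; omega
              · refine ⟨⟨0, by omega⟩, by simp; omega, ?_⟩
                intro h; have := congrArg Fin.val h; simp at this; omega
            filter_upwards [res_pair L (l := TTl k) (m := prj i) (v := Pi.single j 1)
              (v' := Pi.single i 1) (by rw [TTl_apply, TT_single, if_pos hjk]; norm_num)
              (by simp [prj_apply, Ne.symm hji]) (by simp [prj_apply])] with y hy _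
            have := hy.2.2
            rw [TTl_apply, prj_apply] at this
            exact this.symm
          · -- i = k: vary coordinate i
            filter_upwards [res_pair L (l := prj i) (m := TTl k) (v := Pi.single i 1)
              (v' := Pi.single (⟨0, by omega⟩ : Fin N) 1) (by simp [prj_apply])
              (by rw [TTl_apply, TT_single, if_neg (by omega)])
              (by rw [TTl_apply, TT_single, if_pos (by show 0 < k; omega)]; norm_num)] with y hy _
            have := hy.2.2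
            rw [TTl_apply, prj_apply] at this
            exact this
        · exact Eventually.of_forall fun y h => absurd h hik
      filter_upwards [this] with y hy _ _ using hy
    · exact Eventually.of_forall fun y h1 h2 => absurd ⟨h1, h2⟩ hk
  have a5 : ∀ᶠ y in residual (Fin N → ℂ), ∀ k, 1 ≤ k → k < N →
      wp L 0 (TT (k + 1) y) ≠ wp L 0 (TT k y) := by
    rw [eventually_countable_forall]; intro k
    by_cases hk : 1 ≤ k ∧ k < N
    · filter_upwards [res_pair L (l := TTl (k + 1)) (m := TTl k) (v := Pi.single (⟨k, hk.2⟩ : Fin N) 1)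
        (v' := Pi.single (⟨0, by omega⟩ : Fin N) 1)
        (by rw [TTl_apply, TT_single, if_pos (by show k < k + 1; omega)]; norm_num)
        (by rw [TTl_apply, TT_single, if_neg (by show ¬ k < k; omega)])
        (by rw [TTl_apply, TT_single, if_pos (by show 0 < k; omega)]; norm_num)] with y hy _ _
      have := hy.2.2
      rw [TTl_apply, TTl_apply] at this
      exact this
    · exact Eventually.of_forall fun y h1 h2 => absurd ⟨h1, h2⟩ hk
  filter_upwards [a1, a2, a3, a4, a5] with y h1 h2 h3 h4 h5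
  exact ⟨h1, h2, h3, h4, h5⟩

/-- Abel's theorem for the map -/
theorem Reg.abel {y : Fin N → ℂ} (h : Reg L y) (hN : 2 ≤ N) (hs : -∑ i, y i ∈ Dom L) :
    ph L (N + 1) (cc L y) (-∑ i, y i) = 0 := by
  have hl : AnalyticAt ℂ (fun y : Fin N → ℂ => -∑ i, y i) y :=
    (Finset.analyticAt_fun_sum _ fun i _ => analyticAt_coord i y).neg
  have hA : AnalyticAt ℂ (fun y => ph L (N + 1) (cc L y) (-∑ i, y i)) y :=
    analyticAt_ph (fun k _ => h.analyticAt_cc k) hl hs
  by_contra hne
  have h1 := hA.continuousAt.eventually_ne hne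
  have h2 := h.eventually
  obtain ⟨U, hU, hUo, hyU⟩ := eventually_nhds_iff.mp (h1.and h2)
  obtain ⟨y', hy'U, hy'⟩ := (dense_of_mem_residual (res_chord L hN)).inter_open_nonempty U hUo ⟨y, hyU⟩
  exact (hU y' hy'U).1 (Chord.abel hy' (hU y' hy'U).2 hN)

end Pool.Agent.Helper487.ECM
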