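import Pool.Agent.Helper487.ECM.Trace2

/-! The representation by anticommutators. -/

open Filter Topology Finset
open scoped Nat PeriodPair

namespace Pool.Agent.Helper487.ECM

variable {L : PeriodPair} {N : ℕ}

/-- the operator `E_{00}` -/
noncomputable def E00 (κ : ℂ) (F : (Fin N → ℂ) → ℂ) (u : Fin N → ℂ) : ℂ :=
  -∑ j, u j * pd j F u + κ * F u

/-- the generators -/
noncomputable def gen (κ : ℂ) (i j : Fin (N + 1)) (F : (Fin N → ℂ) → ℂ) (u : Fin N → ℂ) : ℂ :=
  (Fin.cons 1 u : Fin (N + 1) → ℂ) i * (Fin.cons (E00 κ F u) (fun j => pd j F u) : Fin (N + 1) → ℂ) j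

/-- extended coordinates -/
def uh (u : Fin N → ℂ) : Fin (N + 1) → ℂ := Fin.cons 1 u

lemma uh_zero (u : Fin N → ℂ) : uh u 0 = 1 := rfl
lemma uh_succ (u : Fin N → ℂ) (i : Fin N) : uh u i.succ = u i := by simp [uh]

/-- the signs -/
def sg (i : Fin (N + 1)) : ℂ := if i = 0 then 1 else -1

lemma sg_zero : sg (0 : Fin (N + 1)) = 1 := by simp [sg]
lemma sg_succ (i : Fin N) : sg i.succ = -1 := by simp [sg]
lemma sg_sq (i : Fin (N + 1)) : sg i * sg i = 1 := by unfold sg; split_ifs <;> norm_num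

lemma cU_eq (u : Fin N → ℂ) (i : Fin (N + 1)) : cU u i = sg i * uh u i := by
  refine Fin.cases ?_ (fun i => ?_) i
  · rw [sg_zero, uh_zero]; simp [cU]
  · rw [sg_succ, uh_succ, Fin.val_succ, cU_succ]; ring

/-- first order data -/
noncomputable def D1 (κ : ℂ) (u : Fin N → ℂ) (F0 : ℂ) (F1 : Fin N → ℂ) : Fin (N + 1) → ℂ :=
  Fin.cons (-∑ j, u j * F1 j + κ * F0) F1

/-- second order data -/
noncomputable def D2 (κ : ℂ) (u : Fin N → ℂ) (F0 : ℂ) (F1 : Fin N → ℂ) (F2 : Fin N → Fin N → ℂ) :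
    Fin (N + 1) → Fin (N + 1) → ℂ :=
  Fin.cons
    (Fin.cons (κ * (κ - 1) * F0 - 2 * (κ - 1) * ∑ j, u j * F1 j + ∑ a, ∑ b, u a * u b * F2 a b)
      (fun b => (κ - 1) * F1 b - ∑ a, u a * F2 a b))
    (fun a => Fin.cons ((κ - 1) * F1 a - ∑ b, u b * F2 a b) (fun b => F2 a b))

lemma D1_zero (κ : ℂ) (u : Fin N → ℂ) (F0 : ℂ) (F1 : Fin N → ℂ) :
    D1 κ u F0 F1 0 = -∑ j, u j * F1 j + κ * F0 := rfl
lemma D1_succ (κ : ℂ) (u : Fin N → ℂ) (F0 : ℂ) (F1 : Fin N → ℂ) (a : Fin N) :
    D1 κ u F0 F1 a.succ = F1 a := by simp [D1]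
lemma D2_zero_zero (κ : ℂ) (u : Fin N → ℂ) (F0 : ℂ) (F1 : Fin N → ℂ) (F2 : Fin N → Fin N → ℂ) :
    D2 κ u F0 F1 F2 0 0 = κ * (κ - 1) * F0 - 2 * (κ - 1) * ∑ j, u j * F1 j + ∑ a, ∑ b, u a * u b * F2 a b :=
  rfl
lemma D2_zero_succ (κ : ℂ) (u : Fin N → ℂ) (F0 : ℂ) (F1 : Fin N → ℂ) (F2 : Fin N → Fin N → ℂ) (b : Fin N) :
    D2 κ u F0 F1 F2 0 b.succ = (κ - 1) * F1 b - ∑ a, u a * F2 a b := by simp [D2]
lemma D2_succ_zero (κ : ℂ) (u : Fin N → ℂ) (F0 : ℂ) (F1 : Fin N → ℂ) (F2 : Fin N → Fin N → ℂ) (a : Fin N) :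
    D2 κ u F0 F1 F2 a.succ 0 = (κ - 1) * F1 a - ∑ b, u b * F2 a b := by simp [D2]
lemma D2_succ_succ (κ : ℂ) (u : Fin N → ℂ) (F0 : ℂ) (F1 : Fin N → ℂ) (F2 : Fin N → Fin N → ℂ) (a b : Fin N) :
    D2 κ u F0 F1 F2 a.succ b.succ = F2 a b := by simp [D2]

lemma D2_symm (κ : ℂ) (u : Fin N → ℂ) (F0 : ℂ) (F1 : Fin N → ℂ) {F2 : Fin N → Fin N → ℂ}
    (h : ∀ a b, F2 a b = F2 b a) (i j : Fin (N + 1)) : D2 κ u F0 F1 F2 i j = D2 κ u F0 F1 F2 j i := by
  refine Fin.cases ?_ (fun i => ?_) i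
  · refine Fin.cases rfl (fun j => ?_) j
    rw [D2_zero_succ, D2_succ_zero]
    congr 1
    exact sum_congr rfl fun a _ => by rw [h]
  · refine Fin.cases ?_ (fun j => ?_) j
    · rw [D2_zero_succ, D2_succ_zero]
      congr 1
      exact sum_congr rfl fun a _ => by rw [h]
    · rw [D2_succ_succ, D2_succ_succ, h]

lemma D2_row (κ : ℂ) (u : Fin N → ℂ) (F0 : ℂ) (F1 : Fin N → ℂ) {F2 : Fin N → Fin N → ℂ}
    (h : ∀ a b, F2 a b = F2 b a) (i : Fin (N + 1)) :
    ∑ k, uh u k * D2 κ u F0 F1 F2 i k = (κ - 1) * D1 κ u F0 F1 i := by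
  rw [Fin.sum_univ_succ]
  refine Fin.cases ?_ (fun i => ?_) i
  · simp only [uh_zero, uh_succ, D2_zero_zero, D2_zero_succ, D1_zero, one_mul]
    have e1 : ∑ x, u x * ((κ - 1) * F1 x - ∑ a, u a * F2 a x) =
        (κ - 1) * ∑ x, u x * F1 x - ∑ a, ∑ b, u a * u b * F2 a b := by
      simp only [mul_sub, sum_sub_distrib, mul_sum]
      congr 1
      · exact sum_congr rfl fun x _ => by ring
      · rw [sum_comm]; exact sum_congr rfl fun a _ => sum_congr rfl fun b _ => by ring
    rw [e1]; ring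
  · simp only [uh_zero, uh_succ, D2_succ_zero, D2_succ_succ, D1_succ, one_mul]
    have e1 : ∑ x, u x * F2 i x = ∑ b, u b * F2 i b := rfl
    ring

lemma D1_sum (κ : ℂ) (u : Fin N → ℂ) (F0 : ℂ) (F1 : Fin N → ℂ) :
    ∑ i, uh u i * D1 κ u F0 F1 i = κ * F0 := by
  rw [Fin.sum_univ_succ]
  simp only [uh_zero, uh_succ, D1_zero, D1_succ]; ring

lemma gen_eq (κ : ℂ) (i j : Fin (N + 1)) (F : (Fin N → ℂ) → ℂ) (u : Fin N → ℂ) :
    gen κ i j F u = uh u i * D1 κ u (F u) (fun a => pd a F u) j := rfl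

/-- composition of two generators -/
lemma gen_gen (κ : ℂ) (i j k l : Fin (N + 1)) {F : (Fin N → ℂ) → ℂ} {u : Fin N → ℂ}
    (hF : AnalyticAt ℂ F u) :
    gen κ i j (gen κ k l F) u = uh u i * ((if k = j then 1 else 0) * D1 κ u (F u) (fun a => pd a F u) l
      + uh u k * D2 κ u (F u) (fun a => pd a F u) (fun a b => pd a (pd b F) u) j l) := by
  set G : (Fin N → ℂ) → ℂ := fun u => D1 κ u (F u) (fun a => pd a F u) l with hG
  have hpa : ∀ a, AnalyticAt ℂ (pd a F) u := fun a => analyticAt_pd hF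
  have hsuma : AnalyticAt ℂ (fun u : Fin N → ℂ => ∑ j, u j * pd j F u) u :=
    Finset.analyticAt_fun_sum _ fun j _ => (analyticAt_coord j u).mul (hpa j)
  -- analyticity and derivative of G
  have hGa : DifferentiableAt ℂ G u := by
    rw [hG]
    refine Fin.cases ?_ (fun l => ?_) l
    · simp only [D1_zero]
      exact (hsuma.neg.add (analyticAt_const.mul hF)).differentiableAt
    · simp only [D1_succ]; exact (hpa l).differentiableAt
  have hpG : ∀ a : Fin N, pd a G u = D2 κ u (F u) (fun a => pd a F u) (fun a b => pd a (pd b F) u) a.succ l := by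
    intro a
    rw [hG]
    refine Fin.cases ?_ (fun l => ?_) l
    · simp only [D1_zero, D2_succ_zero]
      have d1 : ∀ j, DifferentiableAt ℂ (fun u : Fin N → ℂ => u j * pd j F u) u := fun j =>
        ((analyticAt_coord j u).mul (hpa j)).differentiableAt
      have d2 : DifferentiableAt ℂ (fun u : Fin N → ℂ => ∑ j, u j * pd j F u) u := hsuma.differentiableAt
      rw [pd_add d2.fun_neg (hF.differentiableAt.const_mul _), pd_neg, pd_sum _ fun j _ => d1 j,
        pd_const_mul _ hF.differentiableAt]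
      have e1 : ∀ j, pd a (fun u : Fin N → ℂ => u j * pd j F u) u =
          (if j = a then 1 else 0) * pd j F u + u j * pd a (pd j F) u := by
        intro j
        rw [pd_mul (analyticAt_coord j u).differentiableAt (hpa j).differentiableAt, pd_coord]
      simp only [e1, sum_add_distrib, ite_mul, one_mul, zero_mul, sum_ite_eq', mem_univ, if_true]
      ring
    · simp only [D1_succ, D2_succ_succ]
  have huh : ∀ k : Fin (N + 1), AnalyticAt ℂ (fun u : Fin N → ℂ => uh u k) u := by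
    intro k
    refine Fin.cases ?_ (fun k => ?_) k
    · simp only [uh_zero]; exact analyticAt_const
    · simp only [uh_succ]; exact analyticAt_coord k u
  have hpuh : ∀ (a : Fin N) (k : Fin (N + 1)), pd a (fun u : Fin N → ℂ => uh u k) u =
      if k = a.succ then 1 else 0 := by
    intro a k
    refine Fin.cases ?_ (fun k => ?_) k
    · simp only [uh_zero]
      rw [pd_const, if_neg (Fin.succ_ne_zero a).symm]
    · simp only [uh_succ]
      rw [pd_coord]
      simp only [Fin.succ_inj]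
  have hgen : gen κ k l F = fun u => uh u k * G u := funext fun u => gen_eq κ k l F u
  have hpgen : ∀ a, pd a (gen κ k l F) u = (if k = a.succ then 1 else 0) * G u + uh u k *
      D2 κ u (F u) (fun a => pd a F u) (fun a b => pd a (pd b F) u) a.succ l := by
    intro a
    rw [hgen, pd_mul (huh k).differentiableAt hGa, hpuh, hpG]
  rw [gen_eq]
  congr 1
  have hGu : G u = D1 κ u (F u) (fun a => pd a F u) l := rfl
  refine Fin.cases ?_ (fun j => ?_) j
  · rw [D1_zero]
    simp only [hpgen]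
    have hgu : gen κ k l F u = uh u k * G u := rfl
    rw [hgu]
    have e1 : ∑ j : Fin N, u j * ((if k = j.succ then 1 else 0) * G u + uh u k *
        D2 κ u (F u) (fun a => pd a F u) (fun a b => pd a (pd b F) u) j.succ l) =
        (uh u k - (if k = 0 then 1 else 0)) * G u + uh u k * ∑ j : Fin N, u j *
          D2 κ u (F u) (fun a => pd a F u) (fun a b => pd a (pd b F) u) j.succ l := by
      simp only [mul_add, sum_add_distrib]
      congr 1
      · have e2 : ∑ j : Fin N, u j * ((if k = j.succ then 1 else 0) * G u) =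
            (∑ j : Fin N, u j * (if k = j.succ then 1 else 0)) * G u := by
          rw [sum_mul]; exact sum_congr rfl fun j _ => by ring
        rw [e2]
        congr 1
        refine Fin.cases ?_ (fun k => ?_) k
        · rw [uh_zero, if_pos rfl]
          rw [sum_eq_zero]
          · ring
          · intro j _; rw [if_neg (Fin.succ_ne_zero j).symm, mul_zero]
        · rw [uh_succ, if_neg (Fin.succ_ne_zero k)]
          simp [Fin.succ_inj]
      · rw [mul_sum]; exact sum_congr rfl fun j _ => by ring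
    rw [e1]
    have e3 := D2_row κ u (F u) (fun a => pd a F u) (F2 := fun a b => pd a (pd b F) u)
      (fun a b => pd_symm hF) l
    rw [Fin.sum_univ_succ, uh_zero, one_mul, D2_symm κ u (F u) _ (fun a b => pd_symm hF) l 0] at e3
    have e4 : ∑ j : Fin N, u j * D2 κ u (F u) (fun a => pd a F u) (fun a b => pd a (pd b F) u) j.succ l =
        ∑ j : Fin N, uh u j.succ * D2 κ u (F u) (fun a => pd a F u) (fun a b => pd a (pd b F) u) l j.succ := by
      refine sum_congr rfl fun j _ => ?_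
      rw [uh_succ, D2_symm κ u (F u) _ (fun a b => pd_symm hF) l j.succ]
    rw [e4, hGu]
    linear_combination (-uh u k) * e3
  · rw [D1_succ, hpgen, hGu]

/-- anticommutator of two generators -/
lemma anti_eq (κ : ℂ) (i j k l : Fin (N + 1)) {F : (Fin N → ℂ) → ℂ} {u : Fin N → ℂ}
    (hF : AnalyticAt ℂ F u) :
    gen κ i j (gen κ k l F) u + gen κ k l (gen κ i j F) u =
      2 * (uh u i * uh u k * D2 κ u (F u) (fun a => pd a F u) (fun a b => pd a (pd b F) u) j l)
      + (if k = j then 1 else 0) * (uh u i * D1 κ u (F u) (fun a => pd a F u) l)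
      + (if i = l then 1 else 0) * (uh u k * D1 κ u (F u) (fun a => pd a F u) j) := by
  rw [gen_gen κ i j k l hF, gen_gen κ k l i j hF, D2_symm κ u (F u) _ (fun a b => pd_symm hF) l j]
  ring

/-- commutator of two generators -/
lemma gen_comm (κ : ℂ) (i j k l : Fin (N + 1)) {F : (Fin N → ℂ) → ℂ} {u : Fin N → ℂ}
    (hF : AnalyticAt ℂ F u) :
    gen κ i j (gen κ k l F) u - gen κ k l (gen κ i j F) u =
      (if j = k then gen κ i l F u else 0) - (if i = l then gen κ k j F u else 0) := by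
  rw [gen_gen κ i j k l hF, gen_gen κ k l i j hF, D2_symm κ u (F u) _ (fun a b => pd_symm hF) l j,
    gen_eq, gen_eq]
  simp only [eq_comm (a := k) (b := j)]
  split_ifs <;> ring

end Pool.Agent.Helper487.ECM
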