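import Pool.Agent.Helper487.ECM.Diag

/-! Identities for a fixed configuration of zeros. -/

open Filter Topology Asymptotics Finset
open scoped Nat PeriodPair

namespace Pool.Agent.Helper487.ECM

variable (L : PeriodPair)

/-- A generic configuration: `y` are `N` zeros, `s` is the remaining zero of `φ = ∑_{k ≤ N} c_k b_k`. -/
structure Conf (N : ℕ) (y : Fin N → ℂ) (s : ℂ) (c : ℕ → ℂ) : Prop where
  hN : 2 ≤ N
  hy : ∀ i, y i ∈ Dom L
  hs : s ∈ Dom L
  hyy : ∀ i j, i ≠ j → wp L 0 (y i) ≠ wp L 0 (y j)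
  hys : ∀ i, wp L 0 (y i) ≠ wp L 0 s
  hy1 : ∀ i, wp L 1 (y i) ≠ 0
  c0 : c 0 = 1
  z0 : ∀ i, ph L (N + 1) c (y i) = 0
  zs : ph L (N + 1) c s = 0
  f1 : ∀ i, ph1 L (N + 1) c (y i) ≠ 0
  fs : ph1 L (N + 1) c s ≠ 0
  interp : ∀ d : ℕ → ℂ, (∀ i, ph L (N + 1) d (y i) = 0) → ∀ k < N + 1, d k = d 0 * c k

lemma ph_congr {n : ℕ} {c d : ℕ → ℂ} (h : ∀ k < n, c k = d k) (z : ℂ) :
    ph L n c z = ph L n d z := by
  unfold ph
  exact sum_congr rfl fun k hk => by rw [h k (Finset.mem_range.mp hk)]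

lemma ph1_congr {n : ℕ} {c d : ℕ → ℂ} (h : ∀ k < n, c k = d k) (z : ℂ) :
    ph1 L n c z = ph1 L n d z := by
  unfold ph1
  exact sum_congr rfl fun k hk => by rw [h k (Finset.mem_range.mp hk)]

lemma ph_add (n : ℕ) (c d : ℕ → ℂ) (z : ℂ) :
    ph L n (fun k => c k + d k) z = ph L n c z + ph L n d z := by
  unfold ph
  rw [← sum_add_distrib]
  exact sum_congr rfl fun k _ => by ring

lemma ph_sub (n : ℕ) (c d : ℕ → ℂ) (z : ℂ) :
    ph L n (fun k => c k - d k) z = ph L n c z - ph L n d z := by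
  unfold ph
  rw [← sum_sub_distrib]
  exact sum_congr rfl fun k _ => by ring

lemma ph_smul (n : ℕ) (a : ℂ) (c : ℕ → ℂ) (z : ℂ) :
    ph L n (fun k => a * c k) z = a * ph L n c z := by
  unfold ph
  rw [mul_sum]
  exact sum_congr rfl fun k _ => by ring

lemma ph_sum {ι : Type*} (s : Finset ι) (n : ℕ) (c : ι → ℕ → ℂ) (z : ℂ) :
    ph L n (fun k => ∑ i ∈ s, c i k) z = ∑ i ∈ s, ph L n (c i) z := by
  unfold ph
  rw [sum_comm]
  exact sum_congr rfl fun k _ => by rw [sum_mul]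

lemma ph1_add (n : ℕ) (c d : ℕ → ℂ) (z : ℂ) :
    ph1 L n (fun k => c k + d k) z = ph1 L n c z + ph1 L n d z := by
  unfold ph1
  rw [← sum_add_distrib]
  exact sum_congr rfl fun k _ => by ring

lemma ph1_sub (n : ℕ) (c d : ℕ → ℂ) (z : ℂ) :
    ph1 L n (fun k => c k - d k) z = ph1 L n c z - ph1 L n d z := by
  unfold ph1
  rw [← sum_sub_distrib]
  exact sum_congr rfl fun k _ => by ring

lemma ph1_smul (n : ℕ) (a : ℂ) (c : ℕ → ℂ) (z : ℂ) :
    ph1 L n (fun k => a * c k) z = a * ph1 L n c z := by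
  unfold ph1
  rw [mul_sum]
  exact sum_congr rfl fun k _ => by ring

lemma ph1_sum {ι : Type*} (s : Finset ι) (n : ℕ) (c : ι → ℕ → ℂ) (z : ℂ) :
    ph1 L n (fun k => ∑ i ∈ s, c i k) z = ∑ i ∈ s, ph1 L n (c i) z := by
  unfold ph1
  rw [sum_comm]
  exact sum_congr rfl fun k _ => by rw [sum_mul]

/-- value of the kernel when the second argument is a zero -/
lemma RR_zero {n : ℕ} (hn : 2 ≤ n) (c : ℕ → ℂ) {z w : ℂ} (hz : z ∈ Dom L) (hw : w ∈ Dom L)
    (hne : wp L 0 z ≠ wp L 0 w) (h0 : ph L n c w = 0) :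
    RR L n c z w = Q L z w * ph L n c z * ph1 L n c w - (1 / (n : ℂ)) * (ph1 L n c z * ph1 L n c w)
      + (1 / (2 * (n : ℂ))) * (ph L n c z * ph2 L n c w) := by
  rw [← R0_eq L hn c hz hw hne]
  unfold R0 K
  rw [h0]
  ring

/-- `ρ(z) = ∑ ρ_{k0} b_k(z)` -/
noncomputable def rhof (n : ℕ) (c : ℕ → ℂ) (z : ℂ) : ℂ := ph L n (fun k => rho L n c k 0) z

lemma RRc_zero (n : ℕ) (c : ℕ → ℂ) (w : ℂ) : RRc L n c w 0 = rhof L n c w := by
  unfold RRc rhof ph
  exact sum_congr rfl fun l _ => by rw [rho_symm]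

variable {L}

namespace Conf

variable {N : ℕ} {y : Fin N → ℂ} {s : ℂ} {c : ℕ → ℂ}

lemma hn (h : Conf L N y s c) : 2 ≤ N + 1 := by have := h.hN; omega

lemma nne (_h : Conf L N y s c) : ((N : ℂ) + 1) ≠ 0 := by exact_mod_cast (by omega : N + 1 ≠ 0)

lemma RR_off (h : Conf L N y s c) {i j : Fin N} (hij : i ≠ j) :
    RR L (N + 1) c (y i) (y j) = -(1 / ((N : ℂ) + 1)) * (ph1 L (N + 1) c (y i) * ph1 L (N + 1) c (y j)) := by
  rw [RR_zero L h.hn c (h.hy i) (h.hy j) (h.hyy i j hij) (h.z0 j), h.z0 i]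
  push_cast; ring

lemma RR_offs (h : Conf L N y s c) (i : Fin N) :
    RR L (N + 1) c (y i) s = -(1 / ((N : ℂ) + 1)) * (ph1 L (N + 1) c (y i) * ph1 L (N + 1) c s) := by
  rw [RR_zero L h.hn c (h.hy i) h.hs (h.hys i) h.zs, h.z0 i]
  push_cast; ring

lemma RR_on (h : Conf L N y s c) (i : Fin N) :
    RR L (N + 1) c (y i) (y i) = (N / ((N : ℂ) + 1)) * (ph1 L (N + 1) c (y i)) ^ 2 := by
  rw [RR_diag L h.hn c (h.hy i) (h.hy1 i), h.z0 i]
  push_cast; ring

/-- the inverse metric -/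
noncomputable def _root_.Pool.Agent.Helper487.ECM.gg (N : ℕ) (i j : Fin N) : ℂ :=
  (if i = j then 1 else 0) - 1 / ((N : ℂ) + 1)

lemma RR_val (h : Conf L N y s c) (i j : Fin N) :
    RR L (N + 1) c (y i) (y j) = gg N i j * (ph1 L (N + 1) c (y i) * ph1 L (N + 1) c (y j)) := by
  have hn := h.nne
  by_cases hij : i = j
  · subst hij
    rw [h.RR_on, gg, if_pos rfl]; field_simp; ring
  · rw [h.RR_off hij, gg, if_neg hij]; ring

/-- the constant in the logarithmic derivative -/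
theorem exists_kappa (h : Conf L N y s c) : ∃ κ : ℂ, ∀ z ∈ Dom L, (∀ i, wp L 0 z ≠ wp L 0 (y i)) →
    wp L 0 z ≠ wp L 0 s →
    ph1 L (N + 1) c z = ph L (N + 1) c z * (∑ i, Q L z (y i) + Q L z s + κ) := by
  have hn := h.nne
  set e : ℕ → ℂ := fun k => (∑ i, (-(1 / ph1 L (N + 1) c (y i))) * RRc L (N + 1) c (y i) k
    + (-(1 / ph1 L (N + 1) c s)) * RRc L (N + 1) c s k)
    + (1 / (2 * ((N : ℂ) + 1)) * (∑ i, ph2 L (N + 1) c (y i) / ph1 L (N + 1) c (y i)
      + ph2 L (N + 1) c s / ph1 L (N + 1) c s)) * c k with he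
  have hph : ∀ z, ph L (N + 1) e z = (∑ i, (-(1 / ph1 L (N + 1) c (y i))) * RR L (N + 1) c z (y i)
    + (-(1 / ph1 L (N + 1) c s)) * RR L (N + 1) c z s)
    + (1 / (2 * ((N : ℂ) + 1)) * (∑ i, ph2 L (N + 1) c (y i) / ph1 L (N + 1) c (y i)
      + ph2 L (N + 1) c s / ph1 L (N + 1) c s)) * ph L (N + 1) c z := by
    intro z
    rw [he, ph_add, ph_add, ph_sum, ph_smul, ph_smul]
    simp only [ph_smul, RR_eq_ph]
  have hzero : ∀ i, ph L (N + 1) e (y i) = 0 := by
    intro i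
    rw [hph, h.z0 i, h.RR_offs i]
    have e1 : ∀ j, (-(1 / ph1 L (N + 1) c (y j))) * RR L (N + 1) c (y i) (y j) =
        - gg N i j * ph1 L (N + 1) c (y i) := by
      intro j
      have := h.f1 j
      rw [h.RR_val i j]; field_simp
    rw [sum_congr rfl fun j _ => e1 j]
    have e2 : ∑ j, -gg N i j * ph1 L (N + 1) c (y i) =
        -(1 - N * (1 / ((N:ℂ) + 1))) * ph1 L (N + 1) c (y i) := by
      rw [← sum_mul]
      congr 1
      unfold gg
      simp [sum_sub_distrib]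
    rw [e2]
    have := h.fs
    field_simp
    ring
  have hint := h.interp e hzero
  refine ⟨e 0, fun z hz h1 h2 => ?_⟩
  have e3 : ph L (N + 1) e z = e 0 * ph L (N + 1) c z := by
    rw [← ph_smul]; exact ph_congr L hint z
  have e4 : ∀ i, (-(1 / ph1 L (N + 1) c (y i))) * RR L (N + 1) c z (y i) =
      - Q L z (y i) * ph L (N + 1) c z + (1 / ((N : ℂ) + 1)) * ph1 L (N + 1) c z
      - (1 / (2 * ((N : ℂ) + 1))) * ph L (N + 1) c z * (ph2 L (N + 1) c (y i) / ph1 L (N + 1) c (y i)) := by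
    intro i
    have := h.f1 i
    rw [RR_zero L h.hn c hz (h.hy i) (h1 i) (h.z0 i)]
    push_cast; field_simp; ring
  have e5 : (-(1 / ph1 L (N + 1) c s)) * RR L (N + 1) c z s =
      - Q L z s * ph L (N + 1) c z + (1 / ((N : ℂ) + 1)) * ph1 L (N + 1) c z
      - (1 / (2 * ((N : ℂ) + 1))) * ph L (N + 1) c z * (ph2 L (N + 1) c s / ph1 L (N + 1) c s) := by
    have := h.fs
    rw [RR_zero L h.hn c hz h.hs h2 h.zs]
    push_cast; field_simp; ring
  have e6 := hph z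
  rw [sum_congr rfl fun i _ => e4 i, e5, e3] at e6
  simp only [sum_add_distrib, sum_sub_distrib, ← sum_mul, ← mul_sum, sum_neg_distrib, sum_const,
    card_univ, Fintype.card_fin, nsmul_eq_mul] at e6
  have e7 : (N : ℂ) * ((1 / ((N : ℂ) + 1)) * ph1 L (N + 1) c z) + (1 / ((N : ℂ) + 1)) * ph1 L (N + 1) c z
     = ph1 L (N + 1) c z := by field_simp
  linear_combination (-1 : ℂ) * e6 - e7

/-- the constant -/
noncomputable def kappa (h : Conf L N y s c) : ℂ := h.exists_kappa.choose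

lemma kappa_spec (h : Conf L N y s c) {z : ℂ} (hz : z ∈ Dom L) (h1 : ∀ i, wp L 0 z ≠ wp L 0 (y i))
    (h2 : wp L 0 z ≠ wp L 0 s) :
    ph1 L (N + 1) c z = ph L (N + 1) c z * (∑ i, Q L z (y i) + Q L z s + h.kappa) :=
  h.exists_kappa.choose_spec z hz h1 h2

end Conf

variable (L) in
/-- the sum of `Q(y_i, y_j)` over the remaining zeros -/
noncomputable def Qs (N : ℕ) (y : Fin N → ℂ) (s : ℂ) (i : Fin N) : ℂ :=
  ∑ j ∈ univ.erase i, Q L (y i) (y j) + Q L (y i) s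

namespace Conf

variable {N : ℕ} {y : Fin N → ℂ} {s : ℂ} {c : ℕ → ℂ}

theorem ph2_eq (h : Conf L N y s c) (i : Fin N) :
    ph2 L (N + 1) c (y i) = 2 * ph1 L (N + 1) c (y i) * (Qs L N y s i + h.kappa) := by
  have hn := h.nne
  set S : ℂ → ℂ := fun z => ∑ j ∈ univ.erase i, Q L z (y j) + Q L z s + h.kappa with hS
  have hSd : DifferentiableAt ℂ S (y i) := by
    have hsum : DifferentiableAt ℂ (fun z => ∑ j ∈ univ.erase i, Q L z (y j)) (y i) := by
      have := HasDerivAt.fun_sum (u := univ.erase i) (A := fun j z => Q L z (y j))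
        (A' := fun j => wp L 0 (y i) - wp L 0 (y i - y j)) (x := y i)
        (fun j hj => hasDerivAt_Q_left L (h.hy i) (h.hy j) (h.hyy i j (ne_of_mem_erase hj).symm))
      exact this.differentiableAt
    have hs1 : DifferentiableAt ℂ (fun z => Q L z s) (y i) :=
      (hasDerivAt_Q_left L (h.hy i) h.hs (h.hys i)).differentiableAt
    exact (hsum.add hs1).add_const _
  -- the identity near y i
  set F : ℂ → ℂ := fun z => ph1 L (N + 1) c (y i) * (ph1 L (N + 1) c z - ph L (N + 1) c z * S z)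
    - (1 / ((N : ℂ) + 1)) * (ph1 L (N + 1) c z * ph1 L (N + 1) c (y i))
    + (1 / (2 * ((N : ℂ) + 1))) * (ph L (N + 1) c z * ph2 L (N + 1) c (y i)) with hF
  have hFd : HasDerivAt F (ph1 L (N + 1) c (y i) * (ph2 L (N + 1) c (y i) - ph1 L (N + 1) c (y i) * S (y i))
    - (1 / ((N : ℂ) + 1)) * (ph2 L (N + 1) c (y i) * ph1 L (N + 1) c (y i))
    + (1 / (2 * ((N : ℂ) + 1))) * (ph1 L (N + 1) c (y i) * ph2 L (N + 1) c (y i))) (y i) := by
    have d0 := hasDerivAt_ph L (N + 1) c (h.hy i)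
    have d1 := hasDerivAt_ph1 L (N + 1) c (h.hy i)
    refine ((((d1.sub (d0.mul hSd.hasDerivAt)).const_mul (ph1 L (N + 1) c (y i))).sub
      ((d1.mul_const (ph1 L (N + 1) c (y i))).const_mul (1 / ((N : ℂ) + 1)))).add
      ((d0.mul_const (ph2 L (N + 1) c (y i))).const_mul (1 / (2 * ((N : ℂ) + 1))))).congr_deriv ?_
    rw [h.z0 i]; ring
  have hGd : HasDerivAt (fun z => RR L (N + 1) c z (y i))
      (ph1 L (N + 1) (RRc L (N + 1) c (y i)) (y i)) (y i) := by
    have e : (fun z => RR L (N + 1) c z (y i)) = ph L (N + 1) (RRc L (N + 1) c (y i)) :=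
      funext fun z => RR_eq_ph L _ _ _ _
    rw [e]; exact hasDerivAt_ph L _ _ (h.hy i)
  have hpunct : ∀ᶠ z in 𝓝[≠] (y i), RR L (N + 1) c z (y i) = F z := by
    have a1 := eventually_ne_of_wp_one L (h.hy i) (h.hy1 i)
    have a2 : ∀ᶠ z in 𝓝[≠] (y i), z ∈ Dom L :=
      mem_nhdsWithin_of_mem_nhds ((isOpen_Dom L).mem_nhds (h.hy i))
    have a3 : ∀ᶠ z in 𝓝[≠] (y i), ∀ j, j ≠ i → wp L 0 z ≠ wp L 0 (y j) := by
      rw [eventually_all]
      intro j
      by_cases hj : j = i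
      · exact Eventually.of_forall fun z hz => absurd hj hz
      · have := (analyticAt_wp L 0 (h.hy i)).continuousAt.eventually_ne (h.hyy i j (Ne.symm hj))
        filter_upwards [mem_nhdsWithin_of_mem_nhds this] with z hz _ using hz
    have a4 : ∀ᶠ z in 𝓝[≠] (y i), wp L 0 z ≠ wp L 0 s :=
      mem_nhdsWithin_of_mem_nhds ((analyticAt_wp L 0 (h.hy i)).continuousAt.eventually_ne (h.hys i))
    filter_upwards [a1, a2, a3, a4] with z h1 h2 h3 h4
    have hall : ∀ j, wp L 0 z ≠ wp L 0 (y j) := by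
      intro j
      by_cases hj : j = i
      · subst hj; exact h1.symm
      · exact h3 j hj
    have hk := h.kappa_spec h2 hall h4
    rw [RR_zero L h.hn c h2 (h.hy i) h1.symm (h.z0 i), hF, hS]
    rw [← add_sum_erase univ _ (mem_univ i)] at hk
    push_cast
    linear_combination (-ph1 L (N + 1) c (y i)) * hk
  have heq : (fun z => RR L (N + 1) c z (y i)) =ᶠ[𝓝 (y i)] F := by
    have hcont : RR L (N + 1) c (y i) (y i) = F (y i) := by
      have t1 : Tendsto (fun z => RR L (N + 1) c z (y i)) (𝓝[≠] (y i)) (𝓝 (RR L (N + 1) c (y i) (y i))) :=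
        hGd.continuousAt.tendsto.mono_left nhdsWithin_le_nhds
      have t2 : Tendsto F (𝓝[≠] (y i)) (𝓝 (F (y i))) :=
        hFd.continuousAt.tendsto.mono_left nhdsWithin_le_nhds
      exact tendsto_nhds_unique (t1.congr' hpunct) t2
    rw [eventually_nhdsWithin_iff] at hpunct
    filter_upwards [hpunct] with z hz
    by_cases hzi : z = y i
    · rw [hzi]; exact hcont
    · exact hz hzi
  have hu := hGd.unique (hFd.congr_of_eventuallyEq heq)
  rw [RR_diag_deriv L h.hn c (h.hy i) (h.hy1 i) (h.z0 i)] at hu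
  have hSv : S (y i) = Qs L N y s i + h.kappa := rfl
  rw [hSv] at hu
  have hf := h.f1 i
  push_cast at hu
  field_simp at hu
  have h2 : ph1 L (N + 1) c (y i) * (ph2 L (N + 1) c (y i) -
      2 * ph1 L (N + 1) c (y i) * (Qs L N y s i + h.kappa)) = 0 := by
    have h3 : ((N : ℂ) + 1) * (ph1 L (N + 1) c (y i) * (ph2 L (N + 1) c (y i) -
      2 * ph1 L (N + 1) c (y i) * (Qs L N y s i + h.kappa))) = 0 := by
      linear_combination (-ph1 L (N + 1) c (y i)) * hu
    exact (mul_eq_zero.mp h3).resolve_left hn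
  have := (mul_eq_zero.mp h2).resolve_left hf
  linear_combination this

end Conf

end Pool.Agent.Helper487.ECM
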