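import Pool.Agent.Helper487.ECM.Conf

/-! Further identities for a fixed configuration of zeros. -/

open Filter Topology Asymptotics Finset
open scoped Nat PeriodPair

namespace Pool.Agent.Helper487.ECM

variable {L : PeriodPair}

namespace Conf

variable {N : ℕ} {y : Fin N → ℂ} {s : ℂ} {c : ℕ → ℂ}

theorem RR_row (h : Conf L N y s c) {z : ℂ} (hz : z ∈ Dom L) (h1 : ∀ i, wp L 0 z ≠ wp L 0 (y i))
    (h2 : wp L 0 z ≠ wp L 0 s) (i : Fin N) :
    -(RR L (N + 1) c z (y i) - ph L (N + 1) c z * rhof L (N + 1) c (y i)) / ph1 L (N + 1) c (y i) =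
      ph L (N + 1) c z * (-Q L z (y i) + (1 / ((N : ℂ) + 1)) * (∑ j, Q L z (y j) + Q L z s)
        - (1 / ((N : ℂ) + 1)) * Qs L N y s i + rhof L (N + 1) c (y i) / ph1 L (N + 1) c (y i)) := by
  have hn := h.nne
  have hf := h.f1 i
  rw [RR_zero L h.hn c hz (h.hy i) (h1 i) (h.z0 i), h.kappa_spec hz h1 h2, h.ph2_eq i]
  push_cast
  field_simp
  ring

theorem ph2_gen (h : Conf L N y s c) {z : ℂ} (hz : z ∈ Dom L) (h1 : ∀ i, wp L 0 z ≠ wp L 0 (y i))
    (h2 : wp L 0 z ≠ wp L 0 s) :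
    ph2 L (N + 1) c z = ph1 L (N + 1) c z * (∑ i, Q L z (y i) + Q L z s + h.kappa) +
      ph L (N + 1) c z * ((N + 1) * wp L 0 z - (∑ i, wp L 0 (z - y i) + wp L 0 (z - s))) := by
  have dS : HasDerivAt (fun z => ∑ i, Q L z (y i) + Q L z s + h.kappa)
      (∑ i, (wp L 0 z - wp L 0 (z - y i)) + (wp L 0 z - wp L 0 (z - s))) z :=
    ((HasDerivAt.fun_sum fun i _ => hasDerivAt_Q_left L hz (h.hy i) (h1 i)).add
      (hasDerivAt_Q_left L hz h.hs h2)).add_const _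
  have d0 := hasDerivAt_ph L (N + 1) c hz
  have dR := d0.mul dS
  have dL := hasDerivAt_ph1 L (N + 1) c hz
  have heq : (ph1 L (N + 1) c) =ᶠ[𝓝 z] (ph L (N + 1) c * fun z => ∑ i, Q L z (y i) + Q L z s + h.kappa) := by
    have a1 : ∀ᶠ w in 𝓝 z, ∀ i, wp L 0 w ≠ wp L 0 (y i) := by
      rw [eventually_all]
      exact fun i => (analyticAt_wp L 0 hz).continuousAt.eventually_ne (h1 i)
    have a2 : ∀ᶠ w in 𝓝 z, wp L 0 w ≠ wp L 0 s :=
      (analyticAt_wp L 0 hz).continuousAt.eventually_ne h2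
    filter_upwards [a1, a2, (isOpen_Dom L).mem_nhds hz] with w hw1 hw2 hwD
    exact h.kappa_spec hwD hw1 hw2
  have hu := dL.unique (dR.congr_of_eventuallyEq heq)
  rw [hu, sum_sub_distrib]
  simp only [sum_const, card_univ, Fintype.card_fin, nsmul_eq_mul]
  ring

theorem RR_diag_gen (h : Conf L N y s c) {z : ℂ} (hz : z ∈ Dom L) (h1 : ∀ i, wp L 0 z ≠ wp L 0 (y i))
    (h2 : wp L 0 z ≠ wp L 0 s) (hz1 : wp L 1 z ≠ 0) :
    RR L (N + 1) c z z = (N / ((N : ℂ) + 1)) * ph L (N + 1) c z ^ 2 *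
      (∑ i, wp L 0 (z - y i) + wp L 0 (z - s)) := by
  have hn := h.nne
  rw [RR_diag L h.hn c hz hz1, h.ph2_gen hz h1 h2, h.kappa_spec hz h1 h2]
  push_cast
  field_simp
  ring

end Conf

end Pool.Agent.Helper487.ECM
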