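import Pool.Agent.Helper487.ECM.Val

/-! Identities on the image of the domain are identities everywhere. -/

open Filter Topology Finset
open scoped Nat PeriodPair

namespace Pool.Agent.Helper487.ECM

variable {L : PeriodPair} {N : ℕ}

lemma eventually_diff {y : Fin N → ℂ} (hd : ∀ i j : Fin (N + 1), i ≠ j → ext y i - ext y j ∉ L.lattice) :
    ∀ᶠ y' in 𝓝 y, ∀ i j : Fin (N + 1), i ≠ j → ext y' i - ext y' j ∉ L.lattice := by
  rw [eventually_all]; intro i
  rw [eventually_all]; intro j
  by_cases hij : i = j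
  · exact Eventually.of_forall fun _ h => absurd hij h
  · have c : ContinuousAt (fun y => ext y i - ext y j) y :=
      ((analyticAt_ext i y).sub (analyticAt_ext j y)).continuousAt
    filter_upwards [c.preimage_mem_nhds ((isOpen_Dom L).mem_nhds (hd i j hij))] with y' h' _
    exact h'

lemma UU_eventually {y : Fin N → ℂ} (h : y ∈ UU L N) : ∀ᶠ y' in 𝓝 y, y' ∈ UU L N := by
  have hr := UU_reg h
  filter_upwards [hr.eventually, hr.analyticAt_Dj.continuousAt.eventually_ne h.2.2.1,
    eventually_diff h.2.2.2] with y' h1 h2 h3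
  exact ⟨h1.hy, h1.hW, h2, h3⟩

lemma UU_nonempty (L : PeriodPair) (hN : 1 ≤ N) : ∃ y : Fin N → ℂ, y ∈ UU L N := by
  have ha : ∀ i, (ar N i : ℂ) ≠ 0 := fun i => by
    have : 0 < ar N i := by unfold ar; positivity
    exact_mod_cast this.ne'
  have hinj : Function.Injective fun i => (ar N i : ℂ) := by
    intro i j hij
    have h3 : ar N i = ar N j := Complex.ofReal_injective hij
    unfold ar at h3
    have : (i : ℝ) = j := by linarith
    exact Fin.ext (by exact_mod_cast this)
  have hdiff : ∀ᶠ t in 𝓝[≠] (0:ℂ), ∀ i j : Fin (N + 1), i ≠ j →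
      ext (fun i => t * (ar N i : ℂ)) i - ext (fun i => t * (ar N i : ℂ)) j ∉ L.lattice := by
    rw [eventually_all]; intro i
    rw [eventually_all]; intro j
    by_cases hij : i = j
    · exact Eventually.of_forall fun _ h => absurd hij h
    · filter_upwards [(tendsto_smul_punct (ext_ne hN hij)).eventually (eventually_Dom L)] with t ht _
      rw [ext_scale, ext_scale, ← mul_sub]
      exact ht
  obtain ⟨t, ht, hd⟩ := ((eventually_reg_scale (L := L) ha hinj).and hdiff).exists
  obtain ⟨U, hU, hUo, hyU⟩ := eventually_nhds_iff.mp (eventually_diff hd)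
  obtain ⟨y', hy'U, hr', hf'⟩ := exists_all_f1 (L := L) univ U hUo ⟨_, hyU, ht.1⟩
  have hf'' : ∀ i, ph1 L (N + 1) (cc L y') (y' i) ≠ 0 := fun i => hf' i (mem_univ i)
  exact ⟨y', hr'.hy, hr'.hW, hr'.D_of_f1 hf'', hU y' hy'U⟩

lemma map_nhds_uu {y : Fin N → ℂ} (h : y ∈ UU L N) : map (uu L) (𝓝 y) = 𝓝 (uu L y) := by
  have hr := UU_reg h
  have hA := hr.analyticAt_uuv
  refine hA.hasStrictFDerivAt.map_nhds_eq_of_surj ?_
  have hsurj : Function.Surjective (Jm L y).mulVec := by
    rw [Matrix.mulVec_surjective_iff_isUnit, Matrix.isUnit_iff_isUnit_det]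
    exact isUnit_iff_ne_zero.mpr h.2.2.1
  have hf : ∀ v : Fin N → ℂ, fderiv ℂ (uu L) y v = (Jm L y).mulVec v := by
    intro v
    have h3 : v = ∑ i, (v i) • (Pi.single i (1 : ℂ) : Fin N → ℂ) := by
      funext b
      simp [Finset.sum_apply, Pi.single_apply]
    conv_lhs => rw [h3]
    rw [map_sum]
    funext a
    rw [Finset.sum_apply]
    simp only [map_smul, Pi.smul_apply, smul_eq_mul]
    have e : (Jm L y).mulVec v a = ∑ i, Jm L y a i * v i := rfl
    rw [e]
    refine sum_congr rfl fun i _ => ?_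
    have : Jm L y a i = fderiv ℂ (uu L) y (Pi.single i 1) a := by
      unfold Jm pd
      rw [Matrix.of_apply, fderiv_apply hA.differentiableAt a]
      rfl
    rw [this, mul_comm]
  rw [LinearMap.range_eq_top]
  intro w
  obtain ⟨v, hv⟩ := hsurj w
  exact ⟨v, by rw [← hv]; exact hf v⟩

/-- an analytic identity on the image of the domain holds everywhere -/
theorem identity_of_UU (hN : 1 ≤ N) {P : (Fin N → ℂ) → ℂ} (hP : AnalyticOnNhd ℂ P Set.univ)
    (h : ∀ y ∈ UU L N, P (uu L y) = 0) (u : Fin N → ℂ) : P u = 0 := by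
  obtain ⟨y0, hy0⟩ := UU_nonempty L hN
  have h1 : ∀ᶠ u in 𝓝 (uu L y0), P u = 0 := by
    rw [← map_nhds_uu hy0, eventually_map]
    exact (UU_eventually hy0).mono h
  have h2 := hP.eq_of_eventuallyEq (g := fun _ => 0) analyticOnNhd_const h1
  rw [h2]

end Pool.Agent.Helper487.ECM
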