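import Pool.Agent.Helper487.ECM.Kernel

/-! Diagonal values of the kernel. -/

open Filter Topology Asymptotics Finset
open scoped Nat PeriodPair

namespace Pool.Agent.Helper487.ECM

variable (L : PeriodPair)

lemma hasDerivAt_ph (n : ℕ) (c : ℕ → ℂ) {z : ℂ} (hz : z ∈ Dom L) :
    HasDerivAt (ph L n c) (ph1 L n c z) z :=
  HasDerivAt.fun_sum fun k _ => (hasDerivAt_bw L k hz).const_mul _

lemma hasDerivAt_ph1 (n : ℕ) (c : ℕ → ℂ) {z : ℂ} (hz : z ∈ Dom L) :
    HasDerivAt (ph1 L n c) (ph2 L n c z) z :=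
  HasDerivAt.fun_sum fun k _ => (hasDerivAt_bw1 L k hz).const_mul _

lemma analyticAt_bw (k : ℕ) {z : ℂ} (hz : z ∈ Dom L) : AnalyticAt ℂ (bw L k) z := by
  cases k with
  | zero =>
    have : bw L 0 = fun _ => 1 := funext (bw_zero L)
    rw [this]; exact analyticAt_const
  | succ k =>
    have : bw L (k + 1) = wp L k := funext (bw_succ L k)
    rw [this]; exact analyticAt_wp L k hz

lemma analyticAt_bw1 (k : ℕ) {z : ℂ} (hz : z ∈ Dom L) : AnalyticAt ℂ (bw1 L k) z := by
  cases k with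
  | zero =>
    have : bw1 L 0 = fun _ => 0 := funext fun z => by simp [bw1]
    rw [this]; exact analyticAt_const
  | succ k =>
    have : bw1 L (k + 1) = wp L (k + 1) := funext fun z => by simp [bw1]
    rw [this]; exact analyticAt_wp L _ hz

lemma analyticAt_bw2 (k : ℕ) {z : ℂ} (hz : z ∈ Dom L) : AnalyticAt ℂ (bw2 L k) z := by
  cases k with
  | zero =>
    have : bw2 L 0 = fun _ => 0 := funext fun z => by simp [bw2]
    rw [this]; exact analyticAt_const
  | succ k =>
    have : bw2 L (k + 1) = wp L (k + 2) := funext fun z => by simp [bw2]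
    rw [this]; exact analyticAt_wp L _ hz

lemma analyticAt_ph2 (n : ℕ) (c : ℕ → ℂ) {z : ℂ} (hz : z ∈ Dom L) :
    AnalyticAt ℂ (ph2 L n c) z :=
  Finset.analyticAt_fun_sum _ fun k _ => analyticAt_const.mul (analyticAt_bw2 L k hz)

/-- coefficients of the kernel in the first variable -/
noncomputable def RRc (n : ℕ) (c : ℕ → ℂ) (w : ℂ) (k : ℕ) : ℂ :=
  ∑ l ∈ range n, rho L n c k l * bw L l w

lemma RR_eq_ph (n : ℕ) (c : ℕ → ℂ) (z w : ℂ) : RR L n c z w = ph L n (RRc L n c w) z := by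
  unfold RR ph RRc
  refine sum_congr rfl fun k _ => ?_
  rw [sum_mul]
  exact sum_congr rfl fun l _ => by ring

lemma eventually_ne_of_wp_one {z : ℂ} (hz : z ∈ Dom L) (h1 : wp L 1 z ≠ 0) :
    ∀ᶠ w in 𝓝[≠] z, wp L 0 z ≠ wp L 0 w := by
  filter_upwards [(hasDerivAt_wp L 0 hz).eventually_ne h1 (c := wp L 0 z)] with w hw
  exact fun h => hw h.symm

lemma tendsto_Q_diag {z : ℂ} (hz : z ∈ Dom L) (h1 : wp L 1 z ≠ 0) :
    Tendsto (fun w => Q L z w * (w - z)) (𝓝[≠] z) (𝓝 (-1)) := by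
  have hs := (hasDerivAt_iff_tendsto_slope.mp (hasDerivAt_wp L 0 hz))
  have hc : Tendsto (fun w => wp L 1 z + wp L 1 w) (𝓝[≠] z) (𝓝 (wp L 1 z + wp L 1 z)) :=
    tendsto_const_nhds.add ((analyticAt_wp L 1 hz).continuousAt.tendsto.mono_left nhdsWithin_le_nhds)
  have h2 := (hc.div hs h1).const_mul (-(1 / 2 : ℂ))
  have e : -(1 / 2 : ℂ) * ((wp L 1 z + wp L 1 z) / wp L (0 + 1) z) = -1 := by
    rw [zero_add]; field_simp; norm_num
  rw [e] at h2
  refine h2.congr' ?_
  filter_upwards [eventually_ne_of_wp_one L hz h1, self_mem_nhdsWithin] with w hw hwz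
  have hwz' : w - z ≠ 0 := sub_ne_zero.mpr hwz
  have hw1 : wp L 0 z - wp L 0 w ≠ 0 := sub_ne_zero.mpr hw
  have hw2 : wp L 0 w - wp L 0 z ≠ 0 := sub_ne_zero.mpr hw.symm
  simp only [slope_def_field, Pi.div_apply]
  unfold Q
  rw [show wp L 0 z - wp L 0 w = -(wp L 0 w - wp L 0 z) by ring]
  field_simp

theorem RR_diag {n : ℕ} (hn : 2 ≤ n) (c : ℕ → ℂ) {z : ℂ} (hz : z ∈ Dom L) (h1 : wp L 1 z ≠ 0) :
    RR L n c z z = ((n - 1) / n) *
      (ph1 L n c z ^ 2 - ph L n c z * ph2 L n c z + n * wp L 0 z * ph L n c z ^ 2) := by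
  have hn0 : (n : ℂ) ≠ 0 := by exact_mod_cast (by omega : n ≠ 0)
  have hphc : ContinuousAt (ph L n c) z := (hasDerivAt_ph L n c hz).continuousAt
  have hph1c : ContinuousAt (ph1 L n c) z := (hasDerivAt_ph1 L n c hz).continuousAt
  have hph2c : ContinuousAt (ph2 L n c) z := (analyticAt_ph2 L n c hz).continuousAt
  have hwpc : ContinuousAt (wp L 0) z := (analyticAt_wp L 0 hz).continuousAt
  -- left-hand side is continuous
  have hL : Tendsto (fun w => RR L n c z w) (𝓝[≠] z) (𝓝 (RR L n c z z)) := by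
    have : ContinuousAt (fun w => RR L n c z w) z := by
      have e : (fun w => RR L n c z w) = ph L n (RRc L n c z) :=
        funext fun w => by rw [RR_symm, RR_eq_ph]
      rw [e]; exact (hasDerivAt_ph L n _ hz).continuousAt
    exact this.tendsto.mono_left nhdsWithin_le_nhds
  -- the difference quotient
  have hW : HasDerivAt (fun w => ph1 L n c z * ph L n c w - ph L n c z * ph1 L n c w)
      (ph1 L n c z * ph1 L n c z - ph L n c z * ph2 L n c z) z :=
    ((hasDerivAt_ph L n c hz).const_mul _).sub ((hasDerivAt_ph1 L n c hz).const_mul _)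
  have hW' := hasDerivAt_iff_tendsto_slope.mp hW
  have hQ := (tendsto_Q_diag L hz h1).mul hW'
  have hT1 : Tendsto (fun w => Q L z w * (ph1 L n c z * ph L n c w - ph L n c z * ph1 L n c w))
      (𝓝[≠] z) (𝓝 (-1 * (ph1 L n c z * ph1 L n c z - ph L n c z * ph2 L n c z))) := by
    refine hQ.congr' ?_
    filter_upwards [self_mem_nhdsWithin] with w hwz
    have hwz' : w - z ≠ 0 := sub_ne_zero.mpr hwz
    simp only [slope_def_field]
    field_simp
    ring
  have hrest : Tendsto (fun w => - (1 / (n : ℂ)) * (ph1 L n c z * ph1 L n c w)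
      + (((n : ℂ) - 1) / 2) * ((wp L 0 z + wp L 0 w) * (ph L n c z * ph L n c w))
      + (1 / (2 * (n : ℂ))) * (ph2 L n c z * ph L n c w + ph L n c z * ph2 L n c w)) (𝓝[≠] z)
      (𝓝 (- (1 / (n : ℂ)) * (ph1 L n c z * ph1 L n c z)
      + (((n : ℂ) - 1) / 2) * ((wp L 0 z + wp L 0 z) * (ph L n c z * ph L n c z))
      + (1 / (2 * (n : ℂ))) * (ph2 L n c z * ph L n c z + ph L n c z * ph2 L n c z))) := by
    refine Tendsto.mono_left (ContinuousAt.tendsto (f := fun w => - (1 / (n : ℂ)) * (ph1 L n c z * ph1 L n c w)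
      + (((n : ℂ) - 1) / 2) * ((wp L 0 z + wp L 0 w) * (ph L n c z * ph L n c w))
      + (1 / (2 * (n : ℂ))) * (ph2 L n c z * ph L n c w + ph L n c z * ph2 L n c w)) ?_) nhdsWithin_le_nhds
    fun_prop
  have hall := hT1.neg.add hrest
  have hfin : Tendsto (fun w => RR L n c z w) (𝓝[≠] z)
      (𝓝 (((n - 1) / n) *
      (ph1 L n c z ^ 2 - ph L n c z * ph2 L n c z + n * wp L 0 z * ph L n c z ^ 2))) := by
    have hval : (-(-1 * (ph1 L n c z * ph1 L n c z - ph L n c z * ph2 L n c z)) +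
        (-(1 / (n:ℂ)) * (ph1 L n c z * ph1 L n c z) + ((n:ℂ) - 1) / 2 * ((wp L 0 z + wp L 0 z) * (ph L n c z * ph L n c z)) +
          1 / (2 * (n:ℂ)) * (ph2 L n c z * ph L n c z + ph L n c z * ph2 L n c z))) =
        ((n - 1) / n) * (ph1 L n c z ^ 2 - ph L n c z * ph2 L n c z + n * wp L 0 z * ph L n c z ^ 2) := by
      field_simp
      ring
    rw [← hval]
    refine hall.congr' ?_
    · filter_upwards [eventually_ne_of_wp_one L hz h1,
        mem_nhdsWithin_of_mem_nhds ((isOpen_Dom L).mem_nhds hz)] with w hw hwD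
      rw [← R0_eq L hn c hz hwD hw]
      unfold R0 K
      ring
  exact tendsto_nhds_unique hL hfin

theorem RR_diag_deriv {n : ℕ} (hn : 2 ≤ n) (c : ℕ → ℂ) {z : ℂ} (hz : z ∈ Dom L)
    (h1 : wp L 1 z ≠ 0) (h0 : ph L n c z = 0) :
    ph1 L n (RRc L n c z) z = ((n - 1) / (2 * n)) * (ph1 L n c z * ph2 L n c z) := by
  have hn0 : (n : ℂ) ≠ 0 := by exact_mod_cast (by omega : n ≠ 0)
  have hA : HasDerivAt (fun w => RR L n c w w) (2 * ph1 L n (RRc L n c z) z) z := by
    have h : HasDerivAt (fun w => ∑ k ∈ range n, ∑ l ∈ range n, rho L n c k l * (bw L k w * bw L l w))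
        (∑ k ∈ range n, ∑ l ∈ range n, rho L n c k l * (bw1 L k z * bw L l z + bw L k z * bw1 L l z)) z :=
      HasDerivAt.fun_sum fun k _ => HasDerivAt.fun_sum fun l _ =>
        ((hasDerivAt_bw L k hz).mul (hasDerivAt_bw L l hz)).const_mul _
    refine h.congr_deriv ?_
    have e1 : ph1 L n (RRc L n c z) z = ∑ k ∈ range n, ∑ l ∈ range n, rho L n c k l * (bw1 L k z * bw L l z) := by
      unfold ph1 RRc
      refine sum_congr rfl fun k _ => ?_
      rw [sum_mul]
      exact sum_congr rfl fun l _ => by ring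
    have e2 : ph1 L n (RRc L n c z) z = ∑ k ∈ range n, ∑ l ∈ range n, rho L n c k l * (bw L k z * bw1 L l z) := by
      rw [e1, sum_comm]
      exact sum_congr rfl fun k _ => sum_congr rfl fun l _ => by rw [rho_symm L n c l k]; ring
    rw [two_mul]
    conv_rhs => rw [e1]
    have : ∑ k ∈ range n, ∑ l ∈ range n, rho L n c k l * (bw1 L k z * bw L l z) = ph1 L n (RRc L n c z) z := e1.symm
    simp only [mul_add, sum_add_distrib]
    rw [← e1, ← e2]
  have hB : HasDerivAt (fun w => ((n - 1) / n : ℂ) *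
      (ph1 L n c w ^ 2 - ph L n c w * ph2 L n c w + n * wp L 0 w * ph L n c w ^ 2))
      (((n - 1) / n : ℂ) * (ph1 L n c z * ph2 L n c z)) z := by
    have d0 := hasDerivAt_ph L n c hz
    have d1 := hasDerivAt_ph1 L n c hz
    have d2 := (analyticAt_ph2 L n c hz).differentiableAt.hasDerivAt
    have dw := hasDerivAt_wp L 0 hz
    refine ((((d1.fun_pow 2).sub (d0.mul d2)).add ((dw.const_mul (n:ℂ)).mul (d0.fun_pow 2))).const_mul
      ((n - 1) / n : ℂ)).congr_deriv ?_
    simp only [h0]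
    ring
  have hAB : (fun w => RR L n c w w) =ᶠ[𝓝 z] (fun w => ((n - 1) / n : ℂ) *
      (ph1 L n c w ^ 2 - ph L n c w * ph2 L n c w + n * wp L 0 w * ph L n c w ^ 2)) := by
    have hc : ∀ᶠ w in 𝓝 z, wp L 1 w ≠ 0 := (analyticAt_wp L 1 hz).continuousAt.eventually_ne h1
    filter_upwards [hc, (isOpen_Dom L).mem_nhds hz] with w hw hwD
    exact RR_diag L hn c hwD hw
  have h := hA.unique (hB.congr_of_eventuallyEq hAB)
  field_simp at h ⊢
  linear_combination h

end Pool.Agent.Helper487.ECM
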