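import Pool.Agent.Helper487.ECM.Grad
import Pool.Agent.Helper487.ECM.Abel

/-! The Laplacian of the logarithm of the Jacobian. -/

open Filter Topology Finset
open scoped Nat PeriodPair

namespace Pool.Agent.Helper487.ECM

variable {L : PeriodPair} {N : ℕ}

/-- genericity of a point, including the last zero -/
structure Gen1 (L : PeriodPair) (y : Fin N → ℂ) : Prop extends Gen0 L y where
  hs : -∑ i, y i ∈ Dom L
  hys : ∀ i, wp L 0 (y i) ≠ wp L 0 (-∑ i, y i)

lemma analyticAt_s (y : Fin N → ℂ) : AnalyticAt ℂ (fun y : Fin N → ℂ => -∑ i, y i) y :=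
  (Finset.analyticAt_fun_sum _ fun i _ => analyticAt_coord i y).neg

lemma pd_s (i : Fin N) (y : Fin N → ℂ) : pd i (fun y : Fin N → ℂ => -∑ i, y i) y = -1 := by
  rw [pd_neg, pd_sum _ fun j _ => (analyticAt_coord j y).differentiableAt]
  simp only [pd_coord]
  simp

lemma Gen1.eventually {y : Fin N → ℂ} (h : Gen1 L y) : ∀ᶠ y' in 𝓝 y, Gen1 L y' := by
  have a1 : ∀ᶠ y' : Fin N → ℂ in 𝓝 y, -∑ i, y' i ∈ Dom L :=
    (analyticAt_s y).continuousAt.preimage_mem_nhds ((isOpen_Dom L).mem_nhds h.hs)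
  have a2 : ∀ᶠ y' in 𝓝 y, ∀ i, wp L 0 (y' i) ≠ wp L 0 (-∑ i, y' i) := by
    rw [eventually_all]; intro i
    have c1 : ContinuousAt (fun y : Fin N → ℂ => wp L 0 (y i)) y := (analyticAt_wpc 0 i (h.hy i)).continuousAt
    have c2 : ContinuousAt (fun y : Fin N → ℂ => wp L 0 (-∑ i, y i)) y :=
      (analyticAt_comp_of (analyticAt_wp L 0 h.hs) (analyticAt_s y)).continuousAt
    filter_upwards [(c1.sub c2).eventually_ne (sub_ne_zero.mpr (h.hys i))] with y' h'
    exact sub_ne_zero.mp h'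
  filter_upwards [h.toGen0.eventually, a1, a2] with y' h0 h1 h2
  exact ⟨h0, h1, h2⟩

/-- the last zero is simple -/
lemma Gen1.fs {y : Fin N → ℂ} (h : Gen1 L y) (hN : 2 ≤ N) :
    ph1 L (N + 1) (cc L y) (-∑ i, y i) ≠ 0 := by
  have hr := h.toGen0.toReg
  have h0 := hr.abel hN h.hs
  intro hf
  -- the derivative of Abel's relation
  have h1 : ∀ i, ph L (N + 1) (dcc L i y) (-∑ i, y i) = 0 := by
    intro i
    have e : (fun y : Fin N → ℂ => ph L (N + 1) (cc L y) (-∑ i, y i)) =ᶠ[𝓝 y] fun _ => 0 := by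
      filter_upwards [h.eventually] with y' h'
      exact h'.toGen0.toReg.abel hN h'.hs
    have e2 := pd_congr (i := i) e
    rw [pd_const, pd_ph (fun k _ => (hr.analyticAt_cc k).differentiableAt)
      (analyticAt_s y).differentiableAt h.hs, hf, mul_zero, add_zero] at e2
    exact e2
  have h2 : (Jm L y).transpose.mulVec (fun k => wp L k (-∑ i, y i)) = 0 := by
    funext i
    have h3 := h1 i
    rw [ph_split, dcc_zero, zero_add] at h3
    simp only [Matrix.mulVec, dotProduct, Matrix.transpose_apply, Pi.zero_apply]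
    have e : ∀ k : Fin N, Jm L y k i * wp L k (-∑ i, y i) = -(dcc L i y (k + 1) * wp L k (-∑ i, y i)) := by
      intro k
      have : Jm L y k i = -dcc L i y (k + 1) := hr.pd_uu k i
      rw [this]; ring
    simp only [e, sum_neg_distrib, h3, neg_zero]
  have hD := hr.D_of_f1 h.f1
  have hdet : (Jm L y).transpose.det ≠ 0 := by rw [Matrix.det_transpose]; exact hD
  have h4 : (fun k : Fin N => wp L k (-∑ i, y i)) = 0 :=
    Matrix.eq_zero_of_mulVec_eq_zero hdet h2
  rw [ph_split, cc_zero] at h0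
  have h5 : ∀ k : Fin N, wp L k (-∑ i, y i) = 0 := fun k => congrFun h4 k
  simp only [h5, mul_zero, sum_const_zero, add_zero] at h0
  exact one_ne_zero h0

lemma Gen1.conf {y : Fin N → ℂ} (h : Gen1 L y) (hN : 2 ≤ N) :
    Conf L N y (-∑ i, y i) (cc L y) where
  hN := hN
  hy := h.hy
  hs := h.hs
  hyy := h.hyy
  hys := h.hys
  hy1 := h.hy1
  c0 := rfl
  z0 := h.toGen0.toReg.z0
  zs := h.toGen0.toReg.abel hN h.hs
  f1 := h.f1
  fs := h.fs hN
  interp := h.toGen0.toReg.interp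

lemma Reg.analyticAt_rho {y : Fin N → ℂ} (h : Reg L y) (n k l : ℕ) :
    AnalyticAt ℂ (fun y => rho L n (cc L y) k l) y := by
  unfold rho
  exact Finset.analyticAt_fun_sum _ fun a _ => Finset.analyticAt_fun_sum _ fun b _ =>
    ((h.analyticAt_cc a).mul (h.analyticAt_cc b)).mul analyticAt_const

lemma Reg.analyticAt_rhof {y : Fin N → ℂ} (h : Reg L y) (i : Fin N) :
    AnalyticAt ℂ (fun y => rhof L (N + 1) (cc L y) (y i)) y :=
  analyticAt_ph (C := fun y k => rho L (N + 1) (cc L y) k 0) (fun k _ => h.analyticAt_rho _ k 0)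
    (analyticAt_coord i y) (h.hy i)

lemma Gen0.analyticAt_Xf {y : Fin N → ℂ} (h : Gen0 L y) (i : Fin N) :
    AnalyticAt ℂ (Xf L i) y := by
  have h1 : AnalyticAt ℂ (fun y => ph1 L (N + 1) (cc L y) (y i)) y :=
    analyticAt_ph1 (fun k _ => h.toReg.analyticAt_cc k) (analyticAt_coord i y) (h.hy i)
  have h2 := (analyticAt_const (v := ((N : ℂ) + 1)) (x := y)).mul
    ((h.toReg.analyticAt_rhof i).div h1 (h.f1 i))
  exact h2

/-- the sum over the pairs of distinct particles, in the explicit form -/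
noncomputable def V0 (L : PeriodPair) (y : Fin N → ℂ) : ℂ :=
  ∑ i, (∑ j ∈ univ.erase i, wp L 0 (y i - y j) + 2 * wp L 0 (y i - (-∑ i, y i)))

theorem Gen1.div_X {y : Fin N → ℂ} (h : Gen1 L y) (hN : 2 ≤ N) :
    ∑ i, pd i (Xf L i) y = ((N : ℂ) + 1) * rho L (N + 1) (cc L y) 0 0 - V0 L y := by
  have hn : ((N : ℂ) + 1) ≠ 0 := by exact_mod_cast (by omega : N + 1 ≠ 0)
  have hr := h.toGen0.toReg
  have hC := h.conf hN
  -- a generic point z
  obtain ⟨z, hz, hz1, hzy, hzs, hzp⟩ : ∃ z, z ∈ Dom L ∧ wp L 1 z ≠ 0 ∧ (∀ i, wp L 0 z ≠ wp L 0 (y i)) ∧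
      wp L 0 z ≠ wp L 0 (-∑ i, y i) ∧ ph L (N + 1) (cc L y) z ≠ 0 := by
    set i0 : Fin N := ⟨0, by omega⟩ with hi0
    have b1 : ∀ᶠ z in 𝓝[≠] (y i0), ph L (N + 1) (cc L y) z ≠ 0 := by
      have := (hasDerivAt_ph L (N + 1) (cc L y) (h.hy i0)).eventually_ne (h.f1 i0) (c := 0)
      exact this
    have b2 := eventually_ne_of_wp_one L (h.hy i0) (h.hy1 i0)
    have b3 : ∀ᶠ z in 𝓝[≠] (y i0), z ∈ Dom L :=
      mem_nhdsWithin_of_mem_nhds ((isOpen_Dom L).mem_nhds (h.hy i0))
    have b4 : ∀ᶠ z in 𝓝[≠] (y i0), wp L 1 z ≠ 0 :=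
      mem_nhdsWithin_of_mem_nhds ((analyticAt_wp L 1 (h.hy i0)).continuousAt.eventually_ne (h.hy1 i0))
    have b5 : ∀ᶠ z in 𝓝[≠] (y i0), ∀ j, j ≠ i0 → wp L 0 z ≠ wp L 0 (y j) := by
      rw [eventually_all]
      intro j
      by_cases hj : j = i0
      · exact Eventually.of_forall fun z hz => absurd hj hz
      · have := (analyticAt_wp L 0 (h.hy i0)).continuousAt.eventually_ne (h.hyy i0 j (Ne.symm hj))
        filter_upwards [mem_nhdsWithin_of_mem_nhds this] with z hz _ using hz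
    have b6 : ∀ᶠ z in 𝓝[≠] (y i0), wp L 0 z ≠ wp L 0 (-∑ i, y i) :=
      mem_nhdsWithin_of_mem_nhds ((analyticAt_wp L 0 (h.hy i0)).continuousAt.eventually_ne (h.hys i0))
    obtain ⟨z, h1, h2, h3, h4, h5, h6⟩ := (b1.and (b2.and (b3.and (b4.and (b5.and b6))))).exists
    refine ⟨z, h3, h4, fun i => ?_, h6, h1⟩
    by_cases hi : i = i0
    · rw [hi]; exact h2.symm
    · exact h5 i hi
  -- the function B
  set B : Fin N → (Fin N → ℂ) → ℂ := fun i y => -Q L z (y i)
    + (1 / ((N : ℂ) + 1)) * (∑ j, Q L z (y j) + Q L z (-∑ i, y i))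
    - (1 / ((N : ℂ) + 1)) * (∑ j ∈ univ.erase i, Q L (y i) (y j) + Q L (y i) (-∑ i, y i))
    + (1 / ((N : ℂ) + 1)) * Xf L i y with hB
  have hrow : ∀ i, (fun y => ph L (N + 1) (gcc L i y) z) =ᶠ[𝓝 y]
      fun y => ph L (N + 1) (cc L y) z * B i y := by
    intro i
    have a2 : ∀ᶠ y' : Fin N → ℂ in 𝓝 y, ∀ j, wp L 0 z ≠ wp L 0 (y' j) := by
      rw [eventually_all]; intro j
      filter_upwards [(analyticAt_wpc 0 j (h.hy j)).continuousAt.eventually_ne (hzy j).symm] with y' h'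
      exact h'.symm
    have a3 : ∀ᶠ y' : Fin N → ℂ in 𝓝 y, wp L 0 z ≠ wp L 0 (-∑ i, y' i) := by
      filter_upwards [(analyticAt_comp_of (analyticAt_wp L 0 h.hs)
        (analyticAt_s y)).continuousAt.eventually_ne hzs.symm] with y' h'
      exact h'.symm
    filter_upwards [h.eventually, a2, a3] with y' h' h2 h3
    have e1 := (h'.conf hN).RR_row hz h2 h3 i
    rw [ph_congr L (h'.toGen0.gcc_val (by omega) i), ph_smul, ph_sub, ph_smul, ← RR_eq_ph]
    rw [hB]
    simp only []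
    have hXf : (1 / ((N : ℂ) + 1)) * Xf L i y' =
        rhof L (N + 1) (cc L y') (y' i) / ph1 L (N + 1) (cc L y') (y' i) := by
      unfold Xf; field_simp
    rw [hXf]
    unfold Qs at e1
    rw [← e1]
    have := h'.f1 i
    field_simp
  -- derivatives of the parts
  have dcoord : ∀ j, DifferentiableAt ℂ (fun y : Fin N → ℂ => y j) y := fun j =>
    (analyticAt_coord j y).differentiableAt
  have ds : DifferentiableAt ℂ (fun y : Fin N → ℂ => -∑ i, y i) y := (analyticAt_s y).differentiableAt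
  have q1 : ∀ j, HasDerivAt (fun w => Q L z w) (wp L 0 (z - y j) - wp L 0 (y j)) (y j) := fun j =>
    hasDerivAt_Q_right L hz (h.hy j) (hzy j)
  have q2 : HasDerivAt (fun w => Q L z w) (wp L 0 (z - (-∑ i, y i)) - wp L 0 (-∑ i, y i)) (-∑ i, y i) :=
    hasDerivAt_Q_right L hz h.hs hzs
  have dq1 : ∀ j, DifferentiableAt ℂ (fun y : Fin N → ℂ => Q L z (y j)) y := fun j => by
    have := (q1 j).differentiableAt.comp y (dcoord j); exact this
  have dq2 : DifferentiableAt ℂ (fun y : Fin N → ℂ => Q L z (-∑ i, y i)) y := by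
    have := q2.differentiableAt.comp y ds; exact this
  have p1 : ∀ i j, pd i (fun y : Fin N → ℂ => Q L z (y j)) y =
      (wp L 0 (z - y j) - wp L 0 (y j)) * (if j = i then 1 else 0) := fun i j => by
    rw [pd_comp (g := fun w => Q L z w) (l := fun y : Fin N → ℂ => y j) (q1 j) (dcoord j), pd_coord]
  have p2 : ∀ i, pd i (fun y : Fin N → ℂ => Q L z (-∑ i, y i)) y =
      -(wp L 0 (z - (-∑ i, y i)) - wp L 0 (-∑ i, y i)) := fun i => by
    rw [pd_comp (g := fun w => Q L z w) (l := fun y : Fin N → ℂ => -∑ i, y i) q2 ds, pd_s]; ring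
  -- Q of two moving points
  have two : ∀ i (l m : (Fin N → ℂ) → ℂ), DifferentiableAt ℂ l y → DifferentiableAt ℂ m y →
      l y ∈ Dom L → m y ∈ Dom L → wp L 0 (l y) ≠ wp L 0 (m y) →
      DifferentiableAt ℂ (fun y => Q L (l y) (m y)) y ∧
      pd i (fun y => Q L (l y) (m y)) y = (wp L 0 (l y) - wp L 0 (l y - m y)) * pd i l y
        + (wp L 0 (l y - m y) - wp L 0 (m y)) * pd i m y := by
    intro i l m hl hm hlD hmD hne
    have hne' := sub_ne_zero.mpr hne
    have w1 : HasDerivAt (wp L 0) (wp L 1 (l y)) (l y) := hasDerivAt_wp L 0 hlD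
    have w2 : HasDerivAt (wp L 0) (wp L 1 (m y)) (m y) := hasDerivAt_wp L 0 hmD
    have w3 : HasDerivAt (wp L 1) (wp L 2 (l y)) (l y) := hasDerivAt_wp L 1 hlD
    have w4 : HasDerivAt (wp L 1) (wp L 2 (m y)) (m y) := hasDerivAt_wp L 1 hmD
    have e1 : DifferentiableAt ℂ (fun y => wp L 0 (l y)) y := by
      have := w1.differentiableAt.comp y hl; exact this
    have e2 : DifferentiableAt ℂ (fun y => wp L 0 (m y)) y := by
      have := w2.differentiableAt.comp y hm; exact this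
    have e3 : DifferentiableAt ℂ (fun y => wp L 1 (l y)) y := by
      have := w3.differentiableAt.comp y hl; exact this
    have e4 : DifferentiableAt ℂ (fun y => wp L 1 (m y)) y := by
      have := w4.differentiableAt.comp y hm; exact this
    have n1 : DifferentiableAt ℂ (fun y => wp L 1 (l y) + wp L 1 (m y)) y := e3.add e4
    have e12 : DifferentiableAt ℂ (fun y => wp L 0 (l y) - wp L 0 (m y)) y := e1.sub e2
    have n2 : DifferentiableAt ℂ (fun y => 2 * (wp L 0 (l y) - wp L 0 (m y))) y := e12.const_mul 2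
    have n0 : (2 * (wp L 0 (l y) - wp L 0 (m y))) ≠ 0 := mul_ne_zero two_ne_zero hne'
    have hdiff : DifferentiableAt ℂ (fun y => Q L (l y) (m y)) y := by
      have := n1.mul (n2.inv n0)
      exact this.congr_of_eventuallyEq (Eventually.of_forall fun y => by
        simp [Q, div_eq_mul_inv])
    refine ⟨hdiff, ?_⟩
    have hpd := pd_div (i := i) n1 n2 n0
    have hQl := hasDerivAt_Q_left L hlD hmD hne
    have hQr := hasDerivAt_Q_right L hlD hmD hne
    have hQl' : HasDerivAt (fun z => Q L z (m y)) ((wp L 2 (l y)) / (2 * (wp L 0 (l y) - wp L 0 (m y)))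
        - (wp L 1 (l y) + wp L 1 (m y)) * (2 * wp L 1 (l y)) / (2 * (wp L 0 (l y) - wp L 0 (m y))) ^ 2) (l y) := by
      have := (w3.add_const (wp L 1 (m y))).div ((w1.sub_const (wp L 0 (m y))).const_mul 2) n0
      refine this.congr_deriv ?_
      field_simp
    have hQr' : HasDerivAt (fun w => Q L (l y) w) ((wp L 2 (m y)) / (2 * (wp L 0 (l y) - wp L 0 (m y)))
        + (wp L 1 (l y) + wp L 1 (m y)) * (2 * wp L 1 (m y)) / (2 * (wp L 0 (l y) - wp L 0 (m y))) ^ 2) (m y) := by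
      have := (w4.const_add (wp L 1 (l y))).div ((w2.const_sub (wp L 0 (l y))).const_mul 2) n0
      refine this.congr_deriv ?_
      field_simp
      ring
    rw [hQl.unique hQl', hQr.unique hQr']
    have hQ : (fun y => Q L (l y) (m y)) = fun y => (wp L 1 (l y) + wp L 1 (m y)) / (2 * (wp L 0 (l y) - wp L 0 (m y))) := rfl
    rw [hQ, hpd, pd_add e3 e4, pd_const_mul 2 e12, pd_sub e1 e2, pd_comp w1 hl, pd_comp w2 hm,
      pd_comp w3 hl, pd_comp w4 hm]
    ring
  have dX : ∀ i, DifferentiableAt ℂ (Xf L i) y := fun i => (h.toGen0.analyticAt_Xf i).differentiableAt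
  have dP : ∀ i, ∀ j ∈ univ.erase i, DifferentiableAt ℂ (fun y : Fin N → ℂ => Q L (y i) (y j)) y := fun i j hj =>
    (two i (fun y => y i) (fun y => y j) (dcoord i) (dcoord j) (h.hy i) (h.hy j)
      (h.hyy i j (ne_of_mem_erase hj).symm)).1
  have dPs : ∀ i, DifferentiableAt ℂ (fun y : Fin N → ℂ => ∑ j ∈ univ.erase i, Q L (y i) (y j)) y := fun i =>
    DifferentiableAt.fun_sum (dP i)
  have dR : ∀ i, DifferentiableAt ℂ (fun y : Fin N → ℂ => Q L (y i) (-∑ i, y i)) y := fun i =>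
    (two i (fun y => y i) (fun y => -∑ i, y i) (dcoord i) ds (h.hy i) h.hs (h.hys i)).1
  have pP : ∀ i, pd i (fun y : Fin N → ℂ => ∑ j ∈ univ.erase i, Q L (y i) (y j)) y =
      ∑ j ∈ univ.erase i, (wp L 0 (y i) - wp L 0 (y i - y j)) := by
    intro i
    rw [pd_sum _ (dP i)]
    refine sum_congr rfl fun j hj => ?_
    rw [(two i (fun y => y i) (fun y => y j) (dcoord i) (dcoord j) (h.hy i) (h.hy j)
      (h.hyy i j (ne_of_mem_erase hj).symm)).2, pd_coord, pd_coord, if_pos rfl,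
      if_neg (ne_of_mem_erase hj)]
    ring
  have pR : ∀ i, pd i (fun y : Fin N → ℂ => Q L (y i) (-∑ i, y i)) y =
      wp L 0 (y i) + wp L 0 (-∑ i, y i) - 2 * wp L 0 (y i - (-∑ i, y i)) := by
    intro i
    rw [(two i (fun y => y i) (fun y => -∑ i, y i) (dcoord i) ds (h.hy i) h.hs (h.hys i)).2, pd_coord,
      if_pos rfl, pd_s]
    ring
  have dS : DifferentiableAt ℂ (fun y : Fin N → ℂ => ∑ j, Q L z (y j) + Q L z (-∑ i, y i)) y :=
    (DifferentiableAt.fun_sum fun j _ => dq1 j).add dq2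
  have dBi : ∀ i, DifferentiableAt ℂ (B i) y := fun i =>
    ((((dq1 i).neg).add (dS.const_mul _)).sub (((dPs i).add (dR i)).const_mul _)).add ((dX i).const_mul _)
  have pB : ∀ i, pd i (B i) y = -(wp L 0 (z - y i) - wp L 0 (y i))
      + (1 / ((N : ℂ) + 1)) * ((wp L 0 (z - y i) - wp L 0 (y i)) - (wp L 0 (z - (-∑ i, y i)) - wp L 0 (-∑ i, y i)))
      - (1 / ((N : ℂ) + 1)) * (∑ j ∈ univ.erase i, (wp L 0 (y i) - wp L 0 (y i - y j)) +
        (wp L 0 (y i) + wp L 0 (-∑ i, y i) - 2 * wp L 0 (y i - (-∑ i, y i))))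
      + (1 / ((N : ℂ) + 1)) * pd i (Xf L i) y := by
    intro i
    have f1 : DifferentiableAt ℂ (fun y : Fin N → ℂ => -Q L z (y i)) y := (dq1 i).neg
    have f2 : DifferentiableAt ℂ (fun y : Fin N → ℂ => (1 / ((N : ℂ) + 1)) * (∑ j, Q L z (y j) + Q L z (-∑ i, y i))) y :=
      dS.const_mul _
    have f12 : DifferentiableAt ℂ (fun y : Fin N → ℂ => -Q L z (y i) + (1 / ((N : ℂ) + 1)) * (∑ j, Q L z (y j) + Q L z (-∑ i, y i))) y :=
      f1.add f2
    have f3' : DifferentiableAt ℂ (fun y : Fin N → ℂ => ∑ j ∈ univ.erase i, Q L (y i) (y j) + Q L (y i) (-∑ i, y i)) y :=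
      (dPs i).add (dR i)
    have f3 : DifferentiableAt ℂ (fun y : Fin N → ℂ => (1 / ((N : ℂ) + 1)) * (∑ j ∈ univ.erase i, Q L (y i) (y j) + Q L (y i) (-∑ i, y i))) y :=
      f3'.const_mul _
    have f123 : DifferentiableAt ℂ (fun y : Fin N → ℂ => -Q L z (y i) + (1 / ((N : ℂ) + 1)) * (∑ j, Q L z (y j) + Q L z (-∑ i, y i))
        - (1 / ((N : ℂ) + 1)) * (∑ j ∈ univ.erase i, Q L (y i) (y j) + Q L (y i) (-∑ i, y i))) y := f12.sub f3
    rw [hB]
    simp only []
    rw [pd_add f123 ((dX i).const_mul _), pd_sub f12 f3, pd_add f1 f2, pd_neg, pd_const_mul _ dS,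
      pd_const_mul _ f3', pd_const_mul _ (dX i), pd_add (DifferentiableAt.fun_sum fun j _ => dq1 j) dq2,
      pd_sum _ (fun j _ => dq1 j), pd_add (dPs i) (dR i), pP, pR, p2]
    simp only [p1, mul_ite, mul_one, mul_zero, sum_ite_eq', mem_univ, if_true]
    ring
  -- apply the divergence to the identity
  have hdiv : ∀ i, ph L (N + 1) (fun k => pd i (fun y => gcc L i y k) y) z =
      ph L (N + 1) (dcc L i y) z * B i y + ph L (N + 1) (cc L y) z * pd i (B i) y := by
    intro i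
    have e1 := pd_congr (i := i) (hrow i)
    have hzc : DifferentiableAt ℂ (fun _ : Fin N → ℂ => z) y := differentiableAt_const z
    have hphd : DifferentiableAt ℂ (fun y => ph L (N + 1) (cc L y) z) y :=
      (analyticAt_ph (l := fun _ => z) (fun k _ => hr.analyticAt_cc k) analyticAt_const hz).differentiableAt
    rw [pd_mul hphd (dBi i)] at e1
    have e2 := pd_ph (L := L) (n := N + 1) (C := fun y => gcc L i y) (l := fun _ => z) (y := y)
      (fun k _ => (hr.analyticAt_gcc i k).differentiableAt) hzc hz i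
    have e3 := pd_ph (L := L) (n := N + 1) (C := fun y => cc L y) (l := fun _ => z) (y := y)
      (fun k _ => (hr.analyticAt_cc k).differentiableAt) hzc hz i
    rw [pd_const, zero_mul, add_zero] at e2 e3
    rw [e2, e3] at e1
    exact e1
  have hsum : ∑ i, ph L (N + 1) (fun k => pd i (fun y => gcc L i y k) y) z =
      -2 * (rhof L (N + 1) (cc L y) z - rho L (N + 1) (cc L y) 0 0 * ph L (N + 1) (cc L y) z) := by
    rw [← ph_sum]
    have e1 : ∀ k < N + 1, ∑ i, pd i (fun y => gcc L i y k) y = -2 * Tf L (N + 1) (cc L y) k := fun k hk =>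
      h.toGen0.lap (by omega) hk
    rw [ph_congr L e1, ph_smul]
    congr 1
    have e' : Tf L (N + 1) (cc L y) = fun k => rho L (N + 1) (cc L y) k 0 - rho L (N + 1) (cc L y) 0 0 * cc L y k := rfl
    rw [e', ph_sub, ph_smul]; rfl
  have hgram : ∑ i, ph L (N + 1) (dcc L i y) z * ph L (N + 1) (gcc L i y) z =
      RR L (N + 1) (cc L y) z z - 2 * ph L (N + 1) (cc L y) z * rhof L (N + 1) (cc L y) z
        + rho L (N + 1) (cc L y) 0 0 * ph L (N + 1) (cc L y) z ^ 2 := by
    have e1 : ∀ i, ph L (N + 1) (dcc L i y) z * ph L (N + 1) (gcc L i y) z =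
        ∑ k ∈ range (N + 1), ∑ l ∈ range (N + 1), (gcc L i y k * dcc L i y l) * (bw L k z * bw L l z) := by
      intro i
      rw [mul_comm]
      unfold ph
      rw [sum_mul_sum]
      exact sum_congr rfl fun k _ => sum_congr rfl fun l _ => by ring
    simp only [e1]
    rw [sum_comm]
    have e2 : ∀ k ∈ range (N + 1), ∑ i, ∑ l ∈ range (N + 1), (gcc L i y k * dcc L i y l) * (bw L k z * bw L l z) =
        ∑ l ∈ range (N + 1), Gf L (N + 1) (cc L y) k l * (bw L k z * bw L l z) := by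
      intro k hk
      rw [sum_comm]
      refine sum_congr rfl fun l hl => ?_
      rw [← sum_mul, h.toGen0.gram (by omega) (Finset.mem_range.mp hk) (Finset.mem_range.mp hl)]
    rw [sum_congr rfl e2]
    have e3 : RR L (N + 1) (cc L y) z z - 2 * ph L (N + 1) (cc L y) z * rhof L (N + 1) (cc L y) z
        + rho L (N + 1) (cc L y) 0 0 * ph L (N + 1) (cc L y) z ^ 2 =
        RR L (N + 1) (cc L y) z z - rhof L (N + 1) (cc L y) z * ph L (N + 1) (cc L y) z
        - ph L (N + 1) (cc L y) z * rhof L (N + 1) (cc L y) z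
        + rho L (N + 1) (cc L y) 0 0 * (ph L (N + 1) (cc L y) z * ph L (N + 1) (cc L y) z) := by ring
    rw [e3]
    unfold RR rhof ph Gf
    rw [sum_mul_sum, sum_mul_sum, sum_mul_sum, mul_sum, ← sum_sub_distrib, ← sum_sub_distrib, ← sum_add_distrib]
    refine sum_congr rfl fun k _ => ?_
    rw [mul_sum, ← sum_sub_distrib, ← sum_sub_distrib, ← sum_add_distrib]
    exact sum_congr rfl fun l _ => by ring
  have hBval : ∀ i, ph L (N + 1) (dcc L i y) z * B i y =
      ph L (N + 1) (dcc L i y) z * ph L (N + 1) (gcc L i y) z / ph L (N + 1) (cc L y) z := by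
    intro i
    have e1 : ph L (N + 1) (gcc L i y) z = ph L (N + 1) (cc L y) z * B i y := (hrow i).self_of_nhds
    rw [e1]; field_simp
  have hmain : -2 * (rhof L (N + 1) (cc L y) z - rho L (N + 1) (cc L y) 0 0 * ph L (N + 1) (cc L y) z) =
      (RR L (N + 1) (cc L y) z z - 2 * ph L (N + 1) (cc L y) z * rhof L (N + 1) (cc L y) z
        + rho L (N + 1) (cc L y) 0 0 * ph L (N + 1) (cc L y) z ^ 2) / ph L (N + 1) (cc L y) z
      + ph L (N + 1) (cc L y) z * ∑ i, pd i (B i) y := by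
    rw [← hsum, ← hgram, sum_div, mul_sum, ← sum_add_distrib]
    refine sum_congr rfl fun i _ => ?_
    rw [hdiv i, hBval i]
  rw [hC.RR_diag_gen hz hzy hzs hz1] at hmain
  have hpBsum : ∑ i, pd i (B i) y = -(N / ((N : ℂ) + 1)) * (∑ i, wp L 0 (z - y i) - ∑ i, wp L 0 (y i))
      - (N / ((N : ℂ) + 1)) * (wp L 0 (z - (-∑ i, y i)) - wp L 0 (-∑ i, y i))
      - (1 / ((N : ℂ) + 1)) * (N * ∑ i, wp L 0 (y i) + N * wp L 0 (-∑ i, y i) - V0 L y)
      + (1 / ((N : ℂ) + 1)) * ∑ i, pd i (Xf L i) y := by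
    have e1 : ∀ i : Fin N, ∑ j ∈ univ.erase i, (wp L 0 (y i) - wp L 0 (y i - y j)) =
        (N - 1) * wp L 0 (y i) - ∑ j ∈ univ.erase i, wp L 0 (y i - y j) := by
      intro i
      rw [sum_sub_distrib, sum_const, card_erase_of_mem (mem_univ i), card_univ, Fintype.card_fin,
        nsmul_eq_mul, Nat.cast_sub (by omega)]
      simp
    simp only [pB, e1, V0]
    simp only [sum_add_distrib, sum_sub_distrib, sum_neg_distrib, ← mul_sum, sum_const, card_univ,
      Fintype.card_fin, nsmul_eq_mul]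
    field_simp
    ring
  have hdv : ((N : ℂ) / (N + 1) * ph L (N + 1) (cc L y) z ^ 2 * (∑ i, wp L 0 (z - y i) + wp L 0 (z - -∑ i, y i)) -
      2 * ph L (N + 1) (cc L y) z * rhof L (N + 1) (cc L y) z +
      rho L (N + 1) (cc L y) 0 0 * ph L (N + 1) (cc L y) z ^ 2) / ph L (N + 1) (cc L y) z =
      (N : ℂ) / (N + 1) * ph L (N + 1) (cc L y) z * (∑ i, wp L 0 (z - y i) + wp L 0 (z - -∑ i, y i)) -
      2 * rhof L (N + 1) (cc L y) z + rho L (N + 1) (cc L y) 0 0 * ph L (N + 1) (cc L y) z := by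
    field_simp
  rw [hdv] at hmain
  have h1 : ph L (N + 1) (cc L y) z * (rho L (N + 1) (cc L y) 0 0 -
      (N : ℂ) / (N + 1) * (∑ i, wp L 0 (z - y i) + wp L 0 (z - -∑ i, y i)) - ∑ i, pd i (B i) y) = 0 := by
    linear_combination hmain
  have h2 := (mul_eq_zero.mp h1).resolve_left hzp
  rw [hpBsum] at h2
  field_simp at h2
  linear_combination (-1 : ℂ) * h2

end Pool.Agent.Helper487.ECM
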