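import Pool.Agent.Helper487.ECM.Oper

/-! Extension to the whole domain by continuity, and polynomial coefficients. -/

open Filter Topology Finset
open scoped Nat PeriodPair

namespace Pool.Agent.Helper487.ECM

variable {L : PeriodPair} {N : ℕ}

lemma UU_reg {y : Fin N → ℂ} (h : y ∈ UU L N) : Reg L y := ⟨h.1, h.2.1⟩

lemma analyticAt_ext (i : Fin (N + 1)) (y : Fin N → ℂ) : AnalyticAt ℂ (fun y : Fin N → ℂ => ext y i) y := by
  refine Fin.lastCases ?_ (fun i => ?_) i
  · simp only [ext_last]; exact analyticAt_s y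
  · simp only [ext_castSucc]; exact analyticAt_coord i y

lemma analyticAt_VV {y : Fin N → ℂ} (h : ∀ i j : Fin (N + 1), i ≠ j → ext y i - ext y j ∉ L.lattice) :
    AnalyticAt ℂ (VV L) y := by
  have : AnalyticAt ℂ (fun y : Fin N → ℂ => ∑ i : Fin (N + 1), ∑ j ∈ univ.erase i, ℘[L] (ext y i - ext y j)) y := by
    refine Finset.analyticAt_fun_sum _ fun i _ => Finset.analyticAt_fun_sum _ fun j hj => ?_
    have hd : ext y i - ext y j ∈ Dom L := h i j (ne_of_mem_erase hj).symm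
    have h1 := analyticAt_wp L 0 hd
    rw [wp_zero_eq] at h1
    exact analyticAt_comp_of (l := fun y : Fin N → ℂ => ext y i - ext y j) h1
      ((analyticAt_ext i y).sub (analyticAt_ext j y))
  exact this

lemma analyticAt_HH (β : ℂ) {f : (Fin N → ℂ) → ℂ} {y : Fin N → ℂ} (hf : AnalyticAt ℂ f y)
    (h : ∀ i j : Fin (N + 1), i ≠ j → ext y i - ext y j ∉ L.lattice) : AnalyticAt ℂ (HH L β f) y := by
  have h1 : AnalyticAt ℂ (fun y => ∑ i, pd i (pd i f) y) y :=
    Finset.analyticAt_fun_sum _ fun i _ => analyticAt_pd (analyticAt_pd hf)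
  have h2 : AnalyticAt ℂ (fun y => ∑ i, ∑ j ∈ univ.erase i, pd i (pd j f) y) y :=
    Finset.analyticAt_fun_sum _ fun i _ => Finset.analyticAt_fun_sum _ fun j _ => analyticAt_pd (analyticAt_pd hf)
  exact ((analyticAt_const.mul h1).add (analyticAt_const.mul h2)).add
    ((analyticAt_const.mul (analyticAt_VV h)).mul hf)

lemma Reg.analyticAt_opc {y : Fin N → ℂ} (h : Reg L y) (γ : ℂ) {F : (Fin N → ℂ) → ℂ}
    (hF : AnalyticAt ℂ F (uu L y)) :
    AnalyticAt ℂ (fun y => opc L N γ (cc L y) (fun a b => pd a (pd b F) (uu L y))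
      (fun a => pd a F (uu L y)) (F (uu L y))) y := by
  have hu := h.analyticAt_uuv
  have c := h.analyticAt_cc
  have r := h.analyticAt_rho
  have hG : ∀ k l, AnalyticAt ℂ (fun y => Gf L (N + 1) (cc L y) k l) y := fun k l =>
    (((r _ k l).sub ((c l).mul (r _ k 0))).sub ((c k).mul (r _ l 0))).add (((r _ 0 0).mul (c k)).mul (c l))
  have hT : ∀ k, AnalyticAt ℂ (fun y => Tf L (N + 1) (cc L y) k) y := fun k =>
    (r _ k 0).sub ((r _ 0 0).mul (c k))
  have hd : ∀ m k l, AnalyticAt ℂ (fun y => drho L (N + 1) (cc L y) m k l) y := fun m k l =>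
    Finset.analyticAt_fun_sum _ fun b _ => (c b).mul analyticAt_const
  have hZ : AnalyticAt ℂ (fun y => Zf L (N + 1) (cc L y)) y :=
    ((Finset.analyticAt_fun_sum _ fun m _ => (hd m 0 0).mul (c m)).sub
      (Finset.analyticAt_fun_sum _ fun k _ => hd k k 0)).add (analyticAt_const.mul (r _ 0 0))
  have hF2 : ∀ a b, AnalyticAt ℂ (fun y => pd a (pd b F) (uu L y)) y := fun a b =>
    AnalyticAt.fun_comp (analyticAt_pd (analyticAt_pd hF)) hu
  have hF1 : ∀ a, AnalyticAt ℂ (fun y => pd a F (uu L y)) y := fun a =>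
    AnalyticAt.fun_comp (analyticAt_pd hF) hu
  have hF0 : AnalyticAt ℂ (fun y => F (uu L y)) y := AnalyticAt.fun_comp hF hu
  exact ((Finset.analyticAt_fun_sum _ fun a _ => Finset.analyticAt_fun_sum _ fun b _ =>
    ((hG _ _).neg.mul (hF2 a b))).add (Finset.analyticAt_fun_sum _ fun a _ =>
      ((analyticAt_const.mul (hT _)).neg.mul (hF1 a)))).add
    (((analyticAt_const.mul (analyticAt_const.mul (r _ 0 0))).sub
      (analyticAt_const.mul (analyticAt_const.mul hZ))).mul hF0)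

/-- generic points in the residual sense -/
lemma res_gen : ∀ᶠ y in residual (Fin N → ℂ), (∀ i j, i ≠ j → wp L 0 (y i) ≠ wp L 0 (y j)) ∧
    (∀ i, wp L 1 (y i) ≠ 0) ∧ (2 ≤ N → -∑ i, y i ∈ Dom L ∧ ∀ i, wp L 0 (y i) ≠ wp L 0 (-∑ i, y i)) ∧
    (∀ i, y i + y i ∈ Dom L) := by
  have a1 : ∀ᶠ y in residual (Fin N → ℂ), ∀ i j, i ≠ j → wp L 0 (y i) ≠ wp L 0 (y j) := by
    rw [eventually_all]; intro i
    rw [eventually_all]; intro j
    by_cases hij : i = j
    · exact Eventually.of_forall fun y h => absurd hij h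
    · filter_upwards [res_coord_pair L hij] with y hy _
      exact hy.2.2
  have a2 : ∀ᶠ y in residual (Fin N → ℂ), ∀ i, wp L 1 (y i) ≠ 0 := by
    rw [eventually_all]; intro i
    filter_upwards [res_ne L 1 0 (l := prj i) (v := Pi.single i 1) (by simp [prj_apply])] with y hy
    exact hy.2
  have a3 : ∀ᶠ y in residual (Fin N → ℂ), 2 ≤ N → -∑ i, y i ∈ Dom L ∧
      ∀ i, wp L 0 (y i) ≠ wp L 0 (-∑ i, y i) := by
    by_cases hN : 2 ≤ N
    · have b1 : ∀ᶠ y in residual (Fin N → ℂ), ∀ i : Fin N, -∑ i, y i ∈ Dom L ∧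
          wp L 0 (y i) ≠ wp L 0 (-∑ i, y i) := by
        rw [eventually_all]; intro i
        obtain ⟨j, hji⟩ : ∃ j : Fin N, j ≠ i := by
          by_cases hi0 : (i : ℕ) = 0
          · refine ⟨⟨1, by omega⟩, ?_⟩
            intro h; have := congrArg Fin.val h; simp at this; omega
          · refine ⟨⟨0, by omega⟩, ?_⟩
            intro h; have := congrArg Fin.val h; simp at this; omega
        filter_upwards [res_pair L (l := TTl N) (m := prj i) (v := Pi.single j 1)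
          (v' := Pi.single i 1) (by rw [TTl_apply, TT_single, if_pos j.2]; norm_num)
          (by simp [prj_apply, Ne.symm hji]) (by simp [prj_apply])] with y hy
        have h1 := hy.2.2
        have h2 := hy.1
        rw [TTl_apply, TT_N] at h1 h2
        exact ⟨h2, h1.symm⟩
      filter_upwards [b1] with y hy _
      exact ⟨(hy ⟨0, by omega⟩).1, fun i => (hy i).2⟩
    · exact Eventually.of_forall fun y h => absurd h hN
  have a4 : ∀ᶠ y in residual (Fin N → ℂ), ∀ i, y i + y i ∈ Dom L := by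
    rw [eventually_all]; intro i
    filter_upwards [res_ne L 0 0 (l := prj i + prj i) (v := Pi.single i 1) (by simp [prj_apply])] with y hy
    exact hy.1
  filter_upwards [a1, a2, a3, a4] with y h1 h2 h3 h4
  exact ⟨h1, h2, h3, h4⟩

theorem oper_UU {y : Fin N → ℂ} (hy : y ∈ UU L N) (hN : 1 ≤ N) (β γ : ℂ) {E : (Fin N → ℂ) → ℂ}
    (hE : IsPow L γ E y) {F : (Fin N → ℂ) → ℂ} (hF : AnalyticAt ℂ F (uu L y)) :
    (E y)⁻¹ * HH L β (fun y' => E y' * F (uu L y')) y =
      opc L N γ (cc L y) (fun a b => pd a (pd b F) (uu L y)) (fun a => pd a F (uu L y)) (F (uu L y))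
      + (β * (β - 1) - γ * (γ - 1)) * VV L y * F (uu L y) := by
  have hr := UU_reg hy
  obtain ⟨hEa, hE0, hEd⟩ := hE.spec hr hy.2.2.1
  have hu := hr.analyticAt_uuv
  have hΦ : AnalyticAt ℂ (fun y => F (uu L y)) y := AnalyticAt.fun_comp hF hu
  have hΨ : AnalyticAt ℂ (fun y' => E y' * F (uu L y')) y := hEa.mul hΦ
  have cL : ContinuousAt (fun y' => (E y')⁻¹ * HH L β (fun y' => E y' * F (uu L y')) y') y :=
    ((hEa.inv hE0).mul (analyticAt_HH β hΨ hy.2.2.2)).continuousAt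
  have cR : ContinuousAt (fun y => opc L N γ (cc L y) (fun a b => pd a (pd b F) (uu L y))
      (fun a => pd a F (uu L y)) (F (uu L y)) + (β * (β - 1) - γ * (γ - 1)) * VV L y * F (uu L y)) y :=
    ((hr.analyticAt_opc γ hF).add ((analyticAt_const.mul (analyticAt_VV hy.2.2.2)).mul hΦ)).continuousAt
  by_contra hne
  have h1 := (cL.sub cR).eventually_ne (sub_ne_zero.mpr hne)
  have h2 : ∀ᶠ y' in 𝓝 y, AnalyticAt ℂ F (uu L y') := hu.continuousAt.eventually hF.eventually_analyticAt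
  have h3 := hr.eventually
  have h4 : ∀ᶠ y' in 𝓝 y, Dj L y' ≠ 0 := hr.analyticAt_Dj.continuousAt.eventually_ne hy.2.2.1
  obtain ⟨U, hU, hUo, hyU⟩ := eventually_nhds_iff.mp (h1.and (h2.and (h3.and (h4.and hE.eventually))))
  obtain ⟨y', hy'U, g1, g2, g3, g4⟩ := (dense_of_mem_residual (res_gen (L := L) (N := N))).inter_open_nonempty
    U hUo ⟨y, hyU⟩
  obtain ⟨k1, k2, k3, k4, k5⟩ := hU y' hy'U
  have hG : Gen0 L y' := ⟨k3, g1, g2, k3.f1_of_D k4⟩
  have hS : ∑ i, pd i (Xf L i) y' = ((N : ℂ) + 1) * rho L (N + 1) (cc L y') 0 0 - V0 L y' := by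
    rcases Nat.lt_or_ge N 2 with hN2 | hN2
    · obtain rfl : N = 1 := by omega
      exact hG.div_X_one (g4 0)
    · exact Gen1.div_X ⟨hG, (g3 hN2).1, (g3 hN2).2⟩ hN2
  exact k1 (sub_eq_zero.mpr (hG.oper hN hS β γ k5 k2))

/-! ### polynomials -/

open MvPolynomial in
/-- the coefficients `1, -u_1, …, -u_N` as polynomials -/
noncomputable def cP (N : ℕ) : ℕ → MvPolynomial (Fin N) ℂ
  | 0 => 1
  | k + 1 => if h : k < N then -X ⟨k, h⟩ else 0

lemma eval_cP (u : Fin N → ℂ) (k : ℕ) : MvPolynomial.eval u (cP N k) = cU u k := by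
  cases k with
  | zero => simp [cP, cU]
  | succ k =>
    by_cases h : k < N
    · simp [cP, cU, h]
    · simp [cP, cU, h]

open MvPolynomial in
/-- the kernel coefficients as polynomials -/
noncomputable def rhoP (L : PeriodPair) (N : ℕ) (k l : ℕ) : MvPolynomial (Fin N) ℂ :=
  ∑ a ∈ range (N + 1), ∑ b ∈ range (N + 1), cP N a * cP N b * C (rr L (N + 1) a b k l)

lemma eval_rhoP (u : Fin N → ℂ) (k l : ℕ) :
    MvPolynomial.eval u (rhoP L N k l) = rho L (N + 1) (cU u) k l := by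
  simp only [rhoP, rho, map_sum, map_mul, eval_cP, MvPolynomial.eval_C]

open MvPolynomial in
noncomputable def drhoP (L : PeriodPair) (N : ℕ) (m k l : ℕ) : MvPolynomial (Fin N) ℂ :=
  ∑ b ∈ range (N + 1), cP N b * C (rr L (N + 1) m b k l + rr L (N + 1) b m k l)

lemma eval_drhoP (u : Fin N → ℂ) (m k l : ℕ) :
    MvPolynomial.eval u (drhoP L N m k l) = drho L (N + 1) (cU u) m k l := by
  simp only [drhoP, drho, map_sum, map_mul, eval_cP, MvPolynomial.eval_C]

noncomputable def GfP (L : PeriodPair) (N : ℕ) (k l : ℕ) : MvPolynomial (Fin N) ℂ :=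
  rhoP L N k l - cP N l * rhoP L N k 0 - cP N k * rhoP L N l 0 + rhoP L N 0 0 * cP N k * cP N l

lemma eval_GfP (u : Fin N → ℂ) (k l : ℕ) :
    MvPolynomial.eval u (GfP L N k l) = Gf L (N + 1) (cU u) k l := by
  simp only [GfP, Gf, map_sub, map_add, map_mul, eval_cP, eval_rhoP]

noncomputable def TfP (L : PeriodPair) (N : ℕ) (k : ℕ) : MvPolynomial (Fin N) ℂ :=
  rhoP L N k 0 - rhoP L N 0 0 * cP N k

lemma eval_TfP (u : Fin N → ℂ) (k : ℕ) :
    MvPolynomial.eval u (TfP L N k) = Tf L (N + 1) (cU u) k := by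
  simp only [TfP, Tf, map_sub, map_mul, eval_cP, eval_rhoP]

open MvPolynomial in
noncomputable def ZfP (L : PeriodPair) (N : ℕ) : MvPolynomial (Fin N) ℂ :=
  ∑ m ∈ range (N + 1), drhoP L N m 0 0 * cP N m - ∑ k ∈ range (N + 1), drhoP L N k k 0
    + C (N : ℂ) * rhoP L N 0 0

lemma eval_ZfP (u : Fin N → ℂ) : MvPolynomial.eval u (ZfP L N) = Zf L (N + 1) (cU u) := by
  simp only [ZfP, Zf, map_sub, map_add, map_mul, map_sum, eval_cP, eval_rhoP, eval_drhoP,
    MvPolynomial.eval_C]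
  push_cast; ring

open MvPolynomial in
noncomputable def CP (L : PeriodPair) (N : ℕ) (γ : ℂ) : MvPolynomial (Fin N) ℂ :=
  C (γ * (γ - 1) * ((N : ℂ) + 1)) * rhoP L N 0 0 - C (γ ^ 2 * ((N : ℂ) + 1)) * ZfP L N

open MvPolynomial in
lemma opc_eq_eval (γ : ℂ) (u : Fin N → ℂ) (F2 : Fin N → Fin N → ℂ) (F1 : Fin N → ℂ) (F0 : ℂ) :
    opc L N γ (cU u) F2 F1 F0 =
      ∑ a : Fin N, ∑ b : Fin N, eval u (-GfP L N (a + 1) (b + 1)) * F2 a b
      + ∑ a : Fin N, eval u (-(C (2 + 2 * γ * ((N : ℂ) + 1)) * TfP L N (a + 1))) * F1 a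
      + eval u (CP L N γ) * F0 := by
  unfold opc CP
  simp only [map_sub, map_mul, map_neg, eval_C, eval_GfP, eval_TfP, eval_ZfP, eval_rhoP]
  ring

/-- polynomiality of the transformed operator -/
theorem polynomial_form (L : PeriodPair) {N : ℕ} (hN : 1 ≤ N) (β γ : ℂ) (hγ : γ * (γ - 1) = β * (β - 1)) :
    ∃ (A : Fin N → Fin N → MvPolynomial (Fin N) ℂ) (B : Fin N → MvPolynomial (Fin N) ℂ)
      (C : MvPolynomial (Fin N) ℂ), ∀ y ∈ UU L N, ∀ E, IsPow L γ E y → ∀ F : (Fin N → ℂ) → ℂ,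
      AnalyticAt ℂ F (uu L y) →
      (E y)⁻¹ * HH L β (fun y' => E y' * F (uu L y')) y =
        ∑ a, ∑ b, MvPolynomial.eval (uu L y) (A a b) * pd a (pd b F) (uu L y)
        + ∑ a, MvPolynomial.eval (uu L y) (B a) * pd a F (uu L y)
        + MvPolynomial.eval (uu L y) C * F (uu L y) := by
  refine ⟨fun a b => -GfP L N (a + 1) (b + 1),
    fun a => -(MvPolynomial.C (2 + 2 * γ * ((N : ℂ) + 1)) * TfP L N (a + 1)), CP L N γ, ?_⟩
  intro y hy E hE F hF
  rw [oper_UU hy hN β γ hE hF, hγ, sub_self, zero_mul, zero_mul, add_zero]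
  exact opc_eq_eval γ (uu L y) _ _ _

end Pool.Agent.Helper487.ECM
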