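import Pool.Agent.Helper487.ECM.Addition

/-! Filtration by the pole order at the origin. -/

open Set Filter Topology Asymptotics Finset
open scoped Nat PeriodPair

namespace Pool.Agent.Helper487.ECM

variable (L : PeriodPair)

/-- monomials in `℘, ℘'` ordered by the pole order (`mu 1 = 0`). -/
noncomputable def mu (m : ℕ) (z : ℂ) : ℂ :=
  if m = 1 then 0 else if m % 2 = 0 then wp L 0 z ^ (m / 2) else wp L 0 z ^ ((m - 3) / 2) * wp L 1 z

lemma mu_zero (z : ℂ) : mu L 0 z = 1 := by simp [mu]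

lemma mu_one (z : ℂ) : mu L 1 z = 0 := by simp [mu]

lemma mu_even (i : ℕ) (z : ℂ) : mu L (2 * i) z = wp L 0 z ^ i := by
  have h1 : 2 * i ≠ 1 := by omega
  have h2 : 2 * i % 2 = 0 := by omega
  have h3 : 2 * i / 2 = i := by omega
  simp [mu, h1, h2, h3]

lemma mu_odd (i : ℕ) (z : ℂ) : mu L (2 * i + 3) z = wp L 0 z ^ i * wp L 1 z := by
  have h1 : 2 * i + 3 ≠ 1 := by omega
  have h2 : (2 * i + 3) % 2 ≠ 0 := by omega
  have h3 : (2 * i + 3 - 3) / 2 = i := by omega
  rw [mu, if_neg h1, if_neg h2, h3]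

/-- trichotomy of indices -/
lemma index_cases (m : ℕ) : m = 1 ∨ (∃ i, m = 2 * i) ∨ (∃ i, m = 2 * i + 3) := by
  rcases Nat.even_or_odd' m with ⟨c, h | h⟩
  · exact Or.inr (Or.inl ⟨c, h⟩)
  · rcases Nat.eq_zero_or_pos c with hc | hc
    · left; omega
    · right; right; exact ⟨c - 1, by omega⟩

/-- leading coefficient of `mu` -/
noncomputable def kap (m : ℕ) : ℂ := if m = 1 then 0 else if m % 2 = 0 then 1 else -2

lemma kap_ne {m : ℕ} (hm : m ≠ 1) : kap m ≠ 0 := by
  unfold kap; rw [if_neg hm]; split_ifs <;> norm_num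

lemma top_one : Top 0 (fun _ => (1:ℂ)) 1 0 := by
  unfold Top; simpa using isBigO_zero _ _

lemma top_wp0_pow (i : ℕ) : Top (2 * i) (fun z => wp L 0 z ^ i) 1 0 := by
  induction i with
  | zero => simpa using top_one
  | succ i ih =>
    have h := ih.mul (top_wp L 0)
    have e : 2 * i + (0 + 2) = 2 * (i + 1) := by ring
    rw [e] at h
    refine (h.congr ?_).congr_val (by simp) (by simp)
    exact Eventually.of_forall fun z => by simp [pow_succ]

lemma top_mu (m : ℕ) : Top m (mu L m) (kap m) 0 := by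
  rcases index_cases m with rfl | ⟨i, rfl⟩ | ⟨i, rfl⟩
  · refine ((Top.zero 1).congr (Eventually.of_forall fun z => (mu_one L z).symm)).congr_val ?_ rfl
    simp [kap]
  · refine ((top_wp0_pow L i).congr (Eventually.of_forall fun z => (mu_even L i z).symm)).congr_val ?_ rfl
    have h1 : 2 * i ≠ 1 := by omega
    simp [kap, h1]
  · have h := (top_wp0_pow L i).mul (top_wp L 1)
    refine (h.congr (Eventually.of_forall fun z => (mu_odd L i z).symm)).congr_val ?_ (by simp)
    have h1 : 2 * i + 3 ≠ 1 := by omega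
    have h2 : (2 * i + 3) % 2 ≠ 0 := by omega
    rw [kap, if_neg h1, if_neg h2]; simp [Nat.factorial]

/-- `f` coincides off the lattice with a combination of monomials of pole order at most `m` -/
def InFil (m : ℕ) (f : ℂ → ℂ) : Prop :=
  ∃ c : ℕ → ℂ, ∀ z ∈ Dom L, f z = ∑ j ∈ range (m + 1), c j * mu L j z

variable {L}

lemma InFil.congr {m : ℕ} {f g : ℂ → ℂ} (hf : InFil L m f) (h : ∀ z ∈ Dom L, g z = f z) :
    InFil L m g := by
  obtain ⟨c, hc⟩ := hf
  exact ⟨c, fun z hz => (h z hz).trans (hc z hz)⟩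

lemma InFil.mono {m k : ℕ} (hmk : m ≤ k) {f : ℂ → ℂ} (hf : InFil L m f) : InFil L k f := by
  obtain ⟨c, hc⟩ := hf
  refine ⟨fun j => if j ≤ m then c j else 0, fun z hz => ?_⟩
  simp only []
  rw [hc z hz]
  have hsub : range (m + 1) ⊆ range (k + 1) := range_mono (by omega)
  rw [← sum_subset hsub]
  · refine sum_congr rfl fun j hj => ?_
    rw [Finset.mem_range] at hj
    rw [if_pos (by omega)]
  · intro j _ hj
    rw [Finset.mem_range] at hj
    rw [if_neg (by omega), zero_mul]

lemma InFil.add {m : ℕ} {f g : ℂ → ℂ} (hf : InFil L m f) (hg : InFil L m g) :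
    InFil L m (fun z => f z + g z) := by
  obtain ⟨c, hc⟩ := hf
  obtain ⟨d, hd⟩ := hg
  refine ⟨fun j => c j + d j, fun z hz => ?_⟩
  show f z + g z = _
  rw [hc z hz, hd z hz, ← sum_add_distrib]
  exact sum_congr rfl fun j _ => by ring

lemma InFil.const_mul {m : ℕ} {f : ℂ → ℂ} (k : ℂ) (hf : InFil L m f) :
    InFil L m (fun z => k * f z) := by
  obtain ⟨c, hc⟩ := hf
  refine ⟨fun j => k * c j, fun z hz => ?_⟩
  show k * f z = _
  rw [hc z hz, mul_sum]
  exact sum_congr rfl fun j _ => by ring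

lemma InFil.zero (m : ℕ) : InFil L m (fun _ => 0) := ⟨fun _ => 0, fun z _ => by simp⟩

lemma InFil.sum {ι : Type*} (s : Finset ι) {m : ℕ} {f : ι → ℂ → ℂ}
    (hf : ∀ i ∈ s, InFil L m (f i)) : InFil L m (fun z => ∑ i ∈ s, f i z) := by
  classical
  induction s using Finset.induction_on with
  | empty => simpa using InFil.zero m
  | insert i s his ih =>
    simp only [sum_insert his]
    exact (hf i (mem_insert_self i s)).add (ih fun j hj => hf j (mem_insert_of_mem hj))

variable (L)

lemma inFil_mu (m : ℕ) : InFil L m (mu L m) := by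
  refine ⟨fun j => if j = m then 1 else 0, fun z _ => ?_⟩
  rw [sum_eq_single m]
  · simp
  · intro b _ hb; simp [hb]
  · intro h; simp at h

lemma inFil_even (i : ℕ) : InFil L (2 * i) (fun z => wp L 0 z ^ i) :=
  (inFil_mu L (2 * i)).congr fun z _ => (mu_even L i z).symm

lemma inFil_odd (i : ℕ) : InFil L (2 * i + 3) (fun z => wp L 0 z ^ i * wp L 1 z) :=
  (inFil_mu L (2 * i + 3)).congr fun z _ => (mu_odd L i z).symm

lemma inFil_mu_mul (a b : ℕ) : InFil L (a + b) (fun z => mu L a z * mu L b z) := by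
  rcases index_cases a with rfl | ⟨i, rfl⟩ | ⟨i, rfl⟩
  · exact (InFil.zero _).congr fun z _ => by simp [mu_one]
  · rcases index_cases b with rfl | ⟨j, rfl⟩ | ⟨j, rfl⟩
    · exact (InFil.zero _).congr fun z _ => by simp [mu_one]
    · refine ((inFil_even L (i + j)).congr fun z _ => ?_).mono (by omega)
      rw [mu_even, mu_even, pow_add]
    · refine ((inFil_odd L (i + j)).congr fun z _ => ?_).mono (by omega)
      rw [mu_even, mu_odd, pow_add]; ring
  · rcases index_cases b with rfl | ⟨j, rfl⟩ | ⟨j, rfl⟩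
    · exact (InFil.zero _).congr fun z _ => by simp [mu_one]
    · refine ((inFil_odd L (i + j)).congr fun z _ => ?_).mono (by omega)
      rw [mu_even, mu_odd, pow_add]; ring
    · have h1 := ((inFil_even L (i + j + 3)).const_mul 4).mono (show 2 * (i + j + 3) ≤ 2 * i + 3 + (2 * j + 3) by omega)
      have h2 := ((inFil_even L (i + j + 1)).const_mul (-L.g₂)).mono (show 2 * (i + j + 1) ≤ 2 * i + 3 + (2 * j + 3) by omega)
      have h3 := ((inFil_even L (i + j)).const_mul (-L.g₃)).mono (show 2 * (i + j) ≤ 2 * i + 3 + (2 * j + 3) by omega)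
      refine ((h1.add h2).add h3).congr fun z hz => ?_
      rw [mu_odd, mu_odd]
      have e := wp_one_sq L hz
      linear_combination (wp L 0 z ^ i * wp L 0 z ^ j) * e

variable {L}

lemma InFil.mul {a b : ℕ} {f g : ℂ → ℂ} (hf : InFil L a f) (hg : InFil L b g) :
    InFil L (a + b) (fun z => f z * g z) := by
  obtain ⟨c, hc⟩ := hf
  obtain ⟨d, hd⟩ := hg
  have h : InFil L (a + b) (fun z => ∑ i ∈ range (a + 1), ∑ j ∈ range (b + 1),
      (c i * d j) * (mu L i z * mu L j z)) := by
    refine InFil.sum _ fun i hi => InFil.sum _ fun j hj => ?_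
    rw [Finset.mem_range] at hi hj
    exact ((inFil_mu_mul L i j).const_mul _).mono (by omega)
  refine h.congr fun z hz => ?_
  rw [hc z hz, hd z hz, sum_mul_sum]
  exact sum_congr rfl fun i _ => sum_congr rfl fun j _ => by ring

variable (L)

/-- derivatives of monomials -/
noncomputable def dmu (m : ℕ) (z : ℂ) : ℂ := deriv (mu L m) z

lemma analyticAt_mu (m : ℕ) {z : ℂ} (hz : z ∈ Dom L) : AnalyticAt ℂ (mu L m) z := by
  have h0 := analyticAt_wp L 0 hz
  have h1 := analyticAt_wp L 1 hz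
  rcases index_cases m with rfl | ⟨i, rfl⟩ | ⟨i, rfl⟩
  · have : mu L 1 = fun _ => 0 := funext (mu_one L)
    rw [this]; exact analyticAt_const
  · have : mu L (2 * i) = fun z => wp L 0 z ^ i := funext (mu_even L i)
    rw [this]; fun_prop
  · have : mu L (2 * i + 3) = fun z => wp L 0 z ^ i * wp L 1 z := funext (mu_odd L i)
    rw [this]; fun_prop

lemma inFil_dmu (m : ℕ) : InFil L (m + 1) (dmu L m) := by
  rcases index_cases m with rfl | ⟨i, rfl⟩ | ⟨i, rfl⟩
  · have : mu L 1 = fun _ => 0 := funext (mu_one L)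
    exact (InFil.zero _).congr fun z _ => by simp [dmu, this]
  · have : mu L (2 * i) = fun z => wp L 0 z ^ i := funext (mu_even L i)
    rcases Nat.eq_zero_or_pos i with rfl | hi
    · refine (InFil.zero _).congr fun z _ => ?_
      rw [dmu, this]; simp
    · obtain ⟨j, rfl⟩ : ∃ j, i = j + 1 := ⟨i - 1, by omega⟩
      have h := ((inFil_odd L j).const_mul ((j + 1 : ℕ) : ℂ)).mono (show 2 * j + 3 ≤ 2 * (j + 1) + 1 by omega)
      refine h.congr fun z hz => ?_
      rw [dmu, this]
      have := ((hasDerivAt_wp L 0 hz).fun_pow (j + 1)).deriv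
      rw [this]; simp; ring
  · have : mu L (2 * i + 3) = fun z => wp L 0 z ^ i * wp L 1 z := funext (mu_odd L i)
    have hd : ∀ z ∈ Dom L, dmu L (2 * i + 3) z =
        (i : ℂ) * wp L 0 z ^ (i - 1) * wp L 1 z * wp L 1 z + wp L 0 z ^ i * wp L 2 z := by
      intro z hz
      rw [dmu, this]
      exact (((hasDerivAt_wp L 0 hz).fun_pow i).mul (hasDerivAt_wp L 1 hz)).deriv
    rcases Nat.eq_zero_or_pos i with rfl | hi
    · have h1 := ((inFil_even L 2).const_mul 6).mono (show 2 * 2 ≤ 2 * 0 + 3 + 1 by omega)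
      have h2 := ((inFil_even L 0).const_mul (-L.g₂ / 2)).mono (show 2 * 0 ≤ 2 * 0 + 3 + 1 by omega)
      refine (h1.add h2).congr fun z hz => ?_
      rw [hd z hz, wp_two L hz]; simp; ring
    · obtain ⟨j, rfl⟩ : ∃ j, i = j + 1 := ⟨i - 1, by omega⟩
      have h1 := ((inFil_even L (j + 3)).const_mul (4 * (j + 1 : ℕ) + 6 : ℂ)).mono
        (show 2 * (j + 3) ≤ 2 * (j + 1) + 3 + 1 by omega)
      have h2 := ((inFil_even L (j + 1)).const_mul (-(j + 1 : ℕ) * L.g₂ - L.g₂ / 2)).mono
        (show 2 * (j + 1) ≤ 2 * (j + 1) + 3 + 1 by omega)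
      have h3 := ((inFil_even L j).const_mul (-(j + 1 : ℕ) * L.g₃)).mono
        (show 2 * j ≤ 2 * (j + 1) + 3 + 1 by omega)
      refine ((h1.add h2).add h3).congr fun z hz => ?_
      rw [hd z hz, wp_two L hz, Nat.add_sub_cancel]
      have e := wp_one_sq L hz
      linear_combination ((j + 1 : ℕ) : ℂ) * wp L 0 z ^ j * e

variable {L}

lemma InFil.analyticAt {m : ℕ} {f : ℂ → ℂ} (hf : InFil L m f) {z : ℂ} (hz : z ∈ Dom L) :
    AnalyticAt ℂ f z := by
  obtain ⟨c, hc⟩ := hf
  have h : AnalyticAt ℂ (fun z => ∑ j ∈ range (m + 1), c j * mu L j z) z :=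
    Finset.analyticAt_fun_sum _ fun j _ => analyticAt_const.mul (analyticAt_mu L j hz)
  refine h.congr ?_
  filter_upwards [(isOpen_Dom L).mem_nhds hz] with w hw
  exact (hc w hw).symm

lemma InFil.deriv {m : ℕ} {f g : ℂ → ℂ} (hf : InFil L m f)
    (hg : ∀ z ∈ Dom L, HasDerivAt f (g z) z) : InFil L (m + 1) g := by
  obtain ⟨c, hc⟩ := hf
  have h : InFil L (m + 1) (fun z => ∑ j ∈ range (m + 1), c j * dmu L j z) := by
    refine InFil.sum _ fun j hj => ?_
    rw [Finset.mem_range] at hj
    exact ((inFil_dmu L j).const_mul _).mono (by omega)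
  refine h.congr fun z hz => ?_
  have h1 : HasDerivAt (fun z => ∑ j ∈ range (m + 1), c j * mu L j z)
      (∑ j ∈ range (m + 1), c j * dmu L j z) z :=
    HasDerivAt.fun_sum fun j _ => ((analyticAt_mu L j hz).differentiableAt.hasDerivAt).const_mul _
  have h2 : f =ᶠ[𝓝 z] (fun z => ∑ j ∈ range (m + 1), c j * mu L j z) := by
    filter_upwards [(isOpen_Dom L).mem_nhds hz] with w hw
    exact hc w hw
  exact (hg z hz).unique (h1.congr_of_eventuallyEq h2)

variable (L)

lemma inFil_wp (k : ℕ) : InFil L (k + 2) (wp L k) := by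
  induction k with
  | zero => exact (inFil_even L 1).congr fun z _ => by simp
  | succ k ih => exact ih.deriv fun z hz => hasDerivAt_wp L k hz

/-- the coefficients above the pole order vanish -/
lemma coeff_zero {M n : ℕ} {f : ℂ → ℂ} {c : ℕ → ℂ}
    (hf : ∀ z ∈ Dom L, f z = ∑ j ∈ range M, c j * mu L j z)
    (h : Tendsto (fun z => z ^ (n + 1) * f z) (𝓝[≠] (0:ℂ)) (𝓝 0)) :
    ∀ i, n < i → i < M → i ≠ 1 → c i = 0 := by
  induction M with
  | zero => intro i _ hi; omega
  | succ M ih =>
    rcases Nat.lt_or_ge n M with hnM | hnM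
    · -- top coefficient vanishes
      have htop : M ≠ 1 → c M = 0 := by
        intro hM1
        have h0 : Tendsto (fun z : ℂ => z) (𝓝[≠] 0) (𝓝 0) := tendsto_id.mono_left nhdsWithin_le_nhds
        have h1 : Tendsto (fun z => z ^ M * f z) (𝓝[≠] (0:ℂ)) (𝓝 0) := by
          obtain ⟨k, hk⟩ := Nat.exists_eq_add_of_le (show n + 1 ≤ M by omega)
          have hb : Tendsto (fun z : ℂ => z ^ k * (z ^ (n + 1) * f z)) (𝓝[≠] (0:ℂ)) (𝓝 (0 ^ k * 0)) :=
            (h0.pow k).mul h
          rw [mul_zero] at hb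
          refine hb.congr fun z => ?_
          rw [hk]; ring
        have h2 : Tendsto (fun z => z ^ M * ∑ j ∈ range (M + 1), c j * mu L j z) (𝓝[≠] (0:ℂ))
            (𝓝 (c M * kap M)) := by
          have h3 : ∀ j ∈ range M, Tendsto (fun z => z ^ M * (c j * mu L j z)) (𝓝[≠] (0:ℂ)) (𝓝 0) := by
            intro j hj
            rw [Finset.mem_range] at hj
            obtain ⟨k, hk⟩ := Nat.exists_eq_add_of_lt hj
            have hb : Tendsto (fun z : ℂ => c j * z ^ (k + 1) * (z ^ j * mu L j z)) (𝓝[≠] (0:ℂ))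
                (𝓝 (c j * 0 ^ (k + 1) * kap j)) :=
              ((h0.pow (k + 1)).const_mul (c j)).mul (top_mu L j).tendsto
            simp only [ne_eq, Nat.add_eq_zero_iff, one_ne_zero, and_false, not_false_eq_true, zero_pow,
              mul_zero, zero_mul] at hb
            refine hb.congr fun z => ?_
            rw [hk]; ring
          have h4 : Tendsto (fun z => z ^ M * (c M * mu L M z)) (𝓝[≠] (0:ℂ)) (𝓝 (c M * kap M)) :=
            ((top_mu L M).tendsto.const_mul (c M)).congr fun z => by ring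
          have h5 := (tendsto_finsetSum (range M) h3).add h4
          simp only [sum_const_zero, zero_add] at h5
          refine h5.congr fun z => ?_
          rw [sum_range_succ, mul_add, mul_sum]
        have h6 : Tendsto (fun z => z ^ M * f z) (𝓝[≠] (0:ℂ)) (𝓝 (c M * kap M)) := by
          refine h2.congr' ?_
          filter_upwards [eventually_Dom L] with z hz
          rw [hf z hz]
        have h7 := tendsto_nhds_unique h6 h1
        exact (mul_eq_zero.mp h7).resolve_right (kap_ne hM1)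
      have hf' : ∀ z ∈ Dom L, f z = ∑ j ∈ range M, c j * mu L j z := by
        intro z hz
        rw [hf z hz, sum_range_succ]
        by_cases hM1 : M = 1
        · subst hM1; rw [mu_one]; ring
        · rw [htop hM1]; ring
      intro i hi1 hi2 hi3
      rcases Nat.lt_or_ge i M with hiM | hiM
      · exact ih hf' i hi1 hiM hi3
      · have : i = M := by omega
        subst this; exact htop hi3
    · intro i hi1 hi2; omega

lemma Top.tendsto_lower {m : ℕ} {f : ℂ → ℂ} (hf : Top (m + 1) f 0 0) :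
    Tendsto (fun z => z ^ m * f z) (𝓝[≠] (0:ℂ)) (𝓝 0) := by
  have h1 : (fun z => z ^ m * f z) =O[𝓝[≠] (0:ℂ)] (fun z => z) := by
    unfold Top at hf
    have h2 : (fun z : ℂ => z⁻¹ * (z ^ (m + 1) * f z - (0 + 0 * z))) =O[𝓝[≠] (0:ℂ)]
        (fun z => z⁻¹ * z ^ 2) := (isBigO_refl _ _).mul hf
    refine h2.congr' ?_ ?_
    · filter_upwards [self_mem_nhdsWithin] with z hz
      have : z ≠ 0 := hz
      field_simp
      ring
    · filter_upwards [self_mem_nhdsWithin] with z hz
      have : z ≠ 0 := hz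
      field_simp
  have h0 : Tendsto (fun z : ℂ => z) (𝓝[≠] 0) (𝓝 0) := tendsto_id.mono_left nhdsWithin_le_nhds
  exact h1.trans_tendsto h0

/-- lowering the filtration degree -/
lemma InFil.lower {M n : ℕ} (hn : 1 ≤ n) {f : ℂ → ℂ} (hf : InFil L M f)
    (h : Tendsto (fun z => z ^ (n + 1) * f z) (𝓝[≠] (0:ℂ)) (𝓝 0)) : InFil L n f := by
  obtain ⟨c, hc⟩ := hf
  rcases Nat.lt_or_ge n M with hnM | hnM
  · have h1 := coeff_zero L hc h
    refine ⟨c, fun z hz => ?_⟩
    rw [hc z hz]
    symm
    apply sum_subset (range_mono (by omega))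
    intro j hj hj2
    rw [Finset.mem_range] at hj hj2
    rw [h1 j (by omega) (by omega) (by omega), zero_mul]
  · exact InFil.mono hnM ⟨c, hc⟩

/-- the basis functions `1, ℘, ℘', ℘'', …` -/
noncomputable def bw (k : ℕ) (z : ℂ) : ℂ := if k = 0 then 1 else wp L (k - 1) z

lemma bw_zero (z : ℂ) : bw L 0 z = 1 := by simp [bw]

lemma bw_succ (k : ℕ) (z : ℂ) : bw L (k + 1) z = wp L k z := by simp [bw]

lemma inFil_bw (k : ℕ) : InFil L (k + 1) (bw L k) := by
  cases k with
  | zero => exact ((inFil_mu L 0).congr fun z _ => by simp [bw, mu_zero]).mono (by omega)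
  | succ k => exact (inFil_wp L k).congr fun z _ => bw_succ L k z

/-- combination of the first `m` basis functions -/
def InB (m : ℕ) (f : ℂ → ℂ) : Prop :=
  ∃ c : ℕ → ℂ, ∀ z ∈ Dom L, f z = ∑ k ∈ range m, c k * bw L k z

lemma InFil.inB {m : ℕ} (hm : 1 ≤ m) {f : ℂ → ℂ} (hf : InFil L m f) : InB L m f := by
  induction m, hm using Nat.le_induction generalizing f with
  | base =>
    obtain ⟨c, hc⟩ := hf
    refine ⟨c, fun z hz => ?_⟩
    rw [hc z hz]
    simp [sum_range_succ, mu_zero, mu_one, bw_zero]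
  | succ m hm ih =>
    obtain ⟨c, hc⟩ := hf
    obtain ⟨k, rfl⟩ : ∃ k, m = k + 1 := ⟨m - 1, by omega⟩
    set lam : ℂ := (-1) ^ k * (k + 1)! with hlam
    have hlam0 : lam ≠ 0 := by
      rw [hlam]
      exact mul_ne_zero (pow_ne_zero _ (by norm_num)) (by exact_mod_cast Nat.factorial_ne_zero _)
    set a : ℂ := c (k + 2) * kap (k + 2) / lam with ha
    have hf1 : InFil L (k + 2) f := ⟨c, hc⟩
    have hg : InFil L (k + 2) (fun z => f z + (-a) * wp L k z) :=
      hf1.add ((inFil_wp L k).const_mul (-a))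
    have hlim : Tendsto (fun z => z ^ (k + 2) * f z) (𝓝[≠] (0:ℂ)) (𝓝 (c (k + 2) * kap (k + 2))) := by
      have h0 : Tendsto (fun z : ℂ => z) (𝓝[≠] 0) (𝓝 0) := tendsto_id.mono_left nhdsWithin_le_nhds
      have h3 : ∀ j ∈ range (k + 2), Tendsto (fun z => z ^ (k + 2) * (c j * mu L j z)) (𝓝[≠] (0:ℂ)) (𝓝 0) := by
        intro j hj
        rw [Finset.mem_range] at hj
        obtain ⟨i, hi⟩ := Nat.exists_eq_add_of_lt hj
        have hb : Tendsto (fun z : ℂ => c j * z ^ (i + 1) * (z ^ j * mu L j z)) (𝓝[≠] (0:ℂ))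
            (𝓝 (c j * 0 ^ (i + 1) * kap j)) :=
          ((h0.pow (i + 1)).const_mul (c j)).mul (top_mu L j).tendsto
        simp only [ne_eq, Nat.add_eq_zero_iff, one_ne_zero, and_false, not_false_eq_true, zero_pow,
          mul_zero, zero_mul] at hb
        refine hb.congr fun z => ?_
        rw [hi]; ring
      have h4 : Tendsto (fun z => z ^ (k + 2) * (c (k + 2) * mu L (k + 2) z)) (𝓝[≠] (0:ℂ))
          (𝓝 (c (k + 2) * kap (k + 2))) :=
        ((top_mu L (k + 2)).tendsto.const_mul (c (k + 2))).congr fun z => by ring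
      have h5 := (tendsto_finsetSum (range (k + 2)) h3).add h4
      simp only [sum_const_zero, zero_add] at h5
      refine h5.congr' ?_
      filter_upwards [eventually_Dom L] with z hz
      rw [hc z hz, sum_range_succ _ (k + 2), mul_add, mul_sum]
    have hlim2 : Tendsto (fun z => z ^ (k + 1 + 1) * (f z + (-a) * wp L k z)) (𝓝[≠] (0:ℂ)) (𝓝 0) := by
      have h6 := hlim.add ((top_wp L k).tendsto.const_mul (-a))
      have h7 : c (k + 2) * kap (k + 2) + -a * ((-1) ^ k * (k + 1)!) = 0 := by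
        rw [← hlam, ha]; field_simp; ring
      rw [h7] at h6
      refine h6.congr fun z => ?_
      ring
    have hlow := InFil.lower L (by omega : 1 ≤ k + 1) hg hlim2
    obtain ⟨d, hd⟩ := ih hlow
    refine ⟨fun j => if j = k + 1 then a else d j, fun z hz => ?_⟩
    simp only []
    rw [sum_range_succ, if_pos rfl, bw_succ]
    have h8 := hd z hz
    have h9 : ∑ j ∈ range (k + 1), (if j = k + 1 then a else d j) * bw L j z =
        ∑ j ∈ range (k + 1), d j * bw L j z := by
      refine sum_congr rfl fun j hj => ?_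
      rw [Finset.mem_range] at hj
      rw [if_neg (by omega)]
    rw [h9, ← h8]; ring

end Pool.Agent.Helper487.ECM
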