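import Pool.Agent.Helper487.ECM.Form

/-! The representation by anticommutators and its converse. -/

open Filter Topology Finset
open scoped Nat PeriodPair

namespace Pool.Agent.Helper487.ECM

variable {L : PeriodPair} {N : ℕ}

/-- the value of the transformed operator as a combination -/
lemma opc_eq_sum (hN : 1 ≤ N) (γ : ℂ) : ∃ lam : Fin (N + 1) → Fin (N + 1) → Fin (N + 1) → Fin (N + 1) → ℂ,
    ∀ (u : Fin N → ℂ) (F0 : ℂ) (F1 : Fin N → ℂ) (F2 : Fin N → Fin N → ℂ), (∀ a b, F2 a b = F2 b a) →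
    opc L N γ (cU u) F2 F1 F0 = ∑ i, ∑ j, ∑ k, ∑ l, lam i j k l * acv (-(γ * ((N : ℂ) + 1))) u F0 F1 F2 i j k l := by
  obtain ⟨τ, hτ⟩ := trace_const L hN
  have hn : ((N : ℂ) + 1) ≠ 0 := by exact_mod_cast (by omega : N + 1 ≠ 0)
  obtain ⟨κ, hκ⟩ : ∃ κ, κ = -(γ * ((N : ℂ) + 1)) := ⟨_, rfl⟩
  obtain ⟨ω, hω⟩ : ∃ ω : ℂ, ω * (2 * κ ^ 2) = γ ^ 2 * (((N : ℂ) + 1) * τ) + τ * κ / 2 := by
    by_cases hγ : γ = 0
    · refine ⟨0, ?_⟩
      rw [hκ, hγ]; ring
    · have hκ0 : κ ≠ 0 := by rw [hκ]; exact neg_ne_zero.mpr (mul_ne_zero hγ hn)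
      refine ⟨(γ ^ 2 * (((N : ℂ) + 1) * τ) + τ * κ / 2) / (2 * κ ^ 2), ?_⟩
      exact div_mul_cancel₀ _ (mul_ne_zero two_ne_zero (pow_ne_zero 2 hκ0))
  refine ⟨fun i j k l => -(1 / 2) * (sg i * sg j * sg k * sg l * rr L (N + 1) i k j l)
    + (if i = j ∧ k = l then ω else 0), fun u F0 F1 F2 h => ?_⟩
  have h0 : ∀ k < N + 1, TrR L (N + 1) (cU u) k = τ * cU u k := fun k hk => hτ _ k hk
  rw [← hκ, opc_eq_S2 (τ := τ) γ u (by rw [h0 0 (by omega), cU_zero, mul_one]) F0 F1 h, ← hκ]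
  have e1 : ∑ i : Fin (N + 1), ∑ j : Fin (N + 1), ∑ k : Fin (N + 1), ∑ l : Fin (N + 1),
      (-(1 / 2) * (sg i * sg j * sg k * sg l * rr L (N + 1) i k j l) + (if i = j ∧ k = l then ω else 0)) *
        acv κ u F0 F1 F2 i j k l =
      -(1 / 2) * (∑ i : Fin (N + 1), ∑ j : Fin (N + 1), ∑ k : Fin (N + 1), ∑ l : Fin (N + 1),
        sg i * sg j * sg k * sg l * rr L (N + 1) i k j l * acv κ u F0 F1 F2 i j k l) +
      ω * ∑ i, ∑ k, acv κ u F0 F1 F2 i i k k := by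
    rw [mul_sum, mul_sum, ← sum_add_distrib]
    refine sum_congr rfl fun i _ => ?_
    have e2 : ∑ k, acv κ u F0 F1 F2 i i k k = ∑ j : Fin (N + 1), ∑ k : Fin (N + 1), ∑ l : Fin (N + 1),
        (if i = j ∧ k = l then acv κ u F0 F1 F2 i j k l else 0) := by
      symm
      rw [sum_eq_single i]
      · refine sum_congr rfl fun k _ => ?_
        rw [sum_eq_single k]
        · rw [if_pos ⟨rfl, rfl⟩]
        · intro l _ hl; rw [if_neg (fun h => hl h.2.symm)]
        · intro h; exact absurd (mem_univ k) h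
      · intro j _ hj
        refine sum_eq_zero fun k _ => sum_eq_zero fun l _ => ?_
        rw [if_neg (fun h => hj h.1.symm)]
      · intro h; exact absurd (mem_univ i) h
    rw [e2, mul_sum, mul_sum, ← sum_add_distrib]
    refine sum_congr rfl fun j _ => ?_
    rw [mul_sum, mul_sum, ← sum_add_distrib]
    refine sum_congr rfl fun k _ => ?_
    rw [mul_sum, mul_sum, ← sum_add_distrib]
    refine sum_congr rfl fun l _ => ?_
    split_ifs <;> ring
  rw [e1, sum_acv κ u h0 F0 F1 F2, sum_diag κ u F0 F1 h]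
  linear_combination (-F0) * hω

/-- the representation of the transformed operator -/
theorem anti_form (L : PeriodPair) {N : ℕ} (hN : 1 ≤ N) (β γ : ℂ) (hγ : γ * (γ - 1) = β * (β - 1)) :
    ∃ lam : Fin (N + 1) → Fin (N + 1) → Fin (N + 1) → Fin (N + 1) → ℂ, ∀ y ∈ UU L N, ∀ E, IsPow L γ E y →
      ∀ F : (Fin N → ℂ) → ℂ, AnalyticAt ℂ F (uu L y) →
      (E y)⁻¹ * HH L β (fun y' => E y' * F (uu L y')) y =
        ∑ i, ∑ j, ∑ k, ∑ l, lam i j k l *
          (gen (-(γ * ((N : ℂ) + 1))) i j (gen (-(γ * ((N : ℂ) + 1))) k l F) (uu L y) +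
            gen (-(γ * ((N : ℂ) + 1))) k l (gen (-(γ * ((N : ℂ) + 1))) i j F) (uu L y)) := by
  obtain ⟨lam, h⟩ := opc_eq_sum (L := L) hN γ
  refine ⟨lam, fun y hy E hE F hF => ?_⟩
  rw [oper_UU hy hN β γ hE hF, hγ, sub_self, zero_mul, zero_mul, add_zero]
  have h1 := h (uu L y) (F (uu L y)) (fun a => pd a F (uu L y)) (fun a b => pd a (pd b F) (uu L y))
    (fun a b => pd_symm hF)
  have h2 : opc L N γ (cc L y) (fun a b => pd a (pd b F) (uu L y)) (fun a => pd a F (uu L y)) (F (uu L y)) = _ := h1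
  rw [h2]
  refine sum_congr rfl fun i _ => sum_congr rfl fun j _ => sum_congr rfl fun k _ => sum_congr rfl fun l _ => ?_
  rw [anti_eq _ i j k l hF]
  rfl

/-! ### the converse -/

open MvPolynomial in
/-- the extended coordinates as polynomials -/
noncomputable def uhP (N : ℕ) : Fin (N + 1) → MvPolynomial (Fin N) ℂ := Fin.cons 1 X

lemma eval_uhP (u : Fin N → ℂ) (i : Fin (N + 1)) : MvPolynomial.eval u (uhP N i) = uh u i := by
  refine Fin.cases ?_ (fun i => ?_) i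
  · simp [uhP, uh]
  · simp [uhP, uh]

lemma D1_const (κ : ℂ) (u : Fin N → ℂ) (i : Fin (N + 1)) :
    D1 κ u 1 (fun _ => 0) i = D1 κ 0 1 (fun _ => 0) i := by
  refine Fin.cases ?_ (fun i => ?_) i
  · simp [D1_zero]
  · simp [D1_succ]

lemma D2_const (κ : ℂ) (u : Fin N → ℂ) (i j : Fin (N + 1)) :
    D2 κ u 1 (fun _ => 0) (fun _ _ => 0) i j = D2 κ 0 1 (fun _ => 0) (fun _ _ => 0) i j := by
  refine Fin.cases ?_ (fun i => ?_) i
  · refine Fin.cases ?_ (fun j => ?_) j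
    · simp [D2_zero_zero]
    · simp [D2_zero_succ]
  · refine Fin.cases ?_ (fun j => ?_) j
    · simp [D2_succ_zero]
    · simp [D2_succ_succ]

theorem anti_only_if (hN : 1 ≤ N) (β γ κ : ℂ)
    (h : ∃ lam : Fin (N + 1) → Fin (N + 1) → Fin (N + 1) → Fin (N + 1) → ℂ, ∀ y ∈ UU L N, ∀ E, IsPow L γ E y →
      ∀ F : (Fin N → ℂ) → ℂ, AnalyticAt ℂ F (uu L y) →
      (E y)⁻¹ * HH L β (fun y' => E y' * F (uu L y')) y =
        ∑ i, ∑ j, ∑ k, ∑ l, lam i j k l *
          (gen κ i j (gen κ k l F) (uu L y) + gen κ k l (gen κ i j F) (uu L y))) :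
    γ * (γ - 1) = β * (β - 1) := by
  obtain ⟨lam, h⟩ := h
  refine only_if_one (L := L) hN β γ (∑ i, ∑ j, ∑ k, ∑ l, MvPolynomial.C (lam i j k l) *
    (2 * (uhP N i * uhP N k * MvPolynomial.C (D2 κ 0 1 (fun _ => 0) (fun _ _ => 0) j l))
      + (if k = j then 1 else 0) * (uhP N i * MvPolynomial.C (D1 κ 0 1 (fun _ => 0) l))
      + (if i = l then 1 else 0) * (uhP N k * MvPolynomial.C (D1 κ 0 1 (fun _ => 0) j)))) fun y hy E hE => ?_
  rw [h y hy E hE (fun _ => 1) analyticAt_const]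
  simp only [map_sum, map_mul, map_add, MvPolynomial.eval_C, eval_uhP]
  refine sum_congr rfl fun i _ => sum_congr rfl fun j _ => sum_congr rfl fun k _ => sum_congr rfl fun l _ => ?_
  rw [anti_eq κ i j k l analyticAt_const]
  have hpd : ∀ b : Fin N, pd b (fun _ : Fin N → ℂ => (1:ℂ)) = fun _ => 0 := fun b => funext fun y => pd_const 1 y
  simp only [hpd, pd_const, D1_const κ (uu L y), D2_const κ (uu L y)]
  congr 1
  split_ifs <;> simp

end Pool.Agent.Helper487.ECM
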