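import Pool.Agent.Helper487.ECM.Anti

/-! The transformed operator as a combination of anticommutators. -/

open Filter Topology Finset
open scoped Nat PeriodPair

namespace Pool.Agent.Helper487.ECM

variable {L : PeriodPair} {N : ℕ}

lemma rr_symm (n a b k l : ℕ) : rr L n a b k l = rr L n a b l k := by
  unfold rr; ring

/-- the data of the anticommutator -/
noncomputable def acv (κ : ℂ) (u : Fin N → ℂ) (F0 : ℂ) (F1 : Fin N → ℂ) (F2 : Fin N → Fin N → ℂ)
    (i j k l : Fin (N + 1)) : ℂ :=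
  2 * (uh u i * uh u k * D2 κ u F0 F1 F2 j l)
      + (if k = j then 1 else 0) * (uh u i * D1 κ u F0 F1 l)
      + (if i = l then 1 else 0) * (uh u k * D1 κ u F0 F1 j)

/-- the second order form -/
noncomputable def S2 (L : PeriodPair) (κ : ℂ) (u : Fin N → ℂ) (F0 : ℂ) (F1 : Fin N → ℂ)
    (F2 : Fin N → Fin N → ℂ) : ℂ :=
  ∑ j : Fin (N + 1), ∑ l : Fin (N + 1), sg j * sg l * D2 κ u F0 F1 F2 j l * rho L (N + 1) (cU u) j l

lemma S2_eq (κ : ℂ) (u : Fin N → ℂ) (F0 : ℂ) (F1 : Fin N → ℂ) {F2 : Fin N → Fin N → ℂ}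
    (h : ∀ a b, F2 a b = F2 b a) :
    S2 L κ u F0 F1 F2 = ∑ a : Fin N, ∑ b : Fin N, Gf L (N + 1) (cU u) (a + 1) (b + 1) * F2 a b
      - 2 * (κ - 1) * ∑ a : Fin N, Tf L (N + 1) (cU u) (a + 1) * F1 a
      + κ * (κ - 1) * rho L (N + 1) (cU u) 0 0 * F0 := by
  unfold S2
  rw [Fin.sum_univ_succ, Fin.sum_univ_succ]
  simp only [Fin.sum_univ_succ (n := N), sg_zero, sg_succ, D2_zero_zero, D2_zero_succ, D2_succ_zero,
    D2_succ_succ, Fin.val_succ, Fin.val_zero, one_mul, mul_one]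
  have r0 : ∀ a : Fin N, rho L (N + 1) (cU u) (a + 1) 0 = rho L (N + 1) (cU u) 0 (a + 1) :=
    fun a => rho_symm _ _ _ _ _
  simp only [Gf, Tf, cU_succ, r0]
  obtain ⟨r, hr⟩ : ∃ r : Fin N → ℂ, ∀ a : Fin N, rho L (N + 1) (cU u) 0 (a + 1) = r a := ⟨_, fun a => rfl⟩
  obtain ⟨R, hR⟩ : ∃ R : Fin N → Fin N → ℂ, ∀ a b : Fin N, rho L (N + 1) (cU u) (a + 1) (b + 1) = R a b :=
    ⟨_, fun a b => rfl⟩
  obtain ⟨r00, hr00⟩ : ∃ r00, rho L (N + 1) (cU u) 0 0 = r00 := ⟨_, rfl⟩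
  simp only [hr, hR, hr00]
  have x1 : ∑ a, ∑ b, u a * r b * F2 a b = ∑ a, ∑ b, u b * r a * F2 a b := by
    rw [sum_comm]; exact sum_congr rfl fun a _ => sum_congr rfl fun b _ => by rw [h]
  have l1 : ∑ b, -1 * ((κ - 1) * F1 b - ∑ a, u a * F2 a b) * r b =
      -(κ - 1) * ∑ a, r a * F1 a + ∑ a, ∑ b, u a * r b * F2 a b := by
    rw [sum_comm, mul_sum, ← sum_add_distrib]
    refine sum_congr rfl fun b _ => ?_
    have : (∑ a, u a * r b * F2 a b) = (∑ a, u a * F2 a b) * r b := by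
      rw [sum_mul]; exact sum_congr rfl fun a _ => by ring
    rw [this]; ring
  have l2 : ∑ a, (-1 * ((κ - 1) * F1 a - ∑ b, u b * F2 a b) * r a + ∑ b, -1 * -1 * F2 a b * R a b) =
      -(κ - 1) * ∑ a, r a * F1 a + ∑ a, ∑ b, u b * r a * F2 a b + ∑ a, ∑ b, R a b * F2 a b := by
    rw [mul_sum, ← sum_add_distrib, ← sum_add_distrib]
    refine sum_congr rfl fun a _ => ?_
    have e1 : (∑ b, u b * r a * F2 a b) = (∑ b, u b * F2 a b) * r a := by
      rw [sum_mul]; exact sum_congr rfl fun a _ => by ring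
    have e2 : (∑ b, -1 * -1 * F2 a b * R a b) = ∑ b, R a b * F2 a b := sum_congr rfl fun a _ => by ring
    rw [e1, e2]; ring
  have l3 : ∑ a, ∑ b, (R a b - -u b * r a - -u a * r b + r00 * -u a * -u b) * F2 a b =
      ∑ a, ∑ b, R a b * F2 a b + ∑ a, ∑ b, u b * r a * F2 a b + ∑ a, ∑ b, u a * r b * F2 a b
        + r00 * ∑ a, ∑ b, u a * u b * F2 a b := by
    rw [mul_sum, ← sum_add_distrib, ← sum_add_distrib, ← sum_add_distrib]
    refine sum_congr rfl fun a _ => ?_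
    rw [mul_sum, ← sum_add_distrib, ← sum_add_distrib, ← sum_add_distrib]
    exact sum_congr rfl fun b _ => by ring
  have l4 : ∑ a, (r a - r00 * -u a) * F1 a = ∑ a, r a * F1 a + r00 * ∑ a, u a * F1 a := by
    rw [mul_sum, ← sum_add_distrib]
    exact sum_congr rfl fun b _ => by ring
  rw [l1, l2, l3, l4, x1]
  ring

/-- the lower order coefficient -/
lemma Zf_eq {τ : ℂ} {c : ℕ → ℂ} (h0 : TrR L (N + 1) c 0 = τ) :
    Zf L (N + 1) c = ((N : ℂ) + 2) * rho L (N + 1) c 0 0 - τ := by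
  unfold Zf
  rw [euler_rho, ← h0]
  unfold TrR
  push_cast; ring

lemma opc_eq_S2 {τ : ℂ} (γ : ℂ) (u : Fin N → ℂ) (h0 : TrR L (N + 1) (cU u) 0 = τ) (F0 : ℂ)
    (F1 : Fin N → ℂ) {F2 : Fin N → Fin N → ℂ} (h : ∀ a b, F2 a b = F2 b a) :
    opc L N γ (cU u) F2 F1 F0 = -S2 L (-(γ * ((N : ℂ) + 1))) u F0 F1 F2
      + γ ^ 2 * (((N : ℂ) + 1) * τ) * F0 := by
  rw [S2_eq _ u F0 F1 h]
  unfold opc
  rw [Zf_eq h0]
  have e1 : ∑ a : Fin N, ∑ b : Fin N, -Gf L (N + 1) (cU u) (a + 1) (b + 1) * F2 a b =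
      -∑ a : Fin N, ∑ b : Fin N, Gf L (N + 1) (cU u) (a + 1) (b + 1) * F2 a b := by
    rw [← sum_neg_distrib]
    refine sum_congr rfl fun a _ => ?_
    rw [← sum_neg_distrib]
    exact sum_congr rfl fun b _ => by ring
  have e2 : ∑ a : Fin N, -((2 + 2 * γ * ((N : ℂ) + 1)) * Tf L (N + 1) (cU u) (a + 1)) * F1 a =
      -(2 + 2 * γ * ((N : ℂ) + 1)) * ∑ a : Fin N, Tf L (N + 1) (cU u) (a + 1) * F1 a := by
    rw [mul_sum]
    exact sum_congr rfl fun b _ => by ring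
  rw [e1, e2]
  ring

/-- the contraction of the kernel with the anticommutators -/
lemma sum_acv {τ : ℂ} (κ : ℂ) (u : Fin N → ℂ) (h0 : ∀ k < N + 1, TrR L (N + 1) (cU u) k = τ * cU u k)
    (F0 : ℂ) (F1 : Fin N → ℂ) (F2 : Fin N → Fin N → ℂ) :
    ∑ i : Fin (N + 1), ∑ j : Fin (N + 1), ∑ k : Fin (N + 1), ∑ l : Fin (N + 1), sg i * sg j * sg k * sg l * rr L (N + 1) i k j l * acv κ u F0 F1 F2 i j k l =
      2 * S2 L κ u F0 F1 F2 + τ * (κ * F0) := by
  have a1 : ∑ i : Fin (N + 1), ∑ j : Fin (N + 1), ∑ k : Fin (N + 1), ∑ l : Fin (N + 1), sg i * sg j * sg k * sg l * rr L (N + 1) i k j l *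
      (2 * (uh u i * uh u k * D2 κ u F0 F1 F2 j l)) = 2 * S2 L κ u F0 F1 F2 := by
    unfold S2
    rw [mul_sum, sum_comm]
    refine sum_congr rfl fun j _ => ?_
    rw [mul_sum]
    have : ∀ i : Fin (N + 1), ∑ k : Fin (N + 1), ∑ l : Fin (N + 1), sg i * sg j * sg k * sg l * rr L (N + 1) i k j l *
      (2 * (uh u i * uh u k * D2 κ u F0 F1 F2 j l)) = ∑ l : Fin (N + 1), ∑ k : Fin (N + 1), sg i * sg j * sg k * sg l * rr L (N + 1) i k j l *
      (2 * (uh u i * uh u k * D2 κ u F0 F1 F2 j l)) := fun i => sum_comm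
    simp only [this]
    rw [sum_comm]
    refine sum_congr rfl fun l _ => ?_
    unfold rho
    rw [Finset.sum_range, mul_sum, mul_sum]
    refine sum_congr rfl fun i _ => ?_
    rw [Finset.sum_range, mul_sum, mul_sum]
    refine sum_congr rfl fun k _ => ?_
    rw [cU_eq, cU_eq]; ring
  have a2 : ∑ i : Fin (N + 1), ∑ j : Fin (N + 1), ∑ k : Fin (N + 1), ∑ l : Fin (N + 1), sg i * sg j * sg k * sg l * rr L (N + 1) i k j l *
      ((if k = j then 1 else 0) * (uh u i * D1 κ u F0 F1 l)) =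
      ∑ l : Fin (N + 1), sg l * D1 κ u F0 F1 l * ∑ m : Fin (N + 1), ∑ b : Fin (N + 1), cU u b * rr L (N + 1) b m m l := by
    have e1 : ∀ i j : Fin (N + 1), ∑ k : Fin (N + 1), ∑ l : Fin (N + 1), sg i * sg j * sg k * sg l * rr L (N + 1) i k j l *
      ((if k = j then 1 else 0) * (uh u i * D1 κ u F0 F1 l)) =
        ∑ l : Fin (N + 1), sg l * D1 κ u F0 F1 l * (cU u i * rr L (N + 1) i j j l) := by
      intro i j
      rw [sum_eq_single j]
      · refine sum_congr rfl fun l _ => ?_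
        rw [if_pos rfl, cU_eq]
        linear_combination (sg i * sg l * rr L (N + 1) i j j l * uh u i * D1 κ u F0 F1 l) * sg_sq j
      · intro k _ hk
        refine sum_eq_zero fun l _ => ?_
        rw [if_neg hk]; ring
      · intro h; exact absurd (mem_univ j) h
    simp only [e1]
    have e2 : ∀ i : Fin (N + 1), ∑ j : Fin (N + 1), ∑ l : Fin (N + 1), sg l * D1 κ u F0 F1 l * (cU u i * rr L (N + 1) i j j l) =
        ∑ l : Fin (N + 1), ∑ j : Fin (N + 1), sg l * D1 κ u F0 F1 l * (cU u i * rr L (N + 1) i j j l) := fun i => sum_comm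
    simp only [e2]
    rw [sum_comm]
    refine sum_congr rfl fun l _ => ?_
    rw [sum_comm, mul_sum]
    refine sum_congr rfl fun m _ => ?_
    rw [mul_sum]
  have a3 : ∑ i : Fin (N + 1), ∑ j : Fin (N + 1), ∑ k : Fin (N + 1), ∑ l : Fin (N + 1), sg i * sg j * sg k * sg l * rr L (N + 1) i k j l *
      ((if i = l then 1 else 0) * (uh u k * D1 κ u F0 F1 j)) =
      ∑ l : Fin (N + 1), sg l * D1 κ u F0 F1 l * ∑ m : Fin (N + 1), ∑ b : Fin (N + 1), cU u b * rr L (N + 1) m b m l := by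
    have e1 : ∀ i j k : Fin (N + 1), ∑ l : Fin (N + 1), sg i * sg j * sg k * sg l * rr L (N + 1) i k j l *
      ((if i = l then 1 else 0) * (uh u k * D1 κ u F0 F1 j)) =
        sg j * D1 κ u F0 F1 j * (cU u k * rr L (N + 1) i k i j) := by
      intro i j k
      rw [sum_eq_single i]
      · rw [if_pos rfl, cU_eq, rr_symm (N + 1) i k j i]
        linear_combination (sg k * sg j * rr L (N + 1) i k i j * uh u k * D1 κ u F0 F1 j) * sg_sq i
      · intro l _ hl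
        rw [if_neg (Ne.symm hl)]; ring
      · intro h; exact absurd (mem_univ i) h
    simp only [e1]
    rw [sum_comm]
    refine sum_congr rfl fun l _ => ?_
    rw [mul_sum]
    refine sum_congr rfl fun m _ => ?_
    rw [mul_sum]
  have a4 : ∑ l : Fin (N + 1), sg l * D1 κ u F0 F1 l * ∑ m : Fin (N + 1), ∑ b : Fin (N + 1), cU u b * rr L (N + 1) b m m l
      + ∑ l : Fin (N + 1), sg l * D1 κ u F0 F1 l * ∑ m : Fin (N + 1), ∑ b : Fin (N + 1), cU u b * rr L (N + 1) m b m l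
      = τ * (κ * F0) := by
    rw [← D1_sum κ u F0 F1, mul_sum, ← sum_add_distrib]
    refine sum_congr rfl fun l _ => ?_
    have e1 := h0 l l.2
    unfold TrR drho at e1
    rw [Finset.sum_range] at e1
    simp only [Finset.sum_range, mul_add, sum_add_distrib] at e1
    rw [cU_eq] at e1
    linear_combination (sg l * D1 κ u F0 F1 l) * e1 + (τ * uh u l * D1 κ u F0 F1 l) * sg_sq l
  have a5 : ∑ i : Fin (N + 1), ∑ j : Fin (N + 1), ∑ k : Fin (N + 1), ∑ l : Fin (N + 1), sg i * sg j * sg k * sg l * rr L (N + 1) i k j l * acv κ u F0 F1 F2 i j k l =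
      ∑ i : Fin (N + 1), ∑ j : Fin (N + 1), ∑ k : Fin (N + 1), ∑ l : Fin (N + 1), sg i * sg j * sg k * sg l * rr L (N + 1) i k j l *
        (2 * (uh u i * uh u k * D2 κ u F0 F1 F2 j l))
      + ∑ i : Fin (N + 1), ∑ j : Fin (N + 1), ∑ k : Fin (N + 1), ∑ l : Fin (N + 1), sg i * sg j * sg k * sg l * rr L (N + 1) i k j l *
        ((if k = j then 1 else 0) * (uh u i * D1 κ u F0 F1 l))
      + ∑ i : Fin (N + 1), ∑ j : Fin (N + 1), ∑ k : Fin (N + 1), ∑ l : Fin (N + 1), sg i * sg j * sg k * sg l * rr L (N + 1) i k j l *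
        ((if i = l then 1 else 0) * (uh u k * D1 κ u F0 F1 j)) := by
    simp only [acv, mul_add, sum_add_distrib]
  rw [a5, a1, a2, a3, ← a4]
  ring

/-- the square of the Euler operator -/
lemma sum_diag (κ : ℂ) (u : Fin N → ℂ) (F0 : ℂ) (F1 : Fin N → ℂ) {F2 : Fin N → Fin N → ℂ}
    (h : ∀ a b, F2 a b = F2 b a) :
    ∑ i, ∑ k, acv κ u F0 F1 F2 i i k k = 2 * κ ^ 2 * F0 := by
  have e1 : ∀ i : Fin (N + 1), ∑ k, acv κ u F0 F1 F2 i i k k = 2 * κ * (uh u i * D1 κ u F0 F1 i) := by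
    intro i
    unfold acv
    simp only [sum_add_distrib]
    have b1 : ∑ k, 2 * (uh u i * uh u k * D2 κ u F0 F1 F2 i k) = 2 * uh u i * ((κ - 1) * D1 κ u F0 F1 i) := by
      rw [← D2_row κ u F0 F1 h i, mul_sum]
      exact sum_congr rfl fun k _ => by ring
    have b2 : ∑ k : Fin (N + 1), (if k = i then 1 else 0) * (uh u i * D1 κ u F0 F1 k) = uh u i * D1 κ u F0 F1 i := by
      rw [sum_eq_single i]
      · rw [if_pos rfl, one_mul]
      · intro k _ hk; rw [if_neg hk, zero_mul]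
      · intro h; exact absurd (mem_univ i) h
    have b3 : ∑ k : Fin (N + 1), (if i = k then 1 else 0) * (uh u k * D1 κ u F0 F1 i) = uh u i * D1 κ u F0 F1 i := by
      rw [sum_eq_single i]
      · rw [if_pos rfl, one_mul]
      · intro k _ hk; rw [if_neg hk.symm, zero_mul]
      · intro h; exact absurd (mem_univ i) h
    rw [b1, b2, b3]; ring
  simp only [e1]
  rw [← mul_sum, D1_sum]; ring

end Pool.Agent.Helper487.ECM
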