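import Pool.Agent.Helper487.ECM.Jac

/-! The metric gradient of the logarithm of the Jacobian. -/

open Filter Topology Finset
open scoped Nat PeriodPair

namespace Pool.Agent.Helper487.ECM

variable {L : PeriodPair} {N : ℕ}

lemma Gen0.ph1_RRc_off {y : Fin N → ℂ} (h : Gen0 L y) (hN : 1 ≤ N) {i j : Fin N} (hij : i ≠ j) :
    ph1 L (N + 1) (RRc L (N + 1) (cc L y) (y i)) (y j) =
      Q L (y j) (y i) * ph1 L (N + 1) (cc L y) (y j) * ph1 L (N + 1) (cc L y) (y i)
      - (1 / ((N : ℂ) + 1)) * (ph2 L (N + 1) (cc L y) (y j) * ph1 L (N + 1) (cc L y) (y i))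
      + (1 / (2 * ((N : ℂ) + 1))) * (ph1 L (N + 1) (cc L y) (y j) * ph2 L (N + 1) (cc L y) (y i)) := by
  have hne := h.hyy j i (Ne.symm hij)
  have h1 : HasDerivAt (fun z => RR L (N + 1) (cc L y) z (y i))
      (ph1 L (N + 1) (RRc L (N + 1) (cc L y) (y i)) (y j)) (y j) := by
    have e : (fun z => RR L (N + 1) (cc L y) z (y i)) = ph L (N + 1) (RRc L (N + 1) (cc L y) (y i)) :=
      funext fun z => RR_eq_ph L _ _ _ _
    rw [e]; exact hasDerivAt_ph L _ _ (h.hy j)
  have d0 := hasDerivAt_ph L (N + 1) (cc L y) (h.hy j)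
  have d1 := hasDerivAt_ph1 L (N + 1) (cc L y) (h.hy j)
  have dQ := hasDerivAt_Q_left L (h.hy j) (h.hy i) hne
  have h2 := ((((dQ.mul d0).mul_const (ph1 L (N + 1) (cc L y) (y i))).sub
    ((d1.mul_const (ph1 L (N + 1) (cc L y) (y i))).const_mul (1 / ((N : ℂ) + 1)))).add
    ((d0.mul_const (ph2 L (N + 1) (cc L y) (y i))).const_mul (1 / (2 * ((N : ℂ) + 1)))))
  have h3 : (fun z => RR L (N + 1) (cc L y) z (y i)) =ᶠ[𝓝 (y j)]
      (fun z => Q L z (y i) * ph L (N + 1) (cc L y) z * ph1 L (N + 1) (cc L y) (y i)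
      - (1 / ((N + 1 : ℕ) : ℂ)) * (ph1 L (N + 1) (cc L y) z * ph1 L (N + 1) (cc L y) (y i))
      + (1 / (2 * ((N + 1 : ℕ) : ℂ))) * (ph L (N + 1) (cc L y) z * ph2 L (N + 1) (cc L y) (y i))) := by
    have a1 : ∀ᶠ z in 𝓝 (y j), wp L 0 z ≠ wp L 0 (y i) :=
      (analyticAt_wp L 0 (h.hy j)).continuousAt.eventually_ne hne
    filter_upwards [a1, (isOpen_Dom L).mem_nhds (h.hy j)] with z hz1 hz2
    exact RR_zero L (by omega) _ hz2 (h.hy i) hz1 (h.toReg.z0 i)
  have h4 := h1.unique ((h2.congr_of_eventuallyEq (h3.trans (Eventually.of_forall fun z => by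
    simp only [Pi.mul_apply, Pi.add_apply, Pi.sub_apply]; push_cast; ring))))
  rw [h4, h.toReg.z0 j]
  ring

lemma sum_erase_eq {f : Fin N → ℂ} (i : Fin N) : ∑ j ∈ univ.erase i, f j = ∑ j, f j - f i := by
  rw [← add_sum_erase univ f (mem_univ i)]; ring

lemma sum_Q_zero (y : Fin N → ℂ) : ∑ i, ∑ j ∈ univ.erase i, Q L (y i) (y j) = 0 := by
  have hQ0 : ∀ i : Fin N, Q L (y i) (y i) = 0 := fun i => by
    unfold Q; simp
  have e : ∀ i : Fin N, ∑ j ∈ univ.erase i, Q L (y i) (y j) = ∑ j, Q L (y i) (y j) := by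
    intro i; rw [sum_erase_eq (f := fun j => Q L (y i) (y j)) i, hQ0, sub_zero]
  simp only [e]
  have h1 : ∑ i, ∑ j, Q L (y i) (y j) = ∑ i, ∑ j, Q L (y j) (y i) := sum_comm
  have h2 : ∑ i, ∑ j, Q L (y j) (y i) = - ∑ i, ∑ j, Q L (y i) (y j) := by
    rw [← sum_neg_distrib]
    refine sum_congr rfl fun i _ => ?_
    rw [← sum_neg_distrib]
    exact sum_congr rfl fun j _ => Q_antisymm L _ _
  rw [h2] at h1
  have h3 : (2 : ℂ) * ∑ i, ∑ j, Q L (y i) (y j) = 0 := by linear_combination h1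
  exact (mul_eq_zero.mp h3).resolve_left (by norm_num)

/-- the metric gradient of the logarithm of the Jacobian -/
noncomputable def Xf (L : PeriodPair) (i : Fin N) (y : Fin N → ℂ) : ℂ :=
  ((N : ℂ) + 1) * (rhof L (N + 1) (cc L y) (y i) / ph1 L (N + 1) (cc L y) (y i))

theorem Gen0.grad_log {y : Fin N → ℂ} (h : Gen0 L y) (hN : 1 ≤ N) (i : Fin N) :
    ∑ l, gg N i l * LLf L l y = Xf L i y := by
  have hn : ((N : ℂ) + 1) ≠ 0 := by exact_mod_cast (by omega : N + 1 ≠ 0)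
  set F : Fin N → ℂ := fun j => ph1 L (N + 1) (cc L y) (y j) with hF
  have hF0 : ∀ j, F j ≠ 0 := h.f1
  set q : Fin N → ℂ := fun j => ph2 L (N + 1) (cc L y) (y j) / F j with hq
  set r : Fin N → ℂ := fun j => rhof L (N + 1) (cc L y) (y j) / F j with hr
  set P : Fin N → ℂ := fun i => ∑ j ∈ univ.erase i, Q L (y i) (y j) with hP
  set a : Fin N → Fin N → ℂ := fun i j => ph1 L (N + 1) (gcc L i y) (y j) / F j with ha
  have a_on : ∀ i, a i i = -(N / (2 * ((N : ℂ) + 1))) * q i + r i := by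
    intro i
    have := hF0 i
    rw [ha, hq, hr]
    simp only []
    rw [h.ph1_gcc hN i]
    field_simp
  have a_off : ∀ i j, i ≠ j → a i j = -Q L (y j) (y i) + (1 / ((N : ℂ) + 1)) * q j
      - (1 / (2 * ((N : ℂ) + 1))) * q i + r i := by
    intro i j hij
    have h1 := hF0 i
    have h2 := hF0 j
    rw [ha, hq, hr]
    simp only []
    rw [ph1_congr L (h.gcc_val hN i), ph1_smul, ph1_sub, ph1_smul, h.ph1_RRc_off hN hij]
    simp only [hF] at h1 h2 ⊢
    field_simp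
    ring
  -- row sums
  have S1 : ∀ i, ∑ j, a i j = -((2 * N + 1) / (2 * ((N : ℂ) + 1))) * q i + N * r i + P i
      + (1 / ((N : ℂ) + 1)) * ∑ j, q j := by
    intro i
    rw [← add_sum_erase univ _ (mem_univ i), a_on]
    rw [sum_congr rfl fun j hj => a_off i j (ne_of_mem_erase hj).symm]
    have e1 : ∑ j ∈ univ.erase i, (-Q L (y j) (y i) + (1 / ((N : ℂ) + 1)) * q j
      - (1 / (2 * ((N : ℂ) + 1))) * q i + r i) =
      P i + ((1 / ((N : ℂ) + 1)) * (∑ j, q j - q i)) + (N - 1) * (- (1 / (2 * ((N : ℂ) + 1))) * q i + r i) := by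
      rw [← sum_erase_eq (f := q) i, hP, mul_sum]
      have hcard : ((univ.erase i).card : ℂ) = N - 1 := by
        rw [card_erase_of_mem (mem_univ i), card_univ, Fintype.card_fin, Nat.cast_sub hN]; simp
      rw [← hcard]
      have e2 : ∀ j ∈ univ.erase i, -Q L (y j) (y i) + (1 / ((N : ℂ) + 1)) * q j
        - (1 / (2 * ((N : ℂ) + 1))) * q i + r i = Q L (y i) (y j) + (1 / ((N : ℂ) + 1)) * q j +
        (- (1 / (2 * ((N : ℂ) + 1))) * q i + r i) := by
        intro j _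
        rw [Q_antisymm L (y i) (y j)]; ring
      rw [sum_congr rfl e2, sum_add_distrib, sum_add_distrib, sum_const, nsmul_eq_mul]
    rw [e1]
    field_simp
    ring
  have S2 : ∀ l, ∑ m, a m l = -(N / (2 * ((N : ℂ) + 1))) * q l + r l - P l
      + ((N - 1) / ((N : ℂ) + 1)) * q l - (1 / (2 * ((N : ℂ) + 1))) * (∑ j, q j - q l) + (∑ j, r j - r l) := by
    intro l
    rw [← add_sum_erase univ _ (mem_univ l), a_on]
    rw [sum_congr rfl fun j hj => a_off j l (ne_of_mem_erase hj)]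
    have e1 : ∑ j ∈ univ.erase l, (-Q L (y l) (y j) + (1 / ((N : ℂ) + 1)) * q l
      - (1 / (2 * ((N : ℂ) + 1))) * q j + r j) =
      -P l + (N - 1) * ((1 / ((N : ℂ) + 1)) * q l) - (1 / (2 * ((N : ℂ) + 1))) * (∑ j, q j - q l)
        + (∑ j, r j - r l) := by
      rw [← sum_erase_eq (f := q) l, ← sum_erase_eq (f := r) l, hP, mul_sum]
      have hcard : ((univ.erase l).card : ℂ) = N - 1 := by
        rw [card_erase_of_mem (mem_univ l), card_univ, Fintype.card_fin, Nat.cast_sub hN]; simp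
      rw [← hcard]
      rw [sum_add_distrib, sum_sub_distrib, sum_add_distrib, sum_neg_distrib, sum_const, nsmul_eq_mul]
    rw [e1]
    ring
  have hPs : ∑ l, P l = 0 := sum_Q_zero y
  -- rewrite LLf
  have hb : ∀ l, ph1 L (N + 1) (dcc L l y) (y l) / F l = a l l + ∑ m, a m l := by
    intro l
    have e : dcc L l y = fun k => gcc L l y k + ∑ m, gcc L m y k := funext fun k => dcc_eq l y k
    rw [e, ph1_add, ph1_sum, add_div, sum_div]
  have hLL : ∀ l, LLf L l y = ∑ j, ph1 L (N + 1) (dcc L l y) (y j) / F j + (q l + (a l l + ∑ m, a m l)) := by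
    intro l
    rw [← hb l]
    unfold LLf
    rw [add_div]
  have h1 : ∑ l, gg N i l * ∑ j, ph1 L (N + 1) (dcc L l y) (y j) / F j = ∑ j, a i j := by
    simp only [mul_sum]
    rw [sum_comm]
    refine sum_congr rfl fun j _ => ?_
    have e : gcc L i y = fun k => ∑ l, gg N i l * dcc L l y k := funext fun k => gcc_eq i y k
    rw [ha]
    simp only []
    rw [e, ph1_sum, sum_div]
    exact sum_congr rfl fun l _ => by rw [ph1_smul]; ring
  have h2 : ∀ t : Fin N → ℂ, ∑ l, gg N i l * t l = t i - (1 / ((N : ℂ) + 1)) * ∑ l, t l := by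
    intro t
    unfold gg
    simp only [sub_mul, sum_sub_distrib, ite_mul, one_mul, zero_mul, sum_ite_eq, mem_univ, if_true,
      ← mul_sum]
  simp only [hLL, mul_add, sum_add_distrib]
  rw [h1]
  have h3 : ∑ l, gg N i l * q l + (∑ l, gg N i l * a l l + ∑ l, gg N i l * ∑ m, a m l) =
      ∑ l, gg N i l * (q l + (a l l + ∑ m, a m l)) := by
    rw [← sum_add_distrib, ← sum_add_distrib]
    exact sum_congr rfl fun l _ => by ring
  rw [h3, h2, S1]
  have h4 : ∀ l, q l + (a l l + ∑ m, a m l) = (1 - 1 / (2 * ((N : ℂ) + 1))) * q l + r l - P l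
      - (1 / (2 * ((N : ℂ) + 1))) * ∑ j, q j + ∑ j, r j := by
    intro l
    rw [S2, a_on]
    field_simp
    ring
  simp only [h4, sum_add_distrib, sum_sub_distrib, ← mul_sum, hPs, sum_const, card_univ,
    Fintype.card_fin, nsmul_eq_mul]
  unfold Xf
  have h5 : rhof L (N + 1) (cc L y) (y i) / ph1 L (N + 1) (cc L y) (y i) = r i := rfl
  rw [h5]
  field_simp
  ring

end Pool.Agent.Helper487.ECM
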