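import Pool.Agent.Helper487.ECM.Map

/-! The Jacobian of the change of variables and its logarithmic derivative. -/

open Filter Topology Finset
open scoped Nat PeriodPair

namespace Pool.Agent.Helper487.ECM

variable (L : PeriodPair) {N : ℕ}

/-- the Jacobi matrix of the map `y ↦ u` -/
noncomputable def Jm (y : Fin N → ℂ) : Matrix (Fin N) (Fin N) ℂ :=
  Matrix.of fun a i => pd i (fun y => uu L y a) y

/-- the Jacobian of the map `y ↦ u` -/
noncomputable def Dj (y : Fin N → ℂ) : ℂ := (Jm L y).det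

variable {L}

lemma Reg.pd_uu {y : Fin N → ℂ} (_h : Reg L y) (a i : Fin N) :
    pd i (fun y => uu L y a) y = -dcc L i y (a + 1) := by
  unfold dcc
  have : (fun y : Fin N → ℂ => cc L y (a + 1)) = fun y => -uu L y a := funext fun y => cc_succ L y a
  rw [this, pd_neg, neg_neg]

lemma Reg.W_mul_J {y : Fin N → ℂ} (h : Reg L y) :
    Wm L y * Jm L y = Matrix.diagonal fun i => ph1 L (N + 1) (cc L y) (y i) := by
  ext i j
  rw [Matrix.mul_apply]
  have h1 := h.dcc_eval i j
  rw [ph_split, dcc_zero, zero_add] at h1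
  have e : ∀ k : Fin N, Wm L y i k * Jm L y k j = -(dcc L j y (k + 1) * wp L k (y i)) := by
    intro k
    have : Jm L y k j = -dcc L j y (k + 1) := h.pd_uu k j
    rw [this, Wm_apply]; ring
  simp only [e, sum_neg_distrib, h1, neg_neg, Matrix.diagonal_apply, ite_mul, one_mul, zero_mul]

lemma Reg.det_mul {y : Fin N → ℂ} (h : Reg L y) :
    (Wm L y).det * Dj L y = ∏ i, ph1 L (N + 1) (cc L y) (y i) := by
  unfold Dj
  rw [← Matrix.det_mul, h.W_mul_J, Matrix.det_diagonal]

lemma Reg.f1_of_D {y : Fin N → ℂ} (h : Reg L y) (hD : Dj L y ≠ 0) (i : Fin N) :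
    ph1 L (N + 1) (cc L y) (y i) ≠ 0 := by
  have h1 := h.det_mul
  intro h2
  rw [prod_eq_zero (mem_univ i) h2] at h1
  exact (mul_ne_zero h.hW hD) h1

lemma Reg.D_of_f1 {y : Fin N → ℂ} (h : Reg L y)
    (h1 : ∀ i, ph1 L (N + 1) (cc L y) (y i) ≠ 0) : Dj L y ≠ 0 := by
  intro h2
  have h3 := h.det_mul
  rw [h2, mul_zero] at h3
  exact (prod_ne_zero_iff.mpr fun i _ => h1 i) h3.symm

lemma Reg.analyticAt_Dj {y : Fin N → ℂ} (h : Reg L y) : AnalyticAt ℂ (fun y => Dj L y) y :=
  analyticAt_det fun a _ => analyticAt_pd (h.analyticAt_uu a)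

/-- the derivative along a coordinate line -/
lemma hasDerivAt_line {f : (Fin N → ℂ) → ℂ} {y : Fin N → ℂ} (hf : DifferentiableAt ℂ f y) (l : Fin N) :
    HasDerivAt (fun t => f (Function.update y l t)) (pd l f y) (y l) := by
  have h1 : HasDerivAt (fun t => Function.update y l t) (Pi.single l 1) (y l) := by
    have := hasDerivAt_update y l (y l)
    exact this
  have h2 : HasFDerivAt f (fderiv ℂ f y) (Function.update y l (y l)) := by
    rw [Function.update_eq_self]; exact hf.hasFDerivAt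
  exact h2.comp_hasDerivAt (y l) h1

lemma det_updateRow_eq {m : Type*} [Fintype m] [DecidableEq m] (A : Matrix m m ℂ) (l : m) (r : m → ℂ) :
    (A.updateRow l r).det = ∑ k, r k * A.adjugate k l := by
  have h1 : (A.updateRow l r).det = (A.transpose.updateCol l r).det := by
    rw [Matrix.updateCol_transpose, Matrix.det_transpose]
  rw [h1, ← Matrix.cramer_apply, Matrix.cramer_eq_adjugate_mulVec, ← Matrix.adjugate_transpose]
  simp only [Matrix.mulVec, dotProduct, Matrix.transpose_apply]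
  exact sum_congr rfl fun k _ => mul_comm _ _

lemma Reg.pd_detW {y : Fin N → ℂ} (h : Reg L y) (l : Fin N) :
    pd l (fun y => (Wm L y).det) y = ∑ k : Fin N, wp L (k + 1) (y l) * (Wm L y).adjugate k l := by
  have h1 := hasDerivAt_line (analyticAt_detW h.hy).differentiableAt l
  have h2 : (fun t => (Wm L (Function.update y l t)).det) =
      fun t => ∑ k : Fin N, wp L k t * (Wm L y).adjugate k l := by
    funext t
    rw [← det_updateRow_eq]
    congr 1
    ext i k
    by_cases hi : i = l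
    · subst hi; simp [Wm_apply]
    · simp [Wm_apply, Matrix.updateRow_ne hi, Function.update_of_ne hi]
  rw [h2] at h1
  have h3 : HasDerivAt (fun t => ∑ k : Fin N, wp L k t * (Wm L y).adjugate k l)
      (∑ k : Fin N, wp L (k + 1) (y l) * (Wm L y).adjugate k l) (y l) :=
    HasDerivAt.fun_sum fun k _ => (hasDerivAt_wp L k (h.hy l)).mul_const _
  exact h1.unique h3

lemma Reg.pd_detW' {y : Fin N → ℂ} (h : Reg L y) (l : Fin N) :
    pd l (fun y => (Wm L y).det) y * ph1 L (N + 1) (cc L y) (y l) =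
      -(Wm L y).det * ph1 L (N + 1) (dcc L l y) (y l) := by
  have hJ : Jm L y = (Wm L y)⁻¹ * Matrix.diagonal fun i => ph1 L (N + 1) (cc L y) (y i) := by
    rw [← h.W_mul_J, ← Matrix.mul_assoc, Matrix.nonsing_inv_mul _ (isUnit_iff_ne_zero.mpr h.hW),
      Matrix.one_mul]
  have hadj : ∀ k : Fin N, (Wm L y).adjugate k l * ph1 L (N + 1) (cc L y) (y l) =
      (Wm L y).det * (-dcc L l y (k + 1)) := by
    intro k
    have e1 : Jm L y k l = -dcc L l y (k + 1) := h.pd_uu k l
    rw [← e1, hJ, Matrix.mul_diagonal, Matrix.inv_def, Matrix.smul_apply, smul_eq_mul,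
      Ring.inverse_eq_inv']
    have := h.hW
    field_simp
  rw [h.pd_detW, sum_mul, ph1_split L (dcc L l y), mul_sum]
  refine sum_congr rfl fun k _ => ?_
  rw [mul_assoc, hadj k]; ring

lemma pd_prod {ι : Type*} (s : Finset ι) {f : ι → (Fin N → ℂ) → ℂ} {y : Fin N → ℂ} (i : Fin N)
    (hf : ∀ j ∈ s, DifferentiableAt ℂ (f j) y) (h0 : ∀ j ∈ s, f j y ≠ 0) :
    DifferentiableAt ℂ (fun y => ∏ j ∈ s, f j y) y ∧
    pd i (fun y => ∏ j ∈ s, f j y) y = (∏ j ∈ s, f j y) * ∑ j ∈ s, pd i (f j) y / f j y := by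
  classical
  induction s using Finset.induction_on with
  | empty => simp [pd_const]
  | insert a s has ih =>
    obtain ⟨ih1, ih2⟩ := ih (fun j hj => hf j (mem_insert_of_mem hj)) fun j hj => h0 j (mem_insert_of_mem hj)
    have ha := hf a (mem_insert_self a s)
    have ha0 := h0 a (mem_insert_self a s)
    simp only [prod_insert has, sum_insert has]
    refine ⟨ha.mul ih1, ?_⟩
    rw [pd_mul ha ih1, ih2]
    field_simp

/-- logarithmic derivative of the Jacobian -/
noncomputable def LLf (L : PeriodPair) (l : Fin N) (y : Fin N → ℂ) : ℂ :=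
  ∑ j, ph1 L (N + 1) (dcc L l y) (y j) / ph1 L (N + 1) (cc L y) (y j) +
    (ph2 L (N + 1) (cc L y) (y l) + ph1 L (N + 1) (dcc L l y) (y l)) / ph1 L (N + 1) (cc L y) (y l)

theorem Reg.pd_Dj {y : Fin N → ℂ} (h : Reg L y) (h1 : ∀ i, ph1 L (N + 1) (cc L y) (y i) ≠ 0)
    (l : Fin N) : pd l (fun y => Dj L y) y = Dj L y * LLf L l y := by
  have hA : ∀ j : Fin N, AnalyticAt ℂ (fun y => ph1 L (N + 1) (cc L y) (y j)) y := fun j =>
    analyticAt_ph1 (fun k _ => h.analyticAt_cc k) (analyticAt_coord j y) (h.hy j)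
  have hD := h.D_of_f1 h1
  have e1 : (fun y => (Wm L y).det * Dj L y) =ᶠ[𝓝 y] fun y => ∏ i, ph1 L (N + 1) (cc L y) (y i) := by
    filter_upwards [h.eventually] with y' h'
    exact h'.det_mul
  have e2 := pd_congr (i := l) e1
  rw [pd_mul (analyticAt_detW h.hy).differentiableAt h.analyticAt_Dj.differentiableAt,
    (pd_prod univ l (fun j _ => (hA j).differentiableAt) fun j _ => h1 j).2, ← h.det_mul] at e2
  have e3 : ∀ j : Fin N, pd l (fun y => ph1 L (N + 1) (cc L y) (y j)) y =
      ph1 L (N + 1) (dcc L l y) (y j) + (if j = l then 1 else 0) * ph2 L (N + 1) (cc L y) (y j) := by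
    intro j
    rw [pd_ph1 (fun k _ => (h.analyticAt_cc k).differentiableAt) (analyticAt_coord j y).differentiableAt
      (h.hy j), pd_coord]
    rfl
  have e4 : ∑ j, pd l (fun y => ph1 L (N + 1) (cc L y) (y j)) y / ph1 L (N + 1) (cc L y) (y j) =
      ∑ j, ph1 L (N + 1) (dcc L l y) (y j) / ph1 L (N + 1) (cc L y) (y j) +
      ph2 L (N + 1) (cc L y) (y l) / ph1 L (N + 1) (cc L y) (y l) := by
    simp only [e3, add_div, sum_add_distrib]
    congr 1
    rw [sum_eq_single l]
    · simp
    · intro b _ hb; simp [hb]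
    · intro hi; exact absurd (mem_univ l) hi
  rw [e4] at e2
  have e5 := h.pd_detW' l
  have hW := h.hW
  have hf := h1 l
  have e6 : pd l (fun y => (Wm L y).det) y = -(Wm L y).det * (ph1 L (N + 1) (dcc L l y) (y l) /
      ph1 L (N + 1) (cc L y) (y l)) := by
    field_simp
    linear_combination e5
  rw [e6] at e2
  have e7 : (Wm L y).det * (pd l (fun y => Dj L y) y - Dj L y * LLf L l y) = 0 := by
    unfold LLf
    rw [add_div]
    linear_combination e2
  have := (mul_eq_zero.mp e7).resolve_left hW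
  exact sub_eq_zero.mp this

end Pool.Agent.Helper487.ECM
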