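import Pool.Agent.Helper487.ECM.RR

/-! The bilinear kernel: existence of its coefficients. -/

open Filter Topology Asymptotics Finset
open scoped Nat PeriodPair

namespace Pool.Agent.Helper487.ECM

variable (L : PeriodPair)

lemma Top.cast {m k : ℕ} {f : ℂ → ℂ} {a b : ℂ} (h : Top m f a b) (hk : m = k) : Top k f a b := by
  rw [← hk]; exact h

lemma top_Q (w : ℂ) : Top 1 (fun z => Q L z w) (-1) 0 := by
  have hcst : ∀ k : ℂ, Top 0 (fun _ : ℂ => k) k 0 := by
    intro k; unfold Top; simpa using isBigO_zero _ _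
  have h1 : Top 3 (fun z => wp L 1 z + wp L 1 w) (-2) 0 := by
    have ha := (top_wp L 1).add ((hcst (wp L 1 w)).shift2 (show 0 + 2 ≤ 1 + 2 by omega))
    exact ha.congr_val (by norm_num [Nat.factorial]) (by simp)
  have h2 : Top 2 (fun z => wp L 0 z - wp L 0 w) 1 0 := by
    have ha := (top_wp L 0).add ((hcst (-wp L 0 w)).shift2 (show 0 + 2 ≤ 0 + 2 by omega))
    exact (ha.congr (Eventually.of_forall fun z => by ring)).congr_val (by simp) (by simp)
  have h3 := h2.tendsto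
  have h4 : Tendsto (fun z => (2 * (z ^ 2 * (wp L 0 z - wp L 0 w)))⁻¹) (𝓝[≠] (0:ℂ)) (𝓝 (2 * 1)⁻¹) :=
    (h3.const_mul 2).inv₀ (by norm_num)
  have h5 := h4.isBigO_one ℂ
  have h6 : (fun z => (z ^ 3 * (wp L 1 z + wp L 1 w) - (-2 + 0 * z)) +
      2 * (z ^ 2 * (wp L 0 z - wp L 0 w) - (1 + 0 * z))) =O[𝓝[≠] (0:ℂ)] (fun z => z ^ 2) :=
    IsBigO.add h1 (IsBigO.const_mul_left h2 2)
  have h7 := h5.mul h6
  unfold Top
  refine h7.congr' ?_ ?_
  · have hne : ∀ᶠ z in 𝓝[≠] (0:ℂ), z ^ 2 * (wp L 0 z - wp L 0 w) ≠ 0 := h3.eventually_ne (by norm_num)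
    filter_upwards [hne, self_mem_nhdsWithin] with z hz hz0
    have hz0' : z ≠ 0 := hz0
    have hz1 : wp L 0 z - wp L 0 w ≠ 0 := right_ne_zero_of_mul hz
    unfold Q
    field_simp
    ring
  · filter_upwards with z
    ring

/-- data of a function with its derivatives and leading behaviour -/
structure Dat (n : ℕ) (f f1 f2 : ℂ → ℂ) : Prop where
  fil : InFil L n f
  fil1 : InFil L (n + 1) f1
  fil2 : InFil L (n + 2) f2
  top : ∃ α β : ℂ, Top n f α β ∧ Top (n + 1) f1 (-(n * α)) (-((n - 1) * β)) ∧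
    Top (n + 2) f2 (n * (n + 1) * α) (n * (n - 1) * β)

/-- the bilinear kernel -/
noncomputable def K (n : ℕ) (f f1 f2 g g1 g2 : ℂ → ℂ) (z w : ℂ) : ℂ :=
  -(Q L z w * (f1 z * g w - f z * g1 w)) - (1 / (n : ℂ)) * (f1 z * g1 w)
  + (((n : ℂ) - 1) / 2) * ((wp L 0 z + wp L 0 w) * (f z * g w))
  + (1 / (2 * (n : ℂ))) * (f2 z * g w + f z * g2 w)

variable {L}

lemma K_top {n : ℕ} (hn : 2 ≤ n) {f f1 f2 : ℂ → ℂ} (hf : Dat L n f f1 f2) (g g1 g2 : ℂ → ℂ)
    (w : ℂ) : Top (n + 2) (fun z => K L n f f1 f2 g g1 g2 z w) 0 0 := by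
  obtain ⟨α, β, h0, h1, h2⟩ := hf.top
  have hn0 : (n : ℂ) ≠ 0 := by exact_mod_cast (by omega : n ≠ 0)
  have hQ := top_Q L w
  have t1 := ((hQ.mul h1).const_mul (-(g w))).cast (show 1 + (n + 1) = n + 2 by ring)
  have t2 := ((hQ.mul h0).const_mul (g1 w)).shift.cast (show 1 + n + 1 = n + 2 by ring)
  have t3 := (h1.const_mul (-(1 / (n:ℂ)) * g1 w)).shift.cast (show n + 1 + 1 = n + 2 by ring)
  have t4 := (((top_wp L 0).mul h0).const_mul ((((n : ℂ) - 1) / 2) * g w)).cast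
    (show 0 + 2 + n = n + 2 by ring)
  have t5 := (h0.const_mul ((((n : ℂ) - 1) / 2) * wp L 0 w * g w + (1 / (2 * (n : ℂ))) * g2 w)).shift2
    (le_refl (n + 2))
  have t6 := h2.const_mul ((1 / (2 * (n : ℂ))) * g w)
  have t := ((((t1.add t2).add t3).add t4).add t5).add t6
  refine (t.congr (Eventually.of_forall fun z => ?_)).congr_val ?_ ?_
  · unfold K; ring
  · field_simp; simp; ring
  · field_simp; simp; ring

lemma K_swap (n : ℕ) (f f1 f2 g g1 g2 : ℂ → ℂ) (z w : ℂ) :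
    K L n f f1 f2 g g1 g2 z w = K L n g g1 g2 f f1 f2 w z := by
  unfold K
  rw [Q_antisymm L z w]
  ring

lemma K_top' {n : ℕ} (hn : 2 ≤ n) {g g1 g2 : ℂ → ℂ} (hg : Dat L n g g1 g2) (f f1 f2 : ℂ → ℂ)
    (z : ℂ) : Top (n + 2) (fun w => K L n f f1 f2 g g1 g2 z w) 0 0 :=
  (K_top hn hg f f1 f2 z).congr (Eventually.of_forall fun w => (K_swap n f f1 f2 g g1 g2 z w).symm)

lemma K_inP {n : ℕ} {f f1 f2 g g1 g2 : ℂ → ℂ} (hf : Dat L n f f1 f2) (hg : Dat L n g g1 g2) :
    InP L (fun z w => K L n f f1 f2 g g1 g2 z w + K L n g g1 g2 f f1 f2 z w) := by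
  have hw0 := inFil_wp L 0
  have t1 := (inP_Q_wedge hf.fil1 hg.fil).const_mul (-1)
  have t2 := (inP_Q_wedge hg.fil1 hf.fil).const_mul (-1)
  have t3 := (InP.of_mul hf.fil1 hg.fil1).const_mul (-(1 / (n : ℂ)))
  have t3' := (InP.of_mul hg.fil1 hf.fil1).const_mul (-(1 / (n : ℂ)))
  have t4 := (InP.of_mul (hw0.mul hf.fil) hg.fil).const_mul (((n : ℂ) - 1) / 2)
  have t4' := (InP.of_mul (hw0.mul hg.fil) hf.fil).const_mul (((n : ℂ) - 1) / 2)
  have t5 := (InP.of_mul hf.fil (hw0.mul hg.fil)).const_mul (((n : ℂ) - 1) / 2)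
  have t5' := (InP.of_mul hg.fil (hw0.mul hf.fil)).const_mul (((n : ℂ) - 1) / 2)
  have t6 := (InP.of_mul hf.fil2 hg.fil).const_mul (1 / (2 * (n : ℂ)))
  have t6' := (InP.of_mul hg.fil2 hf.fil).const_mul (1 / (2 * (n : ℂ)))
  have t7 := (InP.of_mul hf.fil hg.fil2).const_mul (1 / (2 * (n : ℂ)))
  have t7' := (InP.of_mul hg.fil hf.fil2).const_mul (1 / (2 * (n : ℂ)))
  refine ((((((t1.add t2).add (t3.add t3')).add (t4.add t4')).add (t5.add t5')).add
    (t6.add t6')).add (t7.add t7')).congr fun z hz w hw hne => ?_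
  unfold K
  ring

theorem K_exists {n : ℕ} (hn : 2 ≤ n) {f f1 f2 g g1 g2 : ℂ → ℂ} (hf : Dat L n f f1 f2)
    (hg : Dat L n g g1 g2) : ∃ ρ : ℕ → ℕ → ℂ, ∀ z ∈ Dom L, ∀ w ∈ Dom L, wp L 0 z ≠ wp L 0 w →
      K L n f f1 f2 g g1 g2 z w + K L n g g1 g2 f f1 f2 z w =
        ∑ k ∈ range n, ∑ l ∈ range n, ρ k l * (bw L k z * bw L l w) := by
  refine (K_inP hf hg).lower hn ?_ ?_
  · intro w hw
    have t := (K_top hn hf g g1 g2 w).add (K_top hn hg f f1 f2 w)
    simp only [add_zero] at t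
    exact t.tendsto_lower
  · intro z hz
    have t := (K_top' hn hg f f1 f2 z).add (K_top' hn hf g g1 g2 z)
    simp only [add_zero] at t
    exact t.tendsto_lower

variable (L)

lemma dat_bw {n k : ℕ} (hn : 2 ≤ n) (hk : k < n) : Dat L n (bw L k) (bw1 L k) (bw2 L k) := by
  have hcst : ∀ k : ℂ, Top 0 (fun _ : ℂ => k) k 0 := by
    intro k; unfold Top; simpa using isBigO_zero _ _
  cases k with
  | zero =>
    have e0 : bw L 0 = fun _ => 1 := funext (bw_zero L)
    have e1 : bw1 L 0 = fun _ => 0 := funext fun z => by simp [bw1]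
    have e2 : bw2 L 0 = fun _ => 0 := funext fun z => by simp [bw2]
    rw [e0, e1, e2]
    refine ⟨?_, InFil.zero _, InFil.zero _, 0, 0, ?_, ?_, ?_⟩
    · exact ((inFil_mu L 0).congr fun z _ => (mu_zero L z).symm).mono (by omega)
    · exact (hcst 1).shift2 (by omega)
    · simpa using Top.zero _
    · simpa using Top.zero _
  | succ k =>
    have e0 : bw L (k + 1) = wp L k := funext (bw_succ L k)
    have e1 : bw1 L (k + 1) = wp L (k + 1) := funext fun z => by simp [bw1]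
    have e2 : bw2 L (k + 1) = wp L (k + 2) := funext fun z => by simp [bw2]
    rw [e0, e1, e2]
    refine ⟨(inFil_wp L k).mono (by omega), (inFil_wp L (k + 1)).mono (by omega),
      (inFil_wp L (k + 2)).mono (by omega), ?_⟩
    have t0 := top_wp L k
    have t1 := top_wp L (k + 1)
    have t2 := top_wp L (k + 2)
    rcases Nat.lt_or_ge (k + 3) n with h | h
    · refine ⟨0, 0, t0.shift2 (by omega), ?_, ?_⟩
      · simpa using t1.shift2 (show k + 1 + 2 + 2 ≤ n + 1 by omega)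
      · simpa using t2.shift2 (show k + 2 + 2 + 2 ≤ n + 2 by omega)
    rcases Nat.lt_or_ge (k + 2) n with h' | h'
    · obtain rfl : n = k + 3 := by omega
      refine ⟨0, (-1) ^ k * (k + 1)!, t0.shift, ?_, ?_⟩
      · refine t1.shift.congr_val (by simp) ?_
        rw [Nat.factorial_succ (k + 1)]; push_cast; ring
      · refine t2.shift.congr_val (by simp) ?_
        rw [Nat.factorial_succ (k + 2), Nat.factorial_succ (k + 1)]; push_cast; ring
    · obtain rfl : n = k + 2 := by omega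
      refine ⟨(-1) ^ k * (k + 1)!, 0, t0, ?_, ?_⟩
      · refine t1.congr_val ?_ (by simp)
        rw [Nat.factorial_succ (k + 1)]; push_cast; ring
      · refine t2.congr_val ?_ (by simp)
        rw [Nat.factorial_succ (k + 2), Nat.factorial_succ (k + 1)]; push_cast; ring

/-- the kernel of two basis functions -/
noncomputable def KB (n a b : ℕ) (z w : ℂ) : ℂ :=
  K L n (bw L a) (bw1 L a) (bw2 L a) (bw L b) (bw1 L b) (bw2 L b) z w

lemma KB_exists (n a b : ℕ) : ∃ ρ : ℕ → ℕ → ℂ, 2 ≤ n → a < n → b < n →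
    ∀ z ∈ Dom L, ∀ w ∈ Dom L, wp L 0 z ≠ wp L 0 w →
      KB L n a b z w + KB L n b a z w =
        ∑ k ∈ range n, ∑ l ∈ range n, ρ k l * (bw L k z * bw L l w) := by
  by_cases h : 2 ≤ n ∧ a < n ∧ b < n
  · obtain ⟨hn, ha, hb⟩ := h
    obtain ⟨ρ, hρ⟩ := K_exists hn (dat_bw L hn ha) (dat_bw L hn hb)
    exact ⟨ρ, fun _ _ _ => hρ⟩
  · exact ⟨fun _ _ => 0, fun h1 h2 h3 => absurd ⟨h1, h2, h3⟩ h⟩

/-- structure constants of the kernel -/
noncomputable def rr0 (n a b : ℕ) : ℕ → ℕ → ℂ := (KB_exists L n a b).choose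

/-- symmetrised structure constants of the kernel -/
noncomputable def rr (n a b k l : ℕ) : ℂ := (rr0 L n a b k l + rr0 L n a b l k) / 4

/-- the coefficients of the kernel of `φ = ∑ c_k b_k` -/
noncomputable def rho (n : ℕ) (c : ℕ → ℂ) (k l : ℕ) : ℂ :=
  ∑ a ∈ range n, ∑ b ∈ range n, c a * c b * rr L n a b k l

lemma rho_symm (n : ℕ) (c : ℕ → ℂ) (k l : ℕ) : rho L n c k l = rho L n c l k := by
  unfold rho rr
  exact sum_congr rfl fun a _ => sum_congr rfl fun b _ => by ring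

/-- combination of basis functions -/
noncomputable def ph (n : ℕ) (c : ℕ → ℂ) (z : ℂ) : ℂ := ∑ k ∈ range n, c k * bw L k z
/-- its derivative -/
noncomputable def ph1 (n : ℕ) (c : ℕ → ℂ) (z : ℂ) : ℂ := ∑ k ∈ range n, c k * bw1 L k z
/-- its second derivative -/
noncomputable def ph2 (n : ℕ) (c : ℕ → ℂ) (z : ℂ) : ℂ := ∑ k ∈ range n, c k * bw2 L k z

/-- the kernel of `φ` in the explicit form -/
noncomputable def R0 (n : ℕ) (c : ℕ → ℂ) (z w : ℂ) : ℂ :=
  K L n (ph L n c) (ph1 L n c) (ph2 L n c) (ph L n c) (ph1 L n c) (ph2 L n c) z w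

/-- the kernel of `φ` -/
noncomputable def RR (n : ℕ) (c : ℕ → ℂ) (z w : ℂ) : ℂ :=
  ∑ k ∈ range n, ∑ l ∈ range n, rho L n c k l * (bw L k z * bw L l w)

lemma R0_expand (n : ℕ) (c : ℕ → ℂ) (z w : ℂ) :
    R0 L n c z w = ∑ a ∈ range n, ∑ b ∈ range n, c a * c b * KB L n a b z w := by
  have e : ∀ f g : ℕ → ℂ, (∑ a ∈ range n, c a * f a) * (∑ b ∈ range n, c b * g b) =
      ∑ a ∈ range n, ∑ b ∈ range n, c a * c b * (f a * g b) := by
    intro f g
    rw [sum_mul_sum]
    exact sum_congr rfl fun a _ => sum_congr rfl fun b _ => by ring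
  unfold R0 K ph ph1 ph2
  rw [e, e, e, e, e, e]
  unfold KB K
  simp only [mul_sum, ← sum_sub_distrib, ← sum_add_distrib, ← sum_neg_distrib]
  exact sum_congr rfl fun a _ => sum_congr rfl fun b _ => by ring

theorem R0_eq {n : ℕ} (hn : 2 ≤ n) (c : ℕ → ℂ) {z w : ℂ} (hz : z ∈ Dom L) (hw : w ∈ Dom L)
    (hne : wp L 0 z ≠ wp L 0 w) : R0 L n c z w = RR L n c z w := by
  have h1 : ∀ a ∈ range n, ∀ b ∈ range n, KB L n a b z w + KB L n b a z w =
      ∑ k ∈ range n, ∑ l ∈ range n, rr0 L n a b k l * (bw L k z * bw L l w) := by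
    intro a ha b hb
    exact (KB_exists L n a b).choose_spec hn (Finset.mem_range.mp ha) (Finset.mem_range.mp hb) z hz w hw hne
  have h2 : ∀ a ∈ range n, ∀ b ∈ range n, KB L n a b w z + KB L n b a w z =
      ∑ k ∈ range n, ∑ l ∈ range n, rr0 L n a b k l * (bw L k w * bw L l z) := by
    intro a ha b hb
    exact (KB_exists L n a b).choose_spec hn (Finset.mem_range.mp ha) (Finset.mem_range.mp hb) w hw z hz hne.symm
  have hsw : ∀ a b, KB L n a b w z = KB L n b a z w := fun a b => by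
    unfold KB; exact K_swap _ _ _ _ _ _ _ _ _
  have h3 : ∀ a ∈ range n, ∀ b ∈ range n, (KB L n a b z w + KB L n b a z w) / 2 =
      ∑ k ∈ range n, ∑ l ∈ range n, rr L n a b k l * (bw L k z * bw L l w) := by
    intro a ha b hb
    have e1 := h1 a ha b hb
    have e2 := h2 a ha b hb
    rw [hsw, hsw] at e2
    rw [sum_comm] at e2
    have e3 : ∑ k ∈ range n, ∑ l ∈ range n, rr L n a b k l * (bw L k z * bw L l w) =
        (∑ k ∈ range n, ∑ l ∈ range n, rr0 L n a b k l * (bw L k z * bw L l w)) / 4 +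
        (∑ k ∈ range n, ∑ l ∈ range n, rr0 L n a b l k * (bw L l w * bw L k z)) / 4 := by
      rw [sum_div, sum_div, ← sum_add_distrib]
      refine sum_congr rfl fun k _ => ?_
      rw [sum_div, sum_div, ← sum_add_distrib]
      refine sum_congr rfl fun l _ => ?_
      unfold rr; ring
    rw [e3, ← e1, ← e2]
    ring
  have h4 : R0 L n c z w = ∑ a ∈ range n, ∑ b ∈ range n,
      c a * c b * ((KB L n a b z w + KB L n b a z w) / 2) := by
    have h5 : R0 L n c z w = ∑ a ∈ range n, ∑ b ∈ range n, c a * c b * KB L n b a z w := by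
      rw [R0_expand, sum_comm]
      exact sum_congr rfl fun a _ => sum_congr rfl fun b _ => by ring
    have h6 := R0_expand L n c z w
    have h7 : ∑ a ∈ range n, ∑ b ∈ range n, c a * c b * ((KB L n a b z w + KB L n b a z w) / 2) =
        (∑ a ∈ range n, ∑ b ∈ range n, c a * c b * KB L n a b z w) / 2 +
        (∑ a ∈ range n, ∑ b ∈ range n, c a * c b * KB L n b a z w) / 2 := by
      rw [sum_div, sum_div, ← sum_add_distrib]
      refine sum_congr rfl fun k _ => ?_
      rw [sum_div, sum_div, ← sum_add_distrib]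
      exact sum_congr rfl fun l _ => by ring
    rw [h7, ← h5, ← h6]; ring
  rw [h4]
  unfold RR rho
  calc ∑ a ∈ range n, ∑ b ∈ range n, c a * c b * ((KB L n a b z w + KB L n b a z w) / 2)
      = ∑ a ∈ range n, ∑ b ∈ range n, ∑ k ∈ range n, ∑ l ∈ range n,
          (c a * c b * rr L n a b k l) * (bw L k z * bw L l w) := by
        refine sum_congr rfl fun a ha => sum_congr rfl fun b hb => ?_
        rw [h3 a ha b hb, mul_sum]
        refine sum_congr rfl fun k _ => ?_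
        rw [mul_sum]
        exact sum_congr rfl fun l _ => by ring
    _ = ∑ k ∈ range n, ∑ l ∈ range n, ∑ a ∈ range n, ∑ b ∈ range n,
          (c a * c b * rr L n a b k l) * (bw L k z * bw L l w) :=
        sum4_comm (range n) (range n) (range n) (range n)
          (fun a b k l => (c a * c b * rr L n a b k l) * (bw L k z * bw L l w))
    _ = _ := by
        refine sum_congr rfl fun k _ => sum_congr rfl fun l _ => ?_
        rw [sum_mul]
        refine sum_congr rfl fun a _ => ?_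
        rw [sum_mul]

lemma RR_symm (n : ℕ) (c : ℕ → ℂ) (z w : ℂ) : RR L n c z w = RR L n c w z := by
  unfold RR
  rw [sum_comm]
  exact sum_congr rfl fun k _ => sum_congr rfl fun l _ => by rw [rho_symm L n c l k]; ring

end Pool.Agent.Helper487.ECM
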