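import Pool.Agent.Helper487.ECM.DivX

/-! Lower order terms. -/

open Filter Topology Finset
open scoped Nat PeriodPair

namespace Pool.Agent.Helper487.ECM

variable {L : PeriodPair} {N : ℕ}

/-- summation over the zeros against the derivatives of the coefficients -/
lemma Reg.dual {y : Fin N → ℂ} (h : Reg L y) (h1 : ∀ i, ph1 L (N + 1) (cc L y) (y i) ≠ 0) (d : ℕ → ℂ) :
    ∀ m < N + 1, ∑ i, dcc L i y m * (ph L (N + 1) d (y i) / ph1 L (N + 1) (cc L y) (y i)) =
      d 0 * cc L y m - d m := by
  refine h.interp0 (d := fun m => ∑ i, dcc L i y m * (ph L (N + 1) d (y i) / ph1 L (N + 1) (cc L y) (y i)))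
    (e := fun m => d 0 * cc L y m - d m) ?_ ?_
  · simp only [dcc_zero, zero_mul, sum_const_zero, cc_zero]; ring
  · intro p
    have e1 : (fun m => ∑ i, dcc L i y m * (ph L (N + 1) d (y i) / ph1 L (N + 1) (cc L y) (y i))) =
        fun m => ∑ i, (ph L (N + 1) d (y i) / ph1 L (N + 1) (cc L y) (y i)) * dcc L i y m :=
      funext fun m => sum_congr rfl fun i _ => mul_comm _ _
    rw [e1, ph_sum, ph_sub, ph_smul, h.z0 p]
    simp only [ph_smul, h.dcc_eval]
    rw [sum_eq_single p]
    · rw [if_pos rfl]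
      have := h1 p
      field_simp
      ring
    · intro b _ hb
      simp [Ne.symm hb]
    · intro hi; exact absurd (mem_univ p) hi

/-- the vector field in the coordinates `c` -/
lemma Gen0.M_val {y : Fin N → ℂ} (h : Gen0 L y) {m : ℕ} (hm : m < N + 1) :
    ∑ i, Xf L i y * dcc L i y m = -(((N : ℂ) + 1) * Tf L (N + 1) (cc L y) m) := by
  have h1 := h.toReg.dual h.f1 (fun k => rho L (N + 1) (cc L y) k 0) m hm
  unfold Xf Tf
  have e : ∀ i, ((N : ℂ) + 1) * (rhof L (N + 1) (cc L y) (y i) / ph1 L (N + 1) (cc L y) (y i)) * dcc L i y m =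
      ((N : ℂ) + 1) * (dcc L i y m * (ph L (N + 1) (fun k => rho L (N + 1) (cc L y) k 0) (y i) /
        ph1 L (N + 1) (cc L y) (y i))) := by
    intro i; unfold rhof; ring
  simp only [e, ← mul_sum, h1]
  ring

/-- partial derivatives of the coefficients of the kernel -/
noncomputable def drho (L : PeriodPair) (n : ℕ) (c : ℕ → ℂ) (m k l : ℕ) : ℂ :=
  ∑ b ∈ range n, c b * (rr L n m b k l + rr L n b m k l)

lemma Reg.pd_rho {y : Fin N → ℂ} (h : Reg L y) (i : Fin N) (n k l : ℕ) :
    pd i (fun y => rho L n (cc L y) k l) y = ∑ m ∈ range n, drho L n (cc L y) m k l * dcc L i y m := by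
  have d : ∀ a, DifferentiableAt ℂ (fun y => cc L y a) y := fun a => (h.analyticAt_cc a).differentiableAt
  have d2 : ∀ a b, DifferentiableAt ℂ (fun y => cc L y a * cc L y b * rr L n a b k l) y := fun a b =>
    ((d a).mul (d b)).mul (differentiableAt_const _)
  unfold rho
  rw [pd_sum _ fun a _ => DifferentiableAt.fun_sum fun b _ => d2 a b]
  have e1 : ∀ a ∈ range n, pd i (fun y => ∑ b ∈ range n, cc L y a * cc L y b * rr L n a b k l) y =
      ∑ b ∈ range n, (dcc L i y a * cc L y b * rr L n a b k l + cc L y a * dcc L i y b * rr L n a b k l) := by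
    intro a _
    rw [pd_sum _ fun b _ => d2 a b]
    refine sum_congr rfl fun b _ => ?_
    have dab : DifferentiableAt ℂ (fun y => cc L y a * cc L y b) y := (d a).mul (d b)
    rw [pd_mul dab (differentiableAt_const _), pd_const, pd_mul (d a) (d b)]
    unfold dcc; ring
  rw [sum_congr rfl e1]
  simp only [sum_add_distrib]
  rw [sum_comm (f := fun a b => cc L y a * dcc L i y b * rr L n a b k l), ← sum_add_distrib]
  refine sum_congr rfl fun a _ => ?_
  unfold drho
  rw [sum_mul, ← sum_add_distrib]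
  exact sum_congr rfl fun b _ => by ring

/-- the divergence of the vector field -/
noncomputable def Zf (L : PeriodPair) (n : ℕ) (c : ℕ → ℂ) : ℂ :=
  ∑ m ∈ range n, drho L n c m 0 0 * c m - ∑ k ∈ range n, drho L n c k k 0 + ((n : ℂ) - 1) * rho L n c 0 0

theorem Gen0.div_M {y : Fin N → ℂ} (h : Gen0 L y) :
    ∑ i, (pd i (Xf L i) y + Xf L i y * LLf L i y) = ((N : ℂ) + 1) * Zf L (N + 1) (cc L y) := by
  have hr := h.toReg
  set F : Fin N → ℂ := fun j => ph1 L (N + 1) (cc L y) (y j) with hF
  have hF0 : ∀ j, F j ≠ 0 := h.f1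
  set R : ℕ → ℂ := fun k => rho L (N + 1) (cc L y) k 0 with hR
  have hpX : ∀ i, pd i (Xf L i) y = ((N : ℂ) + 1) *
      ((ph L (N + 1) (fun k => ∑ m ∈ range (N + 1), drho L (N + 1) (cc L y) m k 0 * dcc L i y m) (y i)
        + ph1 L (N + 1) R (y i)) / F i - ph L (N + 1) R (y i) * (ph1 L (N + 1) (dcc L i y) (y i) +
          ph2 L (N + 1) (cc L y) (y i)) / F i ^ 2) := by
    intro i
    have d1 : DifferentiableAt ℂ (fun y => rhof L (N + 1) (cc L y) (y i)) y :=
      (hr.analyticAt_rhof i).differentiableAt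
    have d2 : DifferentiableAt ℂ (fun y => ph1 L (N + 1) (cc L y) (y i)) y :=
      (analyticAt_ph1 (fun k _ => hr.analyticAt_cc k) (analyticAt_coord i y) (h.hy i)).differentiableAt
    have d3 : DifferentiableAt ℂ (fun y => rhof L (N + 1) (cc L y) (y i) / ph1 L (N + 1) (cc L y) (y i)) y := by
      have := d1.mul (d2.inv (h.f1 i))
      exact this.congr_of_eventuallyEq (Eventually.of_forall fun y => by simp [div_eq_mul_inv])
    have e1 : pd i (fun y => rhof L (N + 1) (cc L y) (y i)) y =
        ph L (N + 1) (fun k => ∑ m ∈ range (N + 1), drho L (N + 1) (cc L y) m k 0 * dcc L i y m) (y i)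
        + ph1 L (N + 1) R (y i) := by
      have := pd_ph (L := L) (n := N + 1) (C := fun y k => rho L (N + 1) (cc L y) k 0) (l := fun y => y i) (y := y)
        (fun k _ => (hr.analyticAt_rho _ k 0).differentiableAt) (analyticAt_coord i y).differentiableAt (h.hy i) i
      rw [pd_coord, if_pos rfl, one_mul] at this
      unfold rhof
      rw [this]
      simp only [hr.pd_rho]
      rfl
    have e2 : pd i (fun y => ph1 L (N + 1) (cc L y) (y i)) y =
        ph1 L (N + 1) (dcc L i y) (y i) + ph2 L (N + 1) (cc L y) (y i) := by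
      rw [pd_ph1 (fun k _ => (hr.analyticAt_cc k).differentiableAt) (analyticAt_coord i y).differentiableAt
        (h.hy i), pd_coord, if_pos rfl, one_mul]
      rfl
    have e3 : Xf L i = fun y => ((N : ℂ) + 1) * (rhof L (N + 1) (cc L y) (y i) / ph1 L (N + 1) (cc L y) (y i)) := rfl
    rw [e3, pd_const_mul _ d3, pd_div d1 d2 (h.f1 i), e1, e2]
    rfl
  have hterm : ∀ i, pd i (Xf L i) y + Xf L i y * LLf L i y = ((N : ℂ) + 1) *
      (ph L (N + 1) (fun k => ∑ m ∈ range (N + 1), drho L (N + 1) (cc L y) m k 0 * dcc L i y m) (y i) / F i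
        + ph1 L (N + 1) R (y i) / F i
        + (ph L (N + 1) R (y i) / F i) * ∑ j, ph1 L (N + 1) (dcc L i y) (y j) / F j) := by
    intro i
    rw [hpX i]
    have e1 : Xf L i y = ((N : ℂ) + 1) * (ph L (N + 1) R (y i) / F i) := rfl
    have e2 : LLf L i y = ∑ j, ph1 L (N + 1) (dcc L i y) (y j) / F j +
      (ph2 L (N + 1) (cc L y) (y i) + ph1 L (N + 1) (dcc L i y) (y i)) / F i := rfl
    rw [e1, e2]
    have := hF0 i
    field_simp
    ring
  simp only [hterm, ← mul_sum]
  congr 1
  simp only [sum_add_distrib]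
  -- the third sum
  have h3 : ∑ i, (ph L (N + 1) R (y i) / F i) * ∑ j, ph1 L (N + 1) (dcc L i y) (y j) / F j =
      N * R 0 - ∑ j, ph1 L (N + 1) R (y j) / F j := by
    have e1 : ∑ i, (ph L (N + 1) R (y i) / F i) * ∑ j, ph1 L (N + 1) (dcc L i y) (y j) / F j =
        ∑ j, ph1 L (N + 1) (fun m => ∑ i, dcc L i y m * (ph L (N + 1) R (y i) / F i)) (y j) / F j := by
      simp only [mul_sum]
      rw [sum_comm]
      refine sum_congr rfl fun j _ => ?_
      rw [ph1_sum, sum_div]
      refine sum_congr rfl fun i _ => ?_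
      have : ph1 L (N + 1) (fun k => dcc L i y k * (ph L (N + 1) R (y i) / F i)) (y j) =
          (ph L (N + 1) R (y i) / F i) * ph1 L (N + 1) (dcc L i y) (y j) := by
        rw [← ph1_smul]
        exact ph1_congr L (fun k _ => mul_comm _ _) _
      rw [this]; ring
    rw [e1]
    have e2 : ∀ j, ph1 L (N + 1) (fun m => ∑ i, dcc L i y m * (ph L (N + 1) R (y i) / F i)) (y j) / F j =
        R 0 - ph1 L (N + 1) R (y j) / F j := by
      intro j
      rw [ph1_congr L (hr.dual h.f1 R), ph1_sub, ph1_smul]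
      have := hF0 j
      have e3 : ph1 L (N + 1) (cc L y) (y j) = F j := rfl
      rw [e3]
      field_simp
    simp only [e2, sum_sub_distrib, sum_const, card_univ, Fintype.card_fin, nsmul_eq_mul]
  -- the first sum
  have h1 : ∑ i, ph L (N + 1) (fun k => ∑ m ∈ range (N + 1), drho L (N + 1) (cc L y) m k 0 * dcc L i y m) (y i) / F i =
      ∑ m ∈ range (N + 1), drho L (N + 1) (cc L y) m 0 0 * cc L y m
      - ∑ k ∈ range (N + 1), drho L (N + 1) (cc L y) k k 0 := by
    have hb : ∀ k < N + 1, ∀ z, ph L (N + 1) (fun l => if l = k then 1 else 0) z = bw L k z := by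
      intro k hk z
      unfold ph
      rw [sum_eq_single k]
      · simp
      · intro b _ hb; simp [hb]
      · intro hk'; exact absurd (Finset.mem_range.mpr hk) hk'
    have hd : ∀ k < N + 1, ∀ m < N + 1, ∑ i, dcc L i y m * (bw L k (y i) / F i) =
        (if 0 = k then 1 else 0) * cc L y m - (if m = k then 1 else 0) := by
      intro k hk m hm
      have := hr.dual h.f1 (fun l => if l = k then 1 else 0) m hm
      simp only [hb k hk] at this
      exact this
    have e1 : ∑ i, ph L (N + 1) (fun k => ∑ m ∈ range (N + 1), drho L (N + 1) (cc L y) m k 0 * dcc L i y m) (y i) / F i =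
        ∑ k ∈ range (N + 1), ∑ m ∈ range (N + 1), drho L (N + 1) (cc L y) m k 0 *
          ∑ i, dcc L i y m * (bw L k (y i) / F i) := by
      unfold ph
      simp only [sum_div, sum_mul, mul_sum]
      rw [sum_comm]
      refine sum_congr rfl fun k _ => ?_
      rw [sum_comm]
      exact sum_congr rfl fun m _ => sum_congr rfl fun i _ => by ring
    rw [e1]
    have e2 : ∀ k ∈ range (N + 1), ∑ m ∈ range (N + 1), drho L (N + 1) (cc L y) m k 0 *
          ∑ i, dcc L i y m * (bw L k (y i) / F i) =
        (if 0 = k then 1 else 0) * (∑ m ∈ range (N + 1), drho L (N + 1) (cc L y) m k 0 * cc L y m)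
          - drho L (N + 1) (cc L y) k k 0 := by
      intro k hk
      have e3 : ∀ m ∈ range (N + 1), drho L (N + 1) (cc L y) m k 0 *
          ∑ i, dcc L i y m * (bw L k (y i) / F i) =
          (if 0 = k then 1 else 0) * (drho L (N + 1) (cc L y) m k 0 * cc L y m) -
          (if m = k then drho L (N + 1) (cc L y) m k 0 else 0) := by
        intro m hm
        rw [hd k (Finset.mem_range.mp hk) m (Finset.mem_range.mp hm)]
        split_ifs <;> ring
      rw [sum_congr rfl e3, sum_sub_distrib, ← mul_sum, sum_ite_eq' (range (N + 1)) k, if_pos hk]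
    rw [sum_congr rfl e2, sum_sub_distrib]
    congr 1
    rw [sum_eq_single 0]
    · simp
    · intro b _ hb; simp [Ne.symm hb]
    · intro h0; simp at h0
  rw [h1, h3]
  unfold Zf
  have : R 0 = rho L (N + 1) (cc L y) 0 0 := rfl
  rw [this]
  push_cast
  ring

end Pool.Agent.Helper487.ECM
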