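import Pool.Agent.Helper487.ECM.Conf2
import Pool.Agent.Helper487.ECM.Calc

/-! The change of variables and the first identities. -/

open Filter Topology Finset
open scoped Nat PeriodPair

namespace Pool.Agent.Helper487.ECM

variable (L : PeriodPair) {N : ℕ}

/-- the matrix of the linear system, the `i`-th row is `(℘(y_i), ℘'(y_i), …, ℘^{(N-1)}(y_i))` -/
noncomputable def Wm (y : Fin N → ℂ) : Matrix (Fin N) (Fin N) ℂ :=
  Matrix.of fun i k => iteratedDeriv (k : ℕ) ℘[L] (y i)

/-- the new variables: the solution of the linear system `W u = (1, …, 1)` -/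
noncomputable def uu (y : Fin N → ℂ) : Fin N → ℂ := (Wm L y)⁻¹.mulVec 1

lemma Wm_apply (y : Fin N → ℂ) (i k : Fin N) : Wm L y i k = wp L k (y i) := rfl

/-- the coefficients `1, -u_1, …, -u_N` -/
def cU (u : Fin N → ℂ) : ℕ → ℂ
  | 0 => 1
  | k + 1 => if h : k < N then -u ⟨k, h⟩ else 0

lemma cU_zero (u : Fin N → ℂ) : cU u 0 = 1 := rfl

lemma cU_succ (u : Fin N → ℂ) (k : Fin N) : cU u (k + 1) = -u k := by
  simp [cU]

/-- coefficients of the function `φ` -/
noncomputable def cc (y : Fin N → ℂ) : ℕ → ℂ := cU (uu L y)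

lemma cc_zero (y : Fin N → ℂ) : cc L y 0 = 1 := rfl

lemma cc_succ (y : Fin N → ℂ) (k : Fin N) : cc L y (k + 1) = -uu L y k := cU_succ _ _

lemma ph_split (d : ℕ → ℂ) (z : ℂ) :
    ph L (N + 1) d z = d 0 + ∑ k : Fin N, d (k + 1) * wp L k z := by
  unfold ph
  rw [sum_range_succ', Finset.sum_range]
  simp only [bw_succ, bw_zero, mul_one]
  ring

lemma ph1_split (d : ℕ → ℂ) (z : ℂ) :
    ph1 L (N + 1) d z = ∑ k : Fin N, d (k + 1) * wp L (k + 1) z := by
  unfold ph1
  rw [sum_range_succ', Finset.sum_range]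
  simp [bw1]

/-- regular points of the change of variables -/
structure Reg (y : Fin N → ℂ) : Prop where
  hy : ∀ i, y i ∈ Dom L
  hW : (Wm L y).det ≠ 0

variable {L}

lemma Reg.z0 {y : Fin N → ℂ} (h : Reg L y) (i : Fin N) : ph L (N + 1) (cc L y) (y i) = 0 := by
  have h1 : (Wm L y).mulVec (uu L y) = 1 := by
    unfold uu
    rw [Matrix.mulVec_mulVec, Matrix.mul_nonsing_inv _ (isUnit_iff_ne_zero.mpr h.hW), Matrix.one_mulVec]
  have h2 := congrFun h1 i
  rw [ph_split, cc_zero]
  simp only [Matrix.mulVec, dotProduct, Wm_apply, Pi.one_apply] at h2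
  rw [← h2, ← sum_add_distrib]
  refine sum_eq_zero fun k _ => ?_
  rw [cc_succ]; ring

lemma Reg.interp {y : Fin N → ℂ} (h : Reg L y) (d : ℕ → ℂ)
    (hd : ∀ i, ph L (N + 1) d (y i) = 0) : ∀ k < N + 1, d k = d 0 * cc L y k := by
  set d' : Fin N → ℂ := fun k => d (k + 1) with hd'
  have h1 : (Wm L y).mulVec d' = (-d 0) • (1 : Fin N → ℂ) := by
    funext i
    have h2 := hd i
    rw [ph_split] at h2
    simp only [Matrix.mulVec, dotProduct, Wm_apply, Pi.smul_apply, Pi.one_apply, smul_eq_mul, mul_one]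
    rw [← add_eq_zero_iff_eq_neg.mp ((add_comm _ _).trans h2)]
    exact sum_congr rfl fun k _ => by rw [hd']; ring
  have h3 : d' = (-d 0) • uu L y := by
    have h4 := congrArg ((Wm L y)⁻¹.mulVec) h1
    rw [Matrix.mulVec_mulVec, Matrix.nonsing_inv_mul _ (isUnit_iff_ne_zero.mpr h.hW),
      Matrix.one_mulVec, Matrix.mulVec_smul] at h4
    exact h4
  intro k hk
  cases k with
  | zero => rw [cc_zero, mul_one]
  | succ k =>
    have h5 := congrFun h3 ⟨k, by omega⟩
    have h6 := cc_succ L y ⟨k, by omega⟩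
    simp only [hd', Pi.smul_apply, smul_eq_mul] at h5 h6
    rw [h5, h6]; ring

lemma Reg.interp0 {y : Fin N → ℂ} (h : Reg L y) {d e : ℕ → ℂ} (h0 : d 0 = e 0)
    (hd : ∀ i, ph L (N + 1) d (y i) = ph L (N + 1) e (y i)) : ∀ k < N + 1, d k = e k := by
  have h1 := h.interp (fun k => d k - e k) (fun i => by rw [ph_sub, hd, sub_self])
  intro k hk
  have := h1 k hk
  simp only [h0, sub_self, zero_mul] at this
  exact sub_eq_zero.mp this

lemma analyticAt_comp_of {g : ℂ → ℂ} {l : (Fin N → ℂ) → ℂ} {y : Fin N → ℂ} (hg : AnalyticAt ℂ g (l y))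
    (hl : AnalyticAt ℂ l y) : AnalyticAt ℂ (fun y => g (l y)) y :=
  AnalyticAt.fun_comp (f := l) (g := g) hg hl

lemma analyticAt_wpc {y : Fin N → ℂ} (k : ℕ) (i : Fin N) (h : y i ∈ Dom L) :
    AnalyticAt ℂ (fun y : Fin N → ℂ => wp L k (y i)) y :=
  analyticAt_comp_of (l := fun y : Fin N → ℂ => y i) (analyticAt_wp L k h) (analyticAt_coord i y)

lemma analyticAt_Wm {y : Fin N → ℂ} (hy : ∀ i, y i ∈ Dom L) (i k : Fin N) :
    AnalyticAt ℂ (fun y => Wm L y i k) y := analyticAt_wpc k i (hy i)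

lemma analyticAt_detW {y : Fin N → ℂ} (hy : ∀ i, y i ∈ Dom L) :
    AnalyticAt ℂ (fun y => (Wm L y).det) y := analyticAt_det fun i k => analyticAt_Wm hy i k

lemma eventually_dom {y : Fin N → ℂ} (hy : ∀ i, y i ∈ Dom L) : ∀ᶠ y' in 𝓝 y, ∀ i, y' i ∈ Dom L := by
  rw [eventually_all]
  intro i
  exact (analyticAt_coord i y).continuousAt.preimage_mem_nhds ((isOpen_Dom L).mem_nhds (hy i))

lemma Reg.eventually {y : Fin N → ℂ} (h : Reg L y) : ∀ᶠ y' in 𝓝 y, Reg L y' := by
  filter_upwards [eventually_dom h.hy,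
    (analyticAt_detW h.hy).continuousAt.eventually_ne h.hW] with y' h1 h2
  exact ⟨h1, h2⟩

lemma Reg.analyticAt_uu {y : Fin N → ℂ} (h : Reg L y) (k : Fin N) :
    AnalyticAt ℂ (fun y => uu L y k) y := by
  have h1 : ∀ i j : Fin N, AnalyticAt ℂ (fun y => (Wm L y).adjugate i j) y := by
    intro i j
    simp only [Matrix.adjugate_apply]
    apply analyticAt_det
    intro a b
    by_cases haj : a = j
    · subst haj; simp only [Matrix.updateRow_self]; exact analyticAt_const
    · simp only [Matrix.updateRow_ne haj]; exact analyticAt_Wm h.hy a b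
  have h2 : (fun y : Fin N → ℂ => uu L y k) =
      fun y => ∑ j, ((Wm L y).det)⁻¹ * (Wm L y).adjugate k j := by
    funext y
    unfold uu
    simp only [Matrix.mulVec, dotProduct, Matrix.inv_def, Matrix.smul_apply, smul_eq_mul,
      Pi.one_apply, mul_one, Ring.inverse_eq_inv']
  rw [h2]
  exact Finset.analyticAt_fun_sum _ fun j _ => ((analyticAt_detW h.hy).inv h.hW).mul (h1 k j)

lemma Reg.analyticAt_cc {y : Fin N → ℂ} (h : Reg L y) (k : ℕ) :
    AnalyticAt ℂ (fun y => cc L y k) y := by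
  cases k with
  | zero => exact analyticAt_const
  | succ k =>
    by_cases hk : k < N
    · have : (fun y : Fin N → ℂ => cc L y (k + 1)) = fun y => -uu L y ⟨k, hk⟩ := by
        funext y; simp [cc, cU, hk]
      rw [this]; exact (h.analyticAt_uu _).neg
    · have : (fun y : Fin N → ℂ => cc L y (k + 1)) = fun y => 0 := by
        funext y; simp [cc, cU, hk]
      rw [this]; exact analyticAt_const

lemma analyticAt_ph {n : ℕ} {C : (Fin N → ℂ) → ℕ → ℂ} {l : (Fin N → ℂ) → ℂ} {y : Fin N → ℂ}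
    (hC : ∀ k < n, AnalyticAt ℂ (fun y => C y k) y) (hl : AnalyticAt ℂ l y) (hd : l y ∈ Dom L) :
    AnalyticAt ℂ (fun y => ph L n (C y) (l y)) y :=
  Finset.analyticAt_fun_sum _ fun k hk => (hC k (Finset.mem_range.mp hk)).mul
    (analyticAt_comp_of (analyticAt_bw L k hd) hl)

lemma analyticAt_ph1 {n : ℕ} {C : (Fin N → ℂ) → ℕ → ℂ} {l : (Fin N → ℂ) → ℂ} {y : Fin N → ℂ}
    (hC : ∀ k < n, AnalyticAt ℂ (fun y => C y k) y) (hl : AnalyticAt ℂ l y) (hd : l y ∈ Dom L) :
    AnalyticAt ℂ (fun y => ph1 L n (C y) (l y)) y :=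
  Finset.analyticAt_fun_sum _ fun k hk => (hC k (Finset.mem_range.mp hk)).mul
    (analyticAt_comp_of (analyticAt_bw1 L k hd) hl)

lemma pd_ph {n : ℕ} {C : (Fin N → ℂ) → ℕ → ℂ} {l : (Fin N → ℂ) → ℂ} {y : Fin N → ℂ}
    (hC : ∀ k < n, DifferentiableAt ℂ (fun y => C y k) y) (hl : DifferentiableAt ℂ l y)
    (hd : l y ∈ Dom L) (i : Fin N) :
    pd i (fun y => ph L n (C y) (l y)) y =
      ph L n (fun k => pd i (fun y => C y k) y) (l y) + pd i l y * ph1 L n (C y) (l y) := by
  have hb : ∀ k, DifferentiableAt ℂ (fun y => bw L k (l y)) y := fun k => by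
    have := DifferentiableAt.comp y (hasDerivAt_bw L k hd).differentiableAt hl
    exact this
  have hm : ∀ k ∈ range n, DifferentiableAt ℂ (fun y => C y k * bw L k (l y)) y := fun k hk =>
    (hC k (Finset.mem_range.mp hk)).mul (hb k)
  unfold ph ph1
  rw [pd_sum _ hm, mul_sum, ← sum_add_distrib]
  refine sum_congr rfl fun k hk => ?_
  rw [pd_mul (hC k (Finset.mem_range.mp hk)) (hb k), pd_comp (hasDerivAt_bw L k hd) hl]
  ring

lemma pd_ph1 {n : ℕ} {C : (Fin N → ℂ) → ℕ → ℂ} {l : (Fin N → ℂ) → ℂ} {y : Fin N → ℂ}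
    (hC : ∀ k < n, DifferentiableAt ℂ (fun y => C y k) y) (hl : DifferentiableAt ℂ l y)
    (hd : l y ∈ Dom L) (i : Fin N) :
    pd i (fun y => ph1 L n (C y) (l y)) y =
      ph1 L n (fun k => pd i (fun y => C y k) y) (l y) + pd i l y * ph2 L n (C y) (l y) := by
  have hb : ∀ k, DifferentiableAt ℂ (fun y => bw1 L k (l y)) y := fun k => by
    have := DifferentiableAt.comp y (hasDerivAt_bw1 L k hd).differentiableAt hl
    exact this
  have hm : ∀ k ∈ range n, DifferentiableAt ℂ (fun y => C y k * bw1 L k (l y)) y := fun k hk =>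
    (hC k (Finset.mem_range.mp hk)).mul (hb k)
  unfold ph1 ph2
  rw [pd_sum _ hm, mul_sum, ← sum_add_distrib]
  refine sum_congr rfl fun k hk => ?_
  rw [pd_mul (hC k (Finset.mem_range.mp hk)) (hb k), pd_comp (hasDerivAt_bw1 L k hd) hl]
  ring

/-- derivative of the coefficients -/
noncomputable def dcc (L : PeriodPair) (j : Fin N) (y : Fin N → ℂ) (k : ℕ) : ℂ := pd j (fun y => cc L y k) y

/-- the gradient with respect to the metric -/
noncomputable def Dg (i : Fin N) (f : (Fin N → ℂ) → ℂ) (y : Fin N → ℂ) : ℂ := ∑ j, gg N i j * pd j f y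

/-- metric gradient of the coefficients -/
noncomputable def gcc (L : PeriodPair) (j : Fin N) (y : Fin N → ℂ) (k : ℕ) : ℂ := Dg j (fun y => cc L y k) y

/-- the Laplacian -/
noncomputable def Lap (f : (Fin N → ℂ) → ℂ) (y : Fin N → ℂ) : ℂ := ∑ i, pd i (Dg i f) y

lemma dcc_zero (j : Fin N) (y : Fin N → ℂ) : dcc L j y 0 = 0 := by
  unfold dcc
  have : (fun y : Fin N → ℂ => cc L y 0) = fun _ => 1 := rfl
  rw [this, pd_const]

lemma gcc_zero (j : Fin N) (y : Fin N → ℂ) : gcc L j y 0 = 0 := by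
  unfold gcc Dg
  refine sum_eq_zero fun i _ => ?_
  have := dcc_zero (L := L) i y
  unfold dcc at this
  rw [this, mul_zero]

lemma gcc_eq (j : Fin N) (y : Fin N → ℂ) (k : ℕ) : gcc L j y k = ∑ i, gg N j i * dcc L i y k := rfl

lemma gg_symm (i j : Fin N) : gg N i j = gg N j i := by
  unfold gg; simp only [eq_comm]

lemma dcc_eq (j : Fin N) (y : Fin N → ℂ) (k : ℕ) : dcc L j y k = gcc L j y k + ∑ l, gcc L l y k := by
  have hn : ((N : ℂ) + 1) ≠ 0 := by exact_mod_cast (by omega : N + 1 ≠ 0)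
  have e1 : ∀ j : Fin N, gcc L j y k = dcc L j y k - (1 / ((N : ℂ) + 1)) * ∑ i, dcc L i y k := by
    intro j
    rw [gcc_eq]
    unfold gg
    simp only [sub_mul, sum_sub_distrib, ite_mul, one_mul, zero_mul, sum_ite_eq, mem_univ, if_true,
      ← mul_sum]
  simp only [e1, sum_sub_distrib, sum_const, card_univ, Fintype.card_fin, nsmul_eq_mul]
  field_simp
  ring

/-- evaluation of the derivatives at the zeros -/
lemma Reg.dcc_eval {y : Fin N → ℂ} (h : Reg L y) (i j : Fin N) :
    ph L (N + 1) (dcc L j y) (y i) = -((if i = j then 1 else 0) * ph1 L (N + 1) (cc L y) (y i)) := by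
  have h1 : pd j (fun y => ph L (N + 1) (cc L y) (y i)) y = 0 := by
    have e : (fun y => ph L (N + 1) (cc L y) (y i)) =ᶠ[𝓝 y] fun _ => 0 := by
      filter_upwards [h.eventually] with y' h'
      exact h'.z0 i
    rw [pd_congr e, pd_const]
  rw [pd_ph (fun k _ => (h.analyticAt_cc k).differentiableAt) (analyticAt_coord i y).differentiableAt
    (h.hy i), pd_coord] at h1
  exact eq_neg_of_add_eq_zero_left h1

lemma Reg.gcc_eval {y : Fin N → ℂ} (h : Reg L y) (i j : Fin N) :
    ph L (N + 1) (gcc L j y) (y i) = -(gg N j i * ph1 L (N + 1) (cc L y) (y i)) := by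
  have e : gcc L j y = fun k => ∑ l, gg N j l * dcc L l y k := funext fun k => gcc_eq j y k
  rw [e, ph_sum]
  simp only [ph_smul, h.dcc_eval]
  rw [sum_eq_single i]
  · simp
  · intro b _ hb
    simp [Ne.symm hb]
  · intro hi; exact absurd (mem_univ i) hi

/-- genericity of a point -/
structure Gen0 (L : PeriodPair) (y : Fin N → ℂ) : Prop extends Reg L y where
  hyy : ∀ i j, i ≠ j → wp L 0 (y i) ≠ wp L 0 (y j)
  hy1 : ∀ i, wp L 1 (y i) ≠ 0
  f1 : ∀ i, ph1 L (N + 1) (cc L y) (y i) ≠ 0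

lemma Gen0.eventually {y : Fin N → ℂ} (h : Gen0 L y) : ∀ᶠ y' in 𝓝 y, Gen0 L y' := by
  have a1 : ∀ᶠ y' in 𝓝 y, ∀ i j, i ≠ j → wp L 0 (y' i) ≠ wp L 0 (y' j) := by
    rw [eventually_all]; intro i
    rw [eventually_all]; intro j
    by_cases hij : i = j
    · exact Eventually.of_forall fun _ h => absurd hij h
    · have c1 : ContinuousAt (fun y : Fin N → ℂ => wp L 0 (y i)) y :=
        (analyticAt_wpc 0 i (h.hy i)).continuousAt
      have c2 : ContinuousAt (fun y : Fin N → ℂ => wp L 0 (y j)) y :=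
        (analyticAt_wpc 0 j (h.hy j)).continuousAt
      filter_upwards [(c1.sub c2).eventually_ne (sub_ne_zero.mpr (h.hyy i j hij))] with y' h' _
      exact sub_ne_zero.mp h'
  have a2 : ∀ᶠ y' in 𝓝 y, ∀ i, wp L 1 (y' i) ≠ 0 := by
    rw [eventually_all]; intro i
    exact (analyticAt_wpc 1 i (h.hy i)).continuousAt.eventually_ne
      (h.hy1 i)
  have a3 : ∀ᶠ y' in 𝓝 y, ∀ i, ph1 L (N + 1) (cc L y') (y' i) ≠ 0 := by
    rw [eventually_all]; intro i
    exact (analyticAt_ph1 (fun k _ => h.toReg.analyticAt_cc k) (analyticAt_coord i y)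
      (h.hy i)).continuousAt.eventually_ne (h.f1 i)
  filter_upwards [h.toReg.eventually, a1, a2, a3] with y' h0 h1 h2 h3
  exact ⟨h0, h1, h2, h3⟩

lemma Gen0.RR_val {y : Fin N → ℂ} (h : Gen0 L y) (hN : 1 ≤ N) (i j : Fin N) :
    RR L (N + 1) (cc L y) (y i) (y j) =
      gg N i j * (ph1 L (N + 1) (cc L y) (y i) * ph1 L (N + 1) (cc L y) (y j)) := by
  have hn : ((N : ℂ) + 1) ≠ 0 := by exact_mod_cast (by omega : N + 1 ≠ 0)
  have hn2 : 2 ≤ N + 1 := by omega
  by_cases hij : i = j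
  · subst hij
    rw [RR_diag L hn2 _ (h.hy i) (h.hy1 i), h.toReg.z0 i, gg, if_pos rfl]
    push_cast; field_simp; ring
  · rw [RR_zero L hn2 _ (h.hy i) (h.hy j) (h.hyy i j hij) (h.toReg.z0 j), h.toReg.z0 i, gg, if_neg hij]
    push_cast; ring

/-- T1: the gradient of the coefficients -/
theorem Gen0.gcc_val {y : Fin N → ℂ} (h : Gen0 L y) (hN : 1 ≤ N) (i : Fin N) :
    ∀ k < N + 1, gcc L i y k = -(1 / ph1 L (N + 1) (cc L y) (y i)) *
      (RRc L (N + 1) (cc L y) (y i) k - rhof L (N + 1) (cc L y) (y i) * cc L y k) := by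
  refine h.toReg.interp0 ?_ ?_
  · rw [gcc_zero, RRc_zero, cc_zero]; ring
  · intro j
    rw [h.toReg.gcc_eval]
    have e : ph L (N + 1) (fun k => -(1 / ph1 L (N + 1) (cc L y) (y i)) *
      (RRc L (N + 1) (cc L y) (y i) k - rhof L (N + 1) (cc L y) (y i) * cc L y k)) (y j) =
      -(1 / ph1 L (N + 1) (cc L y) (y i)) * (RR L (N + 1) (cc L y) (y j) (y i)
        - rhof L (N + 1) (cc L y) (y i) * ph L (N + 1) (cc L y) (y j)) := by
      rw [ph_smul, ph_sub, ph_smul, ← RR_eq_ph]
    rw [e, h.toReg.z0 j, h.RR_val hN, gg_symm j i]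
    have := h.f1 i
    field_simp
    ring

/-- the Gram matrix of the coefficients -/
noncomputable def Gf (L : PeriodPair) (n : ℕ) (c : ℕ → ℂ) (k l : ℕ) : ℂ :=
  rho L n c k l - c l * rho L n c k 0 - c k * rho L n c l 0 + rho L n c 0 0 * c k * c l

/-- T2 -/
theorem Gen0.gram {y : Fin N → ℂ} (h : Gen0 L y) (hN : 1 ≤ N) {k l : ℕ} (hk : k < N + 1)
    (hl : l < N + 1) : ∑ j, gcc L j y k * dcc L j y l = Gf L (N + 1) (cc L y) k l := by
  refine h.toReg.interp0 (d := fun l => ∑ j, gcc L j y k * dcc L j y l)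
    (e := fun l => Gf L (N + 1) (cc L y) k l) ?_ ?_ l hl
  · simp only [dcc_zero, mul_zero, sum_const_zero]
    unfold Gf
    rw [cc_zero]; ring
  · intro i
    rw [ph_sum]
    simp only [ph_smul, h.toReg.dcc_eval]
    rw [sum_eq_single i]
    · simp only [if_true, one_mul]
      have e : ph L (N + 1) (fun l => Gf L (N + 1) (cc L y) k l) (y i) =
          RRc L (N + 1) (cc L y) (y i) k - cc L y k * rhof L (N + 1) (cc L y) (y i)
          + (rho L (N + 1) (cc L y) 0 0 * cc L y k - rho L (N + 1) (cc L y) k 0) *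
            ph L (N + 1) (cc L y) (y i) := by
        unfold Gf ph RRc rhof ph
        rw [mul_sum, mul_sum, ← sum_sub_distrib, ← sum_add_distrib]
        exact sum_congr rfl fun l _ => by ring
      rw [e, h.toReg.z0 i, h.gcc_val hN i k hk]
      have := h.f1 i
      field_simp
      ring
    · intro b _ hb
      simp [Ne.symm hb]
    · intro hi; exact absurd (mem_univ i) hi

/-- the coefficients of the Laplacian -/
noncomputable def Tf (L : PeriodPair) (n : ℕ) (c : ℕ → ℂ) (k : ℕ) : ℂ :=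
  rho L n c k 0 - rho L n c 0 0 * c k

lemma Reg.analyticAt_dcc {y : Fin N → ℂ} (h : Reg L y) (j : Fin N) (k : ℕ) :
    AnalyticAt ℂ (fun y => dcc L j y k) y := analyticAt_pd (h.analyticAt_cc k)

lemma Reg.analyticAt_gcc {y : Fin N → ℂ} (h : Reg L y) (j : Fin N) (k : ℕ) :
    AnalyticAt ℂ (fun y => gcc L j y k) y := by
  have : AnalyticAt ℂ (fun y => ∑ i, gg N j i * dcc L i y k) y :=
    Finset.analyticAt_fun_sum _ fun i _ => analyticAt_const.mul (h.analyticAt_dcc i k)
  exact this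

lemma Gen0.ph1_gcc {y : Fin N → ℂ} (h : Gen0 L y) (hN : 1 ≤ N) (i : Fin N) :
    ph1 L (N + 1) (gcc L i y) (y i) = -(N / (2 * ((N : ℂ) + 1))) * ph2 L (N + 1) (cc L y) (y i)
      + rhof L (N + 1) (cc L y) (y i) := by
  have hn : ((N : ℂ) + 1) ≠ 0 := by exact_mod_cast (by omega : N + 1 ≠ 0)
  rw [ph1_congr L (h.gcc_val hN i), ph1_smul, ph1_sub, ph1_smul,
    RR_diag_deriv L (by omega) _ (h.hy i) (h.hy1 i) (h.toReg.z0 i)]
  have := h.f1 i
  push_cast
  field_simp
  ring

/-- T3 -/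
theorem Gen0.lap {y : Fin N → ℂ} (h : Gen0 L y) (hN : 1 ≤ N) {k : ℕ} (hk : k < N + 1) :
    Lap (fun y => cc L y k) y = -2 * Tf L (N + 1) (cc L y) k := by
  have hn : ((N : ℂ) + 1) ≠ 0 := by exact_mod_cast (by omega : N + 1 ≠ 0)
  refine h.toReg.interp0 (d := fun k => Lap (fun y => cc L y k) y)
    (e := fun k => -2 * Tf L (N + 1) (cc L y) k) ?_ ?_ k hk
  · have e1 : ∀ i : Fin N, pd i (Dg i (fun y => cc L y 0)) y = 0 := by
      intro i
      have : Dg i (fun y => cc L y 0) = fun _ => 0 := funext fun y => gcc_zero i y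
      rw [this, pd_const]
    simp only [Lap, e1, sum_const_zero]
    unfold Tf
    rw [cc_zero]; ring
  · intro i
    -- second derivatives of the relation
    have h1 : ∀ j, pd j (fun y => ph L (N + 1) (gcc L j y) (y i) + gg N j i * ph1 L (N + 1) (cc L y) (y i)) y = 0 := by
      intro j
      have e : (fun y => ph L (N + 1) (gcc L j y) (y i) + gg N j i * ph1 L (N + 1) (cc L y) (y i)) =ᶠ[𝓝 y]
          fun _ => 0 := by
        filter_upwards [h.toReg.eventually] with y' h'
        rw [h'.gcc_eval]; ring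
      rw [pd_congr e, pd_const]
    have h2 : ∀ j, ph L (N + 1) (fun k => pd j (fun y => gcc L j y k) y) (y i) +
        (if i = j then 1 else 0) * ph1 L (N + 1) (gcc L j y) (y i) +
        gg N j i * (ph1 L (N + 1) (dcc L j y) (y i) + (if i = j then 1 else 0) * ph2 L (N + 1) (cc L y) (y i)) = 0 := by
      intro j
      have hA := analyticAt_ph (L := L) (n := N + 1) (C := fun y => gcc L j y) (l := fun y => y i) (y := y)
        (fun k _ => h.toReg.analyticAt_gcc j k) (analyticAt_coord i y) (h.hy i)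
      have hB := analyticAt_ph1 (L := L) (n := N + 1) (C := fun y => cc L y) (l := fun y => y i) (y := y)
        (fun k _ => h.toReg.analyticAt_cc k) (analyticAt_coord i y) (h.hy i)
      have h3 := h1 j
      rw [pd_add hA.differentiableAt (hB.differentiableAt.const_mul _), pd_const_mul _ hB.differentiableAt,
        pd_ph (fun k _ => (h.toReg.analyticAt_gcc j k).differentiableAt) (analyticAt_coord i y).differentiableAt
          (h.hy i),
        pd_ph1 (fun k _ => (h.toReg.analyticAt_cc k).differentiableAt) (analyticAt_coord i y).differentiableAt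
          (h.hy i), pd_coord] at h3
      exact h3
    have h4 := Finset.sum_congr rfl fun j (_ : j ∈ (univ : Finset (Fin N))) => h2 j
    simp only [sum_add_distrib, mul_add, sum_const_zero] at h4
    have e1 : ∑ j, ph L (N + 1) (fun k => pd j (fun y => gcc L j y k) y) (y i) =
        ph L (N + 1) (fun k => Lap (fun y => cc L y k) y) (y i) := by
      rw [← ph_sum]; rfl
    have e2 : ∑ j, (if i = j then (1:ℂ) else 0) * ph1 L (N + 1) (gcc L j y) (y i) =
        ph1 L (N + 1) (gcc L i y) (y i) := by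
      simp [ite_mul]
    have e3 : ∑ j, gg N j i * ph1 L (N + 1) (dcc L j y) (y i) = ph1 L (N + 1) (gcc L i y) (y i) := by
      have e : gcc L i y = fun k => ∑ l, gg N i l * dcc L l y k := funext fun k => gcc_eq i y k
      rw [e, ph1_sum]
      simp only [ph1_smul]
      exact sum_congr rfl fun j _ => by rw [gg_symm]
    have e4 : ∑ j, gg N j i * ((if i = j then (1:ℂ) else 0) * ph2 L (N + 1) (cc L y) (y i)) =
        gg N i i * ph2 L (N + 1) (cc L y) (y i) := by
      simp [ite_mul]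
    rw [e1, e2, e3, e4, h.ph1_gcc hN i] at h4
    have e5 : ph L (N + 1) (fun k => -2 * Tf L (N + 1) (cc L y) k) (y i) = -2 * rhof L (N + 1) (cc L y) (y i) := by
      rw [ph_smul]
      have e : ph L (N + 1) (fun k => Tf L (N + 1) (cc L y) k) (y i) = rhof L (N + 1) (cc L y) (y i)
          - rho L (N + 1) (cc L y) 0 0 * ph L (N + 1) (cc L y) (y i) := by
        unfold Tf rhof
        rw [ph_sub, ph_smul]
      have e' : Tf L (N + 1) (cc L y) = fun k => Tf L (N + 1) (cc L y) k := rfl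
      rw [e', e, h.toReg.z0 i]; ring
    rw [e5]
    have hgg : gg N i i = N / ((N : ℂ) + 1) := by unfold gg; rw [if_pos rfl]; field_simp; ring
    rw [hgg] at h4
    have hz : (N : ℂ) / (2 * (N + 1)) * 2 = N / ((N : ℂ) + 1) := by field_simp
    linear_combination h4 + ph2 L (N + 1) (cc L y) (y i) * hz

end Pool.Agent.Helper487.ECM
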