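import Pool.Agent.Helper487.ECM.Lower

/-! The case of one variable. -/

open Filter Topology Finset
open scoped Nat PeriodPair

namespace Pool.Agent.Helper487.ECM

variable (L : PeriodPair)

lemma exists_val (S : Finset ℂ) : ∃ z ∈ Dom L, ∀ c ∈ S, wp L 0 z ≠ c := by
  have h : ∀ᶠ z in residual ℂ, ∀ c ∈ S, z ∈ Dom L ∧ wp L 0 z ≠ c := by
    rw [Filter.eventually_all_finset]
    intro c _
    exact residual_of_dense_open (isOpen_ne L 0 c) (dense_ne L 0 c)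
  have h' : ∀ᶠ z in residual ℂ, z ∈ Dom L := residual_of_dense_open (isOpen_Dom L) (dense_Dom L)
  obtain ⟨z, hz⟩ := (dense_of_mem_residual (h.and h')).nonempty
  exact ⟨z, hz.2, fun c hc => (hz.1 c hc).2⟩

/-- the duplication formula -/
lemma wp_dup {z : ℂ} (hz : z ∈ Dom L) (h2 : z + z ∈ Dom L) (h1 : wp L 1 z ≠ 0) :
    wp L 0 (z + z) = (wp L 2 z / (2 * wp L 1 z)) ^ 2 - 2 * wp L 0 z := by
  have hnz : -z ∈ Dom L := Dom_neg L hz
  have h1' : wp L 1 (-z) ≠ 0 := by rw [wp_one_neg]; exact neg_ne_zero.mpr h1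
  have w2 : wp L 2 (-z) = wp L 2 z := by rw [wp_two L hnz, wp_two L hz, wp_neg]
  have s1 := hasDerivAt_iff_tendsto_slope.mp (hasDerivAt_wp L 0 hnz)
  have s2 := hasDerivAt_iff_tendsto_slope.mp (hasDerivAt_wp L 1 hnz)
  simp only [zero_add, one_add_one_eq_two] at s1 s2
  have hQ : Tendsto (fun w => Q L z w) (𝓝[≠] (-z)) (𝓝 (wp L 2 z / (2 * wp L 1 z))) := by
    have h3 := (s2.div s1 h1').const_mul (-(1 / 2 : ℂ))
    have e : -(1 / 2 : ℂ) * (wp L 2 (-z) / wp L 1 (-z)) = wp L 2 z / (2 * wp L 1 z) := by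
      rw [w2, wp_one_neg]; field_simp
    rw [e] at h3
    refine h3.congr' ?_
    filter_upwards [eventually_ne_of_wp_one L hnz h1', self_mem_nhdsWithin] with w hw hwz
    have hwz' : w - (-z) ≠ 0 := sub_ne_zero.mpr hwz
    have hw1 : wp L 0 w - wp L 0 (-z) ≠ 0 := sub_ne_zero.mpr hw.symm
    have hw2 : wp L 0 z - wp L 0 w ≠ 0 := by
      rw [← wp_neg L z]; exact sub_ne_zero.mpr hw
    simp only [slope_def_field, Pi.div_apply]
    unfold Q
    rw [wp_one_neg L z]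
    have e2 : wp L 0 w - wp L 0 (-z) = -(wp L 0 z - wp L 0 w) := by rw [wp_neg]; ring
    rw [e2]
    field_simp
    ring
  have hL : Tendsto (fun w => wp L 0 (z - w)) (𝓝[≠] (-z)) (𝓝 (wp L 0 (z + z))) := by
    have hc : ContinuousAt (fun w => wp L 0 (z - w)) (-z) := by
      have h3 : ContinuousAt (wp L 0) (z - (-z)) := by
        rw [sub_neg_eq_add]; exact (analyticAt_wp L 0 h2).continuousAt
      exact ContinuousAt.comp (f := fun w => z - w) h3 (by fun_prop)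
    have := hc.tendsto.mono_left (nhdsWithin_le_nhds (s := {-z}ᶜ))
    rwa [sub_neg_eq_add] at this
  have hR : Tendsto (fun w => Q L z w ^ 2 - wp L 0 z - wp L 0 w) (𝓝[≠] (-z))
      (𝓝 ((wp L 2 z / (2 * wp L 1 z)) ^ 2 - wp L 0 z - wp L 0 (-z))) :=
    ((hQ.pow 2).sub tendsto_const_nhds).sub
      ((analyticAt_wp L 0 hnz).continuousAt.tendsto.mono_left nhdsWithin_le_nhds)
  have heq : (fun w => wp L 0 (z - w)) =ᶠ[𝓝[≠] (-z)] fun w => Q L z w ^ 2 - wp L 0 z - wp L 0 w := by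
    filter_upwards [eventually_ne_of_wp_one L hnz h1',
      mem_nhdsWithin_of_mem_nhds ((isOpen_Dom L).mem_nhds hnz)] with w hw hwD
    have hne : wp L 0 z ≠ wp L 0 w := by rw [← wp_neg L z]; exact hw
    exact wp_sub L hz hwD (sub_mem_Dom L hne) hne
  have := tendsto_nhds_unique (hL.congr' heq) hR
  rw [this, wp_neg]; ring

lemma R0_two (c : ℕ → ℂ) (hc : c 0 = 1) {z w : ℂ} (hz : z ∈ Dom L) (hw : w ∈ Dom L)
    (hne : wp L 0 z ≠ wp L 0 w) : R0 L 2 c z w =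
      (1 / 4 * c 1 * L.g₂ - 1 / 2 * c 1 ^ 2 * L.g₃) + (1 / 2 - 1 / 8 * L.g₂ * c 1 ^ 2) * (wp L 0 z + wp L 0 w)
      - c 1 * (wp L 0 z * wp L 0 w) := by
  have hne' := sub_ne_zero.mpr hne
  have e1 := wp_one_sq L hz
  have e2 := wp_one_sq L hw
  unfold R0 K ph ph1 ph2 Q
  simp only [sum_range_succ, range_zero, sum_empty, hc, bw_zero, bw1, bw2, bw_succ, zero_add, if_true,
    one_ne_zero, if_false, one_add_one_eq_two, wp_two L hz, wp_two L hw]
  push_cast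
  field_simp
  linear_combination (-128 * c 1 - 128 * c 1 ^ 2 * wp L 0 w) * e1 + (128 * c 1 + 128 * c 1 ^ 2 * wp L 0 z) * e2

lemma rho_two (c : ℕ → ℂ) (hc : c 0 = 1) : rho L 2 c 0 0 = 1 / 4 * c 1 * L.g₂ - 1 / 2 * c 1 ^ 2 * L.g₃ ∧
    rho L 2 c 1 0 = 1 / 2 - 1 / 8 * L.g₂ * c 1 ^ 2 := by
  set d00 := rho L 2 c 0 0 - (1 / 4 * c 1 * L.g₂ - 1 / 2 * c 1 ^ 2 * L.g₃) with h00
  set d01 := rho L 2 c 0 1 - (1 / 2 - 1 / 8 * L.g₂ * c 1 ^ 2) with h01
  set d10 := rho L 2 c 1 0 - (1 / 2 - 1 / 8 * L.g₂ * c 1 ^ 2) with h10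
  set d11 := rho L 2 c 1 1 + c 1 with h11
  have key : ∀ z ∈ Dom L, ∀ w ∈ Dom L, wp L 0 z ≠ wp L 0 w →
      d00 + d10 * wp L 0 z + d01 * wp L 0 w + d11 * (wp L 0 z * wp L 0 w) = 0 := by
    intro z hz w hw hne
    have h1 := R0_eq L (le_refl 2) c hz hw hne
    rw [R0_two L c hc hz hw hne] at h1
    unfold RR at h1
    simp only [sum_range_succ, range_zero, sum_empty, bw_zero, bw_succ, zero_add] at h1
    rw [h00, h01, h10, h11]
    linear_combination (-1 : ℂ) * h1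
  obtain ⟨z1, hz1, -⟩ := exists_val L ∅
  obtain ⟨z2, hz2, h2⟩ := exists_val L {wp L 0 z1}
  obtain ⟨z3, hz3, h3⟩ := exists_val L {wp L 0 z1, wp L 0 z2}
  obtain ⟨z4, hz4, h4⟩ := exists_val L {wp L 0 z1, wp L 0 z2, wp L 0 z3}
  simp only [Finset.mem_insert, Finset.mem_singleton, forall_eq_or_imp, forall_eq] at h2 h3 h4
  have k13 := key z1 hz1 z3 hz3 h3.1.symm
  have k23 := key z2 hz2 z3 hz3 h3.2.symm
  have k14 := key z1 hz1 z4 hz4 h4.1.symm
  have k24 := key z2 hz2 z4 hz4 h4.2.1.symm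
  have n12 : wp L 0 z1 - wp L 0 z2 ≠ 0 := sub_ne_zero.mpr (Ne.symm h2)
  have n34 : wp L 0 z3 - wp L 0 z4 ≠ 0 := sub_ne_zero.mpr (Ne.symm h4.2.2)
  have a3 : d10 + d11 * wp L 0 z3 = 0 := by
    have : (wp L 0 z1 - wp L 0 z2) * (d10 + d11 * wp L 0 z3) = 0 := by linear_combination k13 - k23
    exact (mul_eq_zero.mp this).resolve_left n12
  have a4 : d10 + d11 * wp L 0 z4 = 0 := by
    have : (wp L 0 z1 - wp L 0 z2) * (d10 + d11 * wp L 0 z4) = 0 := by linear_combination k14 - k24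
    exact (mul_eq_zero.mp this).resolve_left n12
  have b11 : d11 = 0 := by
    have : (wp L 0 z3 - wp L 0 z4) * d11 = 0 := by linear_combination a3 - a4
    exact (mul_eq_zero.mp this).resolve_left n34
  have b10 : d10 = 0 := by rw [b11] at a3; linear_combination a3
  have b01 : d01 = 0 := by
    have : (wp L 0 z3 - wp L 0 z4) * d01 = 0 := by
      rw [b11] at k13 k14; linear_combination k13 - k14
    exact (mul_eq_zero.mp this).resolve_left n34
  have b00 : d00 = 0 := by rw [b11, b10, b01] at k13; linear_combination k13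
  exact ⟨by linear_combination b00, by linear_combination b10⟩

variable {L}

lemma Reg.wp_ne_one {y : Fin 1 → ℂ} (h : Reg L y) : wp L 0 (y 0) ≠ 0 := by
  have h1 := h.hW
  rw [Matrix.det_fin_one] at h1
  exact h1

lemma Reg.cc_one {y : Fin 1 → ℂ} (h : Reg L y) : cc L y 1 = -(1 / wp L 0 (y 0)) := by
  have h1 := h.z0 0
  rw [ph_split, cc_zero] at h1
  simp only [univ_unique, Fin.default_eq_zero, sum_singleton, Fin.val_zero, zero_add] at h1
  have := h.wp_ne_one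
  field_simp
  linear_combination h1

lemma Gen0.Xf_one {y : Fin 1 → ℂ} (h : Gen0 L y) : Xf L 0 y =
    (-wp L 0 (y 0) ^ 2 + 3 / 4 * L.g₂ + L.g₃ / wp L 0 (y 0)) / wp L 1 (y 0) := by
  obtain ⟨h1, h2⟩ := rho_two L (cc L y) (cc_zero L y)
  have hw := h.toReg.wp_ne_one
  have hw1 := h.hy1 0
  unfold Xf rhof
  rw [ph_split, ph1_split]
  simp only [univ_unique, Fin.default_eq_zero, sum_singleton, Fin.val_zero, zero_add]
  rw [show (1 + 1 : ℕ) = 2 from rfl, h1, h2, h.toReg.cc_one]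
  push_cast
  field_simp
  ring

theorem Gen0.div_X_one {y : Fin 1 → ℂ} (h : Gen0 L y) (h2 : y 0 + y 0 ∈ Dom L) :
    ∑ i, pd i (Xf L i) y = (((1 : ℕ) : ℂ) + 1) * rho L (1 + 1) (cc L y) 0 0 - V0 L y := by
  have hw := h.toReg.wp_ne_one
  have hw1 := h.hy1 0
  have e1 : Xf L 0 =ᶠ[𝓝 y] fun y => (-wp L 0 (y 0) ^ 2 + 3 / 4 * L.g₂ + L.g₃ / wp L 0 (y 0)) / wp L 1 (y 0) := by
    filter_upwards [h.eventually] with y' h'
    exact h'.Xf_one
  have hK : HasDerivAt (fun t => (-wp L 0 t ^ 2 + 3 / 4 * L.g₂ + L.g₃ / wp L 0 t) / wp L 1 t)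
      (((-(2 * wp L 0 (y 0) * wp L 1 (y 0)) - L.g₃ * wp L 1 (y 0) / wp L 0 (y 0) ^ 2) * wp L 1 (y 0)
        - (-wp L 0 (y 0) ^ 2 + 3 / 4 * L.g₂ + L.g₃ / wp L 0 (y 0)) * wp L 2 (y 0)) / wp L 1 (y 0) ^ 2) (y 0) := by
    have d0 := hasDerivAt_wp L 0 (h.hy 0)
    have d1 := hasDerivAt_wp L 1 (h.hy 0)
    have d2 := ((((d0.fun_pow 2).neg).add_const (3 / 4 * L.g₂)).add ((d0.inv hw).const_mul L.g₃)).div d1 hw1
    refine (d2.congr_of_eventuallyEq (Eventually.of_forall fun t => ?_)).congr_deriv ?_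
    · simp only [Pi.div_apply, Pi.add_apply, Pi.neg_apply, Pi.inv_apply]
      rw [div_eq_mul_inv L.g₃]
    · simp only [Pi.add_apply, Pi.neg_apply, Pi.inv_apply]
      field_simp
      ring
  have e2 : pd 0 (Xf L 0) y = ((-(2 * wp L 0 (y 0) * wp L 1 (y 0)) - L.g₃ * wp L 1 (y 0) / wp L 0 (y 0) ^ 2) * wp L 1 (y 0)
        - (-wp L 0 (y 0) ^ 2 + 3 / 4 * L.g₂ + L.g₃ / wp L 0 (y 0)) * wp L 2 (y 0)) / wp L 1 (y 0) ^ 2 := by
    rw [pd_congr e1, pd_comp (l := fun y : Fin 1 → ℂ => y 0) hK (analyticAt_coord 0 y).differentiableAt, pd_coord,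
      if_pos rfl, mul_one]
  have e3 : V0 L y = 2 * wp L 0 (y 0 + y 0) := by
    unfold V0
    simp only [univ_unique, Fin.default_eq_zero, sum_singleton, sub_neg_eq_add]
    simp
  simp only [univ_unique, Fin.default_eq_zero, sum_singleton]
  rw [e2, e3, wp_dup L (h.hy 0) h2 hw1, show (1 + 1 : ℕ) = 2 from rfl, (rho_two L (cc L y) (cc_zero L y)).1,
    h.toReg.cc_one, wp_two L (h.hy 0)]
  have hsq := wp_one_sq L (h.hy 0)
  push_cast
  field_simp
  linear_combination (16 * L.g₂ * wp L 0 (y 0) - 192 * wp L 0 (y 0) ^ 3) * hsq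

end Pool.Agent.Helper487.ECM
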