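import Pool.Agent.Helper487.ECM.Extend

/-! The converse: the potential is not a polynomial in the new variables. -/

open Filter Topology Finset
open scoped Nat PeriodPair

namespace Pool.Agent.Helper487.ECM

variable {L : PeriodPair} {N : ℕ}

lemma tendsto_pow_bw {n k : ℕ} (hk : k < n) :
    Tendsto (fun z => z ^ (n + 1) * bw L k z) (𝓝[≠] (0:ℂ)) (𝓝 0) := by
  have h0 : Tendsto (fun z : ℂ => z) (𝓝[≠] 0) (𝓝 0) := tendsto_id.mono_left nhdsWithin_le_nhds
  cases k with
  | zero =>
    have := (h0.pow (n + 1)).mul_const (1 : ℂ)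
    simp only [ne_eq, Nat.add_eq_zero_iff, one_ne_zero, and_false, not_false_eq_true, zero_pow, zero_mul] at this
    exact this.congr fun z => by rw [bw_zero]
  | succ k =>
    obtain ⟨j, hj⟩ := Nat.exists_eq_add_of_lt hk
    have h1 := (h0.pow (j + 1)).mul (top_wp L k).tendsto
    simp only [ne_eq, Nat.add_eq_zero_iff, one_ne_zero, and_false, not_false_eq_true, zero_pow, zero_mul] at h1
    refine h1.congr fun z => ?_
    rw [bw_succ, hj]; ring

lemma ph_not_zero {n : ℕ} {c : ℕ → ℂ} (hc : c 0 ≠ 0) (hn : 1 ≤ n) :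
    ¬ ∀ᶠ z in 𝓝[≠] (0:ℂ), ph L n c z = 0 := by
  induction n, hn using Nat.le_induction with
  | base =>
    intro h
    obtain ⟨z, hz⟩ := h.exists
    simp only [ph, sum_range_succ, range_zero, sum_empty, bw_zero, zero_add, mul_one] at hz
    exact hc hz
  | succ n hn ih =>
    intro h
    obtain ⟨k, rfl⟩ : ∃ k, n = k + 1 := ⟨n - 1, by omega⟩
    have h1 : Tendsto (fun z => z ^ (k + 2) * ph L (k + 1) c z) (𝓝[≠] (0:ℂ)) (𝓝 0) := by
      have h2 : Tendsto (fun z => ∑ j ∈ range (k + 1), c j * (z ^ (k + 1 + 1) * bw L j z)) (𝓝[≠] (0:ℂ))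
          (𝓝 (∑ j ∈ range (k + 1), c j * 0)) :=
        tendsto_finsetSum _ fun j hj => (tendsto_pow_bw (Finset.mem_range.mp hj)).const_mul (c j)
      simp only [mul_zero, sum_const_zero] at h2
      refine h2.congr fun z => ?_
      unfold ph
      rw [mul_sum]
      exact sum_congr rfl fun j _ => by ring
    have h3 := (top_wp L k).tendsto.const_mul (c (k + 1))
    have h4 := h1.add h3
    rw [zero_add] at h4
    have h5 : Tendsto (fun z : ℂ => z ^ (k + 2) * ph L (k + 1) c z + c (k + 1) * (z ^ (k + 2) * wp L k z))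
        (𝓝[≠] (0:ℂ)) (𝓝 0) := by
      refine tendsto_const_nhds.congr' ?_
      filter_upwards [h] with z hz
      have e : ph L (k + 1 + 1) c z = ph L (k + 1) c z + c (k + 1) * wp L k z := by
        unfold ph; rw [sum_range_succ _ (k + 1), bw_succ]
      rw [e] at hz
      linear_combination (-z ^ (k + 2)) * hz
    have h6 := tendsto_nhds_unique h4 h5
    have hlam : ((-1 : ℂ)) ^ k * ((k + 1)! : ℂ) ≠ 0 :=
      mul_ne_zero (pow_ne_zero _ (by norm_num)) (by exact_mod_cast Nat.factorial_ne_zero _)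
    have h7 : c (k + 1) = 0 := (mul_eq_zero.mp h6).resolve_right hlam
    apply ih
    filter_upwards [h] with z hz
    have e : ph L (k + 1 + 1) c z = ph L (k + 1) c z + c (k + 1) * wp L k z := by
      unfold ph; rw [sum_range_succ _ (k + 1), bw_succ]
    rw [e, h7] at hz
    linear_combination hz

lemma ph_not_zero_near {n : ℕ} {c : ℕ → ℂ} (hc : c 0 ≠ 0) (hn : 1 ≤ n) {z : ℂ} (hz : z ∈ Dom L) :
    ¬ ∀ᶠ w in 𝓝 z, ph L n c w = 0 := by
  intro h
  have hA : AnalyticOnNhd ℂ (ph L n c) (Dom L) := fun w hw =>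
    Finset.analyticAt_fun_sum _ fun k _ => analyticAt_const.mul (analyticAt_bw L k hw)
  have h2 := hA.eqOn_zero_of_preconnected_of_eventuallyEq_zero (isPreconnected_Dom L) hz h
  apply ph_not_zero (L := L) hc hn
  filter_upwards [eventually_Dom L] with w hw
  exact h2 hw

lemma Reg.freq_f1 {y : Fin N → ℂ} (h : Reg L y) (i : Fin N) :
    ∃ᶠ y' in 𝓝 y, ph1 L (N + 1) (cc L y') (y' i) ≠ 0 := by
  intro hcon
  have hcon' : ∀ᶠ y' in 𝓝 y, ph1 L (N + 1) (cc L y') (y' i) = 0 := by
    filter_upwards [hcon] with y' h'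
    exact not_not.mp h'
  have hd : ∀ᶠ y' in 𝓝 y, Reg L y' ∧ ∀ k < N + 1, dcc L i y' k = 0 := by
    filter_upwards [hcon', h.eventually] with y' h1 h2
    refine ⟨h2, ?_⟩
    refine h2.interp0 (e := fun _ => 0) (dcc_zero i y') fun j => ?_
    rw [h2.dcc_eval]
    have : ph L (N + 1) (fun _ => 0) (y' j) = 0 := by unfold ph; simp
    rw [this]
    by_cases hj : j = i
    · subst hj; rw [h1]; ring
    · rw [if_neg hj]; ring
  -- restrict to the line
  have hline : ContinuousAt (fun t : ℂ => Function.update y i t) (y i) := by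
    have : HasDerivAt (fun t => Function.update y i t) (Pi.single i 1) (y i) := _root_.hasDerivAt_update y i (y i)
    exact this.continuousAt
  have hd2 : ∀ᶠ t in 𝓝 (y i), Reg L (Function.update y i t) ∧ ∀ k < N + 1, dcc L i (Function.update y i t) k = 0 := by
    have hline' : Tendsto (fun t : ℂ => Function.update y i t) (𝓝 (y i)) (𝓝 y) := by
      have := hline.tendsto
      simp only [Function.update_eq_self] at this
      exact this
    exact hline'.eventually (p := fun y' => Reg L y' ∧ ∀ k < N + 1, dcc L i y' k = 0) hd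
  obtain ⟨ε, hε, hball⟩ := Metric.eventually_nhds_iff_ball.mp hd2
  have hconst : ∀ k < N + 1, ∀ t ∈ Metric.ball (y i) ε, cc L (Function.update y i t) k = cc L y k := by
    intro k hk t ht
    have hder : ∀ t ∈ Metric.ball (y i) ε, HasDerivAt (fun t => cc L (Function.update y i t) k) 0 t := by
      intro t ht
      obtain ⟨hr, hz⟩ := hball t ht
      have h1 := hasDerivAt_line (f := fun y => cc L y k) (hr.analyticAt_cc k).differentiableAt i
      simp only [Function.update_idem, Function.update_self] at h1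
      have h2 : pd i (fun y => cc L y k) (Function.update y i t) = 0 := hz k hk
      rw [h2] at h1
      exact h1
    have := Metric.isOpen_ball.is_const_of_deriv_eq_zero (s := Metric.ball (y i) ε)
      (convex_ball _ _).isPreconnected
      (fun t ht => (hder t ht).differentiableAt.differentiableWithinAt)
      (fun t ht => (hder t ht).deriv) ht (Metric.mem_ball_self hε)
    rw [Function.update_eq_self] at this
    exact this
  apply ph_not_zero_near (L := L) (n := N + 1) (c := cc L y) (by rw [cc_zero]; exact one_ne_zero) (by omega) (h.hy i)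
  filter_upwards [Metric.ball_mem_nhds (y i) hε] with t ht
  have h1 := (hball t ht).1.z0 i
  rw [Function.update_self] at h1
  rw [← h1]
  exact ph_congr L (fun k hk => (hconst k hk t ht).symm) t

lemma exists_all_f1 (s : Finset (Fin N)) : ∀ U : Set (Fin N → ℂ), IsOpen U → (∃ y ∈ U, Reg L y) →
    ∃ y ∈ U, Reg L y ∧ ∀ i ∈ s, ph1 L (N + 1) (cc L y) (y i) ≠ 0 := by
  classical
  induction s using Finset.induction_on with
  | empty =>
    rintro U _ ⟨y, hy, hr⟩
    exact ⟨y, hy, hr, fun i hi => by simp at hi⟩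
  | insert a s has ih =>
    intro U hU hne
    obtain ⟨y, hyU, hr, hs⟩ := ih U hU hne
    have h1 : ∀ᶠ y' in 𝓝 y, y' ∈ U ∧ Reg L y' ∧ ∀ i ∈ s, ph1 L (N + 1) (cc L y') (y' i) ≠ 0 := by
      have h2 : ∀ᶠ y' in 𝓝 y, ∀ i ∈ s, ph1 L (N + 1) (cc L y') (y' i) ≠ 0 := by
        rw [Filter.eventually_all_finset]
        intro i hi
        exact (analyticAt_ph1 (fun k _ => hr.analyticAt_cc k) (analyticAt_coord i y)
          (hr.hy i)).continuousAt.eventually_ne (hs i hi)
      filter_upwards [hU.mem_nhds hyU, hr.eventually, h2] with y' a b c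
      exact ⟨a, b, c⟩
    obtain ⟨y', hy', h3, h4, h5⟩ := ((hr.freq_f1 a).and_eventually h1).exists
    refine ⟨y', h3, h4, fun i hi => ?_⟩
    rcases Finset.mem_insert.mp hi with rfl | hi
    · exact hy'
    · exact h5 i hi

/-- a local branch of the power exists -/
lemma exists_pow {y : Fin N → ℂ} (h : Reg L y) (hD : Dj L y ≠ 0) (γ : ℂ) : ∃ E, IsPow L γ E y := by
  have hA := h.analyticAt_Dj
  set l : (Fin N → ℂ) → ℂ := fun y' => Complex.log (Dj L y' / Dj L y) + Complex.log (Dj L y) with hl
  have hq : AnalyticAt ℂ (fun y' => Dj L y' / Dj L y) y := hA.div analyticAt_const hD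
  have hs : Dj L y / Dj L y ∈ Complex.slitPlane := by
    rw [div_self hD]; exact Complex.one_mem_slitPlane
  refine ⟨fun y' => Complex.exp (γ * l y'), l, ?_, ?_⟩
  · exact (hq.clog hs).add analyticAt_const
  · filter_upwards [hA.continuousAt.eventually_ne hD] with y' h'
    refine ⟨?_, rfl⟩
    rw [hl]
    simp only []
    rw [Complex.exp_add, Complex.exp_log (div_ne_zero h' hD), Complex.exp_log hD]
    field_simp

end Pool.Agent.Helper487.ECM
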