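import Pool.Agent.Helper487.ECM.One

/-! The gauge-transformed operator in the new variables. -/

open Filter Topology Finset
open scoped Nat PeriodPair

namespace Pool.Agent.Helper487.ECM

variable {L : PeriodPair} {N : ℕ}

/-- all the `N + 1` coordinates -/
noncomputable def ext (y : Fin N → ℂ) : Fin (N + 1) → ℂ := Fin.snoc y (-∑ i, y i)

/-- the sum over the pairs of distinct particles -/
noncomputable def VV (L : PeriodPair) (y : Fin N → ℂ) : ℂ :=
  ∑ i : Fin (N + 1), ∑ j ∈ univ.erase i, ℘[L] (ext y i - ext y j)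

/-- the Hamiltonian -/
noncomputable def HH (L : PeriodPair) (β : ℂ) (f : (Fin N → ℂ) → ℂ) (y : Fin N → ℂ) : ℂ :=
  -((N : ℂ) / (N + 1)) * ∑ i, pd i (pd i f) y
    + (1 / ((N : ℂ) + 1)) * ∑ i, ∑ j ∈ univ.erase i, pd i (pd j f) y
    + β * (β - 1) * VV L y * f y

/-- branches of the power of the Jacobian -/
def IsPow (L : PeriodPair) (γ : ℂ) (E : (Fin N → ℂ) → ℂ) (y : Fin N → ℂ) : Prop :=
  ∃ l : (Fin N → ℂ) → ℂ, AnalyticAt ℂ l y ∧ ∀ᶠ y' in 𝓝 y, Complex.exp (l y') = Dj L y' ∧
    E y' = Complex.exp (γ * l y')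

/-- the domain -/
def UU (L : PeriodPair) (N : ℕ) : Set (Fin N → ℂ) :=
  {y | (∀ i, y i ∉ L.lattice) ∧ (Wm L y).det ≠ 0 ∧ Dj L y ≠ 0 ∧
    ∀ i j : Fin (N + 1), i ≠ j → ext y i - ext y j ∉ L.lattice}

lemma ext_castSucc (y : Fin N → ℂ) (i : Fin N) : ext y i.castSucc = y i := by
  unfold ext; simp

lemma ext_last (y : Fin N → ℂ) : ext y (Fin.last N) = -∑ i, y i := by
  unfold ext; simp

lemma VV_eq (y : Fin N → ℂ) : VV L y = V0 L y := by
  have e : ∀ i : Fin (N + 1), ∑ j ∈ univ.erase i, ℘[L] (ext y i - ext y j) =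
      ∑ j : Fin (N + 1), if i = j then 0 else wp L 0 (ext y i - ext y j) := by
    intro i
    rw [← add_sum_erase univ _ (mem_univ i), if_pos rfl, zero_add]
    refine sum_congr rfl fun j hj => ?_
    rw [if_neg (ne_of_mem_erase hj).symm, wp_zero_eq]
  unfold VV V0
  simp only [e]
  rw [Fin.sum_univ_castSucc]
  simp only [Fin.sum_univ_castSucc, ext_castSucc, ext_last, if_true, add_zero]
  have e2 : ∀ i : Fin N, (∑ j : Fin N, if i.castSucc = j.castSucc then 0 else wp L 0 (y i - y j)) =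
      ∑ j ∈ univ.erase i, wp L 0 (y i - y j) := by
    intro i
    rw [← add_sum_erase univ _ (mem_univ i), if_pos rfl, zero_add]
    refine sum_congr rfl fun j hj => ?_
    rw [if_neg]
    intro h
    exact (ne_of_mem_erase hj).symm (Fin.castSucc_injective N h)
  have e3 : ∀ i : Fin N, (if i.castSucc = Fin.last N then 0 else wp L 0 (y i - -∑ i, y i)) =
      wp L 0 (y i - -∑ i, y i) := fun i => if_neg (Fin.castSucc_ne_last i)
  have e4 : ∀ i : Fin N, (if Fin.last N = i.castSucc then 0 else wp L 0 (-∑ i, y i - y i)) =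
      wp L 0 (y i - -∑ i, y i) := by
    intro i
    rw [if_neg (Fin.castSucc_ne_last i).symm, ← wp_neg]
    congr 1; ring
  simp only [e2, e3, e4]
  rw [← sum_add_distrib]
  exact sum_congr rfl fun i _ => by ring

lemma pd_comp_vec {M : ℕ} {i : Fin N} {F : (Fin M → ℂ) → ℂ} {g : (Fin N → ℂ) → Fin M → ℂ} {y : Fin N → ℂ}
    (hF : DifferentiableAt ℂ F (g y)) (hg : ∀ a, DifferentiableAt ℂ (fun y => g y a) y) :
    pd i (fun y => F (g y)) y = ∑ a, pd a F (g y) * pd i (fun y => g y a) y := by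
  have hg' : DifferentiableAt ℂ g y := differentiableAt_pi.mpr hg
  have h1 : fderiv ℂ (fun y => F (g y)) y = (fderiv ℂ F (g y)).comp (fderiv ℂ g y) :=
    fderiv_comp y hF hg'
  unfold pd
  rw [h1, ContinuousLinearMap.comp_apply]
  have h2 : ∀ a, fderiv ℂ (fun y => g y a) y (Pi.single i 1) = fderiv ℂ g y (Pi.single i 1) a := by
    intro a
    rw [fderiv_apply hg' a]
    rfl
  simp only [h2]
  have h3 : fderiv ℂ g y (Pi.single i 1) =
      ∑ a, (fderiv ℂ g y (Pi.single i 1) a) • (Pi.single a (1 : ℂ) : Fin M → ℂ) := by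
    funext b
    simp [Finset.sum_apply, Pi.single_apply]
  conv_lhs => rw [h3]
  rw [map_sum]
  refine sum_congr rfl fun a _ => ?_
  rw [map_smul, smul_eq_mul, mul_comm]

lemma Reg.analyticAt_uuv {y : Fin N → ℂ} (h : Reg L y) : AnalyticAt ℂ (uu L) y := by
  rw [analyticAt_pi_iff]
  exact fun a => h.analyticAt_uu a

/-- the second order part in the coordinates -/
lemma HH_eq_Lap (β : ℂ) {f : (Fin N → ℂ) → ℂ} {y : Fin N → ℂ} (hf : AnalyticAt ℂ f y) :
    HH L β f y = -Lap f y + β * (β - 1) * VV L y * f y := by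
  have hn : ((N : ℂ) + 1) ≠ 0 := by exact_mod_cast (by omega : N + 1 ≠ 0)
  have e1 : Lap f y = ∑ i, ∑ j, gg N i j * pd i (pd j f) y := by
    unfold Lap
    refine sum_congr rfl fun i _ => ?_
    have d : ∀ j : Fin N, DifferentiableAt ℂ (pd j f) y := fun j => (analyticAt_pd hf).differentiableAt
    have e : Dg i f = fun y => ∑ j, gg N i j * pd j f y := rfl
    rw [e, pd_sum _ fun j _ => (d j).const_mul _]
    exact sum_congr rfl fun j _ => pd_const_mul _ (d j)
  have e2 : ∀ i, ∑ j, gg N i j * pd i (pd j f) y = (N / ((N : ℂ) + 1)) * pd i (pd i f) y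
      - (1 / ((N : ℂ) + 1)) * ∑ j ∈ univ.erase i, pd i (pd j f) y := by
    intro i
    rw [← add_sum_erase univ _ (mem_univ i), gg, if_pos rfl, mul_sum]
    have e3 : ∀ j ∈ univ.erase i, gg N i j * pd i (pd j f) y = -((1 / ((N : ℂ) + 1)) * pd i (pd j f) y) := by
      intro j hj
      rw [gg, if_neg (ne_of_mem_erase hj).symm]; ring
    rw [sum_congr rfl e3, sum_neg_distrib]
    field_simp
    ring
  unfold HH
  rw [e1]
  simp only [e2, sum_sub_distrib, ← mul_sum]
  ring

/-- the logarithmic derivative of a branch of the power -/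
lemma IsPow.spec {γ : ℂ} {E : (Fin N → ℂ) → ℂ} {y : Fin N → ℂ} (hE : IsPow L γ E y) (h : Reg L y)
    (hD : Dj L y ≠ 0) : AnalyticAt ℂ E y ∧ E y ≠ 0 ∧ ∀ i, pd i E y = γ * LLf L i y * E y := by
  obtain ⟨l, hl, hev⟩ := hE
  have e1 : E =ᶠ[𝓝 y] fun y' => Complex.exp (γ * l y') := hev.mono fun y' h' => h'.2
  have e2 : (fun y' => Complex.exp (l y')) =ᶠ[𝓝 y] fun y' => Dj L y' := hev.mono fun y' h' => h'.1
  have hA : AnalyticAt ℂ (fun y' => Complex.exp (γ * l y')) y :=
    (analyticAt_const.mul hl).cexp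
  refine ⟨hA.congr e1.symm, ?_, fun i => ?_⟩
  · rw [e1.self_of_nhds]; exact Complex.exp_ne_zero _
  · have d1 : pd i (fun y' => Complex.exp (l y')) y = Complex.exp (l y) * pd i l y :=
      pd_comp (Complex.hasDerivAt_exp (l y)) hl.differentiableAt
    have d2 : pd i (fun y' => Complex.exp (γ * l y')) y = Complex.exp (γ * l y) * (γ * pd i l y) := by
      have hd : DifferentiableAt ℂ (fun y' => γ * l y') y := hl.differentiableAt.const_mul _
      rw [pd_comp (l := fun y' => γ * l y') (Complex.hasDerivAt_exp _) hd, pd_const_mul _ hl.differentiableAt]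
    have d3 := pd_congr (i := i) e2
    have d4 := e2.self_of_nhds
    rw [d1, h.pd_Dj (h.f1_of_D hD) i] at d3
    simp only [] at d4
    have hDe : Dj L y * (pd i l y - LLf L i y) = 0 := by
      rw [d4] at d3; linear_combination d3
    have h5 : pd i l y = LLf L i y := sub_eq_zero.mp ((mul_eq_zero.mp hDe).resolve_left hD)
    rw [pd_congr e1, d2, h5, e1.self_of_nhds]; ring

lemma IsPow.eventually {γ : ℂ} {E : (Fin N → ℂ) → ℂ} {y : Fin N → ℂ} (hE : IsPow L γ E y) :
    ∀ᶠ y' in 𝓝 y, IsPow L γ E y' := by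
  obtain ⟨l, hl, hev⟩ := hE
  filter_upwards [hl.eventually_analyticAt, hev.eventually_nhds] with y' h1 h2
  exact ⟨l, h1, h2⟩

/-- the value of the transformed operator, in terms of the coefficients `c` -/
noncomputable def opc (L : PeriodPair) (N : ℕ) (γ : ℂ) (c : ℕ → ℂ) (F2 : Fin N → Fin N → ℂ) (F1 : Fin N → ℂ)
    (F0 : ℂ) : ℂ :=
  ∑ a : Fin N, ∑ b : Fin N, -Gf L (N + 1) c (a + 1) (b + 1) * F2 a b
    + ∑ a : Fin N, -((2 + 2 * γ * ((N : ℂ) + 1)) * Tf L (N + 1) c (a + 1)) * F1 a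
    + (γ * (γ - 1) * (((N : ℂ) + 1) * rho L (N + 1) c 0 0) - γ ^ 2 * (((N : ℂ) + 1) * Zf L (N + 1) c)) * F0

/-- the transformed operator at a generic point -/
theorem Gen0.oper {y : Fin N → ℂ} (h : Gen0 L y) (hN : 1 ≤ N)
    (hS : ∑ i, pd i (Xf L i) y = ((N : ℂ) + 1) * rho L (N + 1) (cc L y) 0 0 - V0 L y)
    (β γ : ℂ) {E : (Fin N → ℂ) → ℂ} (hE : IsPow L γ E y) {F : (Fin N → ℂ) → ℂ}
    (hF : AnalyticAt ℂ F (uu L y)) :
    (E y)⁻¹ * HH L β (fun y' => E y' * F (uu L y')) y =
      opc L N γ (cc L y) (fun a b => pd a (pd b F) (uu L y)) (fun a => pd a F (uu L y)) (F (uu L y))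
      + (β * (β - 1) - γ * (γ - 1)) * VV L y * F (uu L y) := by
  have hr := h.toReg
  have hD := hr.D_of_f1 h.f1
  obtain ⟨hEa, hE0, hEd⟩ := hE.spec hr hD
  have hu := hr.analyticAt_uuv
  -- the functions in the new variables
  set Φ : (Fin N → ℂ) → ℂ := fun y => F (uu L y) with hΦ
  set P : Fin N → (Fin N → ℂ) → ℂ := fun a y => pd a F (uu L y) with hP
  have hΦa : AnalyticAt ℂ Φ y := AnalyticAt.fun_comp hF hu
  have hPa : ∀ a, AnalyticAt ℂ (P a) y := fun a => AnalyticAt.fun_comp (analyticAt_pd hF) hu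
  have hFev : ∀ᶠ y' in 𝓝 y, AnalyticAt ℂ F (uu L y') :=
    hu.continuousAt.eventually hF.eventually_analyticAt
  have hpΦ : ∀ i, ∀ᶠ y' in 𝓝 y, pd i Φ y' = ∑ a, P a y' * pd i (fun y => uu L y a) y' := by
    intro i
    filter_upwards [hFev, hr.eventually] with y' h1 h2
    exact pd_comp_vec h1.differentiableAt fun a => (h2.analyticAt_uu a).differentiableAt
  have hpP : ∀ i a, pd i (P a) y = ∑ b, pd b (pd a F) (uu L y) * pd i (fun y => uu L y b) y := by
    intro i a
    exact pd_comp_vec (analyticAt_pd hF).differentiableAt fun a => (hr.analyticAt_uu a).differentiableAt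
  -- gradient of the components
  set gu : Fin N → Fin N → (Fin N → ℂ) → ℂ := fun i a y => Dg i (fun y => uu L y a) y with hgu
  have hgu_eq : ∀ i a y', Reg L y' → gu i a y' = -gcc L i y' (a + 1) := by
    intro i a y' h'
    rw [hgu, gcc_eq]
    simp only [Dg]
    rw [← sum_neg_distrib]
    exact sum_congr rfl fun j _ => by rw [h'.pd_uu]; ring
  have hgua : ∀ i a, AnalyticAt ℂ (gu i a) y := by
    intro i a
    have : AnalyticAt ℂ (fun y => ∑ j, gg N i j * pd j (fun y => uu L y a) y) y :=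
      Finset.analyticAt_fun_sum _ fun j _ => analyticAt_const.mul (analyticAt_pd (hr.analyticAt_uu a))
    exact this
  -- metric gradient of the product near y
  have hDg : ∀ i, Dg i (fun y' => E y' * Φ y') =ᶠ[𝓝 y]
      fun y' => E y' * (γ * (Xf L i y' * Φ y') + ∑ a, P a y' * gu i a y') := by
    intro i
    filter_upwards [h.eventually, hE.eventually, hFev, eventually_all.mpr hpΦ] with y' h' hE' hF' hp'
    obtain ⟨hEa', hE0', hEd'⟩ := hE'.spec h'.toReg (h'.toReg.D_of_f1 h'.f1)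
    have hΦd : DifferentiableAt ℂ Φ y' := (AnalyticAt.fun_comp hF' h'.toReg.analyticAt_uuv).differentiableAt
    have e1 : ∀ j, gg N i j * pd j (fun y' => E y' * Φ y') y' =
        E y' * (γ * ((gg N i j * LLf L j y') * Φ y') + ∑ a, P a y' * (gg N i j * pd j (fun y => uu L y a) y')) := by
      intro j
      rw [pd_mul hEa'.differentiableAt hΦd, hEd' j, hp' j]
      have e2 : ∑ a, P a y' * (gg N i j * pd j (fun y => uu L y a) y') =
          gg N i j * ∑ a, P a y' * pd j (fun y => uu L y a) y' := by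
        rw [mul_sum]; exact sum_congr rfl fun a _ => by ring
      rw [e2]; ring
    unfold Dg
    simp only [e1, ← mul_sum, sum_add_distrib, ← sum_mul]
    rw [h'.grad_log hN i, sum_comm]
    congr 2
    refine sum_congr rfl fun a _ => ?_
    rw [← mul_sum]; rfl
  -- second derivative
  have hXa : ∀ i, AnalyticAt ℂ (Xf L i) y := fun i => h.analyticAt_Xf i
  have hsecond : ∀ i, pd i (Dg i (fun y' => E y' * Φ y')) y =
      E y * (γ * LLf L i y * (γ * (Xf L i y * Φ y) + ∑ a, P a y * gu i a y)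
        + (γ * (pd i (Xf L i) y * Φ y + Xf L i y * pd i Φ y) +
          ∑ a, (pd i (P a) y * gu i a y + P a y * pd i (gu i a) y))) := by
    intro i
    have d1 : DifferentiableAt ℂ (fun y => Xf L i y * Φ y) y := (hXa i).differentiableAt.mul hΦa.differentiableAt
    have d2 : ∀ a, DifferentiableAt ℂ (fun y => P a y * gu i a y) y := fun a =>
      (hPa a).differentiableAt.mul (hgua i a).differentiableAt
    have d3 : DifferentiableAt ℂ (fun y => ∑ a, P a y * gu i a y) y := DifferentiableAt.fun_sum fun a _ => d2 a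
    have d4 : DifferentiableAt ℂ (fun y => γ * (Xf L i y * Φ y)) y := d1.const_mul γ
    have d5 : DifferentiableAt ℂ (fun y => γ * (Xf L i y * Φ y) + ∑ a, P a y * gu i a y) y := d4.add d3
    rw [pd_congr (hDg i), pd_mul hEa.differentiableAt d5, pd_add d4 d3, pd_const_mul _ d1,
      pd_mul (hXa i).differentiableAt hΦa.differentiableAt, pd_sum _ fun a _ => d2 a, hEd i]
    have e2 : ∀ a, pd i (fun y => P a y * gu i a y) y = pd i (P a) y * gu i a y + P a y * pd i (gu i a) y :=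
      fun a => pd_mul (hPa a).differentiableAt (hgua i a).differentiableAt
    simp only [e2]
    ring
  -- contractions
  have k1 : ∀ a : Fin N, ∑ i, LLf L i y * gu i a y = ((N : ℂ) + 1) * Tf L (N + 1) (cc L y) (a + 1) := by
    intro a
    have e1 : ∑ i, LLf L i y * gu i a y = ∑ j, Xf L j y * pd j (fun y => uu L y a) y := by
      rw [hgu]
      simp only [Dg, mul_sum]
      rw [sum_comm]
      refine sum_congr rfl fun j _ => ?_
      rw [← h.grad_log hN j, sum_mul]
      exact sum_congr rfl fun i _ => by rw [gg_symm i j]; ring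
    rw [e1]
    have e2 := h.M_val (m := a + 1) (by omega)
    simp only [hr.pd_uu]
    simp only [mul_neg, sum_neg_distrib, e2, neg_neg]
  have k2 : ∑ i, Xf L i y * pd i Φ y = ∑ a, P a y * (((N : ℂ) + 1) * Tf L (N + 1) (cc L y) (a + 1)) := by
    have e1 : ∀ i, pd i Φ y = ∑ a, P a y * pd i (fun y => uu L y a) y := fun i => (hpΦ i).self_of_nhds
    simp only [e1, mul_sum]
    rw [sum_comm]
    refine sum_congr rfl fun a _ => ?_
    have e2 := h.M_val (m := a + 1) (by omega)
    have e3 : ∑ i, Xf L i y * (P a y * pd i (fun y => uu L y a) y) = P a y * ∑ i, -(Xf L i y * dcc L i y (a + 1)) := by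
      rw [mul_sum]
      exact sum_congr rfl fun i _ => by rw [hr.pd_uu]; ring
    rw [e3, sum_neg_distrib, e2]; ring
  have k3 : ∀ a : Fin N, ∑ i, pd i (P a) y * gu i a y =
      ∑ b : Fin N, Gf L (N + 1) (cc L y) (a + 1) (b + 1) * pd b (pd a F) (uu L y) := by
    intro a
    simp only [hpP, sum_mul]
    rw [sum_comm]
    refine sum_congr rfl fun b _ => ?_
    rw [← h.gram hN (k := a + 1) (l := b + 1) (by omega) (by omega), sum_mul]
    refine sum_congr rfl fun i _ => ?_
    rw [hr.pd_uu, hgu_eq i a y hr]; ring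
  have k4 : ∀ a : Fin N, ∑ i, pd i (gu i a) y = 2 * Tf L (N + 1) (cc L y) (a + 1) := by
    intro a
    have e1 : ∀ i, pd i (gu i a) y = -pd i (fun y => gcc L i y (a + 1)) y := by
      intro i
      rw [← pd_neg]
      apply pd_congr
      filter_upwards [hr.eventually] with y' h'
      exact hgu_eq i a y' h'
    have e2 := h.lap hN (k := a + 1) (by omega)
    simp only [e1, sum_neg_distrib]
    have e3 : ∑ i, pd i (fun y => gcc L i y (a + 1)) y = Lap (fun y => cc L y (a + 1)) y := rfl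
    rw [e3, e2]; ring
  have k5 := h.div_M
  rw [sum_add_distrib] at k5
  have hY : ∑ i, Xf L i y * LLf L i y = ((N : ℂ) + 1) * Zf L (N + 1) (cc L y)
      - (((N : ℂ) + 1) * rho L (N + 1) (cc L y) 0 0 - V0 L y) := by
    rw [← hS, ← k5]; ring
  -- the Laplacian of the product
  obtain ⟨q, hq⟩ : ∃ q : ℂ, q = 2 + 2 * γ * ((N : ℂ) + 1) := ⟨_, rfl⟩
  have hLap : Lap (fun y' => E y' * Φ y') y = E y * (γ ^ 2 * (∑ i, Xf L i y * LLf L i y) * Φ y
      + γ * (∑ i, pd i (Xf L i) y) * Φ y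
      + ∑ a : Fin N, q * Tf L (N + 1) (cc L y) (a + 1) * P a y
      + ∑ a : Fin N, ∑ b : Fin N, Gf L (N + 1) (cc L y) (a + 1) (b + 1) * pd b (pd a F) (uu L y)) := by
    unfold Lap
    simp only [hsecond, ← mul_sum]
    congr 1
    simp only [sum_add_distrib, mul_add, ← mul_sum]
    have s1 : ∑ i, γ * LLf L i y * (γ * (Xf L i y * Φ y)) = γ ^ 2 * (∑ i, Xf L i y * LLf L i y) * Φ y := by
      rw [mul_assoc, sum_mul, mul_sum]
      exact sum_congr rfl fun i _ => by ring
    have s2 : ∑ i, γ * LLf L i y * ∑ a, P a y * gu i a y =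
        γ * ∑ a, P a y * (((N : ℂ) + 1) * Tf L (N + 1) (cc L y) (a + 1)) := by
      simp only [mul_sum]
      rw [sum_comm]
      refine sum_congr rfl fun a _ => ?_
      rw [← k1 a, mul_sum, mul_sum]
      exact sum_congr rfl fun i _ => by ring
    have s3 : ∑ i, pd i (Xf L i) y * Φ y = (∑ i, pd i (Xf L i) y) * Φ y := by rw [sum_mul]
    have s4 : ∑ i, ∑ a, pd i (P a) y * gu i a y =
        ∑ a : Fin N, ∑ b : Fin N, Gf L (N + 1) (cc L y) (a + 1) (b + 1) * pd b (pd a F) (uu L y) := by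
      rw [sum_comm]; exact sum_congr rfl fun a _ => k3 a
    have s5 : ∑ i, ∑ a, P a y * pd i (gu i a) y = ∑ a, P a y * (2 * Tf L (N + 1) (cc L y) (a + 1)) := by
      rw [sum_comm]
      refine sum_congr rfl fun a _ => ?_
      rw [← mul_sum, k4 a]
    rw [s1, s2, s3, s4, s5, k2]
    have s6 : ∑ a : Fin N, q * Tf L (N + 1) (cc L y) (a + 1) * P a y =
        γ * ∑ a, P a y * (((N : ℂ) + 1) * Tf L (N + 1) (cc L y) (a + 1)) +
        γ * ∑ a, P a y * (((N : ℂ) + 1) * Tf L (N + 1) (cc L y) (a + 1)) +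
        ∑ a, P a y * (2 * Tf L (N + 1) (cc L y) (a + 1)) := by
      rw [mul_sum, ← sum_add_distrib, ← sum_add_distrib]
      exact sum_congr rfl fun a _ => by rw [hq]; ring
    rw [s6]; ring
  have hΨa : AnalyticAt ℂ (fun y' => E y' * F (uu L y')) y := hEa.mul hΦa
  rw [HH_eq_Lap β hΨa]
  have hLap' : Lap (fun y' => E y' * F (uu L y')) y = _ := hLap
  rw [hLap', hS, hY, VV_eq]
  unfold opc
  have t1 : ∑ a : Fin N, ∑ b : Fin N, -Gf L (N + 1) (cc L y) (a + 1) (b + 1) * pd a (pd b F) (uu L y) =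
      -∑ a : Fin N, ∑ b : Fin N, Gf L (N + 1) (cc L y) (a + 1) (b + 1) * pd b (pd a F) (uu L y) := by
    rw [← sum_neg_distrib]
    refine sum_congr rfl fun a _ => ?_
    rw [← sum_neg_distrib]
    exact sum_congr rfl fun b _ => by rw [pd_symm hF]; ring
  have t2 : ∑ a : Fin N, -((2 + 2 * γ * ((N : ℂ) + 1)) * Tf L (N + 1) (cc L y) (a + 1)) * pd a F (uu L y) =
      -∑ a : Fin N, q * Tf L (N + 1) (cc L y) (a + 1) * P a y := by
    rw [← sum_neg_distrib]
    exact sum_congr rfl fun a _ => by rw [hP, hq]; ring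
  rw [t1, t2]
  have hΦy : Φ y = F (uu L y) := rfl
  rw [hΦy]
  field_simp
  ring

end Pool.Agent.Helper487.ECM
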