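import Pool.Agent.Helper487.ECM.Fil

/-! The bilinear kernel attached to a function with a pole at the origin. -/

open Filter Topology Asymptotics Finset
open scoped Nat PeriodPair

namespace Pool.Agent.Helper487.ECM

variable (L : PeriodPair)

/-- first derivative of the basis functions -/
noncomputable def bw1 (k : ℕ) (z : ℂ) : ℂ := if k = 0 then 0 else wp L k z

/-- second derivative of the basis functions -/
noncomputable def bw2 (k : ℕ) (z : ℂ) : ℂ := if k = 0 then 0 else wp L (k + 1) z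

lemma hasDerivAt_bw (k : ℕ) {z : ℂ} (hz : z ∈ Dom L) : HasDerivAt (bw L k) (bw1 L k z) z := by
  cases k with
  | zero =>
    have : bw L 0 = fun _ => 1 := funext (bw_zero L)
    rw [this]; simpa [bw1] using hasDerivAt_const z (1:ℂ)
  | succ k =>
    have : bw L (k + 1) = wp L k := funext (bw_succ L k)
    rw [this]; simpa [bw1] using hasDerivAt_wp L k hz

lemma hasDerivAt_bw1 (k : ℕ) {z : ℂ} (hz : z ∈ Dom L) : HasDerivAt (bw1 L k) (bw2 L k z) z := by
  cases k with
  | zero =>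
    have : bw1 L 0 = fun _ => 0 := funext fun z => by simp [bw1]
    rw [this]; simpa [bw2] using hasDerivAt_const z (0:ℂ)
  | succ k =>
    have : bw1 L (k + 1) = wp L (k + 1) := funext fun z => by simp [bw1]
    rw [this]; simpa [bw2] using hasDerivAt_wp L (k + 1) hz

/-- functions of two variables which are finite sums of products of monomials -/
def InP (F : ℂ → ℂ → ℂ) : Prop :=
  ∃ M : ℕ, ∃ C : ℕ → ℕ → ℂ, ∀ z ∈ Dom L, ∀ w ∈ Dom L, wp L 0 z ≠ wp L 0 w →
    F z w = ∑ i ∈ range M, ∑ j ∈ range M, C i j * (mu L i z * mu L j w)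

variable {L}

lemma InP.congr {F G : ℂ → ℂ → ℂ} (hF : InP L F)
    (h : ∀ z ∈ Dom L, ∀ w ∈ Dom L, wp L 0 z ≠ wp L 0 w → G z w = F z w) : InP L G := by
  obtain ⟨M, C, hC⟩ := hF
  exact ⟨M, C, fun z hz w hw hne => (h z hz w hw hne).trans (hC z hz w hw hne)⟩

lemma InP.enlarge {F : ℂ → ℂ → ℂ} {M K : ℕ} (hMK : M ≤ K) {C : ℕ → ℕ → ℂ}
    (hC : ∀ z ∈ Dom L, ∀ w ∈ Dom L, wp L 0 z ≠ wp L 0 w →
      F z w = ∑ i ∈ range M, ∑ j ∈ range M, C i j * (mu L i z * mu L j w)) :
    ∀ z ∈ Dom L, ∀ w ∈ Dom L, wp L 0 z ≠ wp L 0 w →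
      F z w = ∑ i ∈ range K, ∑ j ∈ range K,
        (if i < M ∧ j < M then C i j else 0) * (mu L i z * mu L j w) := by
  intro z hz w hw hne
  rw [hC z hz w hw hne]
  have hsub : range M ⊆ range K := range_mono hMK
  rw [← sum_subset hsub]
  · refine sum_congr rfl fun i hi => ?_
    rw [← sum_subset hsub]
    · refine sum_congr rfl fun j hj => ?_
      rw [Finset.mem_range] at hi hj
      rw [if_pos ⟨hi, hj⟩]
    · intro j _ hj
      rw [Finset.mem_range] at hj
      rw [if_neg (by tauto), zero_mul]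
  · intro i _ hi
    rw [Finset.mem_range] at hi
    refine sum_eq_zero fun j _ => ?_
    rw [if_neg (by tauto), zero_mul]

lemma InP.add {F G : ℂ → ℂ → ℂ} (hF : InP L F) (hG : InP L G) :
    InP L (fun z w => F z w + G z w) := by
  obtain ⟨M, C, hC⟩ := hF
  obtain ⟨K, D, hD⟩ := hG
  have hC' := InP.enlarge (le_max_left M K) hC
  have hD' := InP.enlarge (le_max_right M K) hD
  refine ⟨max M K, fun i j => (if i < M ∧ j < M then C i j else 0) +
    (if i < K ∧ j < K then D i j else 0), fun z hz w hw hne => ?_⟩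
  show F z w + G z w = _
  rw [hC' z hz w hw hne, hD' z hz w hw hne, ← sum_add_distrib]
  refine sum_congr rfl fun i _ => ?_
  rw [← sum_add_distrib]
  exact sum_congr rfl fun j _ => by ring

lemma InP.const_mul {F : ℂ → ℂ → ℂ} (k : ℂ) (hF : InP L F) :
    InP L (fun z w => k * F z w) := by
  obtain ⟨M, C, hC⟩ := hF
  refine ⟨M, fun i j => k * C i j, fun z hz w hw hne => ?_⟩
  show k * F z w = _
  rw [hC z hz w hw hne, mul_sum]
  refine sum_congr rfl fun i _ => ?_
  rw [mul_sum]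
  exact sum_congr rfl fun j _ => by ring

variable (L) in
lemma InP.zero : InP L (fun _ _ => 0) := ⟨0, fun _ _ => 0, fun z _ w _ _ => by simp⟩

lemma InP.sum {ι : Type*} (s : Finset ι) {F : ι → ℂ → ℂ → ℂ}
    (hF : ∀ i ∈ s, InP L (F i)) : InP L (fun z w => ∑ i ∈ s, F i z w) := by
  classical
  induction s using Finset.induction_on with
  | empty => simpa using InP.zero L
  | insert i s his ih =>
    simp only [sum_insert his]
    exact (hF i (mem_insert_self i s)).add (ih fun j hj => hF j (mem_insert_of_mem hj))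

lemma InP.of_mul {a b : ℕ} {f g : ℂ → ℂ} (hf : InFil L a f) (hg : InFil L b g) :
    InP L (fun z w => f z * g w) := by
  obtain ⟨c, hc⟩ := hf
  obtain ⟨d, hd⟩ := hg
  have hc' : ∀ z ∈ Dom L, f z = ∑ j ∈ range (a + b + 1), (if j ≤ a then c j else 0) * mu L j z := by
    intro z hz
    rw [hc z hz]
    rw [← sum_subset (range_mono (show a + 1 ≤ a + b + 1 by omega))]
    · refine sum_congr rfl fun j hj => ?_
      rw [Finset.mem_range] at hj
      rw [if_pos (by omega)]
    · intro j _ hj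
      rw [Finset.mem_range] at hj
      rw [if_neg (by omega), zero_mul]
  have hd' : ∀ z ∈ Dom L, g z = ∑ j ∈ range (a + b + 1), (if j ≤ b then d j else 0) * mu L j z := by
    intro z hz
    rw [hd z hz]
    rw [← sum_subset (range_mono (show b + 1 ≤ a + b + 1 by omega))]
    · refine sum_congr rfl fun j hj => ?_
      rw [Finset.mem_range] at hj
      rw [if_pos (by omega)]
    · intro j _ hj
      rw [Finset.mem_range] at hj
      rw [if_neg (by omega), zero_mul]
  refine ⟨a + b + 1, fun i j => (if i ≤ a then c i else 0) * (if j ≤ b then d j else 0),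
    fun z hz w hw _ => ?_⟩
  show f z * g w = _
  rw [hc' z hz, hd' w hw, sum_mul_sum]
  exact sum_congr rfl fun i _ => sum_congr rfl fun j _ => by ring

lemma InP.mul_left {F : ℂ → ℂ → ℂ} (hF : InP L F) {a : ℕ} {f : ℂ → ℂ} (hf : InFil L a f) :
    InP L (fun z w => f z * F z w) := by
  obtain ⟨M, C, hC⟩ := hF
  have h : InP L (fun z w => ∑ i ∈ range M, ∑ j ∈ range M, C i j * ((f z * mu L i z) * mu L j w)) :=
    InP.sum _ fun i _ => InP.sum _ fun j _ =>
      (InP.of_mul (hf.mul (inFil_mu L i)) (inFil_mu L j)).const_mul _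
  refine h.congr fun z hz w hw hne => ?_
  rw [hC z hz w hw hne, mul_sum]
  refine sum_congr rfl fun i _ => ?_
  rw [mul_sum]
  exact sum_congr rfl fun j _ => by ring

lemma InP.mul_right {F : ℂ → ℂ → ℂ} (hF : InP L F) {a : ℕ} {f : ℂ → ℂ} (hf : InFil L a f) :
    InP L (fun z w => F z w * f w) := by
  obtain ⟨M, C, hC⟩ := hF
  have h : InP L (fun z w => ∑ i ∈ range M, ∑ j ∈ range M, C i j * (mu L i z * (mu L j w * f w))) :=
    InP.sum _ fun i _ => InP.sum _ fun j _ =>
      (InP.of_mul (inFil_mu L i) ((inFil_mu L j).mul hf)).const_mul _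
  refine h.congr fun z hz w hw hne => ?_
  rw [hC z hz w hw hne, sum_mul]
  refine sum_congr rfl fun i _ => ?_
  rw [sum_mul]
  exact sum_congr rfl fun j _ => by ring

variable (L)

lemma inP_Q_even (i : ℕ) : InP L (fun z w => Q L z w * (wp L 0 z ^ i - wp L 0 w ^ i)) := by
  have h : InP L (fun z w => ∑ a ∈ range i, ((1 / 2 : ℂ) * (wp L 0 z ^ a * wp L 1 z * wp L 0 w ^ (i - 1 - a)) +
      (1 / 2 : ℂ) * (wp L 0 z ^ a * (wp L 0 w ^ (i - 1 - a) * wp L 1 w)))) :=
    InP.sum _ fun a _ => ((InP.of_mul (inFil_odd L a) (inFil_even L (i - 1 - a))).const_mul _).add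
      ((InP.of_mul (inFil_even L a) (inFil_odd L (i - 1 - a))).const_mul _)
  refine h.congr fun z hz w hw hne => ?_
  have hne' := sub_ne_zero.mpr hne
  rw [← geom_sum₂_mul (wp L 0 z) (wp L 0 w) i]
  have e : ∑ a ∈ range i, ((1 / 2 : ℂ) * (wp L 0 z ^ a * wp L 1 z * wp L 0 w ^ (i - 1 - a)) +
      (1 / 2 : ℂ) * (wp L 0 z ^ a * (wp L 0 w ^ (i - 1 - a) * wp L 1 w))) =
      (1 / 2 : ℂ) * (wp L 1 z + wp L 1 w) * ∑ a ∈ range i, wp L 0 z ^ a * wp L 0 w ^ (i - 1 - a) := by
    rw [mul_sum]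
    exact sum_congr rfl fun a _ => by ring
  rw [e]
  unfold Q
  field_simp

lemma inP_Q_odd (i : ℕ) :
    InP L (fun z w => Q L z w * (wp L 0 z ^ i * wp L 1 z - wp L 0 w ^ i * wp L 1 w)) := by
  have h1 := (inP_Q_even L i).mul_right (inFil_wp L 1)
  have h2 := ((InP.of_mul (inFil_even L (i + 2)) (inFil_even L 0)).const_mul 2)
  have h3 := ((InP.of_mul (inFil_even L (i + 1)) (inFil_even L 1)).const_mul 2)
  have h4 := ((InP.of_mul (inFil_even L i) (inFil_even L 2)).const_mul 2)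
  have h5 := ((InP.of_mul (inFil_even L i) (inFil_even L 0)).const_mul (-L.g₂ / 2))
  refine ((((h1.add h2).add h3).add h4).add h5).congr fun z hz w hw hne => ?_
  have hne' := sub_ne_zero.mpr hne
  have e1 := wp_one_sq L hz
  have e2 := wp_one_sq L hw
  have e3 : Q L z w * (wp L 1 z - wp L 1 w) =
      2 * (wp L 0 z ^ 2 + wp L 0 z * wp L 0 w + wp L 0 w ^ 2) - L.g₂ / 2 := by
    unfold Q
    field_simp
    linear_combination e1 - e2
  linear_combination (wp L 0 z ^ i) * e3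

lemma inP_Q_mu (m : ℕ) : InP L (fun z w => Q L z w * (mu L m z - mu L m w)) := by
  rcases index_cases m with rfl | ⟨i, rfl⟩ | ⟨i, rfl⟩
  · exact (InP.zero L).congr fun z _ w _ _ => by simp [mu_one]
  · exact (inP_Q_even L i).congr fun z _ w _ _ => by simp [mu_even]
  · exact (inP_Q_odd L i).congr fun z _ w _ _ => by simp [mu_odd]

variable {L}

lemma inP_Q_sub {a : ℕ} {f : ℂ → ℂ} (hf : InFil L a f) :
    InP L (fun z w => Q L z w * (f z - f w)) := by
  obtain ⟨c, hc⟩ := hf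
  have h : InP L (fun z w => ∑ j ∈ range (a + 1), c j * (Q L z w * (mu L j z - mu L j w))) :=
    InP.sum _ fun j _ => (inP_Q_mu L j).const_mul _
  refine h.congr fun z hz w hw hne => ?_
  rw [hc z hz, hc w hw, ← sum_sub_distrib, mul_sum]
  exact sum_congr rfl fun j _ => by ring

/-- the antisymmetric combination -/
lemma inP_Q_wedge {a b : ℕ} {f g : ℂ → ℂ} (hf : InFil L a f) (hg : InFil L b g) :
    InP L (fun z w => Q L z w * (f z * g w - g z * f w)) := by
  have h1 := (inP_Q_sub hf).mul_right hg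
  have h2 := ((inP_Q_sub hg).mul_right hf).const_mul (-1)
  refine (h1.add h2).congr fun z hz w hw hne => ?_
  ring

lemma sum4_comm (A B C D : Finset ℕ) (f : ℕ → ℕ → ℕ → ℕ → ℂ) :
    ∑ k ∈ A, ∑ l ∈ B, ∑ j ∈ C, ∑ i ∈ D, f k l j i =
      ∑ j ∈ C, ∑ i ∈ D, ∑ k ∈ A, ∑ l ∈ B, f k l j i := by
  have h1 : ∑ k ∈ A, ∑ l ∈ B, ∑ j ∈ C, ∑ i ∈ D, f k l j i =
      ∑ p ∈ A ×ˢ B, ∑ q ∈ C ×ˢ D, f p.1 p.2 q.1 q.2 := by
    simp only [Finset.sum_product]
  have h2 : ∑ j ∈ C, ∑ i ∈ D, ∑ k ∈ A, ∑ l ∈ B, f k l j i =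
      ∑ q ∈ C ×ˢ D, ∑ p ∈ A ×ˢ B, f p.1 p.2 q.1 q.2 := by
    simp only [Finset.sum_product]
  rw [h1, h2, sum_comm]

lemma mu_inB {i n : ℕ} (hi : i ≤ n) (hn : 1 ≤ n) :
    ∃ c : ℕ → ℂ, ∀ z ∈ Dom L, mu L i z = ∑ k ∈ range n, c k * bw L k z := by
  have h1 : InFil L i (mu L i) := inFil_mu L i
  have h2 : InFil L n (mu L i) := h1.mono hi
  exact InFil.inB L hn h2

/-- reduction of the pole order in both variables -/
lemma InP.lower {F : ℂ → ℂ → ℂ} (hF : InP L F) {n : ℕ} (hn : 2 ≤ n)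
    (h1 : ∀ w ∈ Dom L, Tendsto (fun z => z ^ (n + 1) * F z w) (𝓝[≠] (0:ℂ)) (𝓝 0))
    (h2 : ∀ z ∈ Dom L, Tendsto (fun w => w ^ (n + 1) * F z w) (𝓝[≠] (0:ℂ)) (𝓝 0)) :
    ∃ ρ : ℕ → ℕ → ℂ, ∀ z ∈ Dom L, ∀ w ∈ Dom L, wp L 0 z ≠ wp L 0 w →
      F z w = ∑ k ∈ range n, ∑ l ∈ range n, ρ k l * (bw L k z * bw L l w) := by
  obtain ⟨M0, C0, hC0⟩ := hF
  -- enlarge
  obtain ⟨M, C, hM, hC⟩ : ∃ M : ℕ, ∃ C : ℕ → ℕ → ℂ, n + 1 ≤ M ∧ ∀ z ∈ Dom L, ∀ w ∈ Dom L,
      wp L 0 z ≠ wp L 0 w →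
      F z w = ∑ i ∈ range M, ∑ j ∈ range M, C i j * (mu L i z * mu L j w) :=
    ⟨max M0 (n + 1), _, le_max_right _ _, InP.enlarge (le_max_left _ _) hC0⟩
  have hev : ∀ w ∈ Dom L, ∀ᶠ z in 𝓝[≠] (0:ℂ), wp L 0 z ≠ wp L 0 w := by
    intro w hw
    have ht := tendsto_norm_wp_zero L
    have h0 : Tendsto (fun z : ℂ => z ^ 2 * wp L 0 w) (𝓝[≠] (0:ℂ)) (𝓝 0) := by
      have h0 : Tendsto (fun z : ℂ => z) (𝓝[≠] 0) (𝓝 0) := tendsto_id.mono_left nhdsWithin_le_nhds
      have := (h0.pow 2).mul_const (wp L 0 w)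
      simpa using this
    have h3 := ht.sub h0
    have h4 : ∀ᶠ z in 𝓝[≠] (0:ℂ), z ^ 2 * wp L 0 z - z ^ 2 * wp L 0 w ≠ 0 :=
      h3.eventually_ne (by norm_num)
    filter_upwards [h4] with z hz hne
    exact hz (by rw [hne]; ring)
  -- first variable
  have hA : ∀ w ∈ Dom L, ∀ i, n < i → i < M → i ≠ 1 → ∑ j ∈ range M, C i j * mu L j w = 0 := by
    intro w hw
    refine coeff_zero L (n := n) (M := M)
      (f := fun z => ∑ i ∈ range M, (∑ j ∈ range M, C i j * mu L j w) * mu L i z)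
      (fun z _ => rfl) ?_
    refine (h1 w hw).congr' ?_
    filter_upwards [eventually_Dom L, hev w hw] with z hz hne
    rw [hC z hz w hw hne]
    congr 1
    refine sum_congr rfl fun i _ => ?_
    rw [sum_mul]
    exact sum_congr rfl fun j _ => by ring
  have hC1 : ∀ z ∈ Dom L, ∀ w ∈ Dom L, wp L 0 z ≠ wp L 0 w →
      F z w = ∑ j ∈ range M, (∑ i ∈ range (n + 1), C i j * mu L i z) * mu L j w := by
    intro z hz w hw hne
    rw [hC z hz w hw hne]
    have e1 : ∑ i ∈ range M, ∑ j ∈ range M, C i j * (mu L i z * mu L j w) =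
        ∑ i ∈ range M, mu L i z * ∑ j ∈ range M, C i j * mu L j w := by
      refine sum_congr rfl fun i _ => ?_
      rw [mul_sum]
      exact sum_congr rfl fun j _ => by ring
    rw [e1, ← sum_subset (range_mono hM)]
    · rw [show (∑ i ∈ range (n + 1), mu L i z * ∑ j ∈ range M, C i j * mu L j w) =
        ∑ i ∈ range (n + 1), ∑ j ∈ range M, C i j * mu L i z * mu L j w from ?_, sum_comm]
      · refine sum_congr rfl fun j _ => ?_
        rw [sum_mul]
      · refine sum_congr rfl fun i _ => ?_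
        rw [mul_sum]
        exact sum_congr rfl fun j _ => by ring
    · intro i hi hi2
      rw [Finset.mem_range] at hi hi2
      rw [hA w hw i (by omega) hi (by omega), mul_zero]
  -- second variable
  have hB : ∀ z ∈ Dom L, ∀ j, n < j → j < M → j ≠ 1 → ∑ i ∈ range (n + 1), C i j * mu L i z = 0 := by
    intro z hz
    refine coeff_zero L (n := n) (M := M)
      (f := fun w => ∑ j ∈ range M, (∑ i ∈ range (n + 1), C i j * mu L i z) * mu L j w)
      (fun w _ => rfl) ?_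
    refine (h2 z hz).congr' ?_
    filter_upwards [eventually_Dom L, hev z hz] with w hw hne
    rw [hC1 z hz w hw hne.symm]
  have hC2 : ∀ z ∈ Dom L, ∀ w ∈ Dom L, wp L 0 z ≠ wp L 0 w →
      F z w = ∑ j ∈ range (n + 1), ∑ i ∈ range (n + 1), C i j * (mu L i z * mu L j w) := by
    intro z hz w hw hne
    rw [hC1 z hz w hw hne, ← sum_subset (range_mono hM)]
    · refine sum_congr rfl fun j _ => ?_
      rw [sum_mul]
      exact sum_congr rfl fun i _ => by ring
    · intro j hj hj2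
      rw [Finset.mem_range] at hj hj2
      rw [hB z hz j (by omega) hj (by omega), zero_mul]
  -- change of basis
  have hD : ∀ i, ∃ c : ℕ → ℂ, i ∈ range (n + 1) →
      ∀ z ∈ Dom L, mu L i z = ∑ k ∈ range n, c k * bw L k z := by
    intro i
    by_cases hi : i ∈ range (n + 1)
    · obtain ⟨c, hc⟩ := mu_inB (L := L) (Nat.lt_succ_iff.mp (Finset.mem_range.mp hi)) (le_trans one_le_two hn)
      exact ⟨c, fun _ => hc⟩
    · exact ⟨fun _ => 0, fun h => absurd h hi⟩
  choose d hd using hD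
  refine ⟨fun k l => ∑ j ∈ range (n + 1), ∑ i ∈ range (n + 1), C i j * (d i k * d j l),
    fun z hz w hw hne => ?_⟩
  rw [hC2 z hz w hw hne]
  have e2 : ∀ j ∈ range (n + 1), ∀ i ∈ range (n + 1), C i j * (mu L i z * mu L j w) =
      ∑ k ∈ range n, ∑ l ∈ range n, C i j * ((d i k * bw L k z) * (d j l * bw L l w)) := by
    intro j hj i hi
    rw [hd i hi z hz, hd j hj w hw, sum_mul_sum, mul_sum]
    refine sum_congr rfl fun k _ => ?_
    rw [mul_sum]
  have e1 : ∀ k ∈ range n, ∀ l ∈ range n,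
      (∑ j ∈ range (n + 1), ∑ i ∈ range (n + 1), C i j * (d i k * d j l)) * (bw L k z * bw L l w) =
      ∑ j ∈ range (n + 1), ∑ i ∈ range (n + 1), C i j * ((d i k * bw L k z) * (d j l * bw L l w)) := by
    intro k _ l _
    rw [sum_mul]
    refine sum_congr rfl fun j _ => ?_
    rw [sum_mul]
    exact sum_congr rfl fun i _ => by ring
  calc ∑ j ∈ range (n + 1), ∑ i ∈ range (n + 1), C i j * (mu L i z * mu L j w)
      = ∑ j ∈ range (n + 1), ∑ i ∈ range (n + 1), ∑ k ∈ range n, ∑ l ∈ range n,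
          C i j * ((d i k * bw L k z) * (d j l * bw L l w)) :=
        sum_congr rfl fun j hj => sum_congr rfl fun i hi => e2 j hj i hi
    _ = ∑ k ∈ range n, ∑ l ∈ range n, ∑ j ∈ range (n + 1), ∑ i ∈ range (n + 1),
          C i j * ((d i k * bw L k z) * (d j l * bw L l w)) :=
        (sum4_comm (range n) (range n) (range (n + 1)) (range (n + 1))
          (fun k l j i => C i j * ((d i k * bw L k z) * (d j l * bw L l w)))).symm
    _ = _ := sum_congr rfl fun k hk => sum_congr rfl fun l hl => (e1 k hk l hl).symm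

end Pool.Agent.Helper487.ECM
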