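import Pool.Agent.Helper487.ECM.Only

/-! The behaviour under scaling, and the converse. -/

open Filter Topology Finset
open scoped Nat PeriodPair

namespace Pool.Agent.Helper487.ECM

variable {L : PeriodPair} {N : ℕ}

lemma tendsto_smul_punct {b : ℂ} (hb : b ≠ 0) : Tendsto (fun t : ℂ => t * b) (𝓝[≠] 0) (𝓝[≠] 0) := by
  refine tendsto_nhdsWithin_iff.mpr ⟨?_, ?_⟩
  · have h0 : Tendsto (fun z : ℂ => z) (𝓝[≠] 0) (𝓝 0) := tendsto_id.mono_left nhdsWithin_le_nhds
    simpa using h0.mul_const b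
  · filter_upwards [self_mem_nhdsWithin] with t ht
    exact mul_ne_zero ht hb

lemma tendsto_wp_scale (k : ℕ) {b : ℂ} (hb : b ≠ 0) :
    Tendsto (fun t => t ^ (k + 2) * wp L k (t * b)) (𝓝[≠] (0:ℂ)) (𝓝 ((-1) ^ k * (k + 1)! * (b⁻¹) ^ (k + 2))) := by
  have h1 := ((top_wp L k).tendsto.comp (tendsto_smul_punct hb)).mul_const ((b⁻¹) ^ (k + 2))
  refine h1.congr fun t => ?_
  simp only [Function.comp_apply]
  rw [mul_pow, inv_pow]
  field_simp

/-- scaled matrix -/
noncomputable def Mt (L : PeriodPair) (a : Fin N → ℂ) (t : ℂ) : Matrix (Fin N) (Fin N) ℂ :=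
  Matrix.of fun i k => t ^ ((k : ℕ) + 2) * wp L k (t * a i)

/-- its limit -/
noncomputable def M0 (a : Fin N → ℂ) : Matrix (Fin N) (Fin N) ℂ :=
  Matrix.of fun i k => (-1) ^ (k : ℕ) * ((k : ℕ) + 1)! * ((a i)⁻¹) ^ ((k : ℕ) + 2)

lemma tendsto_Mt {a : Fin N → ℂ} (ha : ∀ i, a i ≠ 0) : Tendsto (Mt L a) (𝓝[≠] (0:ℂ)) (𝓝 (M0 a)) := by
  refine tendsto_pi_nhds.mpr fun i => tendsto_pi_nhds.mpr fun k => ?_
  exact tendsto_wp_scale k (ha i)

lemma det_M0 {a : Fin N → ℂ} (ha : ∀ i, a i ≠ 0) (hinj : Function.Injective a) : (M0 a).det ≠ 0 := by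
  have e : M0 a = Matrix.diagonal (fun i => ((a i)⁻¹) ^ 2) * Matrix.vandermonde (fun i => (a i)⁻¹) *
      Matrix.diagonal (fun k : Fin N => (-1) ^ (k : ℕ) * (((k : ℕ) + 1)! : ℂ)) := by
    ext i k
    rw [Matrix.mul_diagonal, Matrix.diagonal_mul, Matrix.vandermonde_apply]
    simp only [M0, Matrix.of_apply]
    ring
  rw [e, Matrix.det_mul, Matrix.det_mul, Matrix.det_diagonal, Matrix.det_diagonal]
  refine mul_ne_zero (mul_ne_zero ?_ ?_) ?_
  · exact prod_ne_zero_iff.mpr fun i _ => pow_ne_zero _ (inv_ne_zero (ha i))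
  · rw [Matrix.det_vandermonde_ne_zero_iff]
    exact fun i j h => hinj (inv_injective h)
  · exact prod_ne_zero_iff.mpr fun k _ => mul_ne_zero (pow_ne_zero _ (by norm_num))
      (by exact_mod_cast Nat.factorial_ne_zero _)

lemma Mt_eq (a : Fin N → ℂ) (t : ℂ) :
    Mt L a t = Wm L (fun i => t * a i) * Matrix.diagonal (fun k : Fin N => t ^ ((k : ℕ) + 2)) := by
  ext i k
  rw [Matrix.mul_diagonal]
  simp only [Mt, Matrix.of_apply, Wm_apply]
  ring

lemma eventually_reg_scale {a : Fin N → ℂ} (ha : ∀ i, a i ≠ 0) (hinj : Function.Injective a) :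
    ∀ᶠ t in 𝓝[≠] (0:ℂ), Reg L (fun i => t * a i) ∧ (Mt L a t).det ≠ 0 := by
  have h1 : Tendsto (fun t => (Mt L a t).det) (𝓝[≠] (0:ℂ)) (𝓝 (M0 a).det) :=
    ((continuous_id.matrix_det).tendsto (M0 a)).comp (tendsto_Mt ha)
  have h2 := h1.eventually_ne (det_M0 ha hinj)
  have h3 : ∀ᶠ t in 𝓝[≠] (0:ℂ), ∀ i, t * a i ∈ Dom L := by
    rw [eventually_all]; intro i
    exact (tendsto_smul_punct (ha i)).eventually (eventually_Dom L)
  filter_upwards [h2, h3] with t h2 h3
  refine ⟨⟨h3, ?_⟩, h2⟩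
  intro h4
  rw [Mt_eq, Matrix.det_mul, h4, zero_mul] at h2
  exact h2 rfl

lemma tendsto_uu_scale {a : Fin N → ℂ} (ha : ∀ i, a i ≠ 0) (hinj : Function.Injective a) :
    Tendsto (fun t => uu L (fun i => t * a i)) (𝓝[≠] (0:ℂ)) (𝓝 0) := by
  rw [tendsto_pi_nhds]
  intro k
  have h0 : Tendsto (fun z : ℂ => z) (𝓝[≠] 0) (𝓝 0) := tendsto_id.mono_left nhdsWithin_le_nhds
  have h1 : Tendsto (fun t => (Mt L a t).det) (𝓝[≠] (0:ℂ)) (𝓝 (M0 a).det) :=
    ((continuous_id.matrix_det).tendsto (M0 a)).comp (tendsto_Mt ha)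
  have h2 : ∀ j, Tendsto (fun t => (Mt L a t).adjugate k j) (𝓝[≠] (0:ℂ)) (𝓝 ((M0 a).adjugate k j)) := by
    intro j
    have hc : Continuous fun A : Matrix (Fin N) (Fin N) ℂ => A.adjugate k j :=
      (continuous_id.matrix_adjugate).matrix_elem k j
    exact (hc.tendsto (M0 a)).comp (tendsto_Mt ha)
  have h3 : Tendsto (fun t => t ^ ((k : ℕ) + 2) * ∑ j, ((Mt L a t).det)⁻¹ * (Mt L a t).adjugate k j)
      (𝓝[≠] (0:ℂ)) (𝓝 (0 ^ ((k : ℕ) + 2) * ∑ j, ((M0 a).det)⁻¹ * (M0 a).adjugate k j)) :=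
    (h0.pow _).mul (tendsto_finsetSum _ fun j _ => (h1.inv₀ (det_M0 ha hinj)).mul (h2 j))
  simp only [ne_eq, Nat.add_eq_zero_iff, OfNat.ofNat_ne_zero, and_false, not_false_eq_true, zero_pow,
    zero_mul] at h3
  refine h3.congr' ?_
  filter_upwards [eventually_reg_scale (L := L) ha hinj, self_mem_nhdsWithin] with t ht ht0
  obtain ⟨hr, hdet⟩ := ht
  have ht0' : t ≠ 0 := ht0
  set y : Fin N → ℂ := fun i => t * a i with hy
  have e1 : (Wm L y).mulVec (uu L y) = 1 := by
    unfold uu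
    rw [Matrix.mulVec_mulVec, Matrix.mul_nonsing_inv _ (isUnit_iff_ne_zero.mpr hr.hW), Matrix.one_mulVec]
  set v : Fin N → ℂ := fun k => (t ^ ((k : ℕ) + 2))⁻¹ * uu L y k with hv
  have e2 : (Mt L a t).mulVec v = 1 := by
    rw [Mt_eq, ← Matrix.mulVec_mulVec]
    have : (Matrix.diagonal fun k : Fin N => t ^ ((k : ℕ) + 2)).mulVec v = uu L y := by
      funext k
      rw [Matrix.mulVec_diagonal, hv]
      field_simp
    rw [this]; exact e1
  have e3 : v = (Mt L a t)⁻¹.mulVec 1 := by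
    rw [← e2, Matrix.mulVec_mulVec, Matrix.nonsing_inv_mul _ (isUnit_iff_ne_zero.mpr hdet), Matrix.one_mulVec]
  have e4 := congrFun e3 k
  simp only [hv, Matrix.mulVec, dotProduct, Matrix.inv_def, Matrix.smul_apply, smul_eq_mul,
      Pi.one_apply, mul_one, Ring.inverse_eq_inv'] at e4
  rw [← e4]
  field_simp

/-- real test points -/
noncomputable def ar (N : ℕ) : Fin N → ℝ := fun i => (i : ℝ) + 1

noncomputable def are (N : ℕ) : Fin (N + 1) → ℝ := Fin.snoc (ar N) (-∑ i, ar N i)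

lemma ext_ar (N : ℕ) (i : Fin (N + 1)) : ext (fun i => (ar N i : ℂ)) i = (are N i : ℂ) := by
  refine Fin.lastCases ?_ (fun i => ?_) i
  · rw [ext_last]; simp [are]
  · rw [ext_castSucc]; simp [are]

lemma are_inj (hN : 1 ≤ N) : Function.Injective (are N) := by
  have hpos : 0 < ∑ i, ar N i := by
    have hne : (univ : Finset (Fin N)).Nonempty := ⟨⟨0, by omega⟩, mem_univ _⟩
    exact sum_pos (fun i _ => by unfold ar; positivity) hne
  have hcs : ∀ i : Fin N, 0 < are N i.castSucc := fun i => by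
    simp only [are, Fin.snoc_castSucc]; unfold ar; positivity
  have hl : are N (Fin.last N) < 0 := by
    simp only [are, Fin.snoc_last]; linarith
  intro i j
  refine Fin.lastCases ?_ (fun i => ?_) i
  · refine Fin.lastCases ?_ (fun j => ?_) j
    · exact fun _ => rfl
    · intro h; have := hcs j; rw [← h] at this; linarith
  · refine Fin.lastCases ?_ (fun j => ?_) j
    · intro h; have := hcs i; rw [h] at this; linarith
    · intro h
      simp only [are, Fin.snoc_castSucc, ar] at h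
      have : (i : ℝ) = j := by linarith
      have : (i : ℕ) = j := by exact_mod_cast this
      rw [Fin.ext this]

lemma ext_scale (t : ℂ) (a : Fin N → ℂ) (i : Fin (N + 1)) : ext (fun i => t * a i) i = t * ext a i := by
  refine Fin.lastCases ?_ (fun i => ?_) i
  · rw [ext_last, ext_last, ← mul_sum]; ring
  · rw [ext_castSucc, ext_castSucc]

lemma ext_ne (hN : 1 ≤ N) {i j : Fin (N + 1)} (h : i ≠ j) :
    ext (fun i => (ar N i : ℂ)) i - ext (fun i => (ar N i : ℂ)) j ≠ 0 := by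
  rw [ext_ar, ext_ar, sub_ne_zero]
  intro h1
  exact h (are_inj hN (by exact_mod_cast h1))

lemma tendsto_VV_scale (hN : 1 ≤ N) : ∃ v0 : ℂ, v0 ≠ 0 ∧
    Tendsto (fun t => t ^ 2 * VV L (fun i => t * (ar N i : ℂ))) (𝓝[≠] (0:ℂ)) (𝓝 v0) := by
  refine ⟨∑ i : Fin (N + 1), ∑ j ∈ univ.erase i,
    ((ext (fun i => (ar N i : ℂ)) i - ext (fun i => (ar N i : ℂ)) j)⁻¹) ^ 2, ?_, ?_⟩
  · have e : ∑ i : Fin (N + 1), ∑ j ∈ univ.erase i,
      ((ext (fun i => (ar N i : ℂ)) i - ext (fun i => (ar N i : ℂ)) j)⁻¹) ^ 2 =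
      ((∑ i : Fin (N + 1), ∑ j ∈ univ.erase i, ((are N i - are N j)⁻¹) ^ 2 : ℝ) : ℂ) := by
      push_cast
      refine sum_congr rfl fun i _ => sum_congr rfl fun j _ => ?_
      rw [ext_ar, ext_ar]
    rw [e]
    have hpos : 0 < ∑ i : Fin (N + 1), ∑ j ∈ univ.erase i, ((are N i - are N j)⁻¹) ^ 2 := by
      refine sum_pos (fun i _ => ?_) ⟨0, mem_univ _⟩
      have hne : (univ.erase i).Nonempty := by
        rw [← card_pos, card_erase_of_mem (mem_univ i), card_univ, Fintype.card_fin]; omega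
      refine sum_pos (fun j hj => ?_) hne
      have : are N i - are N j ≠ 0 := sub_ne_zero.mpr fun h => (ne_of_mem_erase hj).symm (are_inj hN h)
      positivity
    exact_mod_cast hpos.ne'
  · have h1 : ∀ i : Fin (N + 1), ∀ j ∈ univ.erase i,
      Tendsto (fun t => t ^ 2 * ℘[L] (ext (fun i => t * (ar N i : ℂ)) i - ext (fun i => t * (ar N i : ℂ)) j))
      (𝓝[≠] (0:ℂ)) (𝓝 (((ext (fun i => (ar N i : ℂ)) i - ext (fun i => (ar N i : ℂ)) j)⁻¹) ^ 2)) := by
      intro i j hj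
      have h2 := tendsto_wp_scale (L := L) 0 (ext_ne hN (ne_of_mem_erase hj).symm)
      simp only [pow_zero, one_mul, zero_add, Nat.factorial_one, Nat.cast_one] at h2
      refine h2.congr fun t => ?_
      rw [ext_scale, ext_scale, ← mul_sub, wp_zero_eq]
    have h3 := tendsto_finsetSum univ fun (i : Fin (N + 1)) (_ : i ∈ univ) =>
      tendsto_finsetSum (univ.erase i) fun j hj => h1 i j hj
    refine h3.congr fun t => ?_
    unfold VV
    rw [mul_sum]
    exact sum_congr rfl fun i _ => by rw [mul_sum]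

/-- the converse, tested on the constant function -/
theorem only_if_one (hN : 1 ≤ N) (β γ : ℂ) (C : MvPolynomial (Fin N) ℂ)
    (h : ∀ y ∈ UU L N, ∀ E, IsPow L γ E y →
      (E y)⁻¹ * HH L β (fun y' => E y' * (fun _ : Fin N → ℂ => (1 : ℂ)) (uu L y')) y =
        MvPolynomial.eval (uu L y) C) :
    γ * (γ - 1) = β * (β - 1) := by
  set κ : ℂ := β * (β - 1) - γ * (γ - 1) with hκ
  set p : MvPolynomial (Fin N) ℂ := C - CP L N γ with hp
  -- on the domain the potential is a polynomial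
  have h1 : ∀ y ∈ UU L N, κ * VV L y = MvPolynomial.eval (uu L y) p := by
    intro y hy
    obtain ⟨E, hE⟩ := exists_pow (UU_reg hy) hy.2.2.1 γ
    have e1 := h y hy E hE
    rw [oper_UU hy hN β γ hE (F := fun _ => 1) analyticAt_const] at e1
    have hpd : ∀ b : Fin N, pd b (fun _ : Fin N → ℂ => (1:ℂ)) = fun _ => 0 := fun b => funext fun y => pd_const 1 y
    have e2 := opc_eq_eval (L := L) γ (uu L y) (fun a b => pd a (pd b (fun _ : Fin N → ℂ => (1:ℂ))) (uu L y))
      (fun a => pd a (fun _ : Fin N → ℂ => (1:ℂ)) (uu L y)) 1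
    have e3 : opc L N γ (cc L y) (fun a b => pd a (pd b (fun _ : Fin N → ℂ => (1:ℂ))) (uu L y))
      (fun a => pd a (fun _ : Fin N → ℂ => (1:ℂ)) (uu L y)) 1 = _ := e2
    rw [e3] at e1
    simp only [hpd, pd_const, mul_zero, sum_const_zero, zero_add, mul_one] at e1
    rw [hp, map_sub]
    linear_combination e1
  -- density
  have h2 : ∀ y, Reg L y → (∀ i j : Fin (N + 1), i ≠ j → ext y i - ext y j ∉ L.lattice) →
      κ * VV L y = MvPolynomial.eval (uu L y) p := by
    intro y hr hd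
    have cL : ContinuousAt (fun y => κ * VV L y) y := (analyticAt_const.mul (analyticAt_VV hd)).continuousAt
    have cR : ContinuousAt (fun y => MvPolynomial.eval (uu L y) p) y :=
      ContinuousAt.comp (f := uu L) (g := fun u => MvPolynomial.eval u p)
        (MvPolynomial.continuous_eval p).continuousAt hr.analyticAt_uuv.continuousAt
    by_contra hne
    have g1 := (cL.sub cR).eventually_ne (sub_ne_zero.mpr hne)
    have g2 : ∀ᶠ y' in 𝓝 y, ∀ i j : Fin (N + 1), i ≠ j → ext y' i - ext y' j ∉ L.lattice := by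
      rw [eventually_all]; intro i
      rw [eventually_all]; intro j
      by_cases hij : i = j
      · exact Eventually.of_forall fun _ h => absurd hij h
      · have c : ContinuousAt (fun y => ext y i - ext y j) y :=
          ((analyticAt_ext i y).sub (analyticAt_ext j y)).continuousAt
        filter_upwards [c.preimage_mem_nhds ((isOpen_Dom L).mem_nhds (hd i j hij))] with y' h' _
        exact h'
    obtain ⟨U, hU, hUo, hyU⟩ := eventually_nhds_iff.mp (g1.and g2)
    obtain ⟨y', hy'U, hr', hf'⟩ := exists_all_f1 (L := L) univ U hUo ⟨y, hyU, hr⟩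
    have hf'' : ∀ i, ph1 L (N + 1) (cc L y') (y' i) ≠ 0 := fun i => hf' i (mem_univ i)
    have hyUU : y' ∈ UU L N := ⟨hr'.hy, hr'.hW, hr'.D_of_f1 hf'', (hU y' hy'U).2⟩
    exact (hU y' hy'U).1 (sub_eq_zero.mpr (h1 y' hyUU))
  -- scaling
  obtain ⟨v0, hv0, hv⟩ := tendsto_VV_scale (L := L) hN
  have ha : ∀ i, (ar N i : ℂ) ≠ 0 := fun i => by
    have : 0 < ar N i := by unfold ar; positivity
    exact_mod_cast this.ne'
  have hinj : Function.Injective fun i => (ar N i : ℂ) := by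
    intro i j hij
    have h3 : ar N i = ar N j := Complex.ofReal_injective hij
    unfold ar at h3
    have : (i : ℝ) = j := by linarith
    exact Fin.ext (by exact_mod_cast this)
  have h0 : Tendsto (fun z : ℂ => z) (𝓝[≠] 0) (𝓝 0) := tendsto_id.mono_left nhdsWithin_le_nhds
  have hR : Tendsto (fun t => t ^ 2 * MvPolynomial.eval (uu L fun i => t * (ar N i : ℂ)) p) (𝓝[≠] (0:ℂ))
      (𝓝 (0 ^ 2 * MvPolynomial.eval 0 p)) :=
    (h0.pow 2).mul (((MvPolynomial.continuous_eval p).tendsto 0).comp (tendsto_uu_scale (L := L) ha hinj))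
  have hL' := hv.const_mul κ
  have hdiff : ∀ᶠ t in 𝓝[≠] (0:ℂ), ∀ i j : Fin (N + 1), i ≠ j →
      ext (fun i => t * (ar N i : ℂ)) i - ext (fun i => t * (ar N i : ℂ)) j ∉ L.lattice := by
    rw [eventually_all]; intro i
    rw [eventually_all]; intro j
    by_cases hij : i = j
    · exact Eventually.of_forall fun _ h => absurd hij h
    · filter_upwards [(tendsto_smul_punct (ext_ne hN hij)).eventually (eventually_Dom L)] with t ht _
      rw [ext_scale, ext_scale, ← mul_sub]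
      exact ht
  have heq : (fun t => κ * (t ^ 2 * VV L (fun i => t * (ar N i : ℂ)))) =ᶠ[𝓝[≠] (0:ℂ)]
      fun t => t ^ 2 * MvPolynomial.eval (uu L fun i => t * (ar N i : ℂ)) p := by
    filter_upwards [eventually_reg_scale (L := L) ha hinj, hdiff] with t ht hd
    rw [← h2 _ ht.1 hd]; ring
  have hfin := tendsto_nhds_unique (hL'.congr' heq) hR
  have hκ0 : κ = 0 := by
    have : κ * v0 = 0 := by rw [hfin]; ring
    exact (mul_eq_zero.mp this).resolve_right hv0
  rw [hκ] at hκ0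
  linear_combination -hκ0

/-- the converse -/
theorem only_if (hN : 1 ≤ N) (β γ : ℂ)
    (h : ∃ (A : Fin N → Fin N → MvPolynomial (Fin N) ℂ) (B : Fin N → MvPolynomial (Fin N) ℂ)
      (C : MvPolynomial (Fin N) ℂ), ∀ y ∈ UU L N, ∀ E, IsPow L γ E y → ∀ F : (Fin N → ℂ) → ℂ,
      AnalyticAt ℂ F (uu L y) →
      (E y)⁻¹ * HH L β (fun y' => E y' * F (uu L y')) y =
        ∑ a, ∑ b, MvPolynomial.eval (uu L y) (A a b) * pd a (pd b F) (uu L y)
        + ∑ a, MvPolynomial.eval (uu L y) (B a) * pd a F (uu L y)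
        + MvPolynomial.eval (uu L y) C * F (uu L y)) :
    γ * (γ - 1) = β * (β - 1) := by
  obtain ⟨A, B, C, h⟩ := h
  refine only_if_one (L := L) hN β γ C fun y hy E hE => ?_
  have e1 := h y hy E hE (fun _ => 1) analyticAt_const
  rw [e1]
  have hpd : ∀ b : Fin N, pd b (fun _ : Fin N → ℂ => (1:ℂ)) = fun _ => 0 := fun b => funext fun y => pd_const 1 y
  simp only [hpd, pd_const, mul_zero, sum_const_zero, zero_add, mul_one]

end Pool.Agent.Helper487.ECM
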