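import Pool.Agent.Helper487.ECM.Extend

/-! The trace identity for the coefficients of the kernel. -/

open Filter Topology Finset
open scoped Nat PeriodPair

namespace Pool.Agent.Helper487.ECM

variable {L : PeriodPair} {N : ℕ}

/-- a contraction with the derivatives of the coefficients -/
lemma Reg.contract {y : Fin N → ℂ} (h : Reg L y) (hf : ∀ i, ph1 L (N + 1) (cc L y) (y i) ≠ 0)
    (X : ℕ → ℕ → ℂ) :
    ∑ i, ph L (N + 1) (fun l => ∑ m ∈ range (N + 1), X m l * dcc L i y m) (y i) /
      ph1 L (N + 1) (cc L y) (y i) =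
      ∑ m ∈ range (N + 1), X m 0 * cc L y m - ∑ l ∈ range (N + 1), X l l := by
  set F : Fin N → ℂ := fun j => ph1 L (N + 1) (cc L y) (y j) with hF
  have hb : ∀ k < N + 1, ∀ z, ph L (N + 1) (fun l => if l = k then 1 else 0) z = bw L k z := by
    intro k hk z
    unfold ph
    rw [sum_eq_single k]
    · simp
    · intro b _ hb; simp [hb]
    · intro hk'; exact absurd (Finset.mem_range.mpr hk) hk'
  have hd : ∀ k < N + 1, ∀ m < N + 1, ∑ i, dcc L i y m * (bw L k (y i) / F i) =
      (if 0 = k then 1 else 0) * cc L y m - (if m = k then 1 else 0) := by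
    intro k hk m hm
    have := h.dual hf (fun l => if l = k then 1 else 0) m hm
    simp only [hb k hk] at this
    exact this
  have e1 : ∑ i, ph L (N + 1) (fun k => ∑ m ∈ range (N + 1), X m k * dcc L i y m) (y i) / F i =
      ∑ k ∈ range (N + 1), ∑ m ∈ range (N + 1), X m k *
        ∑ i, dcc L i y m * (bw L k (y i) / F i) := by
    unfold ph
    simp only [sum_div, sum_mul, mul_sum]
    rw [sum_comm]
    refine sum_congr rfl fun k _ => ?_
    rw [sum_comm]
    exact sum_congr rfl fun m _ => sum_congr rfl fun i _ => by ring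
  rw [e1]
  have e2 : ∀ k ∈ range (N + 1), ∑ m ∈ range (N + 1), X m k *
        ∑ i, dcc L i y m * (bw L k (y i) / F i) =
      (if 0 = k then 1 else 0) * (∑ m ∈ range (N + 1), X m k * cc L y m) - X k k := by
    intro k hk
    have e3 : ∀ m ∈ range (N + 1), X m k * ∑ i, dcc L i y m * (bw L k (y i) / F i) =
        (if 0 = k then 1 else 0) * (X m k * cc L y m) - (if m = k then X m k else 0) := by
      intro m hm
      rw [hd k (Finset.mem_range.mp hk) m (Finset.mem_range.mp hm)]
      split_ifs <;> ring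
    rw [sum_congr rfl e3, sum_sub_distrib, ← mul_sum, sum_ite_eq' (range (N + 1)) k, if_pos hk]
  rw [sum_congr rfl e2, sum_sub_distrib]
  congr 1
  rw [sum_eq_single 0]
  · simp
  · intro b _ hb; simp [Ne.symm hb]
  · intro h0; simp at h0

/-- the trace of the derivatives of the kernel -/
noncomputable def TrR (L : PeriodPair) (n : ℕ) (c : ℕ → ℂ) (l : ℕ) : ℂ :=
  ∑ m ∈ range n, drho L n c m m l

lemma euler_rho (n : ℕ) (c : ℕ → ℂ) (k l : ℕ) :
    ∑ m ∈ range n, drho L n c m k l * c m = 2 * rho L n c k l := by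
  have e1 : ∑ m ∈ range n, drho L n c m k l * c m =
      ∑ m ∈ range n, ∑ b ∈ range n, c m * c b * rr L n m b k l +
      ∑ m ∈ range n, ∑ b ∈ range n, c m * c b * rr L n b m k l := by
    rw [← sum_add_distrib]
    refine sum_congr rfl fun m _ => ?_
    unfold drho
    rw [sum_mul, ← sum_add_distrib]
    exact sum_congr rfl fun b _ => by ring
  have e2 : ∑ m ∈ range n, ∑ b ∈ range n, c m * c b * rr L n b m k l = rho L n c k l := by
    rw [sum_comm]
    unfold rho
    exact sum_congr rfl fun b _ => sum_congr rfl fun m _ => by ring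
  rw [e1, e2]
  unfold rho; ring

lemma drho_symm (n : ℕ) (c : ℕ → ℂ) (m k l : ℕ) : drho L n c m k l = drho L n c m l k := by
  unfold drho rr
  exact sum_congr rfl fun b _ => by ring

/-- second derivatives at the zeros -/
lemma Reg.pd_dcc_eval {y : Fin N → ℂ} (h : Reg L y) (i j : Fin N) :
    ph L (N + 1) (fun k => pd i (fun y => dcc L j y k) y) (y i) =
      -(ph1 L (N + 1) (dcc L j y) (y i)) - (if i = j then 1 else 0) *
        (ph1 L (N + 1) (dcc L i y) (y i) + ph2 L (N + 1) (cc L y) (y i)) := by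
  have e : (fun y => ph L (N + 1) (dcc L j y) (y i) + (if i = j then 1 else 0) * ph1 L (N + 1) (cc L y) (y i))
      =ᶠ[𝓝 y] fun _ => 0 := by
    filter_upwards [h.eventually] with y' h'
    rw [h'.dcc_eval]; ring
  have hA : DifferentiableAt ℂ (fun y => ph L (N + 1) (dcc L j y) (y i)) y :=
    (analyticAt_ph (L := L) (n := N + 1) (C := fun y => dcc L j y) (l := fun y => y i) (y := y)
    (fun k _ => h.analyticAt_dcc j k) (analyticAt_coord i y) (h.hy i)).differentiableAt
  have hB : DifferentiableAt ℂ (fun y => ph1 L (N + 1) (cc L y) (y i)) y :=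
    (analyticAt_ph1 (L := L) (n := N + 1) (C := fun y => cc L y) (l := fun y => y i) (y := y)
    (fun k _ => h.analyticAt_cc k) (analyticAt_coord i y) (h.hy i)).differentiableAt
  have h3 := pd_congr (i := i) e
  rw [pd_const, pd_add hA (hB.const_mul _), pd_const_mul _ hB,
    pd_ph (fun k _ => (h.analyticAt_dcc j k).differentiableAt) (analyticAt_coord i y).differentiableAt (h.hy i),
    pd_ph1 (fun k _ => (h.analyticAt_cc k).differentiableAt) (analyticAt_coord i y).differentiableAt (h.hy i),
    pd_coord, if_pos rfl] at h3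
  have h4 : ph1 L (N + 1) (fun k => pd i (fun y => cc L y k) y) (y i) = ph1 L (N + 1) (dcc L i y) (y i) := rfl
  rw [h4] at h3
  linear_combination h3

/-- the trace identity at a generic point -/
theorem Gen0.trace {y : Fin N → ℂ} (h : Gen0 L y) (hN : 1 ≤ N) {k : ℕ} (hk : k < N + 1) :
    TrR L (N + 1) (cc L y) k = cc L y k * TrR L (N + 1) (cc L y) 0 := by
  have hr := h.toReg
  set F : Fin N → ℂ := fun j => ph1 L (N + 1) (cc L y) (y j) with hF
  have hF0 : ∀ j, F j ≠ 0 := h.f1
  have dr : ∀ a b, DifferentiableAt ℂ (fun y => rho L (N + 1) (cc L y) a b) y := fun a b =>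
    (hr.analyticAt_rho _ a b).differentiableAt
  have dc : ∀ a, DifferentiableAt ℂ (fun y => cc L y a) y := fun a => (hr.analyticAt_cc a).differentiableAt
  -- first computation
  have w1 : ∀ i, ph L (N + 1) (fun l => pd i (fun y => Gf L (N + 1) (cc L y) k l) y) (y i) / F i =
      -pd i (fun y => gcc L i y k) y - ∑ j, gcc L j y k * (ph1 L (N + 1) (dcc L j y) (y i) / F i
        + (if i = j then 1 else 0) * ((ph2 L (N + 1) (cc L y) (y i) + ph1 L (N + 1) (dcc L i y) (y i)) / F i)) := by
    intro i
    have e1 : ∀ l < N + 1, pd i (fun y => Gf L (N + 1) (cc L y) k l) y =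
        ∑ j, (pd i (fun y => gcc L j y k) y * dcc L j y l + gcc L j y k * pd i (fun y => dcc L j y l) y) := by
      intro l hl
      have e2 : (fun y => Gf L (N + 1) (cc L y) k l) =ᶠ[𝓝 y] fun y => ∑ j, gcc L j y k * dcc L j y l := by
        filter_upwards [h.eventually] with y' h'
        exact (h'.gram hN hk hl).symm
      have d1 : ∀ j : Fin N, DifferentiableAt ℂ (fun y => gcc L j y k) y := fun j =>
        (hr.analyticAt_gcc j k).differentiableAt
      have d2 : ∀ j : Fin N, DifferentiableAt ℂ (fun y => dcc L j y l) y := fun j =>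
        (hr.analyticAt_dcc j l).differentiableAt
      have d3 : ∀ j ∈ (univ : Finset (Fin N)), DifferentiableAt ℂ (fun y => gcc L j y k * dcc L j y l) y :=
        fun j _ => (d1 j).mul (d2 j)
      rw [pd_congr e2, pd_sum _ d3]
      exact sum_congr rfl fun j _ => pd_mul (d1 j) (d2 j)
    have e3 : ph L (N + 1) (fun l => pd i (fun y => Gf L (N + 1) (cc L y) k l) y) (y i) =
        ∑ j, (pd i (fun y => gcc L j y k) y * ph L (N + 1) (dcc L j y) (y i)
          + gcc L j y k * ph L (N + 1) (fun l => pd i (fun y => dcc L j y l) y) (y i)) := by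
      rw [ph_congr L e1, ph_sum]
      refine sum_congr rfl fun j _ => ?_
      rw [ph_add, ph_smul, ph_smul]
    rw [e3]
    simp only [hr.dcc_eval, hr.pd_dcc_eval]
    rw [sum_add_distrib]
    have e4 : ∑ j, pd i (fun y => gcc L j y k) y * -((if i = j then 1 else 0) * ph1 L (N + 1) (cc L y) (y i)) =
        -(pd i (fun y => gcc L i y k) y * F i) := by
      rw [sum_eq_single i]
      · rw [if_pos rfl]; ring
      · intro b _ hb; rw [if_neg (Ne.symm hb)]; ring
      · intro hi; exact absurd (mem_univ i) hi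
    rw [e4, add_div, sum_div]
    have hFi := hF0 i
    have e5 : -(pd i (fun y => gcc L i y k) y * F i) / F i = -pd i (fun y => gcc L i y k) y := by
      field_simp
    rw [e5, sub_eq_add_neg, ← sum_neg_distrib]
    congr 1
    refine sum_congr rfl fun j _ => ?_
    field_simp
    ring
  have W1 : ∑ i, ph L (N + 1) (fun l => pd i (fun y => Gf L (N + 1) (cc L y) k l) y) (y i) / F i =
      ((N : ℂ) + 3) * Tf L (N + 1) (cc L y) k := by
    simp only [w1]
    rw [sum_sub_distrib, sum_neg_distrib]
    have e1 : ∑ i, pd i (fun y => gcc L i y k) y = -2 * Tf L (N + 1) (cc L y) k := h.lap hN hk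
    have e2 : ∑ i, ∑ j, gcc L j y k * (ph1 L (N + 1) (dcc L j y) (y i) / F i
        + (if i = j then 1 else 0) * ((ph2 L (N + 1) (cc L y) (y i) + ph1 L (N + 1) (dcc L i y) (y i)) / F i)) =
        ∑ j, gcc L j y k * LLf L j y := by
      rw [sum_comm]
      refine sum_congr rfl fun j _ => ?_
      rw [← mul_sum, sum_add_distrib]
      congr 1
      unfold LLf
      congr 1
      rw [sum_eq_single j]
      · rw [if_pos rfl, one_mul]
      · intro b _ hb; rw [if_neg hb, zero_mul]
      · intro hj; exact absurd (mem_univ j) hj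
    have e3 : ∑ j, gcc L j y k * LLf L j y = ∑ m, Xf L m y * dcc L m y k := by
      have e4 : ∀ j, gcc L j y k * LLf L j y = ∑ m, (gg N m j * LLf L j y) * dcc L m y k := by
        intro j
        rw [gcc_eq, sum_mul]
        exact sum_congr rfl fun m _ => by rw [gg_symm j m]; ring
      simp only [e4]
      rw [sum_comm]
      refine sum_congr rfl fun m _ => ?_
      rw [← sum_mul, h.grad_log hN m]
    rw [e1, e2, e3, h.M_val hk]
    ring
  -- second computation
  have w2 : ∀ i, ph L (N + 1) (fun l => pd i (fun y => Gf L (N + 1) (cc L y) k l) y) (y i) / F i =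
      ph L (N + 1) (fun l => ∑ m ∈ range (N + 1), drho L (N + 1) (cc L y) m k l * dcc L i y m) (y i) / F i
      + rho L (N + 1) (cc L y) k 0
      - dcc L i y k * (ph L (N + 1) (fun l => rho L (N + 1) (cc L y) l 0) (y i) / F i)
      - cc L y k * (ph L (N + 1) (fun l => ∑ m ∈ range (N + 1), drho L (N + 1) (cc L y) m l 0 * dcc L i y m) (y i) / F i)
      - rho L (N + 1) (cc L y) 0 0 * cc L y k := by
    intro i
    have e1 : ∀ l, pd i (fun y => Gf L (N + 1) (cc L y) k l) y =
        ∑ m ∈ range (N + 1), drho L (N + 1) (cc L y) m k l * dcc L i y m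
        - rho L (N + 1) (cc L y) k 0 * dcc L i y l
        - (∑ m ∈ range (N + 1), drho L (N + 1) (cc L y) m k 0 * dcc L i y m) * cc L y l
        - dcc L i y k * rho L (N + 1) (cc L y) l 0
        - cc L y k * ∑ m ∈ range (N + 1), drho L (N + 1) (cc L y) m l 0 * dcc L i y m
        + (∑ m ∈ range (N + 1), drho L (N + 1) (cc L y) m 0 0 * dcc L i y m * cc L y k
          + rho L (N + 1) (cc L y) 0 0 * dcc L i y k) * cc L y l
        + rho L (N + 1) (cc L y) 0 0 * cc L y k * dcc L i y l := by
      intro l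
      have d1 : DifferentiableAt ℂ (fun y => cc L y l * rho L (N + 1) (cc L y) k 0) y := (dc l).mul (dr k 0)
      have d2 : DifferentiableAt ℂ (fun y => cc L y k * rho L (N + 1) (cc L y) l 0) y := (dc k).mul (dr l 0)
      have d3 : DifferentiableAt ℂ (fun y => rho L (N + 1) (cc L y) 0 0 * cc L y k) y := (dr 0 0).mul (dc k)
      have d4 : DifferentiableAt ℂ (fun y => rho L (N + 1) (cc L y) 0 0 * cc L y k * cc L y l) y := d3.mul (dc l)
      have d5 : DifferentiableAt ℂ (fun y => rho L (N + 1) (cc L y) k l - cc L y l * rho L (N + 1) (cc L y) k 0) y :=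
        (dr k l).sub d1
      have d6 : DifferentiableAt ℂ (fun y => rho L (N + 1) (cc L y) k l - cc L y l * rho L (N + 1) (cc L y) k 0
        - cc L y k * rho L (N + 1) (cc L y) l 0) y := d5.sub d2
      unfold Gf
      rw [pd_add d6 d4, pd_sub d5 d2, pd_sub (dr k l) d1, pd_mul (dc l) (dr k 0), pd_mul (dc k) (dr l 0),
        pd_mul d3 (dc l), pd_mul (dr 0 0) (dc k)]
      simp only [hr.pd_rho]
      have hc : ∀ a, pd i (fun y => cc L y a) y = dcc L i y a := fun a => rfl
      simp only [hc]
      rw [← sum_mul]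
      ring
    have e2 : ph L (N + 1) (fun l => pd i (fun y => Gf L (N + 1) (cc L y) k l) y) (y i) =
        ph L (N + 1) (fun l => ∑ m ∈ range (N + 1), drho L (N + 1) (cc L y) m k l * dcc L i y m) (y i)
        - rho L (N + 1) (cc L y) k 0 * ph L (N + 1) (dcc L i y) (y i)
        - (∑ m ∈ range (N + 1), drho L (N + 1) (cc L y) m k 0 * dcc L i y m) * ph L (N + 1) (cc L y) (y i)
        - dcc L i y k * ph L (N + 1) (fun l => rho L (N + 1) (cc L y) l 0) (y i)
        - cc L y k * ph L (N + 1) (fun l => ∑ m ∈ range (N + 1), drho L (N + 1) (cc L y) m l 0 * dcc L i y m) (y i)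
        + (∑ m ∈ range (N + 1), drho L (N + 1) (cc L y) m 0 0 * dcc L i y m * cc L y k
          + rho L (N + 1) (cc L y) 0 0 * dcc L i y k) * ph L (N + 1) (cc L y) (y i)
        + rho L (N + 1) (cc L y) 0 0 * cc L y k * ph L (N + 1) (dcc L i y) (y i) := by
      simp only [e1]
      rw [ph_add, ph_add, ph_sub, ph_sub, ph_sub, ph_sub, ph_smul, ph_smul, ph_smul, ph_smul, ph_smul, ph_smul]
    rw [e2, hr.z0 i, hr.dcc_eval, if_pos rfl]
    have hFi := hF0 i
    simp only [hF] at hFi ⊢
    field_simp
    ring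
  have W2 : ∑ i, ph L (N + 1) (fun l => pd i (fun y => Gf L (N + 1) (cc L y) k l) y) (y i) / F i =
      (∑ m ∈ range (N + 1), drho L (N + 1) (cc L y) m k 0 * cc L y m
        - ∑ l ∈ range (N + 1), drho L (N + 1) (cc L y) l k l)
      + N * rho L (N + 1) (cc L y) k 0
      - (rho L (N + 1) (cc L y) 0 0 * cc L y k - rho L (N + 1) (cc L y) k 0)
      - cc L y k * (∑ m ∈ range (N + 1), drho L (N + 1) (cc L y) m 0 0 * cc L y m
        - ∑ l ∈ range (N + 1), drho L (N + 1) (cc L y) l l 0)
      - N * (rho L (N + 1) (cc L y) 0 0 * cc L y k) := by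
    simp only [w2]
    rw [sum_sub_distrib, sum_sub_distrib, sum_sub_distrib, sum_add_distrib, ← mul_sum,
      hr.contract h.f1 (fun m l => drho L (N + 1) (cc L y) m k l),
      hr.contract h.f1 (fun m l => drho L (N + 1) (cc L y) m l 0),
      hr.dual h.f1 (fun l => rho L (N + 1) (cc L y) l 0) k hk]
    simp only [sum_const, card_univ, Fintype.card_fin, nsmul_eq_mul]
  rw [W1] at W2
  rw [euler_rho, euler_rho] at W2
  have hT1 : ∑ l ∈ range (N + 1), drho L (N + 1) (cc L y) l k l = TrR L (N + 1) (cc L y) k := by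
    unfold TrR
    exact sum_congr rfl fun l _ => drho_symm _ _ _ _ _
  have hT0 : ∑ l ∈ range (N + 1), drho L (N + 1) (cc L y) l l 0 = TrR L (N + 1) (cc L y) 0 := rfl
  rw [hT1, hT0] at W2
  unfold Tf at W2
  linear_combination W2

end Pool.Agent.Helper487.ECM
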