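import Pool.Agent.Helper487.ECM.Trace
import Pool.Agent.Helper487.ECM.Scale

/-! The trace identity for all coefficients. -/

open Filter Topology Finset
open scoped Nat PeriodPair

namespace Pool.Agent.Helper487.ECM

variable {L : PeriodPair} {N : ℕ}

lemma exists_gen0 (L : PeriodPair) (_hN : 1 ≤ N) : ∃ y : Fin N → ℂ, Gen0 L y := by
  have ha : ∀ i, (ar N i : ℂ) ≠ 0 := fun i => by
    have : 0 < ar N i := by unfold ar; positivity
    exact_mod_cast this.ne'
  have hinj : Function.Injective fun i => (ar N i : ℂ) := by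
    intro i j hij
    have h3 : ar N i = ar N j := Complex.ofReal_injective hij
    unfold ar at h3
    have : (i : ℝ) = j := by linarith
    exact Fin.ext (by exact_mod_cast this)
  obtain ⟨t, ht, -⟩ := (eventually_reg_scale (L := L) ha hinj).exists
  obtain ⟨y, -, hr, hf⟩ := exists_all_f1 (L := L) (N := N) univ Set.univ isOpen_univ ⟨_, Set.mem_univ _, ht⟩
  have h1 : ∀ᶠ y' in 𝓝 y, Reg L y' ∧ ∀ i, ph1 L (N + 1) (cc L y') (y' i) ≠ 0 := by
    have h2 : ∀ᶠ y' in 𝓝 y, ∀ i, ph1 L (N + 1) (cc L y') (y' i) ≠ 0 := by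
      rw [eventually_all]
      intro i
      exact (analyticAt_ph1 (fun k _ => hr.analyticAt_cc k) (analyticAt_coord i y)
        (hr.hy i)).continuousAt.eventually_ne (hf i (mem_univ i))
    exact hr.eventually.and h2
  obtain ⟨U, hU, hUo, hyU⟩ := eventually_nhds_iff.mp h1
  obtain ⟨y', hy'U, g1, g2, g3, g4⟩ := (dense_of_mem_residual (res_gen (L := L) (N := N))).inter_open_nonempty
    U hUo ⟨y, hyU⟩
  exact ⟨y', (hU y' hy'U).1, g1, g2, (hU y' hy'U).2⟩

/-- the matrix of the trace -/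
noncomputable def tt (L : PeriodPair) (n k b : ℕ) : ℂ := ∑ m ∈ range n, (rr L n m b m k + rr L n b m m k)

lemma TrR_eq (n : ℕ) (c : ℕ → ℂ) (k : ℕ) : TrR L n c k = ∑ b ∈ range n, tt L n k b * c b := by
  unfold TrR drho tt
  rw [sum_comm]
  refine sum_congr rfl fun b _ => ?_
  rw [sum_mul]
  exact sum_congr rfl fun m _ => mul_comm _ _

theorem trace_const (L : PeriodPair) (hN : 1 ≤ N) :
    ∃ τ : ℂ, ∀ c : ℕ → ℂ, ∀ k < N + 1, TrR L (N + 1) c k = τ * c k := by
  obtain ⟨y0, hy0⟩ := exists_gen0 L hN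
  have hev := hy0.eventually
  -- pairing with the dual basis
  have hb : ∀ k < N + 1, ∀ z, ph L (N + 1) (fun l => if l = k then 1 else 0) z = bw L k z := by
    intro k hk z
    unfold ph
    rw [sum_eq_single k]
    · simp
    · intro b _ hb; simp [hb]
    · intro hk'; exact absurd (Finset.mem_range.mpr hk) hk'
  have hd : ∀ y : Fin N → ℂ, Gen0 L y → ∀ m, 1 ≤ m → m < N + 1 → ∀ b < N + 1,
      ∑ i, dcc L i y b * (bw L m (y i) / ph1 L (N + 1) (cc L y) (y i)) = -(if b = m then 1 else 0) := by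
    intro y hy m hm1 hm b hb'
    have := hy.toReg.dual hy.f1 (fun l => if l = m then 1 else 0) b hb'
    simp only [hb m hm] at this
    rw [this, if_neg (by omega : ¬ (0 = m))]; ring
  have hsum : ∀ y : Fin N → ℂ, Gen0 L y → ∀ m, 1 ≤ m → m < N + 1 → ∀ s : ℕ → ℂ,
      ∑ i, (∑ b ∈ range (N + 1), s b * dcc L i y b) * (bw L m (y i) / ph1 L (N + 1) (cc L y) (y i)) = -s m := by
    intro y hy m hm1 hm s
    simp only [sum_mul]
    rw [sum_comm]
    have e1 : ∀ b ∈ range (N + 1), ∑ i, s b * dcc L i y b * (bw L m (y i) / ph1 L (N + 1) (cc L y) (y i)) =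
        -(if b = m then s b else 0) := by
      intro b hb'
      have h1 := hd y hy m hm1 hm b (Finset.mem_range.mp hb')
      simp only [mul_assoc, ← mul_sum, h1]
      split_ifs <;> ring
    rw [sum_congr rfl e1, sum_neg_distrib, sum_ite_eq' (range (N + 1)) m, if_pos (Finset.mem_range.mpr hm)]
  have hpT : ∀ y : Fin N → ℂ, Gen0 L y → ∀ (i : Fin N) (s : ℕ → ℂ),
      pd i (fun y => ∑ b ∈ range (N + 1), s b * cc L y b) y = ∑ b ∈ range (N + 1), s b * dcc L i y b := by
    intro y hy i s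
    have dc : ∀ a, DifferentiableAt ℂ (fun y => cc L y a) y := fun a => (hy.toReg.analyticAt_cc a).differentiableAt
    rw [pd_sum _ fun b _ => (dc b).const_mul _]
    exact sum_congr rfl fun b _ => pd_const_mul _ (dc b)
  have hdT : ∀ y : Fin N → ℂ, Gen0 L y → ∀ (s : ℕ → ℂ),
      DifferentiableAt ℂ (fun y => ∑ b ∈ range (N + 1), s b * cc L y b) y := by
    intro y hy s
    exact DifferentiableAt.fun_sum fun b _ => ((hy.toReg.analyticAt_cc b).differentiableAt.const_mul _)
  set T0 : (Fin N → ℂ) → ℂ := fun y => ∑ b ∈ range (N + 1), tt L (N + 1) 0 b * cc L y b with hT0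
  -- first consequence
  have h1 : ∀ y : Fin N → ℂ, Gen0 L y → ∀ k < N + 1, ∀ m, 1 ≤ m → m < N + 1 →
      tt L (N + 1) k m = (if k = m then 1 else 0) * T0 y + cc L y k * tt L (N + 1) 0 m := by
    intro y hy k hk m hm1 hm
    have e1 : (fun y => ∑ b ∈ range (N + 1), tt L (N + 1) k b * cc L y b) =ᶠ[𝓝 y]
        fun y => cc L y k * T0 y := by
      filter_upwards [hy.eventually] with y' h'
      have := h'.trace hN hk
      rw [TrR_eq, TrR_eq] at this
      exact this
    have e2 : ∀ i, ∑ b ∈ range (N + 1), tt L (N + 1) k b * dcc L i y b =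
        dcc L i y k * T0 y + cc L y k * ∑ b ∈ range (N + 1), tt L (N + 1) 0 b * dcc L i y b := by
      intro i
      have e3 := pd_congr (i := i) e1
      rw [hpT y hy i (tt L (N + 1) k), pd_mul (hy.toReg.analyticAt_cc k).differentiableAt (hdT y hy _),
        hpT y hy i (tt L (N + 1) 0)] at e3
      exact e3
    have e4 := hsum y hy m hm1 hm (tt L (N + 1) k)
    simp only [e2, add_mul, sum_add_distrib] at e4
    have e5 : ∑ i, dcc L i y k * T0 y * (bw L m (y i) / ph1 L (N + 1) (cc L y) (y i)) =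
        T0 y * -(if k = m then 1 else 0) := by
      rw [← hd y hy m hm1 hm k hk, mul_sum]
      exact sum_congr rfl fun i _ => by ring
    have e6 : ∑ i, cc L y k * (∑ b ∈ range (N + 1), tt L (N + 1) 0 b * dcc L i y b) *
        (bw L m (y i) / ph1 L (N + 1) (cc L y) (y i)) = cc L y k * -tt L (N + 1) 0 m := by
      rw [← hsum y hy m hm1 hm (tt L (N + 1) 0), mul_sum]
      exact sum_congr rfl fun i _ => by ring
    rw [e5, e6] at e4
    linear_combination e4
  -- the off-diagonal coefficients vanish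
  have h2 : ∀ m, 1 ≤ m → m < N + 1 → tt L (N + 1) 0 m = 0 := by
    intro m hm1 hm
    have e1 : (fun y => 1 * T0 y + cc L y m * tt L (N + 1) 0 m) =ᶠ[𝓝 y0] fun _ => tt L (N + 1) m m := by
      filter_upwards [hev] with y' h'
      have := h1 y' h' m hm m hm1 hm
      rw [if_pos rfl] at this
      exact this.symm
    have e2 : ∀ i, ∑ b ∈ range (N + 1), tt L (N + 1) 0 b * dcc L i y0 b + dcc L i y0 m * tt L (N + 1) 0 m = 0 := by
      intro i
      have e3 := pd_congr (i := i) e1
      have dc : DifferentiableAt ℂ (fun y => cc L y m) y0 := (hy0.toReg.analyticAt_cc m).differentiableAt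
      rw [pd_const, pd_add ((hdT y0 hy0 _).const_mul _) (dc.mul_const _), pd_const_mul _ (hdT y0 hy0 _),
        pd_mul dc (differentiableAt_const _), pd_const, hpT y0 hy0 i, mul_zero, add_zero, one_mul] at e3
      exact e3
    have e4 : ∑ i, (∑ b ∈ range (N + 1), tt L (N + 1) 0 b * dcc L i y0 b + dcc L i y0 m * tt L (N + 1) 0 m) *
        (bw L m (y0 i) / ph1 L (N + 1) (cc L y0) (y0 i)) = 0 := sum_eq_zero fun i _ => by rw [e2 i, zero_mul]
    simp only [add_mul, sum_add_distrib] at e4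
    rw [hsum y0 hy0 m hm1 hm] at e4
    have e5 : ∑ i, dcc L i y0 m * tt L (N + 1) 0 m * (bw L m (y0 i) / ph1 L (N + 1) (cc L y0) (y0 i)) =
        tt L (N + 1) 0 m * -1 := by
      have := hd y0 hy0 m hm1 hm m hm
      rw [if_pos rfl] at this
      rw [← this, mul_sum]
      exact sum_congr rfl fun i _ => by ring
    rw [e5] at e4
    have e6 : (2 : ℂ) * tt L (N + 1) 0 m = 0 := by linear_combination (-1 : ℂ) * e4
    exact (mul_eq_zero.mp e6).resolve_left two_ne_zero
  have hT0v : ∀ y : Fin N → ℂ, T0 y = tt L (N + 1) 0 0 := by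
    intro y
    rw [hT0]
    simp only []
    rw [sum_eq_single 0]
    · rw [cc_zero, mul_one]
    · intro b hb' hb0
      rw [h2 b (by omega) (Finset.mem_range.mp hb'), zero_mul]
    · intro h; simp at h
  have h3 : ∀ k < N + 1, ∀ m, 1 ≤ m → m < N + 1 →
      tt L (N + 1) k m = (if k = m then 1 else 0) * tt L (N + 1) 0 0 := by
    intro k hk m hm1 hm
    rw [h1 y0 hy0 k hk m hm1 hm, h2 m hm1 hm, hT0v]; ring
  have h4 : ∀ k, 1 ≤ k → k < N + 1 → tt L (N + 1) k 0 = 0 := by
    intro k hk1 hk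
    have e1 := hy0.trace hN hk
    rw [TrR_eq, TrR_eq] at e1
    have e2 : ∑ b ∈ range (N + 1), tt L (N + 1) 0 b * cc L y0 b = tt L (N + 1) 0 0 := hT0v y0
    rw [e2, sum_range_succ', cc_zero, mul_one] at e1
    have e3 : ∑ b ∈ range N, tt L (N + 1) k (b + 1) * cc L y0 (b + 1) = tt L (N + 1) 0 0 * cc L y0 k := by
      rw [sum_eq_single (k - 1)]
      · rw [show k - 1 + 1 = k by omega, h3 k hk k hk1 hk, if_pos rfl]; ring
      · intro b hb' hbk
        rw [h3 k hk (b + 1) (by omega) (by have := Finset.mem_range.mp hb'; omega), if_neg (by omega)]; ring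
      · intro h; exact absurd (Finset.mem_range.mpr (by omega)) h
    rw [e3] at e1
    linear_combination e1
  refine ⟨tt L (N + 1) 0 0, fun c k hk => ?_⟩
  rw [TrR_eq]
  rcases Nat.eq_zero_or_pos k with rfl | hk1
  · rw [sum_eq_single 0]
    · intro b hb' hb0
      rw [h2 b (by omega) (Finset.mem_range.mp hb'), zero_mul]
    · intro h; simp at h
  · rw [sum_eq_single k]
    · rw [h3 k hk k hk1 hk, if_pos rfl]; ring
    · intro b hb' hbk
      rcases Nat.eq_zero_or_pos b with rfl | hb1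
      · rw [h4 k hk1 hk, zero_mul]
      · rw [h3 k hk b hb1 (Finset.mem_range.mp hb'), if_neg (Ne.symm hbk)]; ring
    · intro h; exact absurd (Finset.mem_range.mpr hk) h

end Pool.Agent.Helper487.ECM
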