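import Pool.Agent.Helper487.ECM.Dens

/-! Uniqueness of the parameter of the representation. -/

open Filter Topology Finset
open scoped Nat PeriodPair

namespace Pool.Agent.Helper487.ECM

variable {L : PeriodPair} {N : ℕ}

/-- first order data of the test function -/
noncomputable def T1 (o : Fin N) (q : ℂ) : Fin N → ℂ := fun a => if a = o then q else 0
/-- second order data of the test function -/
noncomputable def T2 (o : Fin N) (p : ℂ) : Fin N → Fin N → ℂ := fun a b => if a = o then (if b = o then p else 0) else 0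

lemma T2_symm (o : Fin N) (p : ℂ) (a b : Fin N) : T2 o p a b = T2 o p b a := by
  unfold T2; split_ifs <;> rfl

/-- the test function -/
noncomputable def TF (o : Fin N) (p q : ℂ) (u0 : Fin N → ℂ) (u : Fin N → ℂ) : ℂ :=
  q * (u o - u0 o) + p / 2 * ((u o - u0 o) * (u o - u0 o))

lemma TF_zero (o : Fin N) (p q : ℂ) (u0 : Fin N → ℂ) : TF o p q u0 u0 = 0 := by unfold TF; ring

lemma pd_TF (o : Fin N) (p q : ℂ) (u0 : Fin N → ℂ) (a : Fin N) (u : Fin N → ℂ) :
    pd a (TF o p q u0) u = (if a = o then 1 else 0) * (q + p * (u o - u0 o)) := by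
  have d0 : DifferentiableAt ℂ (fun u : Fin N → ℂ => u o) u := (analyticAt_coord o u).differentiableAt
  have d1 : DifferentiableAt ℂ (fun u : Fin N → ℂ => u o - u0 o) u := d0.sub_const _
  have d2 : DifferentiableAt ℂ (fun u : Fin N → ℂ => (u o - u0 o) * (u o - u0 o)) u := d1.mul d1
  have e1 : pd a (fun u : Fin N → ℂ => u o - u0 o) u = if a = o then 1 else 0 := by
    rw [pd_sub d0 (differentiableAt_const _), pd_const, pd_coord, sub_zero]
    simp only [eq_comm]
  unfold TF
  rw [pd_add (d1.const_mul q) (d2.const_mul (p / 2)), pd_const_mul _ d1, pd_const_mul _ d2, pd_mul d1 d1, e1]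
  ring

lemma analyticAt_TF (o : Fin N) (p q : ℂ) (u0 u : Fin N → ℂ) : AnalyticAt ℂ (TF o p q u0) u := by
  have h1 : AnalyticAt ℂ (fun u : Fin N → ℂ => u o - u0 o) u := (analyticAt_coord o u).sub analyticAt_const
  exact (analyticAt_const.mul h1).add (analyticAt_const.mul (h1.mul h1))

lemma pd_TF_base (o : Fin N) (p q : ℂ) (u0 : Fin N → ℂ) : (fun a => pd a (TF o p q u0) u0) = T1 o q := by
  funext a
  rw [pd_TF]; unfold T1
  split_ifs <;> ring

lemma pd2_TF_base (o : Fin N) (p q : ℂ) (u0 : Fin N → ℂ) :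
    (fun a b => pd a (pd b (TF o p q u0)) u0) = T2 o p := by
  funext a b
  have e : pd b (TF o p q u0) = fun u => (if b = o then 1 else 0) * (q + p * (u o - u0 o)) :=
    funext fun u => pd_TF o p q u0 b u
  have d0 : DifferentiableAt ℂ (fun u : Fin N → ℂ => u o) u0 := (analyticAt_coord o u0).differentiableAt
  have d1 : DifferentiableAt ℂ (fun u : Fin N → ℂ => u o - u0 o) u0 := d0.sub_const _
  have d2 : DifferentiableAt ℂ (fun u : Fin N → ℂ => q + p * (u o - u0 o)) u0 :=
    (d1.const_mul p).const_add q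
  have e1 : pd a (fun u : Fin N → ℂ => u o - u0 o) u0 = if a = o then 1 else 0 := by
    rw [pd_sub d0 (differentiableAt_const _), pd_const, pd_coord, sub_zero]
    simp only [eq_comm]
  rw [e, pd_const_mul _ d2, pd_add (differentiableAt_const _) (d1.const_mul p), pd_const, pd_const_mul _ d1, e1]
  unfold T2
  split_ifs <;> ring

/-! ### analyticity -/

lemma analyticAt_uh (i : Fin (N + 1)) (u : Fin N → ℂ) : AnalyticAt ℂ (fun u : Fin N → ℂ => uh u i) u := by
  refine Fin.cases ?_ (fun i => ?_) i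
  · simp only [uh_zero]; exact analyticAt_const
  · simp only [uh_succ]; exact analyticAt_coord i u

lemma analyticAt_D1 (κ F0 : ℂ) (F1 : Fin N → ℂ) (i : Fin (N + 1)) (u : Fin N → ℂ) :
    AnalyticAt ℂ (fun u : Fin N → ℂ => D1 κ u F0 F1 i) u := by
  refine Fin.cases ?_ (fun i => ?_) i
  · simp only [D1_zero]
    exact (Finset.analyticAt_fun_sum _ fun j _ => (analyticAt_coord j u).mul analyticAt_const).neg.add analyticAt_const
  · simp only [D1_succ]; exact analyticAt_const

lemma analyticAt_D2 (κ F0 : ℂ) (F1 : Fin N → ℂ) (F2 : Fin N → Fin N → ℂ) (i j : Fin (N + 1)) (u : Fin N → ℂ) :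
    AnalyticAt ℂ (fun u : Fin N → ℂ => D2 κ u F0 F1 F2 i j) u := by
  have c := fun j => analyticAt_coord (N := N) j u
  refine Fin.cases ?_ (fun i => ?_) i
  · refine Fin.cases ?_ (fun j => ?_) j
    · simp only [D2_zero_zero]
      exact (analyticAt_const.sub (analyticAt_const.mul
        (Finset.analyticAt_fun_sum _ fun j _ => (c j).mul analyticAt_const))).add
        (Finset.analyticAt_fun_sum _ fun a _ => Finset.analyticAt_fun_sum _ fun b _ =>
          ((c a).mul (c b)).mul analyticAt_const)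
    · simp only [D2_zero_succ]
      exact analyticAt_const.sub (Finset.analyticAt_fun_sum _ fun a _ => (c a).mul analyticAt_const)
  · refine Fin.cases ?_ (fun j => ?_) j
    · simp only [D2_succ_zero]
      exact analyticAt_const.sub (Finset.analyticAt_fun_sum _ fun a _ => (c a).mul analyticAt_const)
    · simp only [D2_succ_succ]; exact analyticAt_const

lemma analyticAt_acv (κ F0 : ℂ) (F1 : Fin N → ℂ) (F2 : Fin N → Fin N → ℂ) (i j k l : Fin (N + 1))
    (u : Fin N → ℂ) : AnalyticAt ℂ (fun u : Fin N → ℂ => acv κ u F0 F1 F2 i j k l) u := by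
  unfold acv
  exact ((analyticAt_const.mul (((analyticAt_uh i u).mul (analyticAt_uh k u)).mul
    (analyticAt_D2 κ F0 F1 F2 j l u))).add (analyticAt_const.mul ((analyticAt_uh i u).mul
      (analyticAt_D1 κ F0 F1 l u)))).add (analyticAt_const.mul ((analyticAt_uh k u).mul
      (analyticAt_D1 κ F0 F1 j u)))

lemma analyticAt_opcU (γ : ℂ) (F2 : Fin N → Fin N → ℂ) (F1 : Fin N → ℂ) (F0 : ℂ) (u : Fin N → ℂ) :
    AnalyticAt ℂ (fun u : Fin N → ℂ => opc L N γ (cU u) F2 F1 F0) u := by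
  have hp : ∀ p : MvPolynomial (Fin N) ℂ, AnalyticAt ℂ (fun u : Fin N → ℂ => MvPolynomial.eval u p) u :=
    fun p => AnalyticOnNhd.eval_continuousLinearMap (ContinuousLinearMap.id ℂ (Fin N → ℂ)) p u (Set.mem_univ u)
  simp only [opc_eq_eval]
  exact ((Finset.analyticAt_fun_sum _ fun a _ => Finset.analyticAt_fun_sum _ fun b _ =>
    (hp _).mul analyticAt_const).add (Finset.analyticAt_fun_sum _ fun a _ => (hp _).mul analyticAt_const)).add
    ((hp _).mul analyticAt_const)

/-! ### limits -/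

section limits

variable (o : Fin N)

lemma lim_uh (i : Fin (N + 1)) :
    Tendsto (fun s : ℂ => s * uh (Pi.single o s⁻¹ : Fin N → ℂ) i) (𝓝[≠] 0) (𝓝 (if i = o.succ then 1 else 0)) := by
  have h0 : Tendsto (fun z : ℂ => z) (𝓝[≠] 0) (𝓝 0) := tendsto_id.mono_left nhdsWithin_le_nhds
  refine Fin.cases ?_ (fun i => ?_) i
  · rw [if_neg (Fin.succ_ne_zero o).symm]
    simp only [uh_zero, mul_one]; exact h0
  · simp only [uh_succ, Fin.succ_inj]
    by_cases h : i = o
    · subst h
      rw [if_pos rfl]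
      refine tendsto_const_nhds.congr' ?_
      filter_upwards [self_mem_nhdsWithin] with s hs
      rw [Pi.single_eq_same, mul_inv_cancel₀ hs]
    · rw [if_neg h]
      simp only [Pi.single_eq_of_ne h, mul_zero]
      exact tendsto_const_nhds

lemma lim_cU (k : Fin (N + 1)) :
    Tendsto (fun s : ℂ => s * cU (Pi.single o s⁻¹ : Fin N → ℂ) k) (𝓝[≠] 0) (𝓝 (if k = o.succ then -1 else 0)) := by
  have h := (lim_uh o k).const_mul (sg k)
  have e : sg k * (if k = o.succ then (1:ℂ) else 0) = if k = o.succ then -1 else 0 := by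
    split_ifs with h1
    · rw [h1, sg_succ]; ring
    · ring
  rw [e] at h
  refine h.congr fun s => ?_
  rw [cU_eq]; ring

lemma lim_rho (k l : ℕ) :
    Tendsto (fun s : ℂ => s ^ 2 * rho L (N + 1) (cU (Pi.single o s⁻¹ : Fin N → ℂ)) k l) (𝓝[≠] 0)
      (𝓝 (rr L (N + 1) (o + 1) (o + 1) k l)) := by
  have h1 : ∀ a b : Fin (N + 1), Tendsto (fun s : ℂ => (s * cU (Pi.single o s⁻¹ : Fin N → ℂ) a) *
      (s * cU (Pi.single o s⁻¹ : Fin N → ℂ) b) * rr L (N + 1) a b k l) (𝓝[≠] 0)
      (𝓝 ((if a = o.succ then -1 else 0) * (if b = o.succ then -1 else 0) * rr L (N + 1) a b k l)) :=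
    fun a b => ((lim_cU o a).mul (lim_cU o b)).mul_const _
  have h2 := tendsto_finsetSum univ fun (a : Fin (N + 1)) (_ : a ∈ univ) =>
    tendsto_finsetSum univ fun (b : Fin (N + 1)) (_ : b ∈ univ) => h1 a b
  have e : ∑ a : Fin (N + 1), ∑ b : Fin (N + 1), (if a = o.succ then (-1:ℂ) else 0) *
      (if b = o.succ then -1 else 0) * rr L (N + 1) a b k l = rr L (N + 1) (o + 1) (o + 1) k l := by
    rw [sum_eq_single o.succ]
    · rw [sum_eq_single o.succ]
      · simp
      · intro b _ hb; rw [if_neg hb]; ring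
      · intro h; exact absurd (mem_univ _) h
    · intro a _ ha
      refine sum_eq_zero fun b _ => ?_
      rw [if_neg ha]; ring
    · intro h; exact absurd (mem_univ _) h
  rw [e] at h2
  refine h2.congr fun s => ?_
  unfold rho
  rw [Finset.sum_range, mul_sum]
  refine sum_congr rfl fun a _ => ?_
  rw [Finset.sum_range, mul_sum]
  exact sum_congr rfl fun b _ => by ring

lemma lim_D1 (κ q : ℂ) (i : Fin (N + 1)) :
    Tendsto (fun s : ℂ => s ^ 2 * D1 κ (Pi.single o s⁻¹ : Fin N → ℂ) 0 (T1 o (s⁻¹ * q)) i) (𝓝[≠] 0)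
      (𝓝 (if i = 0 then -q else 0)) := by
  have h0 : Tendsto (fun z : ℂ => z) (𝓝[≠] 0) (𝓝 0) := tendsto_id.mono_left nhdsWithin_le_nhds
  refine Fin.cases ?_ (fun i => ?_) i
  · rw [if_pos rfl]
    refine tendsto_const_nhds.congr' ?_
    filter_upwards [self_mem_nhdsWithin] with s hs
    have hs' : s ≠ 0 := hs
    rw [D1_zero, sum_eq_single o]
    · rw [Pi.single_eq_same]; unfold T1; rw [if_pos rfl]; field_simp; ring
    · intro j _ hj; rw [Pi.single_eq_of_ne hj, zero_mul]
    · intro h; exact absurd (mem_univ _) h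
  · rw [if_neg (Fin.succ_ne_zero i)]
    simp only [D1_succ, T1]
    by_cases h : i = o
    · simp only [if_pos h]
      have h1 : Tendsto (fun s : ℂ => s * q) (𝓝[≠] 0) (𝓝 (0 * q)) := h0.mul_const q
      rw [zero_mul] at h1
      refine h1.congr' ?_
      filter_upwards [self_mem_nhdsWithin] with s hs
      have hs' : s ≠ 0 := hs
      field_simp
    · simp only [if_neg h, mul_zero]; exact tendsto_const_nhds

lemma lim_D2 (κ p q : ℂ) (i j : Fin (N + 1)) :
    Tendsto (fun s : ℂ => s ^ 2 * D2 κ (Pi.single o s⁻¹ : Fin N → ℂ) 0 (T1 o (s⁻¹ * q)) (T2 o p) i j) (𝓝[≠] 0)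
      (𝓝 (if i = 0 ∧ j = 0 then p - 2 * (κ - 1) * q else 0)) := by
  have h0 : Tendsto (fun z : ℂ => z) (𝓝[≠] 0) (𝓝 0) := tendsto_id.mono_left nhdsWithin_le_nhds
  have hoff : ∀ a : Fin N, Tendsto (fun s : ℂ => s ^ 2 * ((κ - 1) * T1 o (s⁻¹ * q) a -
      ∑ x, (Pi.single o s⁻¹ : Fin N → ℂ) x * T2 o p x a)) (𝓝[≠] 0) (𝓝 0) := by
    intro a
    have h1 : Tendsto (fun s : ℂ => s * ((κ - 1) * (if a = o then q else 0) - (if a = o then p else 0)))
        (𝓝[≠] 0) (𝓝 (0 * ((κ - 1) * (if a = o then q else 0) - (if a = o then p else 0)))) := h0.mul_const _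
    rw [zero_mul] at h1
    refine h1.congr' ?_
    filter_upwards [self_mem_nhdsWithin] with s hs
    have hs' : s ≠ 0 := hs
    rw [sum_eq_single o]
    · rw [Pi.single_eq_same]; unfold T1 T2; rw [if_pos rfl]
      split_ifs
      · field_simp
      · ring
    · intro j _ hj; rw [Pi.single_eq_of_ne hj, zero_mul]
    · intro h; exact absurd (mem_univ _) h
  refine Fin.cases ?_ (fun i => ?_) i
  · refine Fin.cases ?_ (fun j => ?_) j
    · rw [if_pos ⟨rfl, rfl⟩]
      refine tendsto_const_nhds.congr' ?_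
      filter_upwards [self_mem_nhdsWithin] with s hs
      have hs' : s ≠ 0 := hs
      have e1 : ∑ j, (Pi.single o s⁻¹ : Fin N → ℂ) j * T1 o (s⁻¹ * q) j = s⁻¹ * (s⁻¹ * q) := by
        rw [sum_eq_single o]
        · rw [Pi.single_eq_same]; unfold T1; rw [if_pos rfl]
        · intro j _ hj; rw [Pi.single_eq_of_ne hj, zero_mul]
        · intro h; exact absurd (mem_univ _) h
      have e2 : ∑ a, ∑ b, (Pi.single o s⁻¹ : Fin N → ℂ) a * (Pi.single o s⁻¹ : Fin N → ℂ) b * T2 o p a b =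
          s⁻¹ * s⁻¹ * p := by
        rw [sum_eq_single o]
        · rw [sum_eq_single o]
          · rw [Pi.single_eq_same]; unfold T2; rw [if_pos rfl, if_pos rfl]
          · intro b _ hb; rw [Pi.single_eq_of_ne hb]; ring
          · intro h; exact absurd (mem_univ _) h
        · intro a _ ha
          refine sum_eq_zero fun b _ => ?_
          rw [Pi.single_eq_of_ne ha]; ring
        · intro h; exact absurd (mem_univ _) h
      rw [D2_zero_zero, e1, e2]
      field_simp
      ring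
    · rw [if_neg (fun h => Fin.succ_ne_zero j h.2)]
      simp only [D2_zero_succ]
      exact hoff j
  · refine Fin.cases ?_ (fun j => ?_) j
    · rw [if_neg (fun h => Fin.succ_ne_zero i h.1)]
      simp only [D2_succ_zero, T2_symm o p i]
      exact hoff i
    · rw [if_neg (fun h => Fin.succ_ne_zero i h.1)]
      simp only [D2_succ_succ]
      have h1 : Tendsto (fun s : ℂ => s ^ 2 * T2 o p i j) (𝓝[≠] 0) (𝓝 (0 ^ 2 * T2 o p i j)) :=
        (h0.pow 2).mul_const _
      rw [zero_pow two_ne_zero, zero_mul] at h1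
      exact h1

lemma lim_S2 (κ p q : ℂ) :
    Tendsto (fun s : ℂ => s ^ 4 * S2 L κ (Pi.single o s⁻¹ : Fin N → ℂ) 0 (T1 o (s⁻¹ * q)) (T2 o p)) (𝓝[≠] 0)
      (𝓝 ((p - 2 * (κ - 1) * q) * rr L (N + 1) (o + 1) (o + 1) 0 0)) := by
  have h1 : ∀ j l : Fin (N + 1), Tendsto (fun s : ℂ => sg j * sg l *
      (s ^ 2 * D2 κ (Pi.single o s⁻¹ : Fin N → ℂ) 0 (T1 o (s⁻¹ * q)) (T2 o p) j l) *
      (s ^ 2 * rho L (N + 1) (cU (Pi.single o s⁻¹ : Fin N → ℂ)) j l)) (𝓝[≠] 0)
      (𝓝 (sg j * sg l * (if j = 0 ∧ l = 0 then p - 2 * (κ - 1) * q else 0) *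
        rr L (N + 1) (o + 1) (o + 1) j l)) :=
    fun j l => ((lim_D2 o κ p q j l).const_mul _).mul (lim_rho o j l)
  have h2 := tendsto_finsetSum univ fun (a : Fin (N + 1)) (_ : a ∈ univ) =>
    tendsto_finsetSum univ fun (b : Fin (N + 1)) (_ : b ∈ univ) => h1 a b
  have e : ∑ j : Fin (N + 1), ∑ l : Fin (N + 1), sg j * sg l * (if j = 0 ∧ l = 0 then p - 2 * (κ - 1) * q else 0) *
        rr L (N + 1) (o + 1) (o + 1) j l = (p - 2 * (κ - 1) * q) * rr L (N + 1) (o + 1) (o + 1) 0 0 := by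
    rw [sum_eq_single 0]
    · rw [sum_eq_single 0]
      · rw [if_pos ⟨rfl, rfl⟩, sg_zero]; simp
      · intro b _ hb; rw [if_neg (fun h => hb h.2)]; ring
      · intro h; exact absurd (mem_univ _) h
    · intro a _ ha
      refine sum_eq_zero fun b _ => ?_
      rw [if_neg (fun h => ha h.1)]; ring
    · intro h; exact absurd (mem_univ _) h
  rw [e] at h2
  refine h2.congr fun s => ?_
  unfold S2
  rw [mul_sum]
  refine sum_congr rfl fun j _ => ?_
  rw [mul_sum]
  exact sum_congr rfl fun l _ => by ring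

lemma lim_acv (κ p q : ℂ) (i j k l : Fin (N + 1)) :
    Tendsto (fun s : ℂ => s ^ 4 * acv κ (Pi.single o s⁻¹ : Fin N → ℂ) 0 (T1 o (s⁻¹ * q)) (T2 o p) i j k l) (𝓝[≠] 0)
      (𝓝 (2 * ((if i = o.succ then 1 else 0) * (if k = o.succ then 1 else 0) *
        (if j = 0 ∧ l = 0 then p - 2 * (κ - 1) * q else 0)))) := by
  have h0 : Tendsto (fun z : ℂ => z) (𝓝[≠] 0) (𝓝 0) := tendsto_id.mono_left nhdsWithin_le_nhds
  have h1 := (((lim_uh o i).mul (lim_uh o k)).mul (lim_D2 o κ p q j l)).const_mul 2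
  have h2 := (((h0.mul (lim_uh o i)).mul (lim_D1 o κ q l)).const_mul (if k = j then 1 else 0))
  have h3 := (((h0.mul (lim_uh o k)).mul (lim_D1 o κ q j)).const_mul (if i = l then 1 else 0))
  have h4 := (h1.add h2).add h3
  simp only [zero_mul, mul_zero, add_zero] at h4
  refine h4.congr fun s => ?_
  unfold acv; ring

end limits

/-- uniqueness of the parameter when `g₃ ≠ 0` -/
theorem anti_unique (hN : 1 ≤ N) (β γ κ : ℂ) (hg : L.g₃ ≠ 0)
    (h : ∃ lam : Fin (N + 1) → Fin (N + 1) → Fin (N + 1) → Fin (N + 1) → ℂ, ∀ y ∈ UU L N, ∀ E, IsPow L γ E y →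
      ∀ F : (Fin N → ℂ) → ℂ, AnalyticAt ℂ F (uu L y) →
      (E y)⁻¹ * HH L β (fun y' => E y' * F (uu L y')) y =
        ∑ i, ∑ j, ∑ k, ∑ l, lam i j k l *
          (gen κ i j (gen κ k l F) (uu L y) + gen κ k l (gen κ i j F) (uu L y))) :
    κ = -(γ * ((N : ℂ) + 1)) := by
  have hγ := anti_only_if (L := L) hN β γ κ h
  obtain ⟨lam, h⟩ := h
  obtain ⟨τ, hτ⟩ := trace_const L hN
  obtain ⟨κ0, hκ0⟩ : ∃ κ0, κ0 = -(γ * ((N : ℂ) + 1)) := ⟨_, rfl⟩
  rw [← hκ0]
  set o : Fin N := ⟨0, by omega⟩ with ho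
  -- identity for all u
  have h1 : ∀ (p q : ℂ) (u : Fin N → ℂ), opc L N γ (cU u) (T2 o p) (T1 o q) 0 -
      ∑ i, ∑ j, ∑ k, ∑ l, lam i j k l * acv κ u 0 (T1 o q) (T2 o p) i j k l = 0 := by
    intro p q
    apply identity_of_UU (L := L) hN
    · intro u _
      exact (analyticAt_opcU γ _ _ _ u).sub (Finset.analyticAt_fun_sum _ fun i _ =>
        Finset.analyticAt_fun_sum _ fun j _ => Finset.analyticAt_fun_sum _ fun k _ =>
        Finset.analyticAt_fun_sum _ fun l _ => analyticAt_const.mul (analyticAt_acv κ _ _ _ i j k l u))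
    · intro y hy
      obtain ⟨E, hE⟩ := exists_pow (UU_reg hy) hy.2.2.1 γ
      have hF := analyticAt_TF o p q (uu L y) (uu L y)
      have e1 := h y hy E hE (TF o p q (uu L y)) hF
      rw [oper_UU hy hN β γ hE hF, hγ, sub_self, zero_mul, zero_mul, add_zero, pd_TF_base, pd2_TF_base,
        TF_zero] at e1
      have e1' : opc L N γ (cU (uu L y)) (T2 o p) (T1 o q) 0 = _ := e1
      rw [e1', sub_eq_zero]
      refine sum_congr rfl fun i _ => sum_congr rfl fun j _ => sum_congr rfl fun k _ => sum_congr rfl fun l _ => ?_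
      rw [anti_eq κ i j k l hF, pd_TF_base, pd2_TF_base, TF_zero]
      rfl
  have h2 : ∀ (p q : ℂ) (u : Fin N → ℂ), S2 L κ0 u 0 (T1 o q) (T2 o p) +
      ∑ i, ∑ j, ∑ k, ∑ l, lam i j k l * acv κ u 0 (T1 o q) (T2 o p) i j k l = 0 := by
    intro p q u
    have e1 := h1 p q u
    have h0 : ∀ k < N + 1, TrR L (N + 1) (cU u) k = τ * cU u k := fun k hk => hτ _ k hk
    rw [opc_eq_S2 (τ := τ) γ u (by rw [h0 0 (by omega), cU_zero, mul_one]) 0 (T1 o q) (T2_symm o p), ← hκ0,
      mul_zero, add_zero] at e1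
    linear_combination -e1
  -- limits
  have h3 : ∀ p q : ℂ, (p - 2 * (κ0 - 1) * q) * rr L (N + 1) (o + 1) (o + 1) 0 0 +
      lam o.succ 0 o.succ 0 * (2 * (p - 2 * (κ - 1) * q)) = 0 := by
    intro p q
    have l1 := lim_S2 (L := L) o κ0 p q
    have l2 := tendsto_finsetSum univ fun (i : Fin (N + 1)) (_ : i ∈ univ) =>
      tendsto_finsetSum univ fun (j : Fin (N + 1)) (_ : j ∈ univ) =>
      tendsto_finsetSum univ fun (k : Fin (N + 1)) (_ : k ∈ univ) =>
      tendsto_finsetSum univ fun (l : Fin (N + 1)) (_ : l ∈ univ) => (lim_acv o κ p q i j k l).const_mul (lam i j k l)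
    have l3 := l1.add l2
    have e : ∑ i, ∑ j, ∑ k, ∑ l, lam i j k l * (2 * ((if i = o.succ then (1:ℂ) else 0) *
        (if k = o.succ then 1 else 0) * (if j = 0 ∧ l = 0 then p - 2 * (κ - 1) * q else 0))) =
        lam o.succ 0 o.succ 0 * (2 * (p - 2 * (κ - 1) * q)) := by
      rw [sum_eq_single o.succ]
      · rw [sum_eq_single 0]
        · rw [sum_eq_single o.succ]
          · rw [sum_eq_single 0]
            · simp
            · intro l _ hl; simp [hl]
            · intro h; exact absurd (mem_univ _) h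
          · intro k _ hk; simp [hk]
          · intro h; exact absurd (mem_univ _) h
        · intro j _ hj; simp [hj]
        · intro h; exact absurd (mem_univ _) h
      · intro i _ hi; simp [hi]
      · intro h; exact absurd (mem_univ _) h
    rw [e] at l3
    refine tendsto_nhds_unique l3 (tendsto_const_nhds.congr fun s => ?_)
    have e2 := h2 p (s⁻¹ * q) (Pi.single o s⁻¹)
    have e3 : ∑ i, ∑ j, ∑ k, ∑ l, lam i j k l * (s ^ 4 * acv κ (Pi.single o s⁻¹ : Fin N → ℂ) 0
        (T1 o (s⁻¹ * q)) (T2 o p) i j k l) = s ^ 4 * ∑ i, ∑ j, ∑ k, ∑ l, lam i j k l *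
          acv κ (Pi.single o s⁻¹ : Fin N → ℂ) 0 (T1 o (s⁻¹ * q)) (T2 o p) i j k l := by
      simp only [mul_sum]
      refine sum_congr rfl fun i _ => sum_congr rfl fun j _ => sum_congr rfl fun k _ => sum_congr rfl fun l _ => ?_
      ring
    rw [e3, ← mul_add, e2, mul_zero]
  have hr : rr L (N + 1) (o + 1) (o + 1) 0 0 ≠ 0 := by
    have : rr L (N + 1) (o + 1) (o + 1) 0 0 = -(L.g₃ / 2) := rr_val (L := L) (by omega)
    rw [this]
    exact neg_ne_zero.mpr (div_ne_zero hg two_ne_zero)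
  have a1 := h3 1 0
  have a2 := h3 0 1
  have a3 : (κ - κ0) * rr L (N + 1) (o + 1) (o + 1) 0 0 = 0 := by
    linear_combination (κ - 1) * a1 + a2 / 2
  exact sub_eq_zero.mp ((mul_eq_zero.mp a3).resolve_right hr)

end Pool.Agent.Helper487.ECM
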