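import Pool.Agent.Helper487.ECM.Final

/-! One structure constant of the kernel. -/

open Filter Topology Finset
open scoped Nat PeriodPair

namespace Pool.Agent.Helper487.ECM

variable {L : PeriodPair} {N : ℕ}

/-- coefficient sequence of the explicit form -/
noncomputable def eW (A B C g w : ℂ) (L : PeriodPair) : ℕ → ℂ
  | 0 => C * bw L 1 w - g
  | 1 => B * bw L 3 w + C
  | 2 => A * bw L 2 w
  | 3 => B * bw L 1 w
  | _ => 0

lemma ph_eW (A B C g w z : ℂ) (n : ℕ) : ph L (n + 4) (eW A B C g w L) z =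
    A * (bw L 2 z * bw L 2 w) + B * (bw L 3 z * bw L 1 w + bw L 1 z * bw L 3 w) +
      C * (bw L 0 z * bw L 1 w + bw L 1 z * bw L 0 w) - g := by
  unfold ph
  rw [sum_range_succ', sum_range_succ', sum_range_succ', sum_range_succ']
  simp only [zero_mul, sum_const_zero, eW, bw_zero]
  ring

lemma ph_extend (n m : ℕ) (c : ℕ → ℂ) (z : ℂ) :
    ph L (n + m) (fun k => if k < n then c k else 0) z = ph L n c z := by
  unfold ph
  rw [sum_range_add]
  have e1 : ∑ x ∈ range m, (if n + x < n then c (n + x) else 0) * bw L (n + x) z = 0 :=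
    sum_eq_zero fun x _ => by rw [if_neg (by omega), zero_mul]
  have e2 : ∑ x ∈ range n, (if x < n then c x else 0) * bw L x z = ∑ x ∈ range n, c x * bw L x z :=
    sum_congr rfl fun x hx => by rw [if_pos (Finset.mem_range.mp hx)]
  rw [e1, e2, add_zero]

lemma ph_sub' (n : ℕ) (c d : ℕ → ℂ) (z : ℂ) : ph L n (fun k => c k - d k) z = ph L n c z - ph L n d z := by
  unfold ph
  rw [← sum_sub_distrib]
  exact sum_congr rfl fun x _ => by ring

lemma coeff_eq_zero {n : ℕ} (hn : 1 ≤ n) {c : ℕ → ℂ} (h : ∀ᶠ z in 𝓝[≠] (0:ℂ), ph L n c z = 0) : c 0 = 0 := by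
  by_contra hc
  exact ph_not_zero hc hn h

lemma R0_val {n : ℕ} (hn : 2 ≤ n) {z w : ℂ} (hz : z ∈ Dom L) (hw : w ∈ Dom L) (hne : wp L 0 z ≠ wp L 0 w) :
    RR L n (fun k => if k = 1 then 1 else 0) z w =
      (1 / 2 - 1 / (n : ℂ)) * (bw L 2 z * bw L 2 w)
      + ((-2 + ((n : ℂ) - 1) / 2) / 6 + 1 / (2 * n)) * (bw L 3 z * bw L 1 w + bw L 1 z * bw L 3 w)
      + ((-2 + ((n : ℂ) - 1) / 2) * L.g₂ / 12) * (bw L 0 z * bw L 1 w + bw L 1 z * bw L 0 w) - L.g₃ / 2 := by
  rw [← R0_eq L hn _ hz hw hne]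
  have hph : ∀ z, ph L n (fun k => if k = 1 then 1 else 0) z = wp L 0 z := by
    intro z
    unfold ph
    rw [sum_eq_single 1]
    · simp [bw]
    · intro b _ hb; simp [hb]
    · intro h; exact absurd (Finset.mem_range.mpr (by omega)) h
  have hph1 : ∀ z, ph1 L n (fun k => if k = 1 then 1 else 0) z = wp L 1 z := by
    intro z
    unfold ph1
    rw [sum_eq_single 1]
    · simp [bw1]
    · intro b _ hb; simp [hb]
    · intro h; exact absurd (Finset.mem_range.mpr (by omega)) h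
  have hph2 : ∀ z, ph2 L n (fun k => if k = 1 then 1 else 0) z = wp L 2 z := by
    intro z
    unfold ph2
    rw [sum_eq_single 1]
    · simp [bw2]
    · intro b _ hb; simp [hb]
    · intro h; exact absurd (Finset.mem_range.mpr (by omega)) h
  unfold R0 K
  rw [hph, hph, hph1, hph1, hph2, hph2]
  have b1 : ∀ z, bw L 1 z = wp L 0 z := fun z => bw_succ L 0 z
  have b2 : ∀ z, bw L 2 z = wp L 1 z := fun z => bw_succ L 1 z
  have b3 : ∀ z, bw L 3 z = wp L 2 z := fun z => bw_succ L 2 z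
  rw [bw_zero, bw_zero, b1, b1, b2, b2, b3, b3]
  have e2 := wp_two L hz
  have e2' := wp_two L hw
  have e1 := wp_one_sq L hz
  have e1' := wp_one_sq L hw
  have hsub : wp L 0 z - wp L 0 w ≠ 0 := sub_ne_zero.mpr hne
  have hQ : Q L z w * (wp L 1 z * wp L 0 w - wp L 0 z * wp L 1 w) =
      -(wp L 1 z * wp L 1 w) / 2 + (4 * (wp L 0 z * wp L 0 w * (wp L 0 z + wp L 0 w)) + L.g₃) / 2 := by
    unfold Q
    rw [div_mul_eq_mul_div, div_eq_iff (mul_ne_zero two_ne_zero hsub)]
    linear_combination (wp L 0 w) * e1 - (wp L 0 z) * e1'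
  rw [hQ]
  rw [e2, e2']
  have hn0 : (n : ℂ) ≠ 0 := by exact_mod_cast (by omega : n ≠ 0)
  field_simp
  ring

theorem rr_val {n : ℕ} (hn : 2 ≤ n) : rr L n 1 1 0 0 = -(L.g₃ / 2) := by
  have hrho : ∀ k l, rho L n (fun k => if k = 1 then 1 else 0) k l = rr L n 1 1 k l := by
    intro k l
    unfold rho
    rw [sum_eq_single 1]
    · rw [sum_eq_single 1]
      · simp
      · intro b _ hb; simp [hb]
      · intro h; exact absurd (Finset.mem_range.mpr (by omega)) h
    · intro a _ ha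
      refine sum_eq_zero fun b _ => ?_
      simp [ha]
    · intro h; exact absurd (Finset.mem_range.mpr (by omega)) h
  obtain ⟨A, hA⟩ : ∃ A, A = (1 / 2 - 1 / (n : ℂ)) := ⟨_, rfl⟩
  obtain ⟨B, hB⟩ : ∃ B, B = ((-2 + ((n : ℂ) - 1) / 2) / 6 + 1 / (2 * n)) := ⟨_, rfl⟩
  obtain ⟨C, hC⟩ : ∃ C, C = ((-2 + ((n : ℂ) - 1) / 2) * L.g₂ / 12) := ⟨_, rfl⟩
  -- first variable
  have h1 : ∀ w ∈ Dom L, ∑ l ∈ range n, rr L n 1 1 0 l * bw L l w = C * bw L 1 w - L.g₃ / 2 := by
    intro w hw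
    have hev : ∀ᶠ z in 𝓝[≠] (0:ℂ), ph L (n + 4) (fun k => (if k < n then ∑ l ∈ range n, rr L n 1 1 k l * bw L l w else 0)
        - eW A B C (L.g₃ / 2) w L k) z = 0 := by
      have hne : ∀ᶠ z in 𝓝[≠] (0:ℂ), wp L 0 z ≠ wp L 0 w := by
        by_contra hcon
        have h2 : ∃ᶠ z in 𝓝[≠] (0:ℂ), wp L 0 z = wp L 0 w := by
          intro h3; exact hcon h3
        have h3 := tendsto_norm_wp_zero L
        have h0 : Tendsto (fun z : ℂ => z ^ 2 * wp L 0 w) (𝓝[≠] (0:ℂ)) (𝓝 (0 ^ 2 * wp L 0 w)) :=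
          ((tendsto_id.mono_left nhdsWithin_le_nhds).pow 2).mul_const _
        rw [zero_pow two_ne_zero, zero_mul] at h0
        have h4 : ∀ᶠ z in 𝓝[≠] (0:ℂ), z ^ 2 * wp L 0 z - z ^ 2 * wp L 0 w ≠ 0 :=
          (h3.sub h0).eventually_ne (by norm_num)
        obtain ⟨z, hz1, hz2⟩ := (h2.and_eventually h4).exists
        apply hz2
        rw [hz1]; ring
      filter_upwards [eventually_Dom L, hne] with z hz hzw
      rw [ph_sub', ph_extend, ph_eW, hA, hB, hC, ← R0_val hn hz hw hzw]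
      unfold RR ph
      rw [sub_eq_zero]
      refine sum_congr rfl fun k _ => ?_
      rw [sum_mul]
      refine sum_congr rfl fun l _ => ?_
      rw [hrho]; ring
    have h3 := coeff_eq_zero (by omega) hev
    simp only [show (0 < n) = True by simp; omega, if_true] at h3
    have e0 : eW A B C (L.g₃ / 2) w L 0 = C * bw L 1 w - L.g₃ / 2 := rfl
    rw [e0] at h3
    exact sub_eq_zero.mp h3
  have hev : ∀ᶠ w in 𝓝[≠] (0:ℂ), ph L n (fun l => rr L n 1 1 0 l - (if l = 1 then C else 0) +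
      (if l = 0 then L.g₃ / 2 else 0)) w = 0 := by
    filter_upwards [eventually_Dom L] with w hw
    have h2 := h1 w hw
    unfold ph
    simp only [add_mul, sub_mul, sum_add_distrib, sum_sub_distrib, ite_mul, zero_mul]
    rw [h2, sum_ite_eq' (range n) 1, sum_ite_eq' (range n) 0, if_pos (Finset.mem_range.mpr (by omega)),
      if_pos (Finset.mem_range.mpr (by omega)), bw_zero]
    ring
  have h3 := coeff_eq_zero (by omega) hev
  simp only [show ¬ ((0:ℕ) = 1) by omega, if_false, if_true] at h3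
  linear_combination h3

end Pool.Agent.Helper487.ECM
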