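import Mathlib

/-! Facts about the Weierstrass function and its derivatives. -/

open Set Filter Topology Asymptotics
open scoped Nat PeriodPair

namespace Pool.Agent.Helper487.ECM

variable (L : PeriodPair)

/-- `wp L k` is the `k`-th derivative of the Weierstrass function. -/
noncomputable def wp (k : ℕ) : ℂ → ℂ := iteratedDeriv k ℘[L]

/-- complement of the lattice -/
def Dom : Set ℂ := {z | z ∉ L.lattice}

lemma mem_Dom {z : ℂ} : z ∈ Dom L ↔ z ∉ L.lattice := Iff.rfl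

lemma isOpen_Dom : IsOpen (Dom L) := L.isClosed_lattice.isOpen_compl

lemma wp_zero_eq : wp L 0 = ℘[L] := by simp [wp]

lemma wp_succ (k : ℕ) : wp L (k + 1) = deriv (wp L k) := by
  simp [wp, iteratedDeriv_succ]

lemma wp_one_eq : wp L 1 = ℘'[L] := by
  rw [wp_succ, wp_zero_eq, L.deriv_weierstrassP]

lemma analyticAt_wp (k : ℕ) {z : ℂ} (hz : z ∈ Dom L) : AnalyticAt ℂ (wp L k) z := by
  induction k with
  | zero => rw [wp_zero_eq]; exact L.analyticOnNhd_weierstrassP z hz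
  | succ k ih => rw [wp_succ]; exact ih.deriv

lemma hasDerivAt_wp (k : ℕ) {z : ℂ} (hz : z ∈ Dom L) :
    HasDerivAt (wp L k) (wp L (k + 1) z) z := by
  rw [wp_succ]; exact (analyticAt_wp L k hz).differentiableAt.hasDerivAt

lemma lattice_countable : (L.lattice : Set ℂ).Countable := by
  have : Countable L.lattice := by
    have := (L.latticeEquivProd).toEquiv
    exact this.countable_iff.mpr inferInstance
  exact Set.countable_coe_iff.mp this

lemma isPreconnected_Dom : IsPreconnected (Dom L) :=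
  (Set.Countable.isConnected_compl_of_one_lt_rank (by simp) (lattice_countable L)).isPreconnected

lemma Dom_neg {z : ℂ} (hz : z ∈ Dom L) : -z ∈ Dom L := fun h => hz (by simpa using neg_mem h)

/-- a punctured neighbourhood of `0` lies in the domain -/
lemma eventually_Dom : ∀ᶠ z in 𝓝[≠] (0 : ℂ), z ∈ Dom L := by
  have h := L.compl_lattice_sdiff_singleton_mem_nhds 0
  filter_upwards [mem_nhdsWithin_of_mem_nhds h, self_mem_nhdsWithin] with z hz hz0 hL
  exact hz ⟨hL, hz0⟩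

/-- the regular part at zero -/
noncomputable def gp (k : ℕ) : ℂ → ℂ := iteratedDeriv k ℘[L - (0 : ℂ)]

lemma gp_succ (k : ℕ) : gp L (k + 1) = deriv (gp L k) := by
  simp [gp, iteratedDeriv_succ]

lemma analyticAt_gp (k : ℕ) : AnalyticAt ℂ (gp L k) 0 := by
  induction k with
  | zero => simpa [gp] using L.analyticAt_weierstrassPExcept 0
  | succ k ih => rw [gp_succ]; exact ih.deriv

lemma wp_expansion (k : ℕ) : ∀ᶠ z in 𝓝[≠] (0 : ℂ),
    wp L k z = (-1) ^ k * (k + 1)! / z ^ (k + 2) + gp L k z := by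
  induction k with
  | zero =>
    filter_upwards [self_mem_nhdsWithin] with z hz
    have h := L.weierstrassPExcept_add 0 z
    simp only [ZeroMemClass.coe_zero] at h
    rw [wp_zero_eq, ← h]
    simp [gp]
    ring
  | succ k ih =>
    have han : ∀ᶠ z in 𝓝 (0 : ℂ), AnalyticAt ℂ (gp L k) z := (analyticAt_gp L k).eventually_analyticAt
    have ih2 := (eventually_eventually_nhdsWithin (s := {(0:ℂ)}ᶜ)).mpr ih
    filter_upwards [ih2, self_mem_nhdsWithin, mem_nhdsWithin_of_mem_nhds han] with z hz hz0 hza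
    have hz0' : z ≠ 0 := hz0
    have hz' : ∀ᶠ w in 𝓝 z, wp L k w = (-1) ^ k * (k + 1)! / w ^ (k + 2) + gp L k w := by
      rwa [(isOpen_compl_singleton.nhdsWithin_eq hz0')] at hz
    rw [wp_succ, gp_succ, EventuallyEq.deriv_eq hz']
    have h1 : HasDerivAt (fun w : ℂ => (-1) ^ k * ((k + 1)! : ℂ) / w ^ (k + 2))
        ((-1) ^ (k+1) * ((k + 1 + 1)! : ℂ) / z ^ (k + 1 + 2)) z := by
      have h2 := ((hasDerivAt_pow (k + 2) z).inv (pow_ne_zero _ hz0')).const_mul
        ((-1) ^ k * ((k + 1)! : ℂ))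
      refine h2.congr_deriv ?_ |>.congr_of_eventuallyEq ?_
      · rw [Nat.factorial_succ (k+1)]
        push_cast
        field_simp
        ring_nf
      · exact Eventually.of_forall fun w => by simp [div_eq_mul_inv]
    exact (h1.add hza.differentiableAt.hasDerivAt).deriv


/-- expansion with two leading terms: `f z = a z^{-m} + b z^{-m+1} + O(z^{-m+2})`. -/
def Top (m : ℕ) (f : ℂ → ℂ) (a b : ℂ) : Prop :=
  (fun z => z ^ m * f z - (a + b * z)) =O[𝓝[≠] (0:ℂ)] (fun z => z ^ 2)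

lemma Top.congr {m : ℕ} {f g : ℂ → ℂ} {a b : ℂ} (h : Top m f a b)
    (hfg : ∀ᶠ z in 𝓝[≠] (0:ℂ), f z = g z) : Top m g a b :=
  IsBigO.congr' h (hfg.mono fun z hz => by simp only [hz]) (EventuallyEq.refl _ _)

lemma Top.congr_val {m : ℕ} {f : ℂ → ℂ} {a b a' b' : ℂ} (h : Top m f a b) (ha : a = a')
    (hb : b = b') : Top m f a' b' := by rw [← ha, ← hb]; exact h

lemma Top.add {m : ℕ} {f g : ℂ → ℂ} {a b c d : ℂ} (hf : Top m f a b) (hg : Top m g c d) :
    Top m (fun z => f z + g z) (a + c) (b + d) := by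
  refine (IsBigO.add hf hg).congr_left fun z => ?_
  ring

lemma Top.const_mul {m : ℕ} {f : ℂ → ℂ} {a b : ℂ} (k : ℂ) (hf : Top m f a b) :
    Top m (fun z => k * f z) (k * a) (k * b) := by
  refine (IsBigO.const_mul_left hf k).congr_left fun z => ?_
  ring

lemma Top.zero (m : ℕ) : Top m (fun _ => 0) 0 0 := by
  unfold Top
  simpa using isBigO_zero _ _

lemma Top.sum {ι : Type*} (s : Finset ι) {m : ℕ} {f : ι → ℂ → ℂ} {a b : ι → ℂ}
    (hf : ∀ i ∈ s, Top m (f i) (a i) (b i)) :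
    Top m (fun z => ∑ i ∈ s, f i z) (∑ i ∈ s, a i) (∑ i ∈ s, b i) := by
  classical
  induction s using Finset.induction_on with
  | empty => simpa using Top.zero m
  | insert i s his ih =>
    simp only [Finset.sum_insert his]
    exact (hf i (Finset.mem_insert_self i s)).add
      (ih fun j hj => hf j (Finset.mem_insert_of_mem hj))

lemma isBigO_id_one : (fun z : ℂ => z) =O[𝓝[≠] (0:ℂ)] (fun _ => (1:ℂ)) := by
  have : Tendsto (fun z : ℂ => z) (𝓝[≠] 0) (𝓝 0) := tendsto_id.mono_left nhdsWithin_le_nhds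
  exact this.isBigO_one ℂ

lemma isBigO_sq_one : (fun z : ℂ => z ^ 2) =O[𝓝[≠] (0:ℂ)] (fun _ => (1:ℂ)) := by
  have := isBigO_id_one.pow 2
  simpa using this

lemma Top.mul {m k : ℕ} {f g : ℂ → ℂ} {a b c d : ℂ} (hf : Top m f a b) (hg : Top k g c d) :
    Top (m + k) (fun z => f z * g z) (a * c) (a * d + b * c) := by
  unfold Top at *
  have hA : (fun z : ℂ => a + b * z) =O[𝓝[≠] (0:ℂ)] (fun _ => (1:ℂ)) :=
    (isBigO_const_const _ one_ne_zero _).add (isBigO_id_one.const_mul_left b)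
  have hC : (fun z : ℂ => c + d * z) =O[𝓝[≠] (0:ℂ)] (fun _ => (1:ℂ)) :=
    (isBigO_const_const _ one_ne_zero _).add (isBigO_id_one.const_mul_left d)
  have h1 : (fun z => (a + b * z) * (z ^ k * g z - (c + d * z))) =O[𝓝[≠] (0:ℂ)] (fun z => z ^ 2) := by
    simpa using hA.mul hg
  have h2 : (fun z => (c + d * z) * (z ^ m * f z - (a + b * z))) =O[𝓝[≠] (0:ℂ)] (fun z => z ^ 2) := by
    simpa using hC.mul hf
  have h3 : (fun z => (z ^ m * f z - (a + b * z)) * (z ^ k * g z - (c + d * z)))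
      =O[𝓝[≠] (0:ℂ)] (fun z => z ^ 2) := by
    simpa using (hf.trans isBigO_sq_one).mul hg
  have h4 : (fun z : ℂ => (b * d) * z ^ 2) =O[𝓝[≠] (0:ℂ)] (fun z => z ^ 2) :=
    (isBigO_refl _ _).const_mul_left _
  refine (((h1.add h2).add h3).add h4).congr_left fun z => ?_
  ring

/-- raising the order by one -/
lemma Top.shift {m : ℕ} {f : ℂ → ℂ} {a b : ℂ} (hf : Top m f a b) : Top (m + 1) f 0 a := by
  unfold Top at *
  have h1 : (fun z : ℂ => z * (z ^ m * f z - (a + b * z))) =O[𝓝[≠] (0:ℂ)] (fun z => z ^ 2) := by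
    simpa using isBigO_id_one.mul hf
  have h4 : (fun z : ℂ => b * z ^ 2) =O[𝓝[≠] (0:ℂ)] (fun z => z ^ 2) :=
    (isBigO_refl _ _).const_mul_left _
  refine (h1.add h4).congr_left fun z => ?_
  ring

lemma Top.shift2 {m k : ℕ} (hk : m + 2 ≤ k) {f : ℂ → ℂ} {a b : ℂ} (hf : Top m f a b) :
    Top k f 0 0 := by
  obtain ⟨j, rfl⟩ := Nat.exists_eq_add_of_le hk
  induction j with
  | zero => exact hf.shift.shift
  | succ j ih => exact (ih (by omega)).shift

lemma Top.of_bounded {m : ℕ} (hm : 2 ≤ m) {f : ℂ → ℂ} (hf : ContinuousAt f 0) : Top m f 0 0 := by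
  unfold Top
  obtain ⟨j, rfl⟩ := Nat.exists_eq_add_of_le hm
  have h1 : f =O[𝓝[≠] (0:ℂ)] (fun _ => (1:ℂ)) :=
    (hf.tendsto.mono_left nhdsWithin_le_nhds).isBigO_one ℂ
  have h2 : (fun z : ℂ => z ^ j) =O[𝓝[≠] (0:ℂ)] (fun _ => (1:ℂ)) := by
    simpa using isBigO_id_one.pow j
  have h3 : (fun z : ℂ => z ^ 2 * (z ^ j * f z)) =O[𝓝[≠] (0:ℂ)] (fun z => z ^ 2) := by
    simpa using (isBigO_refl (fun z : ℂ => z ^ 2) (𝓝[≠] (0:ℂ))).mul (h2.mul h1)
  refine h3.congr_left fun z => ?_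
  ring

lemma top_wp (k : ℕ) : Top (k + 2) (wp L k) ((-1) ^ k * (k + 1)!) 0 := by
  have h1 : Top (k + 2) (gp L k) 0 0 := Top.of_bounded (by omega) (analyticAt_gp L k).continuousAt
  unfold Top at *
  refine h1.congr' ?_ (EventuallyEq.refl _ _)
  filter_upwards [wp_expansion L k, self_mem_nhdsWithin] with z hz hz0
  have hz0' : z ≠ 0 := hz0
  rw [hz]
  field_simp
  ring

lemma Top.tendsto {m : ℕ} {f : ℂ → ℂ} {a b : ℂ} (hf : Top m f a b) :
    Tendsto (fun z => z ^ m * f z) (𝓝[≠] (0:ℂ)) (𝓝 a) := by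
  have h0 : Tendsto (fun z : ℂ => z) (𝓝[≠] 0) (𝓝 0) := tendsto_id.mono_left nhdsWithin_le_nhds
  have h1 : Tendsto (fun z : ℂ => z ^ 2) (𝓝[≠] 0) (𝓝 0) := by simpa using h0.pow 2
  have h2 : Tendsto (fun z => z ^ m * f z - (a + b * z)) (𝓝[≠] (0:ℂ)) (𝓝 0) :=
    IsBigO.trans_tendsto hf h1
  have h3 : Tendsto (fun z : ℂ => a + b * z) (𝓝[≠] (0:ℂ)) (𝓝 (a + b * 0)) :=
    tendsto_const_nhds.add (h0.const_mul b)
  have := h2.add h3
  simpa using this

lemma tendsto_norm_wp_zero : Tendsto (fun z => z ^ 2 * wp L 0 z) (𝓝[≠] (0:ℂ)) (𝓝 1) := by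
  have := (top_wp L 0).tendsto
  simpa using this

/-- `℘'` is not identically zero on any neighbourhood of a point of the domain. -/
lemma wp_one_sq {z : ℂ} (hz : z ∈ Dom L) :
    wp L 1 z ^ 2 = 4 * wp L 0 z ^ 3 - L.g₂ * wp L 0 z - L.g₃ := by
  rw [wp_one_eq, wp_zero_eq]; exact L.derivWeierstrassP_sq z hz

lemma wp_two {z : ℂ} (hz : z ∈ Dom L) : wp L 2 z = 6 * wp L 0 z ^ 2 - L.g₂ / 2 := by
  have hA : AnalyticOnNhd ℂ (wp L 1) (Dom L) := fun z hz => analyticAt_wp L 1 hz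
  have hB : AnalyticOnNhd ℂ (fun z => 2 * wp L 2 z - 12 * wp L 0 z ^ 2 + L.g₂) (Dom L) := by
    intro z hz
    have h0 := analyticAt_wp L 0 hz
    have h2 := analyticAt_wp L 2 hz
    fun_prop
  have hprod : ∀ z ∈ Dom L, wp L 1 z * (2 * wp L 2 z - 12 * wp L 0 z ^ 2 + L.g₂) = 0 := by
    intro z hz
    have e1 : HasDerivAt (fun z => wp L 1 z ^ 2) (2 * wp L 1 z * wp L 2 z) z :=
      ((hasDerivAt_wp L 1 hz).fun_pow 2).congr_deriv (by simp)
    have e2 : HasDerivAt (fun z => 4 * wp L 0 z ^ 3 - L.g₂ * wp L 0 z - L.g₃)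
        (4 * (3 * wp L 0 z ^ 2 * wp L 1 z) - L.g₂ * wp L 1 z) z := by
      have h0 := hasDerivAt_wp L 0 hz
      exact (((h0.fun_pow 3).const_mul 4).sub (h0.const_mul L.g₂) |>.sub_const L.g₃).congr_deriv
        (by simp)
    have e3 : (fun z => wp L 1 z ^ 2) =ᶠ[𝓝 z] (fun z => 4 * wp L 0 z ^ 3 - L.g₂ * wp L 0 z - L.g₃) := by
      filter_upwards [(isOpen_Dom L).mem_nhds hz] with w hw
      exact wp_one_sq L hw
    have e4 := e1.unique (e2.congr_of_eventuallyEq e3)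
    linear_combination e4
  rcases hA.eq_zero_or_eq_zero_of_mul_eq_zero hB hprod (isPreconnected_Dom L) with h | h
  · exfalso
    have h1 := (top_wp L 1).tendsto
    have h2 : Tendsto (fun z : ℂ => z ^ (1 + 2) * wp L 1 z) (𝓝[≠] (0:ℂ)) (𝓝 0) := by
      refine tendsto_const_nhds.congr' ?_
      filter_upwards [eventually_Dom L] with z hz
      rw [h z hz, mul_zero]
    have := tendsto_nhds_unique h1 h2
    norm_num at this
  · have := h z hz
    linear_combination this / 2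

end Pool.Agent.Helper487.ECM
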